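import Pool.Agent.K4H16.CG.Mom

/-!
# Boxes of integer points are well distributed modulo small moduli
-/

set_option autoImplicit false

namespace Pool.Agent.K4H16.CG

open Finset

section general

variable {J : Type} [Fintype J] [DecidableEq J]

/-- products of well distributed families -/
theorem Equi.prod {R₁ R₂ : J → Type} [∀ j, Fintype (R₁ j)] [∀ j, Fintype (R₂ j)] [∀ j, Nonempty (R₁ j)] [∀ j, Nonempty (R₂ j)]
    {ι₁ ι₂ : Type} {s₁ : Finset ι₁} {s₂ : Finset ι₂} {ρ₁ : ι₁ → ∀ j, R₁ j} {ρ₂ : ι₂ → ∀ j, R₂ j} {k : ℕ} {δ₁ δ₂ : ℝ}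
    (h₁ : Equi s₁ ρ₁ k δ₁) (h₂ : Equi s₂ ρ₂ k δ₂) :
    Equi (R := fun j => R₁ j × R₂ j) (s₁ ×ˢ s₂) (fun i j => (ρ₁ i.1 j, ρ₂ i.2 j)) k (δ₁ + δ₂) := by
  intro S hS h hh
  obtain ⟨H, hH⟩ : ∃ H : ∀ j, R₁ j → ℝ, H = fun j a => avg (fun b => h j (a, b)) := ⟨_, rfl⟩
  have hHb : ∀ j a, |H j a| ≤ 1 := by
    intro j a
    rw [hH]
    exact avg_abs_le_one _ fun b => hh j (a, b)
  have hHa : ∀ j, avg (H j) = avg (h j) := by
    intro j
    rw [hH]
    unfold avg
    rw [Fintype.card_prod, ← sum_div, div_div, Fintype.sum_prod_type]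
    push_cast
    rw [mul_comm]
  have e1 : ∑ i ∈ s₁ ×ˢ s₂, ∏ j ∈ S, h j (ρ₁ i.1 j, ρ₂ i.2 j) - ((s₁ ×ˢ s₂).card : ℝ) * ∏ j ∈ S, avg (h j) =
      ∑ a ∈ s₁, (∑ b ∈ s₂, ∏ j ∈ S, h j (ρ₁ a j, ρ₂ b j) - s₂.card * ∏ j ∈ S, H j (ρ₁ a j)) +
      s₂.card * (∑ a ∈ s₁, ∏ j ∈ S, H j (ρ₁ a j) - s₁.card * ∏ j ∈ S, avg (H j)) := by
    rw [sum_product, sum_sub_distrib, ← mul_sum, card_product, prod_congr rfl fun j _ => hHa j]
    push_cast
    ring
  rw [e1]
  have h3 : |∑ a ∈ s₁, (∑ b ∈ s₂, ∏ j ∈ S, h j (ρ₁ a j, ρ₂ b j) - s₂.card * ∏ j ∈ S, H j (ρ₁ a j))| ≤ s₁.card * (δ₂ * s₂.card) := by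
    refine (abs_sum_le_sum_abs _ _).trans ?_
    calc ∑ a ∈ s₁, |∑ b ∈ s₂, ∏ j ∈ S, h j (ρ₁ a j, ρ₂ b j) - s₂.card * ∏ j ∈ S, H j (ρ₁ a j)|
        ≤ ∑ _a ∈ s₁, δ₂ * s₂.card := by
          refine sum_le_sum fun a _ => ?_
          have h4 := h₂ S hS (fun j b => h j (ρ₁ a j, b)) (fun j b => hh j _)
          rw [hH]
          exact h4
      _ = s₁.card * (δ₂ * s₂.card) := by rw [sum_const, nsmul_eq_mul]
  have h5 : |(s₂.card : ℝ) * (∑ a ∈ s₁, ∏ j ∈ S, H j (ρ₁ a j) - s₁.card * ∏ j ∈ S, avg (H j))| ≤ s₂.card * (δ₁ * s₁.card) := by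
    rw [abs_mul, abs_of_nonneg (Nat.cast_nonneg _)]
    exact mul_le_mul_of_nonneg_left (h₁ S hS H hHb) (Nat.cast_nonneg _)
  refine (abs_add_le _ _).trans ?_
  rw [card_product]
  push_cast
  linarith

/-- transport -/
theorem Equi.transport {R R' : J → Type} [∀ j, Fintype (R j)] [∀ j, Fintype (R' j)]
    {ι ι' : Type} {s : Finset ι} {ρ : ι → ∀ j, R j} {k : ℕ} {δ : ℝ} (h : Equi s ρ k δ) (φ : ι ≃ ι') (e : ∀ j, R j ≃ R' j) :
    Equi (s.map φ.toEmbedding) (fun i j => e j (ρ (φ.symm i) j)) k δ := by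
  intro S hS g hg
  have h1 := h S hS (fun j b => g j (e j b)) (fun j b => hg j _)
  have h2 : ∀ j, avg (fun b => g j (e j b)) = avg (g j) := by
    intro j
    unfold avg
    rw [Fintype.card_congr (e j)]
    congr 1
    exact (e j).sum_comp (g j)
  rw [sum_map, card_map]
  simp only [Equiv.coe_toEmbedding, Equiv.symm_apply_apply]
  rw [prod_congr rfl fun j _ => h2 j] at h1
  exact h1

theorem Equi.mono {R : J → Type} [∀ j, Fintype (R j)] {ι : Type} {s : Finset ι} {ρ : ι → ∀ j, R j} {k : ℕ} {δ δ' : ℝ}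
    (h : Equi s ρ k δ) (hδ : δ ≤ δ') : Equi s ρ k δ' := fun S hS g hg => (h S hS g hg).trans (by gcongr)

end general

lemma sum_mul_period (h : ℕ → ℝ) (q : ℕ) (hper : ∀ n, h n = h (n % q)) (a : ℕ) :
    ∑ n ∈ range (q * a), h n = a * ∑ n ∈ range q, h n := by
  induction a with
  | zero => simp
  | succ a ih =>
    rw [Nat.mul_succ, Finset.sum_range_add, ih]
    have e : ∑ x ∈ range q, h (q * a + x) = ∑ x ∈ range q, h x := by
      refine sum_congr rfl fun x _ => ?_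
      rw [hper (q * a + x), Nat.mul_add_mod, ← hper x]
    rw [e]
    push_cast
    ring

lemma per_sum (h : ℕ → ℝ) (q : ℕ) (hq : 0 < q) (hper : ∀ n, h n = h (n % q)) (hb : ∀ n, |h n| ≤ 1) (N : ℕ) :
    |∑ n ∈ range N, h n - (N : ℝ) / q * ∑ n ∈ range q, h n| ≤ 2 * q := by
  have hq0 : (0 : ℝ) < q := by exact_mod_cast hq
  obtain ⟨a, r, hr, hN⟩ : ∃ a r : ℕ, r < q ∧ N = q * a + r :=
    ⟨N / q, N % q, Nat.mod_lt _ hq, (Nat.div_add_mod N q).symm⟩
  have hS : |∑ n ∈ range q, h n| ≤ q := by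
    refine (abs_sum_le_sum_abs _ _).trans ?_
    calc ∑ n ∈ range q, |h n| ≤ ∑ _n ∈ range q, (1 : ℝ) := sum_le_sum fun n _ => hb n
      _ = q := by simp
  have hR : |∑ x ∈ range r, h (q * a + x)| ≤ r := by
    refine (abs_sum_le_sum_abs _ _).trans ?_
    calc ∑ n ∈ range r, |h (q * a + n)| ≤ ∑ _n ∈ range r, (1 : ℝ) := sum_le_sum fun n _ => hb _
      _ = r := by simp
  rw [hN, Finset.sum_range_add, sum_mul_period h q hper a]
  have e : (((q * a + r : ℕ) : ℝ)) / q = a + r / q := by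
    push_cast
    field_simp
  rw [e]
  have hr' : (r : ℝ) ≤ q := by exact_mod_cast hr.le
  have h3 : |(r : ℝ) / q * ∑ n ∈ range q, h n| ≤ q := by
    rw [abs_mul, abs_of_nonneg (by positivity)]
    calc (r : ℝ) / q * |∑ n ∈ range q, h n| ≤ 1 * q := by
          apply mul_le_mul _ hS (abs_nonneg _) zero_le_one
          rw [div_le_one hq0]
          exact hr'
      _ = q := one_mul _
  have h4 : (a : ℝ) * ∑ n ∈ range q, h n + ∑ x ∈ range r, h (q * a + x) - (a + r / q) * ∑ n ∈ range q, h n =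
      ∑ x ∈ range r, h (q * a + x) - (r : ℝ) / q * ∑ n ∈ range q, h n := by ring
  rw [h4]
  refine (abs_sub _ _).trans ?_
  linarith

/-- the sum of a function of the class modulo `Q` over an interval -/
lemma interval_sum (Q : ℕ) [NeZero Q] (N : ℕ) (M : ℤ) (G : ZMod Q → ℝ) (hG : ∀ c, |G c| ≤ 1) :
    |∑ v ∈ Ioc M (M + N), G (v : ZMod Q) - (N : ℝ) / Q * ∑ c, G c| ≤ 2 * Q := by
  have hQ : 0 < Q := Nat.pos_of_ne_zero (NeZero.ne Q)
  obtain ⟨h, hh⟩ : ∃ h : ℕ → ℝ, h = fun n : ℕ => G ((M + 1 + (n : ℤ) : ℤ) : ZMod Q) := ⟨_, rfl⟩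
  have e1 : ∑ v ∈ Ioc M (M + N), G (v : ZMod Q) = ∑ n ∈ range N, h n := by
    rw [hh]
    refine sum_nbij' (fun v => (v - M - 1).toNat) (fun n => M + 1 + (n : ℤ)) ?_ ?_ ?_ ?_ ?_
    · intro v hv
      rw [mem_Ioc] at hv
      rw [mem_range]
      omega
    · intro n hn
      rw [mem_range] at hn
      rw [mem_Ioc]
      omega
    · intro v hv
      rw [mem_Ioc] at hv
      omega
    · intro n _
      omega
    · intro v hv
      rw [mem_Ioc] at hv
      have : M + 1 + ((v - M - 1).toNat : ℤ) = v := by omega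
      rw [this]
  have hper : ∀ n, h n = h (n % Q) := by
    intro n
    rw [hh]
    simp only
    congr 1
    push_cast
    congr 1
    all_goals simp
  have e2 : ∑ n ∈ range Q, h n = ∑ c, G c := by
    rw [hh]
    refine sum_bij (fun n _ => ((M + 1 + (n : ℤ) : ℤ) : ZMod Q)) (fun _ _ => mem_univ _) ?_ ?_ (fun _ _ => rfl)
    · intro a ha b hb hab
      rw [mem_range] at ha hb
      push_cast at hab
      have h1 : (a : ZMod Q) = (b : ZMod Q) := add_left_cancel hab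
      rw [ZMod.natCast_eq_natCast_iff] at h1
      exact Nat.ModEq.eq_of_lt_of_lt h1 ha hb
    · intro c _
      refine ⟨(c - ((M + 1 : ℤ) : ZMod Q)).val, mem_range.2 (ZMod.val_lt _), ?_⟩
      push_cast
      rw [ZMod.natCast_zmod_val]
      push_cast
      ring
  rw [e1, ← e2]
  exact per_sum h Q hQ hper (fun n => by rw [hh]; exact hG _) N

variable {J : Type} [Fintype J] [DecidableEq J]

/-- **An interval is well distributed modulo pairwise coprime moduli.** -/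
theorem equi_interval (q : J → ℕ) [∀ j, NeZero (q j)] (hcop : Pairwise (Function.onFun Nat.Coprime q)) (X : ℕ)
    (hX1 : 1 ≤ X) (hX : ∀ j, q j ≤ X) (k : ℕ) (M : ℤ) (N : ℕ) (hN : 0 < N) :
    Equi (R := fun j => ZMod (q j)) (Ioc M (M + N)) (fun v j => (v : ZMod (q j))) k (2 * (X : ℝ) ^ k / N) := by
  intro S hS h hh
  obtain ⟨Q, hQ⟩ : ∃ Q : ℕ, Q = ∏ j : S, q j := ⟨_, rfl⟩
  have hQ0 : Q ≠ 0 := by
    rw [hQ]
    exact prod_ne_zero_iff.2 fun j _ => NeZero.ne _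
  haveI : NeZero Q := ⟨hQ0⟩
  have hdvd : ∀ j : S, q j ∣ Q := fun j => by rw [hQ]; exact dvd_prod_of_mem _ (mem_univ j)
  have hdvd' : ∀ j ∈ S, q j ∣ Q := fun j hj => hdvd ⟨j, hj⟩
  have hcard : ((Ioc M (M + (N : ℤ))).card : ℝ) = N := by
    rw [Int.card_Ioc]
    simp
  obtain ⟨G, hG⟩ : ∃ G : ZMod Q → ℝ, G = fun c => ∏ j : S, h j (ZMod.castHom (hdvd j) (ZMod (q j)) c) := ⟨_, rfl⟩
  have hGb : ∀ c, |G c| ≤ 1 := by
    intro c
    rw [hG, abs_prod]
    exact prod_le_one (fun _ _ => abs_nonneg _) (fun j _ => hh _ _)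
  have h1 := interval_sum Q N M G hGb
  have e1 : ∑ v ∈ Ioc M (M + N), G (v : ZMod Q) = ∑ v ∈ Ioc M (M + N), ∏ j ∈ S, h j (v : ZMod (q j)) := by
    refine sum_congr rfl fun v _ => ?_
    rw [hG, ← prod_coe_sort S]
    refine prod_congr rfl fun j _ => ?_
    rw [map_intCast]
  have hcop' : Pairwise (Function.onFun Nat.Coprime (fun j : S => q j)) := fun i j hij =>
    hcop (fun hcon => hij (Subtype.ext hcon))
  have e2 : ∑ c, G c = ∏ j ∈ S, ∑ b, h j b := by
    rw [← prod_coe_sort S, Finset.prod_univ_sum, Fintype.piFinset_univ]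
    subst hQ
    refine Fintype.sum_equiv (ZMod.prodEquivPi (fun j : S => q j) hcop').toEquiv _ _ fun c => ?_
    rw [hG]
    refine prod_congr rfl fun j _ => ?_
    congr 1
    exact DFunLike.congr_fun (Subsingleton.elim (ZMod.castHom (hdvd j) (ZMod (q j)))
      ((Pi.evalRingHom (fun j : S => ZMod (q j)) j).comp (ZMod.prodEquivPi (fun j : S => q j) hcop').toRingHom)) c
  have e3 : (N : ℝ) / Q * ∑ c, G c = N * ∏ j ∈ S, avg (h j) := by
    rw [e2]
    unfold avg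
    rw [prod_div_distrib]
    have h2 : (Q : ℝ) = ∏ j ∈ S, (Fintype.card (ZMod (q j)) : ℝ) := by
      rw [hQ, ← prod_coe_sort S]
      push_cast
      refine prod_congr rfl fun j _ => ?_
      rw [ZMod.card]
    rw [h2]
    ring
  rw [e1, e3] at h1
  rw [hcard]
  refine h1.trans ?_
  have hNr : (0 : ℝ) < N := by exact_mod_cast hN
  rw [div_mul_cancel₀ _ hNr.ne']
  have h4 : Q ≤ X ^ k := by
    calc Q ≤ X ^ S.card := by
          rw [hQ, prod_coe_sort S]
          exact prod_le_pow_card _ _ _ fun j _ => hX j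
      _ ≤ X ^ k := Nat.pow_le_pow_right hX1 hS
  have h5 : (Q : ℝ) ≤ (X : ℝ) ^ k := by exact_mod_cast h4
  linarith

/-- **A box of integer points is well distributed modulo pairwise coprime moduli.** -/
theorem equi_box (q : J → ℕ) [∀ j, NeZero (q j)] (hcop : Pairwise (Function.onFun Nat.Coprime q)) (X : ℕ)
    (hX1 : 1 ≤ X) (hX : ∀ j, q j ≤ X) (k L : ℕ) (hL : 0 < L) (n : ℕ) (M : Fin n → ℤ) (N : Fin n → ℕ) (hN : ∀ i, L ≤ N i) :
    Equi (R := fun j => Fin n → ZMod (q j)) (Fintype.piFinset (fun i => Ioc (M i) (M i + N i)))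
      (fun v j i => (v i : ZMod (q j))) k (n * (2 * (X : ℝ) ^ k / L)) := by
  induction n with
  | zero =>
    intro S hS h hh
    have h1 : ∀ j, avg (h j) = h j default := by
      intro j
      unfold avg
      have h3 : ∀ b, h j b = h j default := fun b => congrArg (h j) (Subsingleton.elim _ _)
      simp only [h3]
      simp
    simp only [h1, CharP.cast_eq_zero, zero_mul]
    have h2 : ∀ v : Fin 0 → ℤ, ∏ j ∈ S, h j (fun i => ((v i : ℤ) : ZMod (q j))) = ∏ j ∈ S, h j default :=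
      fun v => prod_congr rfl fun j _ => congrArg (h j) (Subsingleton.elim _ _)
    rw [sum_congr rfl fun v _ => h2 v, sum_const, nsmul_eq_mul, sub_self, abs_zero]
  | succ n ih =>
    have h1 := equi_interval q hcop X hX1 hX k (M 0) (N 0) (lt_of_lt_of_le hL (hN 0))
    have h2 := ih (fun i => M i.succ) (fun i => N i.succ) (fun i => hN _)
    have h3 := (h1.prod h2).transport (Fin.consEquiv (fun _ : Fin (n + 1) => ℤ)) (fun j => Fin.consEquiv (fun _ : Fin (n + 1) => ZMod (q j)))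
    have e1 : (Ioc (M 0) (M 0 + (N 0 : ℤ)) ×ˢ Fintype.piFinset (fun i : Fin n => Ioc (M i.succ) (M i.succ + (N i.succ : ℤ)))).map
        (Fin.consEquiv (fun _ : Fin (n + 1) => ℤ)).toEmbedding = Fintype.piFinset (fun i : Fin (n + 1) => Ioc (M i) (M i + (N i : ℤ))) := by
      ext v
      rw [mem_map_equiv, mem_product, Fintype.mem_piFinset, Fintype.mem_piFinset, Fin.forall_fin_succ]
      rfl
    rw [e1] at h3
    have e2 : (fun (i : Fin (n + 1) → ℤ) (j : J) => (Fin.consEquiv (fun _ : Fin (n + 1) => ZMod (q j)))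
        ((fun (i : ℤ × (Fin n → ℤ)) (j : J) => ((i.1 : ZMod (q j)), fun l => (i.2 l : ZMod (q j)))) ((Fin.consEquiv (fun _ : Fin (n + 1) => ℤ)).symm i) j)) =
        fun v j i => (v i : ZMod (q j)) := by
      funext v j i
      refine Fin.cases ?_ (fun i => ?_) i
      · rfl
      · rfl
    have h4 : Equi (R := fun j => Fin (n + 1) → ZMod (q j)) (Fintype.piFinset (fun i => Ioc (M i) (M i + (N i : ℤ))))
      (fun v j i => (v i : ZMod (q j))) k (2 * (X : ℝ) ^ k / (N 0 : ℝ) + n * (2 * (X : ℝ) ^ k / L)) := by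
      rw [← e2]
      exact h3
    refine h4.mono ?_
    push_cast
    have hLr : (0 : ℝ) < L := by exact_mod_cast hL
    have h5 : (L : ℝ) ≤ N 0 := by exact_mod_cast hN 0
    have h6 : 2 * (X : ℝ) ^ k / (N 0 : ℝ) ≤ 2 * (X : ℝ) ^ k / L := by gcongr
    linarith

end Pool.Agent.K4H16.CG
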