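import Pool.Agent.K4H16.CG.Char1
import Pool.Agent.K4H18.EK.A21

/-!
# The joint law of sums of local functions over a well distributed family
-/

set_option autoImplicit false

namespace Pool.Agent.K4H16.CG

open Finset ProbabilityTheory MeasureTheory

section cov

variable {J : Type} [Fintype J] [DecidableEq J] {R : J → Type} [∀ j, Fintype (R j)]

/-- the covariance of two sums of local functions -/
noncomputable def CV (f g : ∀ j, R j → ℝ) : ℝ := ∑ j, avg (fun b => f j b * g j b)

lemma CV_self (f : ∀ j, R j → ℝ) : CV f f = VV f := by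
  unfold CV VV
  refine sum_congr rfl fun j _ => ?_
  congr 1
  funext b
  ring

lemma avg_sum {R : Type} [Fintype R] {κ : Type} (s : Finset κ) (g : κ → R → ℝ) :
    avg (fun b => ∑ l ∈ s, g l b) = ∑ l ∈ s, avg (g l) := by
  unfold avg
  rw [sum_comm, sum_div]

lemma avg_mul_left {R : Type} [Fintype R] (c : ℝ) (g : R → ℝ) : avg (fun b => c * g b) = c * avg g := by
  unfold avg
  rw [← mul_sum, mul_div_assoc]

/-- the variance of a linear combination -/
lemma VV_lin {k : ℕ} (f : Fin k → ∀ j, R j → ℝ) (c : Fin k → ℝ) :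
    VV (fun j b => ∑ l, c l * f l j b) = ∑ l, ∑ l', c l * c l' * CV (f l) (f l') := by
  unfold VV CV
  have h1 : ∀ j : J, avg (fun b => (∑ l, c l * f l j b) ^ 2) = ∑ l, ∑ l', c l * c l' * avg (fun b => f l j b * f l' j b) := by
    intro j
    have e : (fun b => (∑ l, c l * f l j b) ^ 2) = fun b => ∑ l, ∑ l', c l * c l' * (f l j b * f l' j b) := by
      funext b
      rw [pow_two, sum_mul_sum]
      refine sum_congr rfl fun l _ => sum_congr rfl fun l' _ => ?_
      ring
    rw [e, avg_sum]
    refine sum_congr rfl fun l _ => ?_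
    rw [avg_sum]
    exact sum_congr rfl fun l' _ => avg_mul_left _ _
  rw [sum_congr rfl fun j _ => h1 j, sum_comm]
  refine sum_congr rfl fun l _ => ?_
  rw [sum_comm]
  refine sum_congr rfl fun l' _ => ?_
  rw [mul_sum]

end cov

/-- from `range` to a general index set -/
lemma sum_range_card {ι : Type} (s : Finset ι) {k : ℕ} (Z : ι → Fin k → ℝ) : ∃ Z' : ℕ → Fin k → ℝ,
    ∀ {M : Type} [AddCommMonoid M] (F : (Fin k → ℝ) → M), ∑ n ∈ range s.card, F (Z' n) = ∑ i ∈ s, F (Z i) := by
  classical
  refine ⟨fun n => if h : n < s.card then Z (s.equivFin.symm ⟨n, h⟩) else 0, ?_⟩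
  intro M _ F
  rw [sum_range]
  have h1 : ∀ i : Fin s.card, F (if h : (i : ℕ) < s.card then Z (s.equivFin.symm ⟨i, h⟩) else 0) = F (Z (s.equivFin.symm i)) := by
    intro i
    rw [dif_pos i.2]
  rw [sum_congr rfl fun i _ => h1 i, ← sum_coe_sort s]
  exact Fintype.sum_equiv s.equivFin.symm _ _ fun i => rfl

open Classical in
/-- the Lévy continuity theorem, uniformly, for a general index set -/
theorem levy_uniform' (k : ℕ) (ε : ℝ) (hε : 0 < ε) : ∃ T0 δ : ℝ, 0 ≤ T0 ∧ 0 < δ ∧
    ∀ (ι : Type) (s : Finset ι) (Z : ι → Fin k → ℝ), s.Nonempty → (∀ t : Fin k → ℝ, (∀ i, |t i| ≤ T0) →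
      ‖∑ p ∈ s, Complex.exp (Complex.I * ((∑ i, t i * Z p i : ℝ) : ℂ)) -
        (s.card : ℂ) * ((Real.exp (-∑ i, t i ^ 2 / 2) : ℝ) : ℂ)‖ ≤ δ * s.card) →
      ∀ c : Fin k → ℝ, |((s.filter (fun p => ∀ i, Z p i ≤ c i)).card : ℝ) - s.card * ∏ i, Phi (c i)| ≤ ε * s.card := by
  obtain ⟨T0, δ, hT0, hδ, H⟩ := Pool.Agent.K4H18.EK.levy_uniform k ε hε
  refine ⟨T0, δ, hT0, hδ, ?_⟩
  intro ι s Z hs hch c
  obtain ⟨Z', hZ'⟩ := sum_range_card s Z
  have h1 := H (range s.card) Z' (nonempty_range_iff.2 hs.card_pos.ne') (by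
    intro t ht
    have h2 := hZ' (fun z => Complex.exp (Complex.I * ((∑ i, t i * z i : ℝ) : ℂ)))
    rw [h2, card_range]
    exact hch t ht) c
  have h3 : Pool.Agent.K4H18.EK.bc (range s.card) Z' c = ((s.filter (fun p => ∀ i, Z p i ≤ c i)).card : ℝ) := by
    unfold Pool.Agent.K4H18.EK.bc
    have h4 := hZ' (fun z => if (∀ i, z i ≤ c i) then (1 : ℝ) else 0)
    rw [sum_boole, sum_boole] at h4
    convert h4
  rw [h3, card_range] at h1
  have h5 : ∀ x : ℝ, Pool.Agent.K4H18.EK.Ph x = Phi x := by
    intro x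
    unfold Pool.Agent.K4H18.EK.Ph Phi
    rw [cdf_eq_real]
  simp only [h5] at h1
  exact h1

open Classical in
/-- **The joint law.** The constants depend only on `k` and `ε`. -/
theorem joint_clt (k : ℕ) (ε : ℝ) (hε : 0 < ε) : ∃ (m : ℕ) (η κ V₀ : ℝ), 0 < η ∧ 0 < κ ∧ 1 ≤ V₀ ∧
    ∀ (J : Type) [Fintype J] [DecidableEq J] (R : J → Type) [∀ j, Fintype (R j)] [∀ j, Nonempty (R j)]
      (f : Fin k → ∀ j, R j → ℝ), (∀ l j b, |f l j b| ≤ 1) → (∀ l j, avg (f l j) = 0) → (∀ l, V₀ ≤ VV (f l)) →
      (∀ l l', l ≠ l' → |CV (f l) (f l')| ≤ κ * √(VV (f l)) * √(VV (f l'))) →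
    ∀ (ι : Type) (s : Finset ι) (ρ : ι → ∀ j, R j) (δ : ℝ), 0 ≤ δ → Equi s ρ m δ →
      (Fintype.card J : ℝ) ^ m * δ ≤ η → ∀ t : Fin k → ℝ,
      |((s.filter (fun i => ∀ l, SS (f l) (ρ i) ≤ t l * √(VV (f l)))).card : ℝ) - s.card * ∏ l, Phi (t l)| ≤
        ε * s.card := by
  obtain ⟨T0, δ₀, hT0, hδ₀, hlevy⟩ := levy_uniform' k ε hε
  obtain ⟨m, η, V₁, hη, hV₁, hchar⟩ := char1 (2 * k * T0) (δ₀ / 2) (by positivity)
  obtain ⟨κ, hκ⟩ : ∃ κ : ℝ, κ = min (1 / (2 * ((k : ℝ) + 1))) (δ₀ / ((k : ℝ) ^ 2 * T0 ^ 2 + 1)) := ⟨_, rfl⟩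
  have hκ0 : 0 < κ := by rw [hκ]; positivity
  have hκ1 : κ ≤ 1 / (2 * (k + 1)) := by rw [hκ]; exact min_le_left _ _
  have hκ2 : κ ≤ δ₀ / (k ^ 2 * T0 ^ 2 + 1) := by rw [hκ]; exact min_le_right _ _
  refine ⟨m, η, κ, max 1 (2 * k * V₁), hη, hκ0, le_max_left _ _, ?_⟩
  intro J _ _ R _ _ f hf h0 hV hcv ι s ρ δ hδ heq hJ
  rcases s.eq_empty_or_nonempty with hs | hs
  · intro t
    rw [hs]
    simp
  obtain ⟨V₀, hV₀⟩ : ∃ V₀ : ℝ, V₀ = max 1 (2 * k * V₁) := ⟨_, rfl⟩
  rw [← hV₀] at hV
  have hV₀1 : 1 ≤ V₀ := by rw [hV₀]; exact le_max_left _ _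
  have hV₀2 : 2 * k * V₁ ≤ V₀ := by rw [hV₀]; exact le_max_right _ _
  have hVl : ∀ l, 1 ≤ VV (f l) := fun l => hV₀1.trans (hV l)
  have hsl : ∀ l, 0 < √(VV (f l)) := fun l => Real.sqrt_pos.2 (by have := hVl l; linarith)
  have hmain := hlevy ι s (fun i l => SS (f l) (ρ i) / √(VV (f l))) hs (by
    intro t ht
    obtain ⟨A, hA⟩ : ∃ A : ℝ, A = ∑ l, |t l| := ⟨_, rfl⟩
    have hA0 : 0 ≤ A := by rw [hA]; exact sum_nonneg fun _ _ => abs_nonneg _
    have hAk : A ≤ k * T0 := by
      rw [hA]
      calc ∑ l, |t l| ≤ ∑ _l : Fin k, T0 := sum_le_sum fun l _ => ht l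
        _ = k * T0 := by simp
    rcases hA0.eq_or_lt with hA1 | hA1
    · have h1 : ∀ l, t l = 0 := by
        intro l
        have h2 : ∑ l, |t l| = 0 := by rw [← hA, ← hA1]
        rw [sum_eq_zero_iff_of_nonneg (fun _ _ => abs_nonneg _)] at h2
        exact abs_eq_zero.1 (h2 l (mem_univ _))
      have h3 : ∀ p ∈ s, Complex.exp (Complex.I * ((∑ i, t i * (SS (f i) (ρ p) / √(VV (f i))) : ℝ) : ℂ)) = 1 := by
        intro p _
        have h4 : ∑ i, t i * (SS (f i) (ρ p) / √(VV (f i))) = 0 := sum_eq_zero fun i _ => by rw [h1 i, zero_mul]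
        rw [h4, Complex.ofReal_zero, mul_zero, Complex.exp_zero]
      have h5 : ∑ i, t i ^ 2 / 2 = 0 := sum_eq_zero fun i _ => by rw [h1 i]; norm_num
      rw [sum_congr rfl h3, h5, sum_const, neg_zero, Real.exp_zero, Complex.ofReal_one, nsmul_eq_mul, sub_self, norm_zero]
      exact mul_nonneg hδ₀.le (Nat.cast_nonneg _)
    · -- the linear combination
      obtain ⟨c, hc⟩ : ∃ c : Fin k → ℝ, c = fun l => t l / √(VV (f l)) := ⟨_, rfl⟩
      obtain ⟨g, hg⟩ : ∃ g : ∀ j, R j → ℝ, g = fun j b => ∑ l, c l * f l j b := ⟨_, rfl⟩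
      obtain ⟨W, hW⟩ : ∃ W : ℝ, W = VV g := ⟨_, rfl⟩
      have hWe : |W - ∑ l, t l ^ 2| ≤ κ * A ^ 2 := by
        have h1 : W = ∑ l, ∑ l', c l * c l' * CV (f l) (f l') := by
          rw [hW, hg]
          exact VV_lin f c
        have h2 : ∑ l, t l ^ 2 = ∑ l, ∑ l', if l = l' then t l ^ 2 else 0 := by
          refine sum_congr rfl fun l _ => ?_
          rw [sum_ite_eq]
          simp
        rw [h1, h2, ← sum_sub_distrib]
        have h3 : ∀ l l', |c l * c l' * CV (f l) (f l') - if l = l' then t l ^ 2 else 0| ≤ κ * (|t l| * |t l'|) := by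
          intro l l'
          by_cases hll : l = l'
          · rw [if_pos hll, ← hll, CV_self, hc]
            have h4 : t l / √(VV (f l)) * (t l / √(VV (f l))) * VV (f l) = t l ^ 2 := by
              have h5 : √(VV (f l)) ^ 2 = VV (f l) := Real.sq_sqrt (by have := hVl l; linarith)
              have h6 := (hsl l).ne'
              have h7 : t l / √(VV (f l)) * (t l / √(VV (f l))) * VV (f l) = t l ^ 2 / √(VV (f l)) ^ 2 * VV (f l) := by ring
              rw [h7, h5]
              have h8 : VV (f l) ≠ 0 := by have := hVl l; linarith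
              rw [div_mul_cancel₀ _ h8]
            simp only [h4]
            rw [sub_self, abs_zero]
            positivity
          · rw [if_neg hll, sub_zero, hc]
            have h4 := hcv l l' hll
            have h5 := hsl l
            have h6 := hsl l'
            simp only
            rw [abs_mul, abs_mul, abs_div, abs_div, abs_of_pos h5, abs_of_pos h6]
            calc |t l| / √(VV (f l)) * (|t l'| / √(VV (f l'))) * |CV (f l) (f l')|
                ≤ |t l| / √(VV (f l)) * (|t l'| / √(VV (f l'))) * (κ * √(VV (f l)) * √(VV (f l'))) := by gcongr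
              _ = κ * (|t l| * |t l'|) := by
                  field_simp
        calc |∑ l, (∑ l', c l * c l' * CV (f l) (f l') - ∑ l', if l = l' then t l ^ 2 else 0)|
            ≤ ∑ l, ∑ l', κ * (|t l| * |t l'|) := by
              refine (abs_sum_le_sum_abs _ _).trans (sum_le_sum fun l _ => ?_)
              rw [← sum_sub_distrib]
              exact (abs_sum_le_sum_abs _ _).trans (sum_le_sum fun l' _ => h3 l l')
          _ = κ * A ^ 2 := by
              rw [hA, pow_two, sum_mul_sum, mul_sum]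
              refine sum_congr rfl fun l _ => ?_
              rw [mul_sum]
      have hk1 : 1 ≤ k := by
        rcases Nat.eq_zero_or_pos k with h | h
        · exfalso
          subst h
          rw [hA] at hA1
          simp at hA1
        · exact h
      have hkr : (1 : ℝ) ≤ k := by exact_mod_cast hk1
      have hCS : A ^ 2 ≤ k * ∑ l, t l ^ 2 := by
        have h1 := sq_sum_le_card_mul_sum_sq (s := (univ : Finset (Fin k))) (f := fun l => |t l|)
        rw [← hA] at h1
        simp only [sq_abs, card_univ, Fintype.card_fin] at h1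
        exact h1
      have hsq : ∑ l, t l ^ 2 ≤ A ^ 2 := by
        rw [hA]
        have h1 : ∀ l, t l ^ 2 ≤ |t l| * ∑ l', |t l'| := by
          intro l
          have h2 : |t l| ≤ ∑ l', |t l'| := single_le_sum (f := fun l => |t l|) (fun _ _ => abs_nonneg _) (mem_univ l)
          rw [← sq_abs, pow_two]
          gcongr
        calc ∑ l, t l ^ 2 ≤ ∑ l, |t l| * ∑ l', |t l'| := sum_le_sum fun l _ => h1 l
          _ = (∑ l', |t l'|) ^ 2 := by rw [← sum_mul, pow_two]
      have hWlow : A ^ 2 / (2 * k) ≤ W := by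
        have h1 := (abs_le.1 hWe).1
        have h2 : A ^ 2 / k ≤ ∑ l, t l ^ 2 := by
          rw [div_le_iff₀ (by linarith)]
          linarith
        have h3 : κ * A ^ 2 ≤ A ^ 2 / (2 * k) := by
          calc κ * A ^ 2 ≤ 1 / (2 * (k + 1)) * A ^ 2 := by gcongr
            _ ≤ 1 / (2 * k) * A ^ 2 := by
                gcongr
                linarith
            _ = A ^ 2 / (2 * k) := by ring
        have h4 : A ^ 2 / k = A ^ 2 / (2 * k) + A ^ 2 / (2 * k) := by
          field_simp
          ring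
        linarith
      have hWpos : 0 < W := by
        have : 0 < A ^ 2 / (2 * k) := by positivity
        linarith
      have hWup : W ≤ (2 * A) ^ 2 := by
        have h1 := (abs_le.1 hWe).2
        have h2 : κ ≤ 1 := by
          refine hκ1.trans ?_
          rw [div_le_one (by positivity)]
          linarith
        nlinarith [sq_nonneg A]
      -- the scaled function
      obtain ⟨lam, hlam⟩ : ∃ lam : ℝ, lam = √V₀ / A := ⟨_, rfl⟩
      have hsV0 : 0 < √V₀ := Real.sqrt_pos.2 (by linarith)
      have hlam0 : 0 < lam := by rw [hlam]; positivity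
      obtain ⟨h, hh⟩ : ∃ h : ∀ j, R j → ℝ, h = fun j b => lam * g j b := ⟨_, rfl⟩
      have hhb : ∀ j b, |h j b| ≤ 1 := by
        intro j b
        rw [hh, hg]
        simp only
        rw [abs_mul, abs_of_pos hlam0]
        have h1 : |∑ l, c l * f l j b| ≤ A / √V₀ := by
          calc |∑ l, c l * f l j b| ≤ ∑ l, |t l| / √V₀ := by
                refine (abs_sum_le_sum_abs _ _).trans (sum_le_sum fun l _ => ?_)
                rw [hc]
                simp only
                rw [abs_mul, abs_div, abs_of_pos (hsl l)]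
                have h2 := hf l j b
                have h3 : √V₀ ≤ √(VV (f l)) := Real.sqrt_le_sqrt (hV l)
                calc |t l| / √(VV (f l)) * |f l j b| ≤ |t l| / √(VV (f l)) * 1 := by gcongr
                  _ = |t l| / √(VV (f l)) := mul_one _
                  _ ≤ |t l| / √V₀ := by gcongr
            _ = A / √V₀ := by rw [hA, sum_div]
        calc lam * |∑ l, c l * f l j b| ≤ lam * (A / √V₀) := by gcongr
          _ = 1 := by
              rw [hlam]
              field_simp
      have hh0 : ∀ j, avg (h j) = 0 := by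
        intro j
        rw [hh, hg]
        simp only
        rw [avg_mul_left, avg_sum]
        rw [sum_eq_zero, mul_zero]
        intro l _
        rw [avg_mul_left, h0, mul_zero]
      have hVh : VV h = lam ^ 2 * W := by
        rw [hW, hh]
        unfold VV
        rw [mul_sum]
        refine sum_congr rfl fun j _ => ?_
        rw [← avg_mul_left]
        congr 1
        funext b
        ring
      have hVh1 : V₁ ≤ VV h := by
        rw [hVh]
        have h1 : lam ^ 2 = V₀ / A ^ 2 := by
          rw [hlam, div_pow, Real.sq_sqrt (by linarith)]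
        rw [h1]
        have h2 : V₀ / A ^ 2 * (A ^ 2 / (2 * k)) ≤ V₀ / A ^ 2 * W := by
          have : 0 ≤ V₀ / A ^ 2 := by positivity
          gcongr
        have h3 : V₀ / A ^ 2 * (A ^ 2 / (2 * k)) = V₀ / (2 * k) := by
          field_simp
        have h4 : V₁ ≤ V₀ / (2 * k) := by
          rw [le_div_iff₀ (by positivity)]
          linarith
        linarith
      have hsh : √(VV h) = lam * √W := by
        rw [hVh, Real.sqrt_mul (sq_nonneg _), Real.sqrt_sq hlam0.le]
      have hsW : 0 < √W := Real.sqrt_pos.2 hWpos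
      have hfin := hchar J R h hhb hh0 hVh1 ι s ρ δ hδ heq hJ (√W) (by
        rw [abs_of_pos hsW]
        calc √W ≤ √((2 * A) ^ 2) := Real.sqrt_le_sqrt hWup
          _ = 2 * A := Real.sqrt_sq (by positivity)
          _ ≤ 2 * k * T0 := by linarith)
      have hlin : ∀ i, ∑ l, t l * (SS (f l) (ρ i) / √(VV (f l))) = √W * (SS h (ρ i) / √(VV h)) := by
        intro i
        rw [hsh]
        have h1 : SS h (ρ i) = lam * ∑ l, c l * SS (f l) (ρ i) := by
          unfold SS
          rw [hh, hg]
          simp only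
          rw [← mul_sum]
          congr 1
          rw [sum_comm]
          refine sum_congr rfl fun l _ => ?_
          rw [mul_sum]
        rw [h1, hc]
        have h2 : √W * (lam * ∑ l, t l / √(VV (f l)) * SS (f l) (ρ i)) / (lam * √W) = ∑ l, t l / √(VV (f l)) * SS (f l) (ρ i) := by
          field_simp
        rw [mul_div_assoc'] 
        rw [h2]
        refine sum_congr rfl fun l _ => ?_
        ring
      have hexp1 : ∑ i ∈ s, Complex.exp (Complex.I * ((∑ l, t l * (SS (f l) (ρ i) / √(VV (f l))) : ℝ) : ℂ)) =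
          ∑ i ∈ s, Complex.exp (Complex.I * ((√W * (SS h (ρ i) / √(VV h)) : ℝ) : ℂ)) :=
        sum_congr rfl fun i _ => by rw [hlin i]
      rw [hexp1]
      have hWW : √W ^ 2 = W := Real.sq_sqrt hWpos.le
      rw [hWW] at hfin
      have hexpd : |Real.exp (-(W / 2)) - Real.exp (-∑ l, t l ^ 2 / 2)| ≤ δ₀ / 2 := by
        have h1 : ∑ l, t l ^ 2 / 2 = (∑ l, t l ^ 2) / 2 := by rw [sum_div]
        rw [h1]
        have hT : 0 ≤ ∑ l, t l ^ 2 := sum_nonneg fun _ _ => sq_nonneg _
        have h2 : |Real.exp (-(W / 2)) - Real.exp (-((∑ l, t l ^ 2) / 2))| ≤ |W - ∑ l, t l ^ 2| / 2 := by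
          have key : ∀ a b : ℝ, 0 ≤ a → a ≤ b → Real.exp (-(a / 2)) - Real.exp (-(b / 2)) ≤ (b - a) / 2 := by
            intro a b ha hab
            have h3 : Real.exp (-(b / 2)) = Real.exp (-(a / 2)) * Real.exp (-((b - a) / 2)) := by
              rw [← Real.exp_add]
              congr 1
              ring
            have h4 := Real.add_one_le_exp (-((b - a) / 2))
            have h5 : Real.exp (-(a / 2)) ≤ 1 := by
              rw [Real.exp_le_one_iff]
              linarith
            have h6 : 0 < Real.exp (-(a / 2)) := Real.exp_pos _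
            rw [h3]
            have h7 : Real.exp (-((b - a) / 2)) ≤ 1 := by
              rw [Real.exp_le_one_iff]
              linarith
            nlinarith
          rcases le_total W (∑ l, t l ^ 2) with h8 | h8
          · have h9 := key W _ hWpos.le h8
            have h10 : Real.exp (-((∑ l, t l ^ 2) / 2)) ≤ Real.exp (-(W / 2)) := by
              apply Real.exp_le_exp.2
              linarith
            rw [abs_of_nonneg (by linarith), abs_of_nonpos (by linarith)]
            linarith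
          · have h9 := key _ W hT h8
            have h10 : Real.exp (-(W / 2)) ≤ Real.exp (-((∑ l, t l ^ 2) / 2)) := by
              apply Real.exp_le_exp.2
              linarith
            rw [abs_of_nonpos (by linarith), abs_of_nonneg (by linarith)]
            linarith
        refine h2.trans ?_
        have h3 : κ * A ^ 2 ≤ δ₀ := by
          have h4 : A ^ 2 ≤ k ^ 2 * T0 ^ 2 := by
            rw [← mul_pow]
            exact pow_le_pow_left₀ hA0 hAk 2
          calc κ * A ^ 2 ≤ δ₀ / (k ^ 2 * T0 ^ 2 + 1) * (k ^ 2 * T0 ^ 2 + 1) := by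
                gcongr
                linarith
            _ = δ₀ := by field_simp
        linarith
      have hcs : (0 : ℝ) ≤ s.card := Nat.cast_nonneg _
      calc ‖∑ i ∈ s, Complex.exp (Complex.I * ((√W * (SS h (ρ i) / √(VV h)) : ℝ) : ℂ)) -
            (s.card : ℂ) * ((Real.exp (-∑ l, t l ^ 2 / 2) : ℝ) : ℂ)‖
          = ‖(∑ i ∈ s, Complex.exp (Complex.I * ((√W * (SS h (ρ i) / √(VV h)) : ℝ) : ℂ)) -
            (s.card : ℂ) * ((Real.exp (-(W / 2)) : ℝ) : ℂ)) +
            (s.card : ℂ) * ((Real.exp (-(W / 2)) - Real.exp (-∑ l, t l ^ 2 / 2) : ℝ) : ℂ)‖ := by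
            congr 1
            push_cast
            ring
        _ ≤ δ₀ / 2 * s.card + s.card * (δ₀ / 2) := by
            refine (norm_add_le _ _).trans (add_le_add hfin ?_)
            rw [norm_mul, Complex.norm_real, Complex.norm_natCast, Real.norm_eq_abs]
            gcongr
        _ = δ₀ * s.card := by ring)
  intro t
  have h1 := hmain t
  have e : s.filter (fun p => ∀ i, SS (f i) (ρ p) / √(VV (f i)) ≤ t i) =
      s.filter (fun i => ∀ l, SS (f l) (ρ i) ≤ t l * √(VV (f l))) := by
    apply filter_congr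
    intro i _
    refine forall_congr' fun l => ?_
    rw [div_le_iff₀ (hsl l)]
  rw [e] at h1
  exact h1

end Pool.Agent.K4H16.CG
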