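import Pool.Agent.K4H16.CG.LTdefs
import Pool.Agent.K4H16.CG.Joint
import Pool.Agent.K4H16.CG.Box

/-!
# The normal law for sums over the primes of functions of the traces of Frobenius
-/

set_option autoImplicit false

namespace Pool.Agent.K4H16.CG

open Finset

variable {n r : ℕ}

/-- the primes up to `x` -/
abbrev Prs (x : ℕ) : Type := {p : ℕ // p ∈ (range (x + 1)).filter Nat.Prime}

instance (x : ℕ) (j : Prs x) : NeZero (j : ℕ) := ⟨((mem_filter.1 j.2).2).ne_zero⟩

lemma Prs.prime {x : ℕ} (j : Prs x) : (j : ℕ).Prime := (mem_filter.1 j.2).2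

lemma Prs.le {x : ℕ} (j : Prs x) : (j : ℕ) ≤ x := by
  have := (mem_filter.1 j.2).1
  rw [mem_range] at this
  omega

lemma Prs.cop (x : ℕ) : Pairwise (Function.onFun Nat.Coprime (fun j : Prs x => (j : ℕ))) := by
  intro i j hij
  exact (Nat.coprime_primes i.prime j.prime).2 (fun h => hij (Subtype.ext h))

lemma Prs.card_le (x : ℕ) : Fintype.card (Prs x) ≤ x := by
  rw [Fintype.card_coe]
  have h1 : (range (x + 1)).filter Nat.Prime ⊆ Icc 1 x := by
    intro p hp
    rw [mem_filter, mem_range] at hp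
    rw [mem_Icc]
    exact ⟨hp.2.pos, by omega⟩
  refine (card_le_card h1).trans ?_
  simp

/-- the reduction of a point to the representatives `0, …, p - 1` -/
def rep (p : ℕ) (b : Fin n → ZMod p) : Fin n → ℤ := fun i => ((b i).val : ℤ)

lemma meanMod_eq (p : ℕ) [NeZero p] (g : (Fin n → ℤ) → ℝ) :
    meanMod p g = avg (fun b : Fin n → ZMod p => g (rep p b)) := by
  unfold meanMod avg
  rw [Fintype.card_fun, ZMod.card, Fintype.card_fin]
  push_cast
  congr 1
  refine sum_bij' (fun c _ => fun i => (c i : ZMod p)) (fun b _ => fun i => (b i).val) ?_ ?_ ?_ ?_ ?_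
  · intro c _
    exact mem_univ _
  · intro b _
    rw [Fintype.mem_piFinset]
    intro i
    rw [mem_range]
    exact ZMod.val_lt _
  · intro c hc
    rw [Fintype.mem_piFinset] at hc
    funext i
    have := hc i
    rw [mem_range] at this
    exact ZMod.val_cast_of_lt this
  · intro b _
    funext i
    exact ZMod.natCast_zmod_val _
  · intro c hc
    rw [Fintype.mem_piFinset] at hc
    congr 1
    funext i
    have := hc i
    rw [mem_range] at this
    unfold rep
    rw [ZMod.val_cast_of_lt this]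

lemma eval_cast (p : ℕ) (F : MvPolynomial (Fin n) ℤ) (v : Fin n → ℤ) :
    ((MvPolynomial.eval v F : ℤ) : ZMod p) = MvPolynomial.eval₂ (Int.castRingHom (ZMod p)) (fun i => (v i : ZMod p)) F := by
  induction F using MvPolynomial.induction_on with
  | C a =>
    rw [MvPolynomial.eval_C, MvPolynomial.eval₂_C]
    rfl
  | add f g hf hg => rw [map_add, Int.cast_add, hf, hg, MvPolynomial.eval₂_add]
  | mul_X f i hf => simp [MvPolynomial.eval₂_mul, hf]

lemma eval_congr (p : ℕ) (F : MvPolynomial (Fin n) ℤ) (v v' : Fin n → ℤ) (h : ∀ i, (v i : ZMod p) = (v' i : ZMod p)) :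
    ((MvPolynomial.eval v F : ℤ) : ZMod p) = ((MvPolynomial.eval v' F : ℤ) : ZMod p) := by
  rw [eval_cast, eval_cast]
  congr 1
  funext i
  exact h i

lemma frob_congr (p : ℕ) (W : WeierstrassCurve (MvPolynomial (Fin n) ℤ)) (v v' : Fin n → ℤ)
    (h : ∀ i, (v i : ZMod p) = (v' i : ZMod p)) : frob (member W v) p = frob (member W v') p := by
  have h1 : ((member W v).a₁ : ZMod p) = ((member W v').a₁ : ZMod p) := eval_congr p _ v v' h
  have h2 : ((member W v).a₂ : ZMod p) = ((member W v').a₂ : ZMod p) := eval_congr p _ v v' h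
  have h3 : ((member W v).a₃ : ZMod p) = ((member W v').a₃ : ZMod p) := eval_congr p _ v v' h
  have h4 : ((member W v).a₄ : ZMod p) = ((member W v').a₄ : ZMod p) := eval_congr p _ v v' h
  have h6 : ((member W v).a₆ : ZMod p) = ((member W v').a₆ : ZMod p) := eval_congr p _ v v' h
  have hΔ : ((member W v).Δ : ZMod p) = ((member W v').Δ : ZMod p) := by
    have e : ∀ v : Fin n → ℤ, (member W v).Δ = MvPolynomial.eval v W.Δ := fun v => WeierstrassCurve.map_Δ _ _
    rw [e, e]
    exact eval_congr p _ v v' h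
  have htr : tr (member W v) p = tr (member W v') p := by
    unfold tr
    rw [h1, h2, h3, h4, h6]
  have hd : ((p : ℤ) ∣ (member W v).Δ) ↔ ((p : ℤ) ∣ (member W v').Δ) := by
    rw [← ZMod.intCast_zmod_eq_zero_iff_dvd, ← ZMod.intCast_zmod_eq_zero_iff_dvd, hΔ]
  unfold frob
  rw [htr]
  simp only [hd]

lemma loc_congr (p : ℕ) (W : Fin r → WeierstrassCurve (MvPolynomial (Fin n) ℤ)) (φ : ℕ → (Fin r → Option ℤ) → ℝ) (v v' : Fin n → ℤ)
    (h : ∀ i, (v i : ZMod p) = (v' i : ZMod p)) : loc W φ p v = loc W φ p v' := by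
  unfold loc
  congr 1
  funext i
  exact frob_congr p (W i) v v' h

lemma loc_rep (p : ℕ) [NeZero p] (W : Fin r → WeierstrassCurve (MvPolynomial (Fin n) ℤ)) (φ : ℕ → (Fin r → Option ℤ) → ℝ) (v : Fin n → ℤ) :
    loc W φ p (rep p (fun i => (v i : ZMod p))) = loc W φ p v := by
  apply loc_congr
  intro i
  unfold rep
  push_cast
  exact ZMod.natCast_zmod_val _

lemma loc_abs (W : Fin r → WeierstrassCurve (MvPolynomial (Fin n) ℤ)) (φ : ℕ → (Fin r → Option ℤ) → ℝ) (hφ : ∀ p a, |φ p a| ≤ 1)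
    (p : ℕ) (v : Fin n → ℤ) : |loc W φ p v| ≤ 1 := hφ _ _

/-- the centred local function, divided by two -/
noncomputable def lf (W : Fin r → WeierstrassCurve (MvPolynomial (Fin n) ℤ)) (φ : ℕ → (Fin r → Option ℤ) → ℝ) (x : ℕ) (j : Prs x) (b : Fin n → ZMod (j : ℕ)) : ℝ :=
  (loc W φ j (rep j b) - meanMod j (loc W φ j)) / 2

lemma lf_abs (W : Fin r → WeierstrassCurve (MvPolynomial (Fin n) ℤ)) (φ : ℕ → (Fin r → Option ℤ) → ℝ) (hφ : ∀ p a, |φ p a| ≤ 1) (x : ℕ) (j : Prs x)
    (b : Fin n → ZMod (j : ℕ)) : |lf W φ x j b| ≤ 1 := by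
  unfold lf
  rw [abs_div, meanMod_eq]
  have h1 := loc_abs W φ hφ j (rep j b)
  have h2 := avg_abs_le_one (fun b : Fin n → ZMod (j : ℕ) => loc W φ j (rep j b)) (fun b => loc_abs W φ hφ j _)
  have h3 := abs_sub (loc W φ j (rep j b)) (avg (fun b : Fin n → ZMod (j : ℕ) => loc W φ j (rep j b)))
  rw [abs_two]
  linarith

lemma avg_sub_const {R : Type} [Fintype R] [Nonempty R] (g : R → ℝ) (c : ℝ) : avg (fun b => g b - c) = avg g - c := by
  unfold avg
  have hp0 : (Fintype.card R : ℝ) ≠ 0 := by exact_mod_cast Fintype.card_ne_zero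
  rw [sum_sub_distrib, sum_const, card_univ, nsmul_eq_mul]
  field_simp

lemma avg_div_two {R : Type} [Fintype R] (g : R → ℝ) (c : ℝ) : avg (fun b => g b / c) = avg g / c := by
  unfold avg
  rw [← sum_div, div_right_comm]

lemma avg_mul_centred {R : Type} [Fintype R] [Nonempty R] (g h : R → ℝ) :
    avg (fun b => (g b - avg g) / 2 * ((h b - avg h) / 2)) = (avg (fun b => g b * h b) - avg g * avg h) / 4 := by
  have e : (fun b => (g b - avg g) / 2 * ((h b - avg h) / 2)) =
      fun b => (g b * h b - avg g * h b - avg h * g b + avg g * avg h) / 4 := by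
    funext b
    ring
  rw [e]
  unfold avg
  have hp0 : (Fintype.card R : ℝ) ≠ 0 := by exact_mod_cast Fintype.card_ne_zero
  rw [← sum_div, sum_add_distrib, sum_sub_distrib, sum_sub_distrib, ← mul_sum, ← mul_sum, sum_const, card_univ, nsmul_eq_mul]
  field_simp
  ring

lemma lf_avg (W : Fin r → WeierstrassCurve (MvPolynomial (Fin n) ℤ)) (φ : ℕ → (Fin r → Option ℤ) → ℝ) (x : ℕ) (j : Prs x) : avg (lf W φ x j) = 0 := by
  unfold lf
  rw [avg_div_two, avg_sub_const, meanMod_eq, sub_self, zero_div]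

lemma lf_CV (W : Fin r → WeierstrassCurve (MvPolynomial (Fin n) ℤ)) (φ ψ : ℕ → (Fin r → Option ℤ) → ℝ) (x : ℕ) :
    CV (lf W φ x) (lf W ψ x) = cov W φ ψ x / 4 := by
  unfold CV cov
  rw [sum_div, ← sum_coe_sort ((range (x + 1)).filter Nat.Prime)]
  refine sum_congr rfl fun j _ => ?_
  unfold lf
  rw [meanMod_eq, meanMod_eq, meanMod_eq]
  exact avg_mul_centred (fun b : Fin n → ZMod (j : ℕ) => loc W φ j (rep j b)) (fun b : Fin n → ZMod (j : ℕ) => loc W ψ j (rep j b))

lemma lf_VV (W : Fin r → WeierstrassCurve (MvPolynomial (Fin n) ℤ)) (φ : ℕ → (Fin r → Option ℤ) → ℝ) (x : ℕ) :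
    VV (lf W φ x) = cov W φ φ x / 4 := by
  rw [← CV_self, lf_CV]

lemma lf_SS (W : Fin r → WeierstrassCurve (MvPolynomial (Fin n) ℤ)) (φ : ℕ → (Fin r → Option ℤ) → ℝ) (x : ℕ) (v : Fin n → ℤ) :
    SS (lf W φ x) (fun j i => (v i : ZMod (j : ℕ))) = (total W φ x v - mean W φ x) / 2 := by
  unfold SS total mean
  rw [← sum_sub_distrib, sum_div, ← sum_coe_sort ((range (x + 1)).filter Nat.Prime)]
  refine sum_congr rfl fun j _ => ?_
  unfold lf
  rw [loc_rep]

lemma cov_le (W : Fin r → WeierstrassCurve (MvPolynomial (Fin n) ℤ)) (φ : ℕ → (Fin r → Option ℤ) → ℝ) (hφ : ∀ p a, |φ p a| ≤ 1) (x : ℕ) :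
    cov W φ φ x ≤ x := by
  unfold cov
  have h3 : ∀ p ∈ (range (x + 1)).filter Nat.Prime,
      (meanMod p (fun c => loc W φ p c * loc W φ p c) - meanMod p (loc W φ p) * meanMod p (loc W φ p)) ≤ 1 := by
    intro p hp
    haveI : NeZero p := ⟨((mem_filter.1 hp).2).ne_zero⟩
    have h4 : meanMod p (fun c => loc W φ p c * loc W φ p c) ≤ 1 := by
      rw [meanMod_eq]
      refine (le_abs_self _).trans (avg_abs_le_one _ fun b => ?_)
      rw [abs_mul]
      have := loc_abs W φ hφ p (rep p b)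
      have h5 := abs_nonneg (loc W φ p (rep p b))
      nlinarith
    nlinarith [mul_self_nonneg (meanMod p (loc W φ p))]
  have h6 := sum_le_sum h3
  rw [sum_const, nsmul_eq_mul, mul_one] at h6
  have h7 := Prs.card_le x
  rw [Fintype.card_coe] at h7
  have h8 : (((range (x + 1)).filter Nat.Prime).card : ℝ) ≤ x := by exact_mod_cast h7
  linarith

open Classical in
/-- **The joint normal law.** -/
theorem family_law (n k : ℕ) (ε : ℝ) (hε : 0 < ε) : ∃ (A : ℕ) (κ V₀ : ℝ), 0 < κ ∧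
    ∀ (r : ℕ) (W : Fin r → WeierstrassCurve (MvPolynomial (Fin n) ℤ)) (φ : Fin k → ℕ → (Fin r → Option ℤ) → ℝ),
      (∀ l p a, |φ l p a| ≤ 1) →
    ∀ (x : ℕ) (M : Fin n → ℤ) (N : Fin n → ℕ), (∀ i, x ^ A ≤ N i) →
      (∀ l, V₀ ≤ cov W (φ l) (φ l) x) →
      (∀ l l', l ≠ l' → |cov W (φ l) (φ l') x| ≤ κ * √(cov W (φ l) (φ l) x) * √(cov W (φ l') (φ l') x)) →
      ∀ t : Fin k → ℝ,
        |(((box M N).filter (fun v => ∀ l, total W (φ l) x v ≤
            mean W (φ l) x + t l * √(cov W (φ l) (φ l) x))).card : ℝ) - (box M N).card * ∏ l, Phi (t l)| ≤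
          ε * (box M N).card := by
  obtain ⟨m, η, κ, V₀, hη, hκ, hV₀, H⟩ := joint_clt k ε hε
  refine ⟨2 * m + 1, κ, max (4 * V₀) (2 * n / η), hκ, ?_⟩
  intro r W φ hφ x M N hN hV hcv t
  rcases Nat.eq_zero_or_pos k with hk | hk
  · subst hk
    have e : (box M N).filter (fun v => ∀ l : Fin 0, total W (φ l) x v ≤
            mean W (φ l) x + t l * √(cov W (φ l) (φ l) x)) = box M N := by
      rw [filter_true_of_mem]
      intro v _ l
      exact l.elim0
    rw [e]
    simp only [univ_eq_empty, prod_empty, mul_one, sub_self, abs_zero]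
    positivity
  have hV1 : ∀ l, V₀ ≤ VV (lf W (φ l) x) := by
    intro l
    rw [lf_VV]
    have := (le_max_left _ _).trans (hV l)
    linarith
  have hxV : 2 * n / η ≤ (x : ℝ) := by
    have h1 := (le_max_right _ _).trans (hV ⟨0, hk⟩)
    have h2 := cov_le W (φ ⟨0, hk⟩) (hφ _) x
    linarith
  rcases Nat.eq_zero_or_pos x with hx | hx
  · exfalso
    have h1 := hV1 ⟨0, hk⟩
    have h2 : VV (lf W (φ ⟨0, hk⟩) x) = 0 := by
      unfold VV
      haveI : IsEmpty (Prs x) := by
        refine ⟨fun j => ?_⟩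
        have h3 := j.prime.two_le
        have h4 := j.le
        omega
      simp
    linarith
  have hxr : (0 : ℝ) < x := by exact_mod_cast hx
  have heq := equi_box (fun j : Prs x => (j : ℕ)) (Prs.cop x) x hx (fun j => j.le) m (x ^ (2 * m + 1)) (by positivity) n M N hN
  have hJ : (Fintype.card (Prs x) : ℝ) ^ m * (n * (2 * (x : ℝ) ^ m / ((x ^ (2 * m + 1) : ℕ) : ℝ))) ≤ η := by
    have h1 : (Fintype.card (Prs x) : ℝ) ≤ x := by exact_mod_cast Prs.card_le x
    calc (Fintype.card (Prs x) : ℝ) ^ m * (n * (2 * (x : ℝ) ^ m / ((x ^ (2 * m + 1) : ℕ) : ℝ)))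
        ≤ (x : ℝ) ^ m * (n * (2 * (x : ℝ) ^ m / ((x ^ (2 * m + 1) : ℕ) : ℝ))) := by gcongr
      _ = 2 * n / x := by
          push_cast
          field_simp
          ring
      _ ≤ η := by
          rw [div_le_iff₀ hη] at hxV
          rw [div_le_iff₀ hxr]
          linarith
  have h4' : √(4 : ℝ) = 2 := by
    rw [show (4 : ℝ) = 2 ^ 2 by norm_num]
    exact Real.sqrt_sq (by norm_num)
  have hfin := H (Prs x) (fun j => Fin n → ZMod (j : ℕ)) (fun l => lf W (φ l) x) (fun l j b => lf_abs W (φ l) (hφ l) x j b)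
    (fun l j => lf_avg W (φ l) x j) hV1 (by
      intro l l' hll
      rw [lf_CV, lf_VV, lf_VV, abs_div, Real.sqrt_div' _ (by norm_num : (0 : ℝ) ≤ 4), Real.sqrt_div' _ (by norm_num : (0 : ℝ) ≤ 4),
        h4', abs_of_pos (by norm_num : (0 : ℝ) < 4)]
      have h1 := hcv l l' hll
      linarith) (Fin n → ℤ) (box M N) (fun v j i => (v i : ZMod (j : ℕ))) (n * (2 * (x : ℝ) ^ m / ((x ^ (2 * m + 1) : ℕ) : ℝ)))
    (by positivity) heq hJ t
  have e : (box M N).filter (fun v => ∀ l, SS (lf W (φ l) x) (fun j i => (v i : ZMod (j : ℕ))) ≤ t l * √(VV (lf W (φ l) x))) =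
      (box M N).filter (fun v => ∀ l, total W (φ l) x v ≤
            mean W (φ l) x + t l * √(cov W (φ l) (φ l) x)) := by
    apply filter_congr
    intro v _
    refine forall_congr' fun l => ?_
    rw [lf_SS, lf_VV, Real.sqrt_div' _ (by norm_num : (0 : ℝ) ≤ 4), h4']
    constructor
    · intro h
      linarith
    · intro h
      linarith
  rw [e] at hfin
  exact hfin

end Pool.Agent.K4H16.CG
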