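import Pool.Agent.K4H16.CG.Mom
import Pool.Agent.K4H4.GL.Half

/-!
# The normal law for sums of local functions over a well distributed family
-/

set_option autoImplicit false

namespace Pool.Agent.K4H16.CG

open Finset ProbabilityTheory

/-- the distribution function of the standard normal law -/
noncomputable def Phi (t : ℝ) : ℝ := (gaussianReal 0 1).real (Set.Iic t)

open Classical in
/-- **The normal law for sums of local functions.** The constants depend only on `ε`. -/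
theorem clt (ε : ℝ) (hε : 0 < ε) : ∃ (k : ℕ) (η V₀ : ℝ), 0 < η ∧ 1 ≤ V₀ ∧
    ∀ (J : Type) [Fintype J] [DecidableEq J] (R : J → Type) [∀ j, Fintype (R j)] [∀ j, Nonempty (R j)]
      (f : ∀ j, R j → ℝ), (∀ j b, |f j b| ≤ 1) → (∀ j, avg (f j) = 0) → V₀ ≤ VV f →
    ∀ (ι : Type) (s : Finset ι) (ρ : ι → ∀ j, R j) (δ : ℝ), 0 ≤ δ → Equi s ρ k δ →
      (Fintype.card J : ℝ) ^ k * δ ≤ η → ∀ t : ℝ,
      |((s.filter (fun i => SS f (ρ i) ≤ t * √(VV f))).card : ℝ) - s.card * Phi t| ≤ ε * s.card := by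
  -- the order of the moments
  obtain ⟨m, hm⟩ : ∃ m : ℕ, (25000 / ε) ^ 2 < m := exists_nat_gt _
  have hm1 : 1 ≤ m := by
    have h1 : (0 : ℝ) < m := lt_of_le_of_lt (sq_nonneg _) hm
    exact_mod_cast h1
  have hmr : (0 : ℝ) < m := by exact_mod_cast hm1
  have hsm : 12500 / √(m : ℝ) ≤ ε / 2 := by
    have h1 : 25000 / ε ≤ √(m : ℝ) := Real.le_sqrt_of_sq_le hm.le
    have h2 : 0 < √(m : ℝ) := Real.sqrt_pos.2 hmr
    rw [div_le_iff₀ hε] at h1
    rw [div_le_iff₀ h2]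
    linarith
  obtain ⟨Cm, hCm0, hCm⟩ := Pool.Agent.K4H4.GL.half_line m hm1
  obtain ⟨K, hK⟩ : ∃ K : ℝ, K = ((2 * m).factorial : ℝ) * 20 := ⟨_, rfl⟩
  have hK0 : 0 ≤ K := by rw [hK]; positivity
  refine ⟨2 * m, ε / (4 * (Cm + 1)), max 1 ((4 * K * Cm / ε) ^ 2), by positivity, le_max_left _ _, ?_⟩
  intro J _ _ R _ _ f hf h0 hV ι S ρ δ hδ heq hJ t
  have hV1 : 1 ≤ VV f := (le_max_left _ _).trans hV
  obtain ⟨s, hs⟩ : ∃ s : ℝ, s = √(VV f) := ⟨_, rfl⟩
  have hs1 : 1 ≤ s := by rw [hs]; exact Real.one_le_sqrt.2 hV1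
  have hs0 : 0 < s := by linarith
  have hsK : 4 * K * Cm / ε ≤ s := by
    rw [hs]
    exact Real.le_sqrt_of_sq_le ((le_max_right _ _).trans hV)
  obtain ⟨N, hN⟩ : ∃ N : ℝ, N = S.card := ⟨_, rfl⟩
  have hN0 : (0 : ℝ) ≤ N := by rw [hN]; exact Nat.cast_nonneg _
  have hJ1 : (1 : ℝ) ≤ Fintype.card J := by
    have h1 : 0 < Fintype.card J := by
      rw [Fintype.card_pos_iff]
      by_contra hcon
      rw [not_nonempty_iff] at hcon
      have : VV f = 0 := by unfold VV; simp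
      linarith
    exact_mod_cast h1
  obtain ⟨E, hE⟩ : ∃ E : ℝ, E = N * (K / s) + (Fintype.card J : ℝ) ^ (2 * m) * (δ * N) := ⟨_, rfl⟩
  have hE0 : 0 ≤ E := by rw [hE]; positivity
  have hmom : ∀ k, 1 ≤ k → k ≤ 2 * m → |Pool.Agent.K4H4.GL.Lam S (fun n => SS f (ρ n) / s) (fun z => z ^ k)| ≤ E := by
    intro k _ hk
    unfold Pool.Agent.K4H4.GL.Lam
    have h1 := family_moment S ρ k δ hδ (fun T hT h hh => heq T (hT.trans hk) h hh) f hf
    have h2 := product_moment k f hf h0 hV1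
    rw [← hs] at h2
    obtain ⟨Q, hQ⟩ : ∃ Q : ℕ, Q = Fintype.card (∀ j, R j) := ⟨_, rfl⟩
    rw [← hQ, ← hN] at h1
    rw [← hQ] at h2
    have hQ0 : (0 : ℝ) < Q := by
      have : 0 < Q := by rw [hQ]; exact Fintype.card_pos
      exact_mod_cast this
    have hsk : 1 ≤ s ^ k := one_le_pow₀ hs1
    have hsk0 : 0 < s ^ k := by positivity
    have e1 : ∑ n ∈ S, (SS f (ρ n) / s) ^ k = (∑ n ∈ S, SS f (ρ n) ^ k) / s ^ k := by
      rw [sum_div]
      exact sum_congr rfl fun n _ => div_pow _ _ _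
    have e2 : ∑ ω : (∀ j, R j), (SS f ω / s) ^ k = (∑ ω : (∀ j, R j), SS f ω ^ k) / s ^ k := by
      rw [sum_div]
      exact sum_congr rfl fun n _ => div_pow _ _ _
    have e3 : ∑ n ∈ S, (SS f (ρ n) / s) ^ k - N * gm k =
        (∑ n ∈ S, SS f (ρ n) ^ k - N / Q * ∑ ω : (∀ j, R j), SS f ω ^ k) / s ^ k +
        N * ((∑ ω : (∀ j, R j), (SS f ω / s) ^ k) / Q - gm k) := by
      rw [e1, e2]
      field_simp
      ring
    rw [← hN]
    change |∑ n ∈ S, (SS f (ρ n) / s) ^ k - N * gm k| ≤ E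
    rw [e3, hE, add_comm (N * (K / s))]
    refine (abs_add_le _ _).trans (add_le_add ?_ ?_)
    · rw [abs_div, abs_of_pos hsk0]
      calc |∑ n ∈ S, SS f (ρ n) ^ k - N / Q * ∑ ω : (∀ j, R j), SS f ω ^ k| / s ^ k
          ≤ |∑ n ∈ S, SS f (ρ n) ^ k - N / Q * ∑ ω : (∀ j, R j), SS f ω ^ k| := div_le_self (abs_nonneg _) hsk
        _ ≤ (Fintype.card J : ℝ) ^ k * (δ * N) := h1
        _ ≤ (Fintype.card J : ℝ) ^ (2 * m) * (δ * N) := by
            have h9 : (Fintype.card J : ℝ) ^ k ≤ (Fintype.card J : ℝ) ^ (2 * m) := pow_le_pow_right₀ hJ1 hk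
            gcongr
    · rw [abs_mul, abs_of_nonneg hN0]
      refine mul_le_mul_of_nonneg_left (h2.trans ?_) hN0
      rw [hK]
      have h3 : (k.factorial : ℝ) ≤ ((2 * m).factorial : ℝ) := by exact_mod_cast Nat.factorial_le hk
      calc (k.factorial : ℝ) * (20 / s) ≤ ((2 * m).factorial : ℝ) * (20 / s) := by gcongr
        _ = ((2 * m).factorial : ℝ) * 20 / s := by ring
  have hfin := hCm S (fun n => SS f (ρ n) / s) E hE0 hmom t
  have e : S.filter (fun n => SS f (ρ n) / s ≤ t) = S.filter (fun n => SS f (ρ n) ≤ t * √(VV f)) := by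
    apply filter_congr
    intro n _
    rw [div_le_iff₀ hs0, hs]
  rw [e, ← hN] at hfin
  rw [← hN]
  refine hfin.trans ?_
  have h1 : Cm * E ≤ ε / 2 * N := by
    rw [hE, mul_add]
    have h2 : Cm * (N * (K / s)) ≤ ε / 4 * N := by
      have h3 : Cm * (K / s) ≤ ε / 4 := by
        rw [mul_div_assoc', div_le_iff₀ hs0]
        rw [div_le_iff₀ hε] at hsK
        linarith
      calc Cm * (N * (K / s)) = (Cm * (K / s)) * N := by ring
        _ ≤ ε / 4 * N := by gcongr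
    have h4 : Cm * ((Fintype.card J : ℝ) ^ (2 * m) * (δ * N)) ≤ ε / 4 * N := by
      have h5 : Cm * ((Fintype.card J : ℝ) ^ (2 * m) * δ) ≤ ε / 4 := by
        calc Cm * ((Fintype.card J : ℝ) ^ (2 * m) * δ) ≤ (Cm + 1) * (ε / (4 * (Cm + 1))) := by
              gcongr
              linarith
          _ = ε / 4 := by field_simp
      calc Cm * ((Fintype.card J : ℝ) ^ (2 * m) * (δ * N)) = (Cm * ((Fintype.card J : ℝ) ^ (2 * m) * δ)) * N := by ring
        _ ≤ ε / 4 * N := by gcongr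
    linarith
  have h2 : 12500 / √(m : ℝ) * N ≤ ε / 2 * N := by gcongr
  linarith

end Pool.Agent.K4H16.CG
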