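import Mathlib

/-!
# Sums of independent bounded functions on finite sets: the Laplace transform
-/

set_option autoImplicit false

namespace Pool.Agent.K4H16.CG

open Finset Complex

/-- the mean of a function on a finite set -/
noncomputable def avg {R : Type*} [Fintype R] (g : R → ℝ) : ℝ := (∑ b, g b) / (Fintype.card R : ℝ)

lemma avg_sq_nonneg {R : Type*} [Fintype R] (g : R → ℝ) : 0 ≤ avg (fun b => g b ^ 2) := by
  unfold avg; positivity

lemma avg_abs_le_one {R : Type*} [Fintype R] [Nonempty R] (g : R → ℝ) (hg : ∀ b, |g b| ≤ 1) : |avg g| ≤ 1 := by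
  unfold avg
  have hp0 : (0 : ℝ) < Fintype.card R := by exact_mod_cast Fintype.card_pos
  rw [abs_div, abs_of_pos hp0, div_le_one hp0]
  refine (abs_sum_le_sum_abs _ _).trans ?_
  calc ∑ b, |g b| ≤ ∑ _b : R, (1 : ℝ) := sum_le_sum fun b _ => hg b
    _ = Fintype.card R := by simp

lemma avg_sq_le_one {R : Type*} [Fintype R] [Nonempty R] (g : R → ℝ) (hg : ∀ b, |g b| ≤ 1) :
    avg (fun b => g b ^ 2) ≤ 1 := by
  refine (le_abs_self _).trans (avg_abs_le_one _ fun b => ?_)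
  rw [abs_pow]
  exact pow_le_one₀ (abs_nonneg _) (hg b)

section sums

variable {J : Type} [Fintype J] [DecidableEq J] {R : J → Type} [∀ j, Fintype (R j)]

/-- the variance -/
noncomputable def VV (f : ∀ j, R j → ℝ) : ℝ := ∑ j, avg (fun b => f j b ^ 2)

/-- the sum of the values -/
noncomputable def SS (f : ∀ j, R j → ℝ) (ω : ∀ j, R j) : ℝ := ∑ j, f j (ω j)

end sums

lemma prod_diff {ι : Type*} (S : Finset ι) (a b : ι → ℂ) (M : ι → ℝ) (hM : ∀ i ∈ S, 1 ≤ M i)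
    (ha : ∀ i ∈ S, ‖a i‖ ≤ M i) (hb : ∀ i ∈ S, ‖b i‖ ≤ M i) :
    ‖∏ i ∈ S, a i - ∏ i ∈ S, b i‖ ≤ (∏ i ∈ S, M i) * ∑ i ∈ S, ‖a i - b i‖ := by
  classical
  induction S using Finset.induction_on with
  | empty => simp
  | insert p S hp ih =>
    have ih' := ih (fun i hi => hM i (mem_insert_of_mem hi)) (fun i hi => ha i (mem_insert_of_mem hi))
      (fun i hi => hb i (mem_insert_of_mem hi))
    have hMp := hM p (mem_insert_self _ _)
    have hap := ha p (mem_insert_self _ _)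
    have hpos : 1 ≤ ∏ i ∈ S, M i := by
      have : ∏ i ∈ S, (1 : ℝ) ≤ ∏ i ∈ S, M i :=
        prod_le_prod (fun _ _ => zero_le_one) (fun i hi => hM i (mem_insert_of_mem hi))
      simpa using this
    have hB : ‖∏ i ∈ S, b i‖ ≤ ∏ i ∈ S, M i := by
      rw [norm_prod]
      exact prod_le_prod (fun _ _ => norm_nonneg _) (fun i hi => hb i (mem_insert_of_mem hi))
    rw [prod_insert hp, prod_insert hp, prod_insert hp, sum_insert hp]
    have h1 : a p * ∏ i ∈ S, a i - b p * ∏ i ∈ S, b i =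
        a p * (∏ i ∈ S, a i - ∏ i ∈ S, b i) + (a p - b p) * ∏ i ∈ S, b i := by ring
    rw [h1]
    have hsum : 0 ≤ ∑ i ∈ S, ‖a i - b i‖ := sum_nonneg fun _ _ => norm_nonneg _
    have hd : 0 ≤ ‖a p - b p‖ := norm_nonneg _
    calc ‖a p * (∏ i ∈ S, a i - ∏ i ∈ S, b i) + (a p - b p) * ∏ i ∈ S, b i‖
        ≤ ‖a p‖ * ‖∏ i ∈ S, a i - ∏ i ∈ S, b i‖ + ‖a p - b p‖ * ‖∏ i ∈ S, b i‖ := by
          refine (norm_add_le _ _).trans ?_
          rw [norm_mul, norm_mul]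
      _ ≤ M p * ((∏ i ∈ S, M i) * ∑ i ∈ S, ‖a i - b i‖) + ‖a p - b p‖ * ∏ i ∈ S, M i := by
          gcongr
      _ ≤ M p * (∏ i ∈ S, M i) * (‖a p - b p‖ + ∑ i ∈ S, ‖a i - b i‖) := by
          have h2 : ‖a p - b p‖ * ∏ i ∈ S, M i ≤ M p * (‖a p - b p‖ * ∏ i ∈ S, M i) := by
            apply le_mul_of_one_le_left (by positivity) hMp
          nlinarith

/-- one prime -/
lemma one_prime {R : Type*} [Fintype R] [Nonempty R] (g : R → ℝ) (hg : ∀ b, |g b| ≤ 1) (h0 : avg g = 0) (w : ℂ) (hw : ‖w‖ ≤ 1) :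
    ‖(∑ b, cexp (w * (g b : ℂ))) / (Fintype.card R : ℂ) - (1 + w ^ 2 / 2 * (avg (fun b => g b ^ 2) : ℂ))‖ ≤
      ‖w‖ ^ 3 * avg (fun b => g b ^ 2) := by
  have hp0 : (0 : ℝ) < Fintype.card R := by exact_mod_cast Fintype.card_pos
  have hpC : (Fintype.card R : ℂ) ≠ 0 := by exact_mod_cast hp0.ne'
  have hsum0 : ∑ b, g b = 0 := by
    unfold avg at h0
    rw [div_eq_zero_iff] at h0
    rcases h0 with h | h
    · exact h
    · exact absurd h hp0.ne'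
  have h1 : (∑ b, cexp (w * (g b : ℂ))) / (Fintype.card R : ℂ) - (1 + w ^ 2 / 2 * (avg (fun b => g b ^ 2) : ℂ)) =
      (∑ b, (cexp (w * (g b : ℂ)) - (1 + w * (g b : ℂ) + (w * (g b : ℂ)) ^ 2 / 2))) / (Fintype.card R : ℂ) := by
    rw [sum_sub_distrib, sum_add_distrib, sum_add_distrib]
    have e1 : ∑ b, w * (g b : ℂ) = 0 := by
      rw [← mul_sum, ← ofReal_sum, hsum0]; simp
    have e2 : ∑ b, (w * (g b : ℂ)) ^ 2 / 2 = w ^ 2 / 2 * ((∑ b, g b ^ 2 : ℝ) : ℂ) := by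
      push_cast
      rw [mul_sum]
      refine sum_congr rfl fun b _ => ?_
      ring
    rw [e1, e2]
    unfold avg
    push_cast
    simp only [sum_const, card_univ, nsmul_eq_mul, mul_one, add_zero]
    field_simp
  rw [h1, norm_div, Complex.norm_natCast, div_le_iff₀ hp0]
  calc ‖∑ b, (cexp (w * (g b : ℂ)) - (1 + w * (g b : ℂ) + (w * (g b : ℂ)) ^ 2 / 2))‖
      ≤ ∑ b, ‖w‖ ^ 3 * g b ^ 2 := by
        refine (norm_sum_le _ _).trans (sum_le_sum fun b _ => ?_)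
        have hb := hg b
        have hb0 := abs_nonneg (g b)
        have hx : ‖w * (g b : ℂ)‖ ≤ 1 := by
          rw [norm_mul, norm_real, Real.norm_eq_abs]
          nlinarith [norm_nonneg w]
        have h2 := Complex.exp_bound hx (n := 3) (by norm_num)
        have h3 : ∑ m ∈ range 3, (w * (g b : ℂ)) ^ m / (m.factorial : ℂ) =
            1 + w * (g b : ℂ) + (w * (g b : ℂ)) ^ 2 / 2 := by
          simp [sum_range_succ, Nat.factorial]
        rw [h3] at h2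
        refine h2.trans ?_
        have h4 : ‖w * (g b : ℂ)‖ ^ 3 = ‖w‖ ^ 3 * |g b| ^ 3 := by
          rw [norm_mul, norm_real, Real.norm_eq_abs, mul_pow]
        rw [h4]
        have h5 : |g b| ^ 3 ≤ g b ^ 2 := by
          rw [← sq_abs]
          nlinarith [sq_nonneg (|g b|)]
        have h6 : ((Nat.succ 3 : ℕ) : ℝ) * ((Nat.factorial 3 : ℕ) * (3 : ℕ) : ℝ)⁻¹ ≤ 1 := by
          norm_num [Nat.factorial]
        have h7 : 0 ≤ ‖w‖ ^ 3 * |g b| ^ 3 := by positivity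
        calc ‖w‖ ^ 3 * |g b| ^ 3 * (((Nat.succ 3 : ℕ) : ℝ) * ((Nat.factorial 3 : ℕ) * (3 : ℕ) : ℝ)⁻¹)
            ≤ ‖w‖ ^ 3 * |g b| ^ 3 * 1 := by gcongr
          _ ≤ ‖w‖ ^ 3 * g b ^ 2 := by rw [mul_one]; gcongr
    _ = ‖w‖ ^ 3 * avg (fun b => g b ^ 2) * Fintype.card R := by
        rw [← mul_sum]
        unfold avg
        field_simp

variable {J : Type} [Fintype J] [DecidableEq J] {R : J → Type} [∀ j, Fintype (R j)] [∀ j, Nonempty (R j)]

/-- the Laplace transform over the product -/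
lemma laplace (f : ∀ j, R j → ℝ) (w : ℂ) :
    (∑ ω : (∀ j, R j), cexp (w * (SS f ω : ℂ))) / (Fintype.card (∀ j, R j) : ℂ) =
      ∏ j, ((∑ b, cexp (w * (f j b : ℂ))) / (Fintype.card (R j) : ℂ)) := by
  rw [prod_div_distrib, Fintype.card_pi]
  push_cast
  congr 1
  rw [Finset.prod_univ_sum, Fintype.piFinset_univ]
  refine sum_congr rfl fun ω _ => ?_
  unfold SS
  push_cast
  rw [mul_sum, Complex.exp_sum]

/-- **The Laplace transform of the normalised sum is close to that of the normal law.** -/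
theorem laplace_close (f : ∀ j, R j → ℝ) (hf : ∀ j b, |f j b| ≤ 1)
    (h0 : ∀ j, avg (f j) = 0) (hV : 1 ≤ VV f) (z : ℂ) (hz : ‖z‖ ≤ 1) :
    ‖(∑ ω : (∀ j, R j), cexp (z / (√(VV f) : ℝ) * (SS f ω : ℂ))) / (Fintype.card (∀ j, R j) : ℂ) -
      cexp (z ^ 2 / 2)‖ ≤ 20 / √(VV f) := by
  obtain ⟨V, hVd⟩ : ∃ V : ℝ, V = VV f := ⟨_, rfl⟩
  obtain ⟨s, hs⟩ : ∃ s : ℝ, s = √V := ⟨_, rfl⟩
  rw [← hVd] at hV ⊢
  rw [← hs]
  have hs1 : 1 ≤ s := by rw [hs]; exact Real.one_le_sqrt.2 hV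
  have hs0 : 0 < s := by linarith
  have hss : s ^ 2 = V := by rw [hs]; exact Real.sq_sqrt (by linarith)
  have hsC : (s : ℂ) ≠ 0 := by exact_mod_cast hs0.ne'
  have hssC : (s : ℂ) ^ 2 = (V : ℂ) := by exact_mod_cast hss
  obtain ⟨w, hw⟩ : ∃ w : ℂ, w = z / (s : ℂ) := ⟨_, rfl⟩
  have hwn : ‖w‖ ≤ 1 / s := by
    rw [hw, norm_div, norm_real, Real.norm_eq_abs, abs_of_pos hs0]
    gcongr
  have hw1 : ‖w‖ ≤ 1 := hwn.trans (by rw [div_le_one hs0]; exact hs1)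
  have hw0 := norm_nonneg w
  rw [← hw, laplace f w]
  obtain ⟨v, hv⟩ : ∃ v : J → ℝ, v = fun j => avg (fun b => f j b ^ 2) := ⟨_, rfl⟩
  have hv0 : ∀ p, 0 ≤ v p := fun p => by rw [hv]; exact avg_sq_nonneg _
  have hv1 : ∀ p, v p ≤ 1 := fun p => by
    rw [hv]; exact avg_sq_le_one _ (hf p)
  have hsumv : ∑ p, v p = V := by rw [hVd, hv]; rfl
  have hexp : cexp (z ^ 2 / 2) = ∏ p, cexp (w ^ 2 / 2 * (v p : ℂ)) := by
    rw [← Complex.exp_sum, ← mul_sum, ← ofReal_sum, hsumv, hw, div_pow, hssC]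
    have hVC : (V : ℂ) ≠ 0 := by
      have : V ≠ 0 := by linarith
      exact_mod_cast this
    congr 1
    field_simp
  rw [hexp]
  have hone : ∀ p, ‖(∑ b, cexp (w * (f p b : ℂ))) / (Fintype.card (R p) : ℂ) - (1 + w ^ 2 / 2 * (v p : ℂ))‖ ≤ ‖w‖ ^ 3 * v p := by
    intro p
    rw [hv]
    exact one_prime (f p) (hf p) (h0 p) w hw1
  have hwv : ∀ p, ‖w ^ 2 / 2 * (v p : ℂ)‖ = ‖w‖ ^ 2 / 2 * v p := by
    intro p
    rw [norm_mul, norm_div, norm_pow, norm_real, Real.norm_eq_abs, abs_of_nonneg (hv0 p)]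
    norm_num
  have hw2 : ‖w‖ ^ 2 ≤ 1 / V := by
    rw [← hss, ← one_div_pow]
    exact pow_le_pow_left₀ hw0 hwn 2
  have hw3 : ‖w‖ ^ 3 ≤ 1 / (V * s) := by
    calc ‖w‖ ^ 3 = ‖w‖ ^ 2 * ‖w‖ := by ring
      _ ≤ 1 / V * (1 / s) := by
          apply mul_le_mul hw2 hwn hw0 (by positivity)
      _ = 1 / (V * s) := by rw [div_mul_div_comm, one_mul]
  have hb : ∀ p, ‖cexp (w ^ 2 / 2 * (v p : ℂ)) - (1 + w ^ 2 / 2 * (v p : ℂ))‖ ≤ ‖w‖ ^ 3 * v p := by
    intro p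
    have h1 : ‖w ^ 2 / 2 * (v p : ℂ)‖ ≤ 1 := by
      rw [hwv]
      have := hv1 p
      have := hv0 p
      nlinarith [sq_nonneg ‖w‖, pow_le_one₀ hw0 hw1 (n := 2)]
    have h2 := Complex.norm_exp_sub_one_sub_id_le h1
    have h3 : cexp (w ^ 2 / 2 * (v p : ℂ)) - (1 + w ^ 2 / 2 * (v p : ℂ)) =
        cexp (w ^ 2 / 2 * (v p : ℂ)) - 1 - w ^ 2 / 2 * (v p : ℂ) := by ring
    rw [h3]
    refine h2.trans ?_
    rw [hwv]
    have h4 := hv1 p
    have h5 := hv0 p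
    have h6 : v p ^ 2 ≤ v p := by nlinarith
    have h7 : ‖w‖ ^ 4 ≤ ‖w‖ ^ 3 := pow_le_pow_of_le_one hw0 hw1 (by norm_num)
    calc (‖w‖ ^ 2 / 2 * v p) ^ 2 = ‖w‖ ^ 4 * v p ^ 2 / 4 := by ring
      _ ≤ ‖w‖ ^ 3 * v p / 4 := by gcongr
      _ ≤ ‖w‖ ^ 3 * v p := by
          have : 0 ≤ ‖w‖ ^ 3 * v p := by positivity
          linarith
  have hM : ∀ p, (1 : ℝ) ≤ Real.exp (2 / V * v p) := by
    intro p
    apply Real.one_le_exp
    have := hv0 p
    positivity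
  have hlow : ∀ p, 1 + ‖w‖ ^ 2 / 2 * v p + ‖w‖ ^ 3 * v p ≤ Real.exp (2 / V * v p) := by
    intro p
    have h1 := Real.add_one_le_exp (2 / V * v p)
    have h2 := hv0 p
    have h3 : ‖w‖ ^ 3 ≤ 1 / V := (pow_le_pow_of_le_one hw0 hw1 (by norm_num : 2 ≤ 3)).trans hw2
    have h4 : ‖w‖ ^ 2 / 2 * v p ≤ 1 / V * v p := by
      have : ‖w‖ ^ 2 / 2 ≤ 1 / V := by
        have := sq_nonneg ‖w‖
        linarith
      gcongr
    have h5 : ‖w‖ ^ 3 * v p ≤ 1 / V * v p := by gcongr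
    have h6 : 2 / V * v p = 1 / V * v p + 1 / V * v p := by ring
    linarith
  have hbound1 : ∀ p, ‖(∑ b, cexp (w * (f p b : ℂ))) / (Fintype.card (R p) : ℂ)‖ ≤ Real.exp (2 / V * v p) := by
    intro p
    refine le_trans ?_ (hlow p)
    have h1 := hone p
    have h2 : ‖(1 : ℂ) + w ^ 2 / 2 * (v p : ℂ)‖ ≤ 1 + ‖w‖ ^ 2 / 2 * v p := by
      refine (norm_add_le _ _).trans ?_
      rw [hwv, norm_one]
    have h3 := norm_sub_norm_le ((∑ b, cexp (w * (f p b : ℂ))) / (Fintype.card (R p) : ℂ)) (1 + w ^ 2 / 2 * (v p : ℂ))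
    linarith
  have hbound2 : ∀ p, ‖cexp (w ^ 2 / 2 * (v p : ℂ))‖ ≤ Real.exp (2 / V * v p) := by
    intro p
    refine le_trans ?_ (hlow p)
    have h1 := hb p
    have h2 : ‖(1 : ℂ) + w ^ 2 / 2 * (v p : ℂ)‖ ≤ 1 + ‖w‖ ^ 2 / 2 * v p := by
      refine (norm_add_le _ _).trans ?_
      rw [hwv, norm_one]
    have h3 := norm_sub_norm_le (cexp (w ^ 2 / 2 * (v p : ℂ))) (1 + w ^ 2 / 2 * (v p : ℂ))
    linarith
  have hfin := prod_diff univ (fun p => (∑ b, cexp (w * (f p b : ℂ))) / (Fintype.card (R p) : ℂ))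
    (fun p => cexp (w ^ 2 / 2 * (v p : ℂ))) (fun p => Real.exp (2 / V * v p)) (fun p _ => hM p) (fun p _ => hbound1 p) (fun p _ => hbound2 p)
  refine hfin.trans ?_
  have hV0 : V ≠ 0 := by linarith
  have h1 : ∏ p, Real.exp (2 / V * v p) = Real.exp 2 := by
    rw [← Real.exp_sum, ← mul_sum, hsumv]
    congr 1
    field_simp
  have h2 : ∑ p, ‖(∑ b, cexp (w * (f p b : ℂ))) / (Fintype.card (R p) : ℂ) - cexp (w ^ 2 / 2 * (v p : ℂ))‖ ≤
      2 / s := by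
    calc ∑ p, ‖(∑ b, cexp (w * (f p b : ℂ))) / (Fintype.card (R p) : ℂ) - cexp (w ^ 2 / 2 * (v p : ℂ))‖
        ≤ ∑ p, 2 / (V * s) * v p := by
          apply sum_le_sum
          intro p _
          have e : (∑ b, cexp (w * (f p b : ℂ))) / (Fintype.card (R p) : ℂ) - cexp (w ^ 2 / 2 * (v p : ℂ)) =
              ((∑ b, cexp (w * (f p b : ℂ))) / (Fintype.card (R p) : ℂ) - (1 + w ^ 2 / 2 * (v p : ℂ))) -
              (cexp (w ^ 2 / 2 * (v p : ℂ)) - (1 + w ^ 2 / 2 * (v p : ℂ))) := by ring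
          rw [e]
          refine (norm_sub_le _ _).trans ?_
          have h3 := hone p
          have h4 := hb p
          have h5 : ‖w‖ ^ 3 * v p ≤ 1 / (V * s) * v p := by
            have := hv0 p
            gcongr
          have h6 : 2 / (V * s) * v p = 1 / (V * s) * v p + 1 / (V * s) * v p := by ring
          linarith
      _ = 2 / s := by
          rw [← mul_sum, hsumv]
          field_simp
  rw [h1]
  have h3 : Real.exp 2 ≤ 8 := by
    have := Real.exp_one_lt_d9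
    have h4 : Real.exp 2 = Real.exp 1 ^ 2 := by rw [← Real.exp_nat_mul]; norm_num
    rw [h4]
    nlinarith [Real.exp_pos 1]
  calc Real.exp 2 * ∑ p, ‖(∑ b, cexp (w * (f p b : ℂ))) / (Fintype.card (R p) : ℂ) - cexp (w ^ 2 / 2 * (v p : ℂ))‖
      ≤ 8 * (2 / s) := by gcongr
    _ ≤ 20 / s := by
        rw [mul_div_assoc']
        gcongr
        norm_num

end Pool.Agent.K4H16.CG
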