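import Pool.Agent.K4H16.CG.Clt

/-!
# The characteristic function of a sum of local functions over a well distributed family
-/

set_option autoImplicit false

namespace Pool.Agent.K4H16.CG

open Finset ProbabilityTheory MeasureTheory

/-- the moments of the normalised sum are close to the moments of the normal law -/
theorem mom_bound (m : ℕ) : ∃ K : ℝ, 0 ≤ K ∧
    ∀ (J : Type) [Fintype J] [DecidableEq J] (R : J → Type) [∀ j, Fintype (R j)] [∀ j, Nonempty (R j)]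
      (f : ∀ j, R j → ℝ), (∀ j b, |f j b| ≤ 1) → (∀ j, avg (f j) = 0) → 1 ≤ VV f →
    ∀ (ι : Type) (s : Finset ι) (ρ : ι → ∀ j, R j) (δ : ℝ), 0 ≤ δ → Equi s ρ (2 * m) δ →
      ∀ k, 1 ≤ k → k ≤ 2 * m → |Pool.Agent.K4H4.GL.Lam s (fun n => SS f (ρ n) / √(VV f)) (fun z => z ^ k)| ≤
        s.card * (K / √(VV f)) + (Fintype.card J : ℝ) ^ (2 * m) * (δ * s.card) := by
  obtain ⟨K, hK⟩ : ∃ K : ℝ, K = ((2 * m).factorial : ℝ) * 20 := ⟨_, rfl⟩
  have hK0 : 0 ≤ K := by rw [hK]; positivity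
  refine ⟨K, hK0, ?_⟩
  intro J _ _ R _ _ f hf h0 hV1 ι S ρ δ hδ heq k _ hk
  obtain ⟨s, hs⟩ : ∃ s : ℝ, s = √(VV f) := ⟨_, rfl⟩
  have hs1 : 1 ≤ s := by rw [hs]; exact Real.one_le_sqrt.2 hV1
  have hs0 : 0 < s := by linarith
  obtain ⟨N, hN⟩ : ∃ N : ℝ, N = S.card := ⟨_, rfl⟩
  have hN0 : (0 : ℝ) ≤ N := by rw [hN]; exact Nat.cast_nonneg _
  have hJ1 : (1 : ℝ) ≤ Fintype.card J := by
    have h1 : 0 < Fintype.card J := by
      rw [Fintype.card_pos_iff]
      by_contra hcon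
      rw [not_nonempty_iff] at hcon
      have : VV f = 0 := by unfold VV; simp
      linarith
    exact_mod_cast h1
  unfold Pool.Agent.K4H4.GL.Lam
  have h1 := family_moment S ρ k δ hδ (fun T hT h hh => heq T (hT.trans hk) h hh) f hf
  have h2 := product_moment k f hf h0 hV1
  rw [← hs] at h2 ⊢
  obtain ⟨Q, hQ⟩ : ∃ Q : ℕ, Q = Fintype.card (∀ j, R j) := ⟨_, rfl⟩
  rw [← hQ, ← hN] at h1
  rw [← hQ] at h2
  have hQ0 : (0 : ℝ) < Q := by
    have : 0 < Q := by rw [hQ]; exact Fintype.card_pos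
    exact_mod_cast this
  have hsk : 1 ≤ s ^ k := one_le_pow₀ hs1
  have hsk0 : 0 < s ^ k := by positivity
  have e1 : ∑ n ∈ S, (SS f (ρ n) / s) ^ k = (∑ n ∈ S, SS f (ρ n) ^ k) / s ^ k := by
    rw [sum_div]
    exact sum_congr rfl fun n _ => div_pow _ _ _
  have e2 : ∑ ω : (∀ j, R j), (SS f ω / s) ^ k = (∑ ω : (∀ j, R j), SS f ω ^ k) / s ^ k := by
    rw [sum_div]
    exact sum_congr rfl fun n _ => div_pow _ _ _
  have e3 : ∑ n ∈ S, (SS f (ρ n) / s) ^ k - N * gm k =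
      (∑ n ∈ S, SS f (ρ n) ^ k - N / Q * ∑ ω : (∀ j, R j), SS f ω ^ k) / s ^ k +
      N * ((∑ ω : (∀ j, R j), (SS f ω / s) ^ k) / Q - gm k) := by
    rw [e1, e2]
    field_simp
    ring
  rw [← hN]
  change |∑ n ∈ S, (SS f (ρ n) / s) ^ k - N * gm k| ≤ _
  rw [e3, add_comm (N * (K / s))]
  refine (abs_add_le _ _).trans (add_le_add ?_ ?_)
  · rw [abs_div, abs_of_pos hsk0]
    calc |∑ n ∈ S, SS f (ρ n) ^ k - N / Q * ∑ ω : (∀ j, R j), SS f ω ^ k| / s ^ k
        ≤ |∑ n ∈ S, SS f (ρ n) ^ k - N / Q * ∑ ω : (∀ j, R j), SS f ω ^ k| := div_le_self (abs_nonneg _) hsk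
      _ ≤ (Fintype.card J : ℝ) ^ k * (δ * N) := h1
      _ ≤ (Fintype.card J : ℝ) ^ (2 * m) * (δ * N) := by
          have h9 : (Fintype.card J : ℝ) ^ k ≤ (Fintype.card J : ℝ) ^ (2 * m) := pow_le_pow_right₀ hJ1 hk
          gcongr
  · rw [abs_mul, abs_of_nonneg hN0]
    refine mul_le_mul_of_nonneg_left (h2.trans ?_) hN0
    rw [hK]
    have h3 : (k.factorial : ℝ) ≤ ((2 * m).factorial : ℝ) := by exact_mod_cast Nat.factorial_le hk
    calc (k.factorial : ℝ) * (20 / s) ≤ ((2 * m).factorial : ℝ) * (20 / s) := by gcongr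
      _ = ((2 * m).factorial : ℝ) * 20 / s := by ring

lemma gauss_char (u : ℝ) : ∫ z, Complex.exp (Complex.I * ((u * z : ℝ) : ℂ)) ∂(gaussianReal 0 1) =
    ((Real.exp (-(u ^ 2 / 2)) : ℝ) : ℂ) := by
  have h := charFun_gaussianReal (μ := 0) (v := 1) u
  rw [charFun_apply_real] at h
  have e : (fun z : ℝ => Complex.exp (Complex.I * ((u * z : ℝ) : ℂ))) = fun x : ℝ => Complex.exp ((u : ℂ) * (x : ℂ) * Complex.I) := by
    funext z
    congr 1
    push_cast
    ring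
  rw [e, h]
  push_cast
  congr 1
  simp

lemma gauss_cos (u : ℝ) : ∫ z, Real.cos (u * z) ∂(gaussianReal 0 1) = Real.exp (-(u ^ 2 / 2)) := by
  have h := congrArg Complex.re (gauss_char u)
  rw [Complex.ofReal_re, ← RCLike.re_eq_complex_re, ← integral_re] at h
  · refine Eq.trans (integral_congr_ae (Filter.Eventually.of_forall fun z => ?_)) h
    change Real.cos (u * z) = RCLike.re (Complex.exp (Complex.I * ((u * z : ℝ) : ℂ)))
    rw [RCLike.re_eq_complex_re, mul_comm Complex.I, Complex.exp_ofReal_mul_I_re]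
  · apply Integrable.of_bound (C := 1)
    · fun_prop
    · refine Filter.Eventually.of_forall fun z => ?_
      rw [mul_comm, Complex.norm_exp_ofReal_mul_I]

lemma gauss_sin (u : ℝ) : ∫ z, Real.sin (u * z) ∂(gaussianReal 0 1) = 0 := by
  have h := congrArg Complex.im (gauss_char u)
  rw [Complex.ofReal_im, ← RCLike.im_eq_complex_im, ← integral_im] at h
  · refine Eq.trans (integral_congr_ae (Filter.Eventually.of_forall fun z => ?_)) h
    change Real.sin (u * z) = RCLike.im (Complex.exp (Complex.I * ((u * z : ℝ) : ℂ)))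
    rw [RCLike.im_eq_complex_im, mul_comm Complex.I, Complex.exp_ofReal_mul_I_im]
  · apply Integrable.of_bound (C := 1)
    · fun_prop
    · refine Filter.Eventually.of_forall fun z => ?_
      rw [mul_comm, Complex.norm_exp_ofReal_mul_I]

/-- **The characteristic function.** -/
theorem char1 (U ε : ℝ) (hε : 0 < ε) : ∃ (k : ℕ) (η V₀ : ℝ), 0 < η ∧ 1 ≤ V₀ ∧
    ∀ (J : Type) [Fintype J] [DecidableEq J] (R : J → Type) [∀ j, Fintype (R j)] [∀ j, Nonempty (R j)]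
      (f : ∀ j, R j → ℝ), (∀ j b, |f j b| ≤ 1) → (∀ j, avg (f j) = 0) → V₀ ≤ VV f →
    ∀ (ι : Type) (s : Finset ι) (ρ : ι → ∀ j, R j) (δ : ℝ), 0 ≤ δ → Equi s ρ k δ →
      (Fintype.card J : ℝ) ^ k * δ ≤ η → ∀ u : ℝ, |u| ≤ U →
      ‖∑ i ∈ s, Complex.exp (Complex.I * ((u * (SS f (ρ i) / √(VV f)) : ℝ) : ℂ)) -
        (s.card : ℂ) * ((Real.exp (-(u ^ 2 / 2)) : ℝ) : ℂ)‖ ≤ ε * s.card := by
  obtain ⟨m1, hm1⟩ : ∃ m : ℕ, (2 * U) ^ 2 < m := exists_nat_gt _
  obtain ⟨m2, hm2⟩ : ∃ m : ℕ, (35 / 100 : ℝ) ^ m < ε / 8 := exists_pow_lt_of_lt_one (by positivity) (by norm_num)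
  obtain ⟨m, hm⟩ : ∃ m : ℕ, m = m1 + m2 + 1 := ⟨_, rfl⟩
  have hm1' : 1 ≤ m := by omega
  have hU : ∀ u : ℝ, |u| ≤ U → |u| ≤ √m / 2 := by
    intro u hu
    have h1 : 2 * |u| ≤ √(m : ℝ) := by
      apply Real.le_sqrt_of_sq_le
      have h2 : (2 * |u|) ^ 2 ≤ (2 * U) ^ 2 := by
        apply pow_le_pow_left₀ (by positivity)
        linarith
      have h3 : (m1 : ℝ) ≤ m := by exact_mod_cast (by omega : m1 ≤ m)
      linarith
    linarith
  have h35 : (35 / 100 : ℝ) ^ m ≤ ε / 8 := by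
    refine le_trans (pow_le_pow_of_le_one (by norm_num) (by norm_num) (by omega : m2 ≤ m)) hm2.le
  obtain ⟨K, hK0, hK⟩ := mom_bound m
  refine ⟨2 * m, ε / (16 * Real.exp m), max 1 ((16 * K * Real.exp m / ε) ^ 2), by positivity, le_max_left _ _, ?_⟩
  intro J _ _ R _ _ f hf h0 hV ι S ρ δ hδ heq hJ u hu
  have hV1 : 1 ≤ VV f := (le_max_left _ _).trans hV
  obtain ⟨E, hE⟩ : ∃ E : ℝ, E = S.card * (K / √(VV f)) + (Fintype.card J : ℝ) ^ (2 * m) * (δ * S.card) := ⟨_, rfl⟩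
  have hs1 : 1 ≤ √(VV f) := Real.one_le_sqrt.2 hV1
  have hs0 : 0 < √(VV f) := by linarith
  have hE0 : 0 ≤ E := by rw [hE]; positivity
  have hmom := hK J R f hf h0 hV1 ι S ρ δ hδ heq
  rw [← hE] at hmom
  have hcos := Pool.Agent.K4H4.GL.Lam_cos' S (fun n => SS f (ρ n) / √(VV f)) m E hE0 hmom hm1' u 0 (hU u hu)
  have hsin := Pool.Agent.K4H4.GL.Lam_cos' S (fun n => SS f (ρ n) / √(VV f)) m E hE0 hmom hm1' u (-(Real.pi / 2)) (hU u hu)
  unfold Pool.Agent.K4H4.GL.Lam at hcos hsin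
  have e1 : (fun x : ℝ => Real.cos (u * x + 0)) = fun x => Real.cos (u * x) := by
    funext x; rw [add_zero]
  have e2 : (fun x : ℝ => Real.cos (u * x + -(Real.pi / 2))) = fun x => Real.sin (u * x) := by
    funext x
    rw [← sub_eq_add_neg, Real.cos_sub_pi_div_two]
  simp only [add_zero] at hcos
  have e3 : ∀ x : ℝ, Real.cos (u * x + -(Real.pi / 2)) = Real.sin (u * x) := fun x => congrFun e2 x
  simp only [e3] at hsin
  rw [gauss_cos] at hcos
  rw [gauss_sin, mul_zero, sub_zero] at hsin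
  have hbound : 2 * E * Real.exp m + 2 * (S.card : ℝ) * (35 / 100) ^ m ≤ ε / 2 * S.card := by
    have hc : (0 : ℝ) ≤ S.card := Nat.cast_nonneg _
    have hem : 0 < Real.exp m := Real.exp_pos _
    have h1 : E ≤ ε / (8 * Real.exp m) * S.card := by
      rw [hE]
      have h2 : K / √(VV f) ≤ ε / (16 * Real.exp m) := by
        have h3 : 16 * K * Real.exp m / ε ≤ √(VV f) := Real.le_sqrt_of_sq_le ((le_max_right _ _).trans hV)
        rw [div_le_iff₀ hε] at h3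
        rw [div_le_div_iff₀ hs0 (by positivity)]
        linarith
      have h4 : (Fintype.card J : ℝ) ^ (2 * m) * (δ * S.card) ≤ ε / (16 * Real.exp m) * S.card := by
        rw [← mul_assoc]
        gcongr
      have h5 : (S.card : ℝ) * (K / √(VV f)) ≤ ε / (16 * Real.exp m) * S.card := by
        rw [mul_comm]
        gcongr
      have h6 : ε / (8 * Real.exp m) * (S.card : ℝ) = ε / (16 * Real.exp m) * S.card + ε / (16 * Real.exp m) * S.card := by
        field_simp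
        ring
      linarith
    have h7 : 2 * E * Real.exp m ≤ ε / 4 * S.card := by
      calc 2 * E * Real.exp m ≤ 2 * (ε / (8 * Real.exp m) * S.card) * Real.exp m := by gcongr
        _ = ε / 4 * S.card := by
            field_simp
            ring
    have h8 : 2 * (S.card : ℝ) * (35 / 100) ^ m ≤ ε / 4 * S.card := by
      calc 2 * (S.card : ℝ) * (35 / 100) ^ m ≤ 2 * (S.card : ℝ) * (ε / 8) := by gcongr
        _ = ε / 4 * S.card := by ring
    linarith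
  have hre : (∑ i ∈ S, Complex.exp (Complex.I * ((u * (SS f (ρ i) / √(VV f)) : ℝ) : ℂ)) -
        (S.card : ℂ) * ((Real.exp (-(u ^ 2 / 2)) : ℝ) : ℂ)) =
      ((∑ i ∈ S, Real.cos (u * (SS f (ρ i) / √(VV f))) - S.card * Real.exp (-(u ^ 2 / 2)) : ℝ) : ℂ) +
      ((∑ i ∈ S, Real.sin (u * (SS f (ρ i) / √(VV f))) : ℝ) : ℂ) * Complex.I := by
    push_cast
    have h9 : ∀ i ∈ S, Complex.exp (Complex.I * ((u : ℂ) * ((SS f (ρ i) : ℂ) / ((√(VV f) : ℝ) : ℂ)))) =
        Complex.cos ((u : ℂ) * ((SS f (ρ i) : ℂ) / ((√(VV f) : ℝ) : ℂ))) +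
        Complex.sin ((u : ℂ) * ((SS f (ρ i) : ℂ) / ((√(VV f) : ℝ) : ℂ))) * Complex.I := by
      intro i _
      rw [mul_comm Complex.I, Complex.exp_mul_I]
    rw [sum_congr rfl h9, sum_add_distrib, ← sum_mul]
    ring
  rw [hre]
  refine (norm_add_le _ _).trans ?_
  rw [norm_mul, Complex.norm_I, mul_one, Complex.norm_real, Complex.norm_real, Real.norm_eq_abs, Real.norm_eq_abs]
  linarith

end Pool.Agent.K4H16.CG
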