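import Pool.Agent.K4H16.CG.LTosc3

/-!
# Tails of sums over windows, by high moments
-/

set_option autoImplicit false

namespace Pool.Agent.K4H16.CG

open Finset

section model

variable {J : Type} [Fintype J] [DecidableEq J] {R : J → Type} [∀ j, Fintype (R j)] [∀ j, Nonempty (R j)]

lemma moment_model (f : ∀ j, R j → ℝ) (hf : ∀ j b, |f j b| ≤ 1) (h0 : ∀ j, avg (f j) = 0) (k : ℕ) (w : ℝ) (hw0 : 0 < w) (hw : w ≤ 1) :
    EE (fun ω => SS f ω ^ (2 * k)) ≤ 2 * ((2 * k).factorial : ℝ) * (1 / w) ^ (2 * k) * Real.exp (w ^ 2 * VV f) := by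
  have hV := VV_nonneg f
  have h2 : ∀ ω, SS f ω ^ (2 * k) ≤ ((2 * k).factorial : ℝ) * (1 / w) ^ (2 * k) * (Real.exp (w * SS f ω) + Real.exp ((-w) * SS f ω)) := by
    intro ω
    obtain ⟨y, hy⟩ : ∃ y : ℝ, y = w * SS f ω := ⟨_, rfl⟩
    have h3 : |y| ^ (2 * k) / ((2 * k).factorial : ℝ) ≤ Real.exp |y| := Real.pow_div_factorial_le_exp _ (abs_nonneg _) _
    have h4 : Real.exp |y| ≤ Real.exp y + Real.exp (-y) := by
      rcases le_total 0 y with h | h
      · rw [abs_of_nonneg h]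
        have := Real.exp_pos (-y)
        linarith
      · rw [abs_of_nonpos h]
        have := Real.exp_pos y
        linarith
    have h5 : |y| ^ (2 * k) = y ^ (2 * k) := by rw [pow_mul, pow_mul, sq_abs]
    rw [h5, div_le_iff₀ (by positivity)] at h3
    have h6 : SS f ω ^ (2 * k) = (1 / w) ^ (2 * k) * y ^ (2 * k) := by
      rw [hy, ← mul_pow]
      congr 1
      field_simp
    have h7 : (-w) * SS f ω = -y := by rw [hy]; ring
    rw [h6, h7, ← hy]
    have h8 : y ^ (2 * k) ≤ (Real.exp y + Real.exp (-y)) * ((2 * k).factorial : ℝ) :=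
      h3.trans (mul_le_mul_of_nonneg_right h4 (by positivity))
    have h9 : (0 : ℝ) ≤ (1 / w) ^ (2 * k) := by positivity
    calc (1 / w) ^ (2 * k) * y ^ (2 * k) ≤ (1 / w) ^ (2 * k) * ((Real.exp y + Real.exp (-y)) * ((2 * k).factorial : ℝ)) :=
          mul_le_mul_of_nonneg_left h8 h9
      _ = _ := by ring
  refine (EE_le _ _ h2).trans ?_
  rw [EE_mul]
  have h3 : EE (fun ω => Real.exp (w * SS f ω) + Real.exp ((-w) * SS f ω)) =
      EE (fun ω => Real.exp (w * SS f ω)) + EE (fun ω => Real.exp ((-w) * SS f ω)) := by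
    unfold EE
    rw [sum_add_distrib, add_div]
  rw [h3]
  have h4 := EE_exp_le f hf h0 w (by rw [abs_of_pos hw0]; exact hw)
  have h5 := EE_exp_le f hf h0 (-w) (by rw [abs_neg, abs_of_pos hw0]; exact hw)
  rw [abs_neg, neg_sq] at h5
  rw [abs_of_pos hw0] at h4 h5
  have h6 : Real.exp (w ^ 2 / 2 * (1 + w) * VV f) ≤ Real.exp (w ^ 2 * VV f) := by
    apply Real.exp_le_exp.2
    apply mul_le_mul_of_nonneg_right _ hV
    have : 0 ≤ w ^ 2 := sq_nonneg w
    nlinarith
  calc ((2 * k).factorial : ℝ) * (1 / w) ^ (2 * k) * (EE (fun ω => Real.exp (w * SS f ω)) + EE (fun ω => Real.exp ((-w) * SS f ω)))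
      ≤ ((2 * k).factorial : ℝ) * (1 / w) ^ (2 * k) * (2 * Real.exp (w ^ 2 * VV f)) := by
        apply mul_le_mul_of_nonneg_left _ (by positivity)
        linarith
    _ = _ := by ring

end model

variable {n r : ℕ}

open Classical in
/-- the tail of the sum, by the moment of order `2 k` -/
theorem fam_tail (n : ℕ) : ∃ A : ℕ, ∀ (r : ℕ) (W : Fin r → WeierstrassCurve (MvPolynomial (Fin n) ℤ)) (φ : ℕ → (Fin r → Option ℤ) → ℝ),
    (∀ p a, |φ p a| ≤ 1) → ∀ (x k : ℕ) (M : Fin n → ℤ) (N : Fin n → ℕ), 1 ≤ x → 1 ≤ k → (∀ i, x ^ (A * k) ≤ N i) →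
      ∀ w T : ℝ, 0 < w → w ≤ 1 → 0 < T →
      (((box M N).filter (fun v => T ≤ |total W φ x v - mean W φ x|)).card : ℝ) ≤
        3 * ((2 * k).factorial : ℝ) * (2 / (w * T)) ^ (2 * k) * Real.exp (w ^ 2 * (cov W φ φ x / 4)) * (box M N).card := by
  refine ⟨4 + 8 * n, ?_⟩
  intro r W φ hφ x k M N hx hk hN w T hw0 hw hT
  have hxr : (1 : ℝ) ≤ x := by exact_mod_cast hx
  have hx0 : (0 : ℝ) < x := by linarith
  obtain ⟨V, hV⟩ : ∃ V : ℝ, V = VV (lf W φ x) := ⟨_, rfl⟩
  have hV0 : 0 ≤ V := by rw [hV]; exact VV_nonneg _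
  have hVc : cov W φ φ x / 4 = V := by rw [hV, lf_VV]
  rw [hVc]
  have hs : (0 : ℝ) ≤ (box M N).card := Nat.cast_nonneg _
  have hJx : (Fintype.card (Prs x) : ℝ) ≤ x := by exact_mod_cast Prs.card_le x
  have heq := equi_box (fun j : Prs x => (j : ℕ)) (Prs.cop x) x hx (fun j => j.le) (2 * k) (x ^ ((4 + 8 * n) * k)) (by positivity) n M N hN
  have h1 := fam_pow (box M N) (fun v (j : Prs x) i => (v i : ZMod (j : ℕ))) (2 * k) _ (by positivity) heq (lf W φ x)
    (fun j b => lf_abs W φ hφ x j b) (2 * k) le_rfl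
  have hmodel := moment_model (lf W φ x) (fun j b => lf_abs W φ hφ x j b) (fun j => lf_avg W φ x j) k w hw0 hw
  rw [← hV] at hmodel
  -- the error
  have herr : (Fintype.card (Prs x) : ℝ) ^ (2 * k) * (n * (2 * (x : ℝ) ^ (2 * k) / ((x ^ ((4 + 8 * n) * k) : ℕ) : ℝ))) ≤ 1 := by
    rcases Nat.lt_or_ge x 2 with h | h
    · have h2 : Fintype.card (Prs x) = 0 := by
        rw [Fintype.card_eq_zero_iff]
        refine ⟨fun j => ?_⟩
        have h3 := j.prime.two_le
        have h4 := j.le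
        omega
      rw [h2]
      have : 2 * k ≠ 0 := by omega
      simp [this]
    · have hx2 : (2 : ℝ) ≤ x := by exact_mod_cast h
      have h3 : 2 * (n : ℝ) ≤ (x : ℝ) ^ (8 * n * k) := by
        have h4 : 2 * n ≤ 2 ^ (8 * n * k) := by
          calc 2 * n ≤ 8 * n * k := by nlinarith
            _ ≤ 2 ^ (8 * n * k) := Nat.lt_two_pow_self.le
        have h5 : (2 : ℝ) * n ≤ 2 ^ (8 * n * k) := by exact_mod_cast h4
        exact h5.trans (pow_le_pow_left₀ (by norm_num) hx2 _)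
      calc (Fintype.card (Prs x) : ℝ) ^ (2 * k) * (n * (2 * (x : ℝ) ^ (2 * k) / ((x ^ ((4 + 8 * n) * k) : ℕ) : ℝ)))
          ≤ (x : ℝ) ^ (2 * k) * (n * (2 * (x : ℝ) ^ (2 * k) / ((x ^ ((4 + 8 * n) * k) : ℕ) : ℝ))) := by gcongr
        _ = 2 * n / (x : ℝ) ^ (8 * n * k) := by
            push_cast
            have e : (x : ℝ) ^ ((4 + 8 * n) * k) = (x : ℝ) ^ (2 * k) * (x : ℝ) ^ (2 * k) * (x : ℝ) ^ (8 * n * k) := by
              rw [← pow_add, ← pow_add]
              congr 1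
              ring
            rw [e]
            field_simp
        _ ≤ 1 := by
            rw [div_le_one (by positivity)]
            exact h3
  obtain ⟨C, hC⟩ : ∃ C : ℝ, C = ((2 * k).factorial : ℝ) * (1 / w) ^ (2 * k) * Real.exp (w ^ 2 * V) := ⟨_, rfl⟩
  have hC1 : 1 ≤ C := by
    have e1 : (1 : ℝ) ≤ ((2 * k).factorial : ℝ) := by exact_mod_cast Nat.one_le_iff_ne_zero.2 (Nat.factorial_ne_zero _)
    have e2 : (1 : ℝ) ≤ (1 / w) ^ (2 * k) := one_le_pow₀ (by rw [le_div_iff₀ hw0]; linarith)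
    have e3 : (1 : ℝ) ≤ Real.exp (w ^ 2 * V) := Real.one_le_exp (by positivity)
    rw [hC]
    calc (1 : ℝ) = 1 * 1 * 1 := by ring
      _ ≤ _ := by gcongr
  have h2 : ∑ v ∈ box M N, SS (lf W φ x) (fun (j : Prs x) i => (v i : ZMod (j : ℕ))) ^ (2 * k) ≤ 3 * C * (box M N).card := by
    have h3 := (abs_le.1 h1).2
    have h4 : (Fintype.card (Prs x) : ℝ) ^ (2 * k) * (n * (2 * (x : ℝ) ^ (2 * k) / ((x ^ ((4 + 8 * n) * k) : ℕ) : ℝ)) * (box M N).card) ≤ 1 * (box M N).card := by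
      rw [← mul_assoc]
      gcongr
    have h5 : ((box M N).card : ℝ) * EE (fun ω => SS (lf W φ x) ω ^ (2 * k)) ≤ (box M N).card * (2 * C) := by
      apply mul_le_mul_of_nonneg_left _ hs
      refine hmodel.trans (le_of_eq ?_)
      rw [hC]
      ring
    have h6 : 1 * ((box M N).card : ℝ) ≤ C * (box M N).card := mul_le_mul_of_nonneg_right hC1 hs
    linarith
  have h3 : (((box M N).filter (fun v => T ≤ |total W φ x v - mean W φ x|)).card : ℝ) * (T / 2) ^ (2 * k) ≤
      ∑ v ∈ box M N, SS (lf W φ x) (fun (j : Prs x) i => (v i : ZMod (j : ℕ))) ^ (2 * k) := by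
    calc (((box M N).filter (fun v => T ≤ |total W φ x v - mean W φ x|)).card : ℝ) * (T / 2) ^ (2 * k)
        = ∑ v ∈ (box M N).filter (fun v => T ≤ |total W φ x v - mean W φ x|), (T / 2) ^ (2 * k) := by rw [sum_const, nsmul_eq_mul]
      _ ≤ ∑ v ∈ (box M N).filter (fun v => T ≤ |total W φ x v - mean W φ x|), SS (lf W φ x) (fun (j : Prs x) i => (v i : ZMod (j : ℕ))) ^ (2 * k) := by
          apply sum_le_sum
          intro v hv
          rw [mem_filter] at hv
          rw [lf_SS]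
          have h4 : T / 2 ≤ |(total W φ x v - mean W φ x) / 2| := by
            rw [abs_div, abs_two]
            linarith [hv.2]
          calc (T / 2) ^ (2 * k) ≤ |(total W φ x v - mean W φ x) / 2| ^ (2 * k) := pow_le_pow_left₀ (by positivity) h4 _
            _ = _ := by rw [pow_mul, pow_mul, sq_abs]
      _ ≤ _ := by
          apply sum_le_sum_of_subset_of_nonneg (filter_subset _ _)
          intro _ _ _
          rw [pow_mul]
          positivity
  have h4 := h3.trans h2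
  have hT2 : (0 : ℝ) < (T / 2) ^ (2 * k) := by positivity
  have h5 : (((box M N).filter (fun v => T ≤ |total W φ x v - mean W φ x|)).card : ℝ) ≤ 3 * C * (box M N).card / (T / 2) ^ (2 * k) := by
    rw [le_div_iff₀ hT2]
    exact h4
  refine h5.trans (le_of_eq ?_)
  rw [hC, div_eq_mul_inv, ← inv_pow]
  have e : (2 / (w * T)) ^ (2 * k) = (1 / w) ^ (2 * k) * ((T / 2)⁻¹) ^ (2 * k) := by
    rw [← mul_pow]
    congr 1
    field_simp
  rw [e]
  ring

end Pool.Agent.K4H16.CG
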