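import Pool.Agent.K4H16.CG.IL1

/-!
# The grid of the variances, the oscillation inside a cell, and the dyadic chain
-/

set_option autoImplicit false

namespace Pool.Agent.K4H16.CG

open Finset

variable {n r : ℕ}

/-- the first height at which the variance is at least `t` -/
noncomputable def gr (W : Fin r → WeierstrassCurve (MvPolynomial (Fin n) ℤ)) (φ : ℕ → (Fin r → Option ℤ) → ℝ) (t : ℕ) : ℕ :=
  sInf {y | (t : ℝ) ≤ cov W φ φ y}

lemma gr_le (W : Fin r → WeierstrassCurve (MvPolynomial (Fin n) ℤ)) (φ : ℕ → (Fin r → Option ℤ) → ℝ) (t y : ℕ)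
    (h : (t : ℝ) ≤ cov W φ φ y) : gr W φ t ≤ y := Nat.sInf_le h

lemma gr_ge (W : Fin r → WeierstrassCurve (MvPolynomial (Fin n) ℤ)) (φ : ℕ → (Fin r → Option ℤ) → ℝ) (t : ℕ)
    (h : ∃ y, (t : ℝ) ≤ cov W φ φ y) : (t : ℝ) ≤ cov W φ φ (gr W φ t) := Nat.sInf_mem h

lemma gr_lt (W : Fin r → WeierstrassCurve (MvPolynomial (Fin n) ℤ)) (φ : ℕ → (Fin r → Option ℤ) → ℝ) (hφ : ∀ p a, |φ p a| ≤ 1) (t : ℕ)
    (h : ∃ y, (t : ℝ) ≤ cov W φ φ y) : cov W φ φ (gr W φ t) < t + 1 := by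
  rcases Nat.eq_zero_or_pos (gr W φ t) with h0 | h0
  · rw [h0, cov_zero]
    positivity
  · obtain ⟨a, ha⟩ := Nat.exists_eq_succ_of_ne_zero h0.ne'
    have h1 : ¬ (t : ℝ) ≤ cov W φ φ a := by
      intro h2
      have := gr_le W φ t a h2
      omega
    have h2 := cov_succ W φ hφ a
    rw [ha]
    change cov W φ φ (a + 1) < _
    push Not at h1
    linarith

lemma gr_mono (W : Fin r → WeierstrassCurve (MvPolynomial (Fin n) ℤ)) (φ : ℕ → (Fin r → Option ℤ) → ℝ) (s t : ℕ) (hst : s ≤ t)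
    (h : ∃ y, (t : ℝ) ≤ cov W φ φ y) : gr W φ s ≤ gr W φ t := by
  apply gr_le
  have h1 := gr_ge W φ t h
  have h2 : (s : ℝ) ≤ t := by exact_mod_cast hst
  linarith

/-- the error term -/
noncomputable def err (W : Fin r → WeierstrassCurve (MvPolynomial (Fin n) ℤ)) (φ : ℕ → (Fin r → Option ℤ) → ℝ) (y : ℕ) (v : Fin n → ℤ) : ℝ :=
  total W φ y v - mean W φ y

lemma err_win (W : Fin r → WeierstrassCurve (MvPolynomial (Fin n) ℤ)) (φ : ℕ → (Fin r → Option ℤ) → ℝ) (σ : ℝ) (a b x : ℕ)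
    (hab : a ≤ b) (hb : b ≤ x) (v : Fin n → ℤ) :
    total W (wφ φ σ a b) x v - mean W (wφ φ σ a b) x = σ * (err W φ b v - err W φ a v) := by
  rw [total_wφ W φ σ a b x hab hb, mean_wφ W φ σ a b x hab hb]
  unfold err
  ring

/-- the rarer of the two values -/
noncomputable def rare (W : Fin r → WeierstrassCurve (MvPolynomial (Fin n) ℤ)) (φ : ℕ → (Fin r → Option ℤ) → ℝ) : ℕ → (Fin r → Option ℤ) → ℝ :=
  fun p d => if meanMod p (loc W φ p) ≤ 1 / 2 then φ p d else 1 - φ p d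

lemma rare_abs (W : Fin r → WeierstrassCurve (MvPolynomial (Fin n) ℤ)) (φ : ℕ → (Fin r → Option ℤ) → ℝ) (h01 : ∀ p d, φ p d = 0 ∨ φ p d = 1)
    (p : ℕ) (d : Fin r → Option ℤ) : |rare W φ p d| ≤ 1 := by
  unfold rare
  split_ifs
  · rcases h01 p d with h | h <;> rw [h] <;> norm_num
  · rcases h01 p d with h | h <;> rw [h] <;> norm_num

lemma loc_rare (W : Fin r → WeierstrassCurve (MvPolynomial (Fin n) ℤ)) (φ : ℕ → (Fin r → Option ℤ) → ℝ) (p : ℕ) (v : Fin n → ℤ) :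
    loc W (rare W φ) p v = if meanMod p (loc W φ p) ≤ 1 / 2 then loc W φ p v else 1 - loc W φ p v := rfl

lemma meanMod_one_sub (p : ℕ) [NeZero p] (g : (Fin n → ℤ) → ℝ) : meanMod p (fun c => 1 - g c) = 1 - meanMod p g := by
  rw [meanMod_eq, meanMod_eq]
  have h1 := avg_sub_const (fun b : Fin n → ZMod p => g (rep p b)) 1
  have h2 : avg (fun b : Fin n → ZMod p => 1 - g (rep p b)) = - avg (fun b : Fin n → ZMod p => g (rep p b) - 1) := by
    unfold avg
    rw [← neg_div, ← sum_neg_distrib]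
    congr 1
    apply sum_congr rfl
    intro b _
    ring
  rw [h2, h1]
  ring

lemma vterm01 (W : Fin r → WeierstrassCurve (MvPolynomial (Fin n) ℤ)) (φ : ℕ → (Fin r → Option ℤ) → ℝ) (h01 : ∀ p d, φ p d = 0 ∨ φ p d = 1)
    (p : ℕ) : vterm W φ φ p = meanMod p (loc W φ p) - meanMod p (loc W φ p) * meanMod p (loc W φ p) := by
  unfold vterm
  have e : (fun c => loc W φ p c * loc W φ p c) = loc W φ p := by
    funext c
    unfold loc
    rcases h01 p (fun i => frob (member (W i) c) p) with h | h <;> rw [h] <;> norm_num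
  rw [e]

lemma mean01 (W : Fin r → WeierstrassCurve (MvPolynomial (Fin n) ℤ)) (φ : ℕ → (Fin r → Option ℤ) → ℝ) (h01 : ∀ p d, φ p d = 0 ∨ φ p d = 1)
    (p : ℕ) [NeZero p] : 0 ≤ meanMod p (loc W φ p) ∧ meanMod p (loc W φ p) ≤ 1 := by
  constructor
  · rw [meanMod_eq]
    unfold avg
    apply div_nonneg _ (Nat.cast_nonneg _)
    apply sum_nonneg
    intro b _
    unfold loc
    rcases h01 p (fun i => frob (member (W i) (rep p b)) p) with h | h <;> rw [h] <;> norm_num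
  · rw [meanMod_eq]
    refine (le_abs_self _).trans (avg_abs_le_one _ fun b => ?_)
    unfold loc
    rcases h01 p (fun i => frob (member (W i) (rep p b)) p) with h | h <;> rw [h] <;> norm_num

lemma rare01 (W : Fin r → WeierstrassCurve (MvPolynomial (Fin n) ℤ)) (φ : ℕ → (Fin r → Option ℤ) → ℝ) (h01 : ∀ p d, φ p d = 0 ∨ φ p d = 1)
    (p : ℕ) (d : Fin r → Option ℤ) : rare W φ p d = 0 ∨ rare W φ p d = 1 := by
  unfold rare
  split_ifs
  · exact h01 p d
  · rcases h01 p d with h | h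
    · right; rw [h]; norm_num
    · left; rw [h]; norm_num

lemma vterm_rare (W : Fin r → WeierstrassCurve (MvPolynomial (Fin n) ℤ)) (φ : ℕ → (Fin r → Option ℤ) → ℝ) (h01 : ∀ p d, φ p d = 0 ∨ φ p d = 1)
    (p : ℕ) [NeZero p] : vterm W (rare W φ) (rare W φ) p = vterm W φ φ p ∧ meanMod p (loc W (rare W φ) p) ≤ 2 * vterm W φ φ p := by
  have hm : meanMod p (loc W (rare W φ) p) = if meanMod p (loc W φ p) ≤ 1 / 2 then meanMod p (loc W φ p) else 1 - meanMod p (loc W φ p) := by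
    by_cases h : meanMod p (loc W φ p) ≤ 1 / 2
    · rw [if_pos h]
      congr 1
      funext c
      rw [loc_rare, if_pos h]
    · rw [if_neg h, ← meanMod_one_sub]
      congr 1
      funext c
      rw [loc_rare, if_neg h]
  have h1 := vterm01 W φ h01 p
  have h2 := vterm01 W (rare W φ) (rare01 W φ h01) p
  obtain ⟨h3, h4⟩ := mean01 W φ h01 p
  rw [h2, h1, hm]
  split_ifs with h
  · refine ⟨rfl, ?_⟩
    nlinarith
  · push Not at h
    refine ⟨by ring, ?_⟩
    nlinarith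

/-- the oscillation inside a cell -/
lemma cell (W : Fin r → WeierstrassCurve (MvPolynomial (Fin n) ℤ)) (φ : ℕ → (Fin r → Option ℤ) → ℝ) (h01 : ∀ p d, φ p d = 0 ∨ φ p d = 1)
    (a y b : ℕ) (hay : a ≤ y) (hyb : y ≤ b) (v : Fin n → ℤ) :
    |err W φ y v - err W φ a v| ≤ |err W (rare W φ) b v - err W (rare W φ) a v| + 4 * (cov W φ φ b - cov W φ φ a) := by
  have h1 : err W φ y v - err W φ a v = ∑ p ∈ win a y, (loc W φ p v - meanMod p (loc W φ p)) := by
    rw [sum_sub_distrib, sum_split _ a y hay, sum_split _ a y hay]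
    unfold err total mean
    ring
  have h2 : ∑ p ∈ win a y, |loc W φ p v - meanMod p (loc W φ p)| ≤ ∑ p ∈ win a b, |loc W φ p v - meanMod p (loc W φ p)| := by
    apply sum_le_sum_of_subset_of_nonneg
    · intro p hp
      unfold win at hp ⊢
      rw [mem_filter, mem_Ioc] at hp ⊢
      exact ⟨⟨hp.1.1, hp.1.2.trans hyb⟩, hp.2⟩
    · intro _ _ _
      exact abs_nonneg _
  have h3 : ∑ p ∈ win a b, |loc W φ p v - meanMod p (loc W φ p)| ≤
      ∑ p ∈ win a b, ((loc W (rare W φ) p v - meanMod p (loc W (rare W φ) p)) + 4 * vterm W φ φ p) := by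
    apply sum_le_sum
    intro p hp
    unfold win at hp
    rw [mem_filter] at hp
    haveI : NeZero p := ⟨hp.2.ne_zero⟩
    obtain ⟨_, h4⟩ := vterm_rare W φ h01 p
    obtain ⟨h5, h6⟩ := mean01 W φ h01 p
    have h7 : |loc W φ p v - meanMod p (loc W φ p)| ≤ loc W (rare W φ) p v + meanMod p (loc W (rare W φ) p) := by
      have hm : meanMod p (loc W (rare W φ) p) = if meanMod p (loc W φ p) ≤ 1 / 2 then meanMod p (loc W φ p) else 1 - meanMod p (loc W φ p) := by
        by_cases h : meanMod p (loc W φ p) ≤ 1 / 2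
        · rw [if_pos h]
          congr 1
          funext c
          rw [loc_rare, if_pos h]
        · rw [if_neg h, ← meanMod_one_sub]
          congr 1
          funext c
          rw [loc_rare, if_neg h]
      rw [loc_rare, hm]
      have h8 : loc W φ p v = 0 ∨ loc W φ p v = 1 := h01 _ _
      split_ifs with h
      · rcases h8 with h9 | h9 <;> rw [h9, abs_le] <;> constructor <;> linarith
      · rcases h8 with h9 | h9 <;> rw [h9, abs_le] <;> constructor <;> linarith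
    linarith
  have h4 : ∑ p ∈ win a b, ((loc W (rare W φ) p v - meanMod p (loc W (rare W φ) p)) + 4 * vterm W φ φ p) =
      (err W (rare W φ) b v - err W (rare W φ) a v) + 4 * (cov W φ φ b - cov W φ φ a) := by
    have hab := hay.trans hyb
    rw [sum_add_distrib, sum_sub_distrib, ← mul_sum, sum_split _ a b hab, sum_split _ a b hab, sum_split _ a b hab, ← cov_eq, ← cov_eq]
    unfold err total mean
    ring
  rw [h1]
  refine (abs_sum_le_sum_abs _ _).trans (h2.trans (h3.trans ?_))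
  rw [h4]
  have := le_abs_self (err W (rare W φ) b v - err W (rare W φ) a v)
  linarith

lemma cov_rare (W : Fin r → WeierstrassCurve (MvPolynomial (Fin n) ℤ)) (φ : ℕ → (Fin r → Option ℤ) → ℝ) (h01 : ∀ p d, φ p d = 0 ∨ φ p d = 1)
    (x : ℕ) : cov W (rare W φ) (rare W φ) x = cov W φ φ x := by
  rw [cov_eq, cov_eq]
  apply sum_congr rfl
  intro p hp
  rw [mem_filter] at hp
  haveI : NeZero p := ⟨hp.2.ne_zero⟩
  exact (vterm_rare W φ h01 p).1

/-- the dyadic chain -/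
lemma chain (d : ℕ → ℝ) (τ : ℕ → ℝ) (j i₀ T : ℕ) (hi : i₀ ≤ j) (hτ : ∀ i, 0 ≤ τ i)
    (h : ∀ i, i < i₀ → ∀ a, 2 ^ j ≤ a * 2 ^ i → (a + 1) * 2 ^ i ≤ 2 ^ (j + 1) → (a + 1) * 2 ^ i ≤ T →
      |d ((a + 1) * 2 ^ i) - d (a * 2 ^ i)| ≤ τ i)
    (t : ℕ) (ht : 2 ^ j ≤ t) (ht' : t < 2 ^ (j + 1)) (htT : t ≤ T) :
    |d t - d (t / 2 ^ i₀ * 2 ^ i₀)| ≤ ∑ i ∈ range i₀, τ i := by
  induction i₀ with
  | zero => simp
  | succ i₀ ih =>
    have h1 := ih (by omega) (fun i hi' => h i (by omega))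
    rw [sum_range_succ]
    have h2 : |d (t / 2 ^ i₀ * 2 ^ i₀) - d (t / 2 ^ (i₀ + 1) * 2 ^ (i₀ + 1))| ≤ τ i₀ := by
      have e1 : t / 2 ^ (i₀ + 1) = t / 2 ^ i₀ / 2 := by
        rw [pow_succ, Nat.div_div_eq_div_mul]
      have e2 : 2 ^ (i₀ + 1) = 2 * 2 ^ i₀ := by rw [pow_succ]; ring
      rcases Nat.even_or_odd' (t / 2 ^ i₀) with ⟨b, hb | hb⟩
      · have e3 : t / 2 ^ i₀ / 2 = b := by omega
        rw [e1, e3, e2, hb]
        have e4 : 2 * b * 2 ^ i₀ = b * (2 * 2 ^ i₀) := by ring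
        rw [e4, sub_self, abs_zero]
        exact hτ i₀
      · have e3 : t / 2 ^ i₀ / 2 = b := by omega
        rw [e1, e3, e2, hb]
        have e4 : b * (2 * 2 ^ i₀) = 2 * b * 2 ^ i₀ := by ring
        rw [e4]
        have hle : (2 * b + 1) * 2 ^ i₀ ≤ t := by
          rw [← hb]
          exact Nat.div_mul_le_self _ _
        apply h i₀ (Nat.lt_succ_self _) (2 * b)
        · -- lower bound
          have h3 : 2 ^ j = 2 ^ (j - (i₀ + 1)) * 2 ^ (i₀ + 1) := by
            rw [← pow_add]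
            congr 1
            omega
          have h4 : 2 ^ (j - (i₀ + 1)) ≤ t / 2 ^ (i₀ + 1) := by
            rw [Nat.le_div_iff_mul_le (by positivity), ← h3]
            exact ht
          have h5 : 2 ^ (j - (i₀ + 1)) ≤ b := by rw [e1, e3] at h4; exact h4
          rw [h3, e2]
          calc 2 ^ (j - (i₀ + 1)) * (2 * 2 ^ i₀) ≤ b * (2 * 2 ^ i₀) := Nat.mul_le_mul_right _ h5
            _ = 2 * b * 2 ^ i₀ := by ring
        · exact hle.trans ht'.le
        · exact hle.trans htT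
    have h3 : d t - d (t / 2 ^ (i₀ + 1) * 2 ^ (i₀ + 1)) = (d t - d (t / 2 ^ i₀ * 2 ^ i₀)) +
        (d (t / 2 ^ i₀ * 2 ^ i₀) - d (t / 2 ^ (i₀ + 1) * 2 ^ (i₀ + 1))) := by ring
    rw [h3]
    exact (abs_add_le _ _).trans (add_le_add h1 h2)

end Pool.Agent.K4H16.CG
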