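import Pool.Agent.K4H16.CG.MD3
import Pool.Agent.K4H16.CG.LTfam

/-!
# Moderate deviations of sums over the primes of functions of the traces of Frobenius
-/

set_option autoImplicit false

namespace Pool.Agent.K4H16.CG

open Finset

variable {n r : ℕ}

lemma nat_le_two_pow' (a : ℕ) : (a : ℝ) ≤ 2 ^ a := by
  have : a < 2 ^ a := Nat.lt_two_pow_self
  exact_mod_cast this.le

open Classical in
/-- **Moderate deviations for families.** -/
theorem family_md (n : ℕ) (ε : ℝ) (hε : 0 < ε) (hε1 : ε ≤ 1) : ∃ (A : ℕ) (η Λ : ℝ), 0 < η ∧ 1 ≤ Λ ∧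
    ∀ (r : ℕ) (W : Fin r → WeierstrassCurve (MvPolynomial (Fin n) ℤ)) (φ : ℕ → (Fin r → Option ℤ) → ℝ),
      (∀ p d, |φ p d| ≤ 1) → ∀ (x : ℕ) (lam : ℝ), Λ ≤ lam → lam ^ 2 ≤ η * cov W φ φ x →
    ∀ (M : Fin n → ℤ) (N : Fin n → ℕ), (∀ i, (x : ℝ) ^ ((A : ℝ) * lam ^ 2) ≤ N i) →
      Real.exp (-((1 + ε) * lam ^ 2 / 2)) * (box M N).card ≤
        (((box M N).filter (fun v => mean W φ x + lam * √(cov W φ φ x) ≤ total W φ x v)).card : ℝ) ∧
      (((box M N).filter (fun v => mean W φ x + lam * √(cov W φ φ x) ≤ total W φ x v)).card : ℝ) ≤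
        Real.exp (-((1 - ε) * lam ^ 2 / 2)) * (box M N).card := by
  obtain ⟨η, Λ, hη, hΛ, H⟩ := md ε hε hε1
  refine ⟨6 * 8193 + 8 * n, η / 4, Λ, by positivity, hΛ, ?_⟩
  intro r W φ hφ x lam hlam hlamV M N hN
  have hlam1 : 1 ≤ lam := hΛ.trans hlam
  have hlsq : 1 ≤ lam ^ 2 := one_le_pow₀ hlam1
  have hVV : VV (lf W φ x) = cov W φ φ x / 4 := lf_VV W φ x
  have hx : 2 ≤ x := by
    by_contra hcon
    push Not at hcon
    have h1 : cov W φ φ x = 0 := by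
      unfold cov
      have h2 : (range (x + 1)).filter Nat.Prime = ∅ := by
        rw [filter_eq_empty_iff]
        intro p hp
        rw [mem_range] at hp
        intro h
        have := h.two_le
        omega
      rw [h2, sum_empty]
    rw [h1, mul_zero] at hlamV
    linarith
  have hx2 : (2 : ℝ) ≤ x := by exact_mod_cast hx
  have hx1 : (1 : ℝ) ≤ x := by linarith
  have hx0 : (0 : ℝ) < x := by linarith
  obtain ⟨K, hK⟩ : ∃ K : ℕ, K = ⌈8192 * lam ^ 2⌉₊ := ⟨_, rfl⟩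
  have hK1 : 8192 * lam ^ 2 ≤ K := by rw [hK]; exact Nat.le_ceil _
  have hK2 : (K : ℝ) ≤ 8193 * lam ^ 2 := by
    rw [hK]
    have h1 := Nat.ceil_lt_add_one (show 0 ≤ 8192 * lam ^ 2 by positivity)
    linarith
  obtain ⟨S, hS⟩ : ∃ S : ℕ, S = ⌈(x : ℝ) ^ (((6 * 8193 + 8 * n : ℕ) : ℝ) * lam ^ 2)⌉₊ := ⟨_, rfl⟩
  have hS1 : (x : ℝ) ^ (((6 * 8193 + 8 * n : ℕ) : ℝ) * lam ^ 2) ≤ S := by rw [hS]; exact Nat.le_ceil _
  have hSp : 0 < S := by
    rw [hS]
    exact Nat.ceil_pos.2 (Real.rpow_pos_of_pos hx0 _)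
  have hSr : (0 : ℝ) < S := by exact_mod_cast hSp
  have hSN : ∀ i, S ≤ N i := fun i => by rw [hS]; exact Nat.ceil_le.2 (hN i)
  have heq := equi_box (fun j : Prs x => (j : ℕ)) (Prs.cop x) x (by omega) (fun j => j.le) (2 * K) S hSp n M N hSN
  have hJ : (1 + (Fintype.card (Prs x) : ℝ)) ^ (2 * K) * (n * (2 * (x : ℝ) ^ (2 * K) / S)) ≤ 1 / 4 := by
    have h1 : 1 + (Fintype.card (Prs x) : ℝ) ≤ (x : ℝ) ^ 2 := by
      have h2 : (Fintype.card (Prs x) : ℝ) ≤ x := by exact_mod_cast Prs.card_le x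
      nlinarith
    have h2 : (1 + (Fintype.card (Prs x) : ℝ)) ^ (2 * K) * (n * (2 * (x : ℝ) ^ (2 * K) / S)) ≤
        ((x : ℝ) ^ 2) ^ (2 * K) * (n * (2 * (x : ℝ) ^ (2 * K) / S)) := by gcongr
    refine h2.trans ?_
    have h3 : ((x : ℝ) ^ 2) ^ (2 * K) * (n * (2 * (x : ℝ) ^ (2 * K) / S)) = 1 / 4 * (8 * n * (x : ℝ) ^ (6 * K)) / S := by
      rw [← pow_mul]
      have : (x : ℝ) ^ (6 * K) = (x : ℝ) ^ (2 * (2 * K)) * (x : ℝ) ^ (2 * K) := by
        rw [← pow_add]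
        congr 1
        ring
      rw [this]
      ring
    rw [h3, div_le_iff₀ hSr]
    have h4 : 8 * (n : ℝ) ≤ (x : ℝ) ^ (8 * (n : ℝ) * lam ^ 2) := by
      have h9 : (((8 * n : ℕ)) : ℝ) ≤ (x : ℝ) ^ (8 * n) :=
        (nat_le_two_pow' (8 * n)).trans (pow_le_pow_left₀ (by norm_num) hx2 _)
      push_cast at h9
      refine h9.trans ?_
      rw [← Real.rpow_natCast]
      apply Real.rpow_le_rpow_of_exponent_le hx1
      push_cast
      have : 0 ≤ 8 * (n : ℝ) := by positivity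
      nlinarith
    have h5 : (x : ℝ) ^ (6 * K) ≤ (x : ℝ) ^ (6 * 8193 * lam ^ 2) := by
      rw [← Real.rpow_natCast]
      apply Real.rpow_le_rpow_of_exponent_le hx1
      push_cast
      linarith
    have h6 : 8 * n * (x : ℝ) ^ (6 * K) ≤ S := by
      calc 8 * n * (x : ℝ) ^ (6 * K) ≤ (x : ℝ) ^ (8 * (n : ℝ) * lam ^ 2) * (x : ℝ) ^ (6 * 8193 * lam ^ 2) := by gcongr
        _ = (x : ℝ) ^ (((6 * 8193 + 8 * n : ℕ) : ℝ) * lam ^ 2) := by
            rw [← Real.rpow_add hx0]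
            congr 1
            push_cast
            ring
        _ ≤ S := hS1
    linarith
  have h1 := H (Prs x) (fun j => Fin n → ZMod (j : ℕ)) (lf W φ x) (fun j b => lf_abs W φ hφ x j b) (fun j => lf_avg W φ x j)
    lam hlam (by rw [hVV]; linarith) (Fin n → ℤ) (box M N) (fun v j i => (v i : ZMod (j : ℕ))) K
    (n * (2 * (x : ℝ) ^ (2 * K) / S)) hK1 (by positivity) heq hJ
  have h4' : √(4 : ℝ) = 2 := by
    rw [show (4 : ℝ) = 2 ^ 2 by norm_num]
    exact Real.sqrt_sq (by norm_num)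
  have e : (box M N).filter (fun v => lam * √(VV (lf W φ x)) ≤ SS (lf W φ x) (fun j i => (v i : ZMod (j : ℕ)))) =
      (box M N).filter (fun v => mean W φ x + lam * √(cov W φ φ x) ≤ total W φ x v) := by
    apply filter_congr
    intro v _
    rw [lf_SS, lf_VV, Real.sqrt_div' _ (by norm_num : (0 : ℝ) ≤ 4), h4']
    constructor
    · intro h
      linarith
    · intro h
      linarith
  rw [e] at h1
  exact h1

end Pool.Agent.K4H16.CG
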