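import Pool.Agent.K4H16.CG.IL2
import Pool.Agent.K4H16.CG.LTmd

/-!
# The three kinds of exceptional sets in the law of the iterated logarithm
-/

set_option autoImplicit false

namespace Pool.Agent.K4H16.CG

open Finset

lemma card_exists_le {α ι : Type*} [DecidableEq α] (s : Finset α) (I : Finset ι) (Q : α → Prop) (P : ι → α → Prop) [DecidablePred Q]
    [∀ i, DecidablePred (P i)] (h : ∀ v, Q v → ∃ i ∈ I, P i v) :
    ((s.filter Q).card : ℝ) ≤ ∑ i ∈ I, ((s.filter (P i)).card : ℝ) := by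
  have h1 : s.filter Q ⊆ I.biUnion (fun i => s.filter (P i)) := by
    intro v hv
    rw [mem_filter] at hv
    obtain ⟨hv, hQ⟩ := hv
    obtain ⟨i, hi, hP⟩ := h v hQ
    rw [mem_biUnion]
    exact ⟨i, hi, mem_filter.2 ⟨hv, hP⟩⟩
  have h2 := (card_le_card h1).trans card_biUnion_le
  exact_mod_cast h2

variable {n r : ℕ}

lemma err_zero (W : Fin r → WeierstrassCurve (MvPolynomial (Fin n) ℤ)) (φ : ℕ → (Fin r → Option ℤ) → ℝ) (v : Fin n → ℤ) :
    err W φ 0 v = 0 := by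
  have h2 : (range (0 + 1)).filter Nat.Prime = ∅ := by
    rw [filter_eq_empty_iff]
    intro p hp
    rw [mem_range] at hp
    intro h
    have := h.two_le
    omega
  unfold err total mean
  rw [h2, sum_empty, sum_empty, sub_zero]

lemma log_ev (η Λ : ℝ) (hη : 0 < η) : ∃ j₀ : ℕ, ∀ j : ℕ, j₀ ≤ j → Λ ≤ Real.log j ∧ Real.log j ≤ η * 2 ^ j ∧ Real.log j * (16 / 17) ^ j ≤ η := by
  have h1 : Filter.Tendsto (fun j : ℕ => Real.log (j : ℝ)) Filter.atTop Filter.atTop :=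
    Real.tendsto_log_atTop.comp tendsto_natCast_atTop_atTop
  have h2 : Filter.Tendsto (fun j : ℕ => (j : ℝ) ^ 1 / (17 / 16 : ℝ) ^ j) Filter.atTop (nhds 0) :=
    tendsto_pow_const_div_const_pow_of_one_lt 1 (by norm_num)
  have h3 := h1.eventually_ge_atTop Λ
  have h4 := h2.eventually_lt_const hη
  obtain ⟨j₀, h5⟩ := Filter.eventually_atTop.1 (h3.and h4)
  refine ⟨j₀ + 1, fun j hj => ?_⟩
  obtain ⟨h6, h7⟩ := h5 j (by omega)
  have hj1 : (1 : ℝ) ≤ j := by exact_mod_cast (show 1 ≤ j by omega)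
  have h8 : Real.log j ≤ j := by
    have := Real.log_le_sub_one_of_pos (show (0 : ℝ) < j by linarith)
    linarith
  rw [pow_one, div_lt_iff₀ (by positivity)] at h7
  have h9 : ((17 / 16 : ℝ)) ^ j ≤ 2 ^ j := pow_le_pow_left₀ (by norm_num) (by norm_num) _
  refine ⟨h6, ?_, ?_⟩
  · calc Real.log j ≤ j := h8
      _ ≤ η * (17 / 16) ^ j := h7.le
      _ ≤ _ := mul_le_mul_of_nonneg_left h9 hη.le
  · have h10 : ((16 / 17 : ℝ)) ^ j = ((17 / 16 : ℝ) ^ j)⁻¹ := by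
      rw [← inv_pow]
      norm_num
    rw [h10, ← div_eq_mul_inv, div_le_iff₀ (by positivity)]
    exact h8.trans h7.le

/-- the scale of the fluctuations at the level `j` -/
noncomputable def lamj (δ : ℝ) (j : ℕ) : ℝ := (1 + δ / 3) * √(2 * Real.log j)

open Classical in
/-- the coarse points -/
theorem md_point (n : ℕ) (δ : ℝ) (hδ : 0 < δ) (hδ1 : δ ≤ 1) : ∃ (A : ℕ) (j₀ : ℕ), ∀ (r : ℕ)
    (W : Fin r → WeierstrassCurve (MvPolynomial (Fin n) ℤ)) (φ : ℕ → (Fin r → Option ℤ) → ℝ),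
    (∀ p a, |φ p a| ≤ 1) → ∀ (x j t : ℕ) (M : Fin n → ℤ) (N : Fin n → ℕ), j₀ ≤ j → 2 ^ j ≤ t → (t : ℝ) ≤ cov W φ φ x →
      (∀ i, (x : ℝ) ^ ((A : ℝ) * Real.log j) ≤ N i) → ∀ σ : ℝ, (σ = 1 ∨ σ = -1) →
      (((box M N).filter (fun v => lamj δ j * √(cov W φ φ (gr W φ t)) ≤ σ * err W φ (gr W φ t) v)).card : ℝ) ≤
        (j : ℝ) ^ (-(1 + δ / 3)) * (box M N).card := by
  obtain ⟨A, η, Λ, hη, hΛ, H⟩ := family_md n (δ / 6) (by positivity) (by linarith)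
  obtain ⟨j₀, hj₀⟩ := log_ev (η / 4) (Λ ^ 2) (by positivity)
  refine ⟨4 * A, j₀ + 1, ?_⟩
  intro r W φ hφ x j t M N hj ht htx hN σ hσ
  obtain ⟨h1, h2, _⟩ := hj₀ j (by omega)
  have hlog : 1 ≤ Real.log j := le_trans (by nlinarith) h1
  have hj0 : (0 : ℝ) < j := by exact_mod_cast (show 0 < j by omega)
  have hlam2 : lamj δ j ^ 2 = (1 + δ / 3) ^ 2 * (2 * Real.log j) := by
    unfold lamj
    rw [mul_pow, Real.sq_sqrt (by linarith)]
  have hlam4 : lamj δ j ^ 2 ≤ 4 * Real.log j := by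
    rw [hlam2]
    have : (1 + δ / 3) ^ 2 ≤ 2 := by nlinarith
    nlinarith
  have hlamΛ : Λ ≤ lamj δ j := by
    unfold lamj
    have h3 : Λ ≤ √(2 * Real.log j) := Real.le_sqrt_of_sq_le (by linarith)
    have h4 : 0 ≤ √(2 * Real.log j) := Real.sqrt_nonneg _
    nlinarith
  have hgx : gr W φ t ≤ x := gr_le W φ t x htx
  have hg : (t : ℝ) ≤ cov W φ φ (gr W φ t) := gr_ge W φ t ⟨x, htx⟩
  have ht2 : (2 : ℝ) ^ j ≤ t := by exact_mod_cast ht
  have hσ1 : |σ| = 1 := by rcases hσ with h | h <;> rw [h] <;> norm_num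
  have hσ2 : σ * σ = 1 := by rcases hσ with h | h <;> rw [h] <;> norm_num
  have hcov : cov W (wφ φ σ 0 (gr W φ t)) (wφ φ σ 0 (gr W φ t)) (gr W φ t) = cov W φ φ (gr W φ t) := by
    rw [cov_wφ W φ σ hσ2 0 _ _ (Nat.zero_le _) le_rfl, cov_zero, sub_zero]
  have hx1 : 1 ≤ x := by
    by_contra h
    have h5 : x = 0 := by omega
    rw [h5, cov_zero] at htx
    have : (0 : ℝ) < 2 ^ j := by positivity
    linarith
  have hx1' : (1 : ℝ) ≤ x := by exact_mod_cast hx1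
  have h3 := (H r W (wφ φ σ 0 (gr W φ t)) (fun p d => wφ_abs φ hφ σ hσ1 0 _ p d) (gr W φ t) (lamj δ j) hlamΛ (by
    rw [hcov]
    have : η * 2 ^ j ≤ η * cov W φ φ (gr W φ t) := mul_le_mul_of_nonneg_left (ht2.trans hg) hη.le
    linarith) M N (by
    intro i
    refine le_trans ?_ (hN i)
    calc ((gr W φ t : ℕ) : ℝ) ^ ((A : ℝ) * lamj δ j ^ 2) ≤ (x : ℝ) ^ ((A : ℝ) * lamj δ j ^ 2) := by
          apply Real.rpow_le_rpow (Nat.cast_nonneg _) (by exact_mod_cast hgx)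
          positivity
      _ ≤ (x : ℝ) ^ (((4 * A : ℕ) : ℝ) * Real.log j) := by
          apply Real.rpow_le_rpow_of_exponent_le hx1'
          push_cast
          have : (A : ℝ) * lamj δ j ^ 2 ≤ A * (4 * Real.log j) := mul_le_mul_of_nonneg_left hlam4 (Nat.cast_nonneg _)
          linarith)).2
  rw [hcov] at h3
  have e : (box M N).filter (fun v => mean W (wφ φ σ 0 (gr W φ t)) (gr W φ t) + lamj δ j * √(cov W φ φ (gr W φ t)) ≤
      total W (wφ φ σ 0 (gr W φ t)) (gr W φ t) v) =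
      (box M N).filter (fun v => lamj δ j * √(cov W φ φ (gr W φ t)) ≤ σ * err W φ (gr W φ t) v) := by
    apply filter_congr
    intro v _
    have h4 := err_win W φ σ 0 (gr W φ t) (gr W φ t) (Nat.zero_le _) le_rfl v
    rw [err_zero, sub_zero] at h4
    rw [← h4]
    constructor
    · intro h; linarith
    · intro h; linarith
  rw [e] at h3
  refine h3.trans ?_
  apply mul_le_mul_of_nonneg_right _ (Nat.cast_nonneg _)
  rw [Real.rpow_def_of_pos hj0]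
  apply Real.exp_le_exp.2
  rw [hlam2]
  have h5 : (1 + δ / 3) ≤ (1 - δ / 6) * (1 + δ / 3) ^ 2 := by
    have : 0 ≤ δ ^ 2 := sq_nonneg δ
    nlinarith [mul_pos hδ hδ, mul_nonneg this hδ.le, mul_le_mul_of_nonneg_left hδ1 this]
  nlinarith

lemma numk : (17 / 18 : ℝ) ^ 25 ≤ 1 / 4 := by norm_num

open Classical in
/-- the steps of the chain -/
theorem tail_point (n : ℕ) : ∃ (A : ℕ) (c₀ : ℕ) (j₀ : ℕ), ∀ (r : ℕ)
    (W : Fin r → WeierstrassCurve (MvPolynomial (Fin n) ℤ)) (φ : ℕ → (Fin r → Option ℤ) → ℝ),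
    (∀ p a, |φ p a| ≤ 1) → ∀ (x i m s t : ℕ) (M : Fin n → ℤ) (N : Fin n → ℕ), c₀ ≤ m → j₀ ≤ m + i → t ≤ s → s ≤ t + 2 ^ i →
      (s : ℝ) ≤ cov W φ φ x → (∀ l, (x : ℝ) ^ ((A : ℝ) * Real.log ((m + i : ℕ) : ℝ)) ≤ N l) →
      (((box M N).filter (fun v => √(Real.log ((m + i : ℕ) : ℝ) * 2 ^ (m + i)) * (3 / 4) ^ m ≤
        |err W φ (gr W φ s) v - err W φ (gr W φ t) v|)).card : ℝ) ≤
        3 * (1 / (((m + i : ℕ) : ℝ)) ^ 2) * (1 / 4) ^ m * (box M N).card := by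
  obtain ⟨A, H⟩ := fam_tail n
  obtain ⟨c₀, hc₀⟩ := exists_pow_lt_of_lt_one (show (0 : ℝ) < 1 / 486 by norm_num) (show (16 / 17 : ℝ) < 1 by norm_num)
  obtain ⟨j₀, hj₀⟩ := log_ev (1 / 1458) 26 (by norm_num)
  refine ⟨3 * A, c₀, j₀ + 1, ?_⟩
  intro r W φ hφ x i m s t M N hm hj hts hst hsx hN
  obtain ⟨j, hjd⟩ : ∃ j : ℕ, j = m + i := ⟨_, rfl⟩
  rw [← hjd] at hj hN ⊢
  obtain ⟨h1, _, h2⟩ := hj₀ j (by omega)
  have hj0 : (0 : ℝ) < j := by exact_mod_cast (show 0 < j by omega)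
  obtain ⟨k, hk⟩ : ∃ k : ℕ, k = ⌈2 * Real.log j⌉₊ + 25 := ⟨_, rfl⟩
  have hk1 : 2 * Real.log j ≤ k := by
    rw [hk]
    push_cast
    have := Nat.le_ceil (2 * Real.log j)
    linarith
  have hk2 : (k : ℝ) ≤ 3 * Real.log j := by
    rw [hk]
    push_cast
    have := Nat.ceil_lt_add_one (show 0 ≤ 2 * Real.log j by linarith)
    linarith
  have hk25 : 25 ≤ k := by omega
  have hk0 : (0 : ℝ) < k := by exact_mod_cast (show 0 < k by omega)
  have htx : (t : ℝ) ≤ cov W φ φ x := le_trans (by exact_mod_cast hts) hsx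
  have hgs : gr W φ s ≤ x := gr_le W φ s x hsx
  have hgts : gr W φ t ≤ gr W φ s := gr_mono W φ t s hts ⟨x, hsx⟩
  have hcov : cov W (wφ φ 1 (gr W φ t) (gr W φ s)) (wφ φ 1 (gr W φ t) (gr W φ s)) x = cov W φ φ (gr W φ s) - cov W φ φ (gr W φ t) :=
    cov_wφ W φ 1 (by norm_num) _ _ _ hgts hgs
  have hcov1 : cov W φ φ (gr W φ s) - cov W φ φ (gr W φ t) ≤ 2 * 2 ^ i := by
    have h3 := gr_ge W φ t ⟨x, htx⟩
    have h4 := gr_lt W φ hφ s ⟨x, hsx⟩
    have h5 : (s : ℝ) ≤ t + 2 ^ i := by exact_mod_cast hst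
    have h6 : (1 : ℝ) ≤ 2 ^ i := one_le_pow₀ (by norm_num)
    linarith
  rcases Nat.eq_zero_or_pos x with hx0 | hxp
  · -- no primes at all
    have h3 : gr W φ s = 0 := by omega
    have h4 : gr W φ t = 0 := by omega
    rw [h3, h4]
    have h5 : (box M N).filter (fun v => √(Real.log (j : ℝ) * 2 ^ j) * (3 / 4) ^ m ≤ |err W φ 0 v - err W φ 0 v|) = ∅ := by
      rw [filter_eq_empty_iff]
      intro v _
      rw [sub_self, abs_zero, not_le]
      have : 0 < Real.log (j : ℝ) := by linarith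
      positivity
    rw [h5, card_empty]
    push_cast
    positivity
  have hx1' : (1 : ℝ) ≤ x := by exact_mod_cast hxp
  obtain ⟨P, hP⟩ : ∃ P : ℝ, P = 2 ^ i := ⟨_, rfl⟩
  have hP0 : 0 < P := by rw [hP]; positivity
  rw [← hP] at hcov1
  obtain ⟨w, hw⟩ : ∃ w : ℝ, w = √(k / (P + k)) := ⟨_, rfl⟩
  have hwsq : w ^ 2 = k / (P + k) := by rw [hw]; exact Real.sq_sqrt (by positivity)
  have hw0 : 0 < w := by rw [hw]; exact Real.sqrt_pos.2 (by positivity)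
  have hw1 : w ≤ 1 := by
    rw [hw]
    apply Real.sqrt_le_one.2
    rw [div_le_one (by positivity)]
    linarith
  obtain ⟨T, hT⟩ : ∃ T : ℝ, T = √(Real.log (j : ℝ) * 2 ^ j) * (3 / 4) ^ m := ⟨_, rfl⟩
  have hlog0 : 0 < Real.log (j : ℝ) := by linarith
  have hT0 : 0 < T := by rw [hT]; positivity
  have hTsq : T ^ 2 = Real.log (j : ℝ) * 2 ^ j * (9 / 16) ^ m := by
    rw [hT, mul_pow, Real.sq_sqrt (by positivity), ← pow_mul, mul_comm m 2, pow_mul]
    norm_num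
  rw [← hT]
  have h3 := H r W (wφ φ 1 (gr W φ t) (gr W φ s)) (fun p d => wφ_abs φ hφ 1 (by norm_num) _ _ p d) x k M N hxp (by omega) (by
    intro l
    have h4 : (x : ℝ) ^ (A * k) ≤ N l := by
      refine le_trans ?_ (hN l)
      rw [← Real.rpow_natCast]
      apply Real.rpow_le_rpow_of_exponent_le hx1'
      push_cast
      have : (A : ℝ) * k ≤ A * (3 * Real.log j) := mul_le_mul_of_nonneg_left hk2 (Nat.cast_nonneg _)
      linarith
    exact_mod_cast h4) w T hw0 hw1 hT0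
  have e : (box M N).filter (fun v => T ≤ |total W (wφ φ 1 (gr W φ t) (gr W φ s)) x v - mean W (wφ φ 1 (gr W φ t) (gr W φ s)) x|) =
      (box M N).filter (fun v => T ≤ |err W φ (gr W φ s) v - err W φ (gr W φ t) v|) := by
    apply filter_congr
    intro v _
    rw [err_win W φ 1 _ _ x hgts hgs, one_mul]
  rw [e, hcov] at h3
  refine h3.trans ?_
  apply mul_le_mul_of_nonneg_right _ (Nat.cast_nonneg _)
  -- the numbers
  have n1 : ((2 * k).factorial : ℝ) ≤ (4 * (k : ℝ) ^ 2) ^ k := by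
    have h4 : (2 * k).factorial ≤ (2 * k) ^ (2 * k) := Nat.factorial_le_pow _
    calc ((2 * k).factorial : ℝ) ≤ (2 * (k : ℝ)) ^ (2 * k) := by exact_mod_cast h4
      _ = _ := by
        rw [pow_mul]
        congr 1
        ring
  have n2 : (2 / (w * T)) ^ (2 * k) = (4 / (w ^ 2 * T ^ 2)) ^ k := by
    rw [pow_mul]
    congr 1
    rw [div_pow, mul_pow]
    norm_num
  have n3 : Real.exp (w ^ 2 * ((cov W φ φ (gr W φ s) - cov W φ φ (gr W φ t)) / 4)) ≤ (27 / 16) ^ k := by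
    have h4 : w ^ 2 * ((cov W φ φ (gr W φ s) - cov W φ φ (gr W φ t)) / 4) ≤ k * (1 / 2) := by
      have h5 : w ^ 2 * ((cov W φ φ (gr W φ s) - cov W φ φ (gr W φ t)) / 4) ≤ w ^ 2 * (2 * P / 4) := by
        apply mul_le_mul_of_nonneg_left _ (sq_nonneg w)
        linarith
      refine h5.trans ?_
      rw [hwsq, div_mul_eq_mul_div, div_le_iff₀ (by positivity)]
      nlinarith
    refine (Real.exp_le_exp.2 h4).trans ?_
    rw [Real.exp_nat_mul]
    apply pow_le_pow_left₀ (Real.exp_pos _).le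
    have h6 : Real.exp (1 / 2) ^ 2 ≤ (27 / 16 : ℝ) ^ 2 := by
      rw [← Real.exp_nat_mul]
      norm_num
      have := Real.exp_one_lt_d9
      linarith
    exact (sq_le_sq₀ (Real.exp_pos _).le (by norm_num)).1 h6
  rw [n2]
  have n4 : 3 * ((2 * k).factorial : ℝ) * (4 / (w ^ 2 * T ^ 2)) ^ k *
      Real.exp (w ^ 2 * ((cov W φ φ (gr W φ s) - cov W φ φ (gr W φ t)) / 4)) ≤
      3 * (27 * k ^ 2 / (w ^ 2 * T ^ 2)) ^ k := by
    calc 3 * ((2 * k).factorial : ℝ) * (4 / (w ^ 2 * T ^ 2)) ^ k *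
        Real.exp (w ^ 2 * ((cov W φ φ (gr W φ s) - cov W φ φ (gr W φ t)) / 4))
        ≤ 3 * (4 * (k : ℝ) ^ 2) ^ k * (4 / (w ^ 2 * T ^ 2)) ^ k * (27 / 16) ^ k := by gcongr
      _ = 3 * ((4 * (k : ℝ) ^ 2) * (4 / (w ^ 2 * T ^ 2)) * (27 / 16)) ^ k := by
          rw [mul_pow ((4 * (k : ℝ) ^ 2) * (4 / (w ^ 2 * T ^ 2))) (27 / 16), mul_pow (4 * (k : ℝ) ^ 2) (4 / (w ^ 2 * T ^ 2)), mul_assoc, mul_assoc, mul_assoc]
      _ = _ := by
          congr 2
          ring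
  refine n4.trans ?_
  have n5 : 27 * (k : ℝ) ^ 2 / (w ^ 2 * T ^ 2) ≤ 1 / 3 * (17 / 18) ^ m := by
    rw [hwsq, hTsq]
    have e1 : 27 * (k : ℝ) ^ 2 / (k / (P + k) * (Real.log j * 2 ^ j * (9 / 16) ^ m)) =
        27 * (k / Real.log j) * ((P + k) / (2 ^ j * (9 / 16) ^ m)) := by
      field_simp
    rw [e1]
    have e2 : k / Real.log j ≤ 3 := by rw [div_le_iff₀ hlog0]; exact hk2
    have e3 : (P + k) / (2 ^ j * (9 / 16 : ℝ) ^ m) = (8 / 9) ^ m + k * ((1 / 2) ^ i * (8 / 9) ^ m) := by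
      have e4 : (2 : ℝ) ^ j = 2 ^ m * P := by rw [hP, ← pow_add, hjd]
      have e5 : (8 / 9 : ℝ) ^ m = 1 / (2 ^ m * (9 / 16) ^ m) := by
        rw [← mul_pow, ← one_div_pow]
        norm_num
      have e6 : (1 / 2 : ℝ) ^ i = 1 / P := by rw [hP, one_div_pow]
      rw [e4, e5, e6]
      field_simp
    have e7 : (8 / 9 : ℝ) ^ m = (16 / 17) ^ m * (17 / 18) ^ m := by
      rw [← mul_pow]
      norm_num
    have e8 : (16 / 17 : ℝ) ^ m ≤ 1 / 486 := by
      refine le_trans ?_ hc₀.le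
      exact pow_le_pow_of_le_one (by norm_num) (by norm_num) hm
    have e9 : (1 / 2 : ℝ) ^ i * (16 / 17) ^ m ≤ (16 / 17) ^ j := by
      rw [hjd, pow_add, mul_comm]
      apply mul_le_mul_of_nonneg_left _ (by positivity)
      exact pow_le_pow_left₀ (by norm_num) (by norm_num) _
    have e10 : (k : ℝ) * ((1 / 2 : ℝ) ^ i * (16 / 17) ^ m) ≤ 1 / 486 := by
      calc (k : ℝ) * ((1 / 2 : ℝ) ^ i * (16 / 17) ^ m) ≤ (3 * Real.log j) * (16 / 17) ^ j := by gcongr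
        _ ≤ 1 / 486 := by linarith
    have e11 : (8 / 9 : ℝ) ^ m + k * ((1 / 2) ^ i * (8 / 9) ^ m) = ((16 / 17) ^ m + k * ((1 / 2) ^ i * (16 / 17) ^ m)) * (17 / 18) ^ m := by
      rw [e7]
      ring
    rw [e3, e11]
    have e12 : (0 : ℝ) < (17 / 18) ^ m := by positivity
    calc 27 * (k / Real.log j) * (((16 / 17) ^ m + k * ((1 / 2) ^ i * (16 / 17) ^ m)) * (17 / 18) ^ m)
        ≤ 27 * 3 * ((1 / 486 + 1 / 486) * (17 / 18) ^ m) := by gcongr
      _ = _ := by ring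
  have n6 : 0 ≤ 27 * (k : ℝ) ^ 2 / (w ^ 2 * T ^ 2) := by positivity
  have n7 : (27 * (k : ℝ) ^ 2 / (w ^ 2 * T ^ 2)) ^ k ≤ (1 / 3 * (17 / 18) ^ m) ^ k := pow_le_pow_left₀ n6 n5 _
  have n8 : (1 / 3 * (17 / 18 : ℝ) ^ m) ^ k ≤ 1 / (j : ℝ) ^ 2 * (1 / 4) ^ m := by
    rw [mul_pow]
    apply mul_le_mul
    · have h4 : (1 / 3 : ℝ) ^ k ≤ Real.exp (-(k : ℝ)) := by
        have h5 : Real.exp (-(k : ℝ)) = (Real.exp (-1)) ^ k := by
          rw [← Real.exp_nat_mul]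
          congr 1
          ring
        rw [h5]
        apply pow_le_pow_left₀ (by norm_num)
        rw [Real.exp_neg, ← one_div]
        apply one_div_le_one_div_of_le (Real.exp_pos _)
        have := Real.exp_one_lt_d9
        linarith
      refine h4.trans ?_
      have h6 : 1 / (j : ℝ) ^ 2 = Real.exp (-(2 * Real.log j)) := by
        rw [Real.exp_neg, two_mul, Real.exp_add, Real.exp_log hj0]
        rw [one_div, sq]
      rw [h6]
      apply Real.exp_le_exp.2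
      linarith
    · rw [← pow_mul, mul_comm m k, pow_mul]
      apply pow_le_pow_left₀ (by positivity)
      refine le_trans ?_ numk
      exact pow_le_pow_of_le_one (by norm_num) (by norm_num) hk25
    · positivity
    · positivity
  calc 3 * (27 * (k : ℝ) ^ 2 / (w ^ 2 * T ^ 2)) ^ k ≤ 3 * (1 / (j : ℝ) ^ 2 * (1 / 4) ^ m) := by
        apply mul_le_mul_of_nonneg_left (n7.trans n8) (by norm_num)
    _ = _ := by ring

open Classical in
/-- the cells -/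
theorem cell_point (n : ℕ) : ∃ A : ℕ, ∀ (r : ℕ)
    (W : Fin r → WeierstrassCurve (MvPolynomial (Fin n) ℤ)) (φ : ℕ → (Fin r → Option ℤ) → ℝ),
    (∀ p a, |φ p a| ≤ 1) → ∀ (x a b j : ℕ) (M : Fin n → ℤ) (N : Fin n → ℕ), a ≤ b → b ≤ x → 1 ≤ x →
      cov W φ φ b - cov W φ φ a ≤ 1 → (∀ l, x ^ A ≤ N l) → ∀ κ : ℝ, 0 < κ →
      (((box M N).filter (fun v => κ * √(2 ^ j) ≤ |err W φ b v - err W φ a v|)).card : ℝ) ≤
        2304 / κ ^ 4 * (1 / 4) ^ j * (box M N).card := by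
  obtain ⟨A, H⟩ := fam_tail n
  refine ⟨A * 2, ?_⟩
  intro r W φ hφ x a b j M N hab hbx hx hcov hN κ hκ
  have h3 := H r W (wφ φ 1 a b) (fun p d => wφ_abs φ hφ 1 (by norm_num) _ _ p d) x 2 M N hx (by norm_num) hN 1 (κ * √(2 ^ j))
    (by norm_num) le_rfl (by positivity)
  have e : (box M N).filter (fun v => κ * √(2 ^ j) ≤ |total W (wφ φ 1 a b) x v - mean W (wφ φ 1 a b) x|) =
      (box M N).filter (fun v => κ * √(2 ^ j) ≤ |err W φ b v - err W φ a v|) := by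
    apply filter_congr
    intro v _
    rw [err_win W φ 1 _ _ x hab hbx, one_mul]
  rw [e, cov_wφ W φ 1 (by norm_num) _ _ _ hab hbx] at h3
  refine h3.trans ?_
  apply mul_le_mul_of_nonneg_right _ (Nat.cast_nonneg _)
  have h4 : Real.exp (1 ^ 2 * ((cov W φ φ b - cov W φ φ a) / 4)) ≤ 2 := by
    calc Real.exp (1 ^ 2 * ((cov W φ φ b - cov W φ φ a) / 4)) ≤ Real.exp (1 / 2) := by
          apply Real.exp_le_exp.2
          linarith
      _ ≤ 2 := by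
          have h6 : Real.exp (1 / 2) ^ 2 ≤ (2 : ℝ) ^ 2 := by
            rw [← Real.exp_nat_mul]
            norm_num
            have := Real.exp_one_lt_d9
            linarith
          exact (sq_le_sq₀ (Real.exp_pos _).le (by norm_num)).1 h6
  have h5 : (2 / (1 * (κ * √(2 ^ j)))) ^ (2 * 2) = 16 / κ ^ 4 * (1 / 4) ^ j := by
    have h7 : (√(2 ^ j)) ^ 4 = (4 : ℝ) ^ j := by
      have h8 : (√((2 : ℝ) ^ j)) ^ 2 = 2 ^ j := Real.sq_sqrt (by positivity)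
      calc (√((2 : ℝ) ^ j)) ^ 4 = ((√((2 : ℝ) ^ j)) ^ 2) ^ 2 := by ring
        _ = (2 ^ j) ^ 2 := by rw [h8]
        _ = (4 : ℝ) ^ j := by rw [← pow_mul, mul_comm j 2, pow_mul]; norm_num
    rw [one_mul, div_pow, show 2 * 2 = 4 by norm_num, mul_pow, h7, one_div_pow]
    field_simp
    norm_num
  rw [h5]
  have h6 : ((2 * 2).factorial : ℝ) = 24 := by norm_num [Nat.factorial]
  rw [h6]
  calc 3 * (24 : ℝ) * (16 / κ ^ 4 * (1 / 4) ^ j) * Real.exp (1 ^ 2 * ((cov W φ φ b - cov W φ φ a) / 4))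
      ≤ 3 * (24 : ℝ) * (16 / κ ^ 4 * (1 / 4) ^ j) * 2 := by gcongr
    _ = _ := by ring

end Pool.Agent.K4H16.CG
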