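import Pool.Agent.K4H16.CG.IL3

/-!
# The upper half of the law of the iterated logarithm
-/

set_option autoImplicit false

namespace Pool.Agent.K4H16.CG

open Finset

variable {n r : ℕ}

open Classical in
/-- the last height at which the variance is less than `t + 1` -/
noncomputable def lastH (W : Fin r → WeierstrassCurve (MvPolynomial (Fin n) ℤ)) (φ : ℕ → (Fin r → Option ℤ) → ℝ) (x t : ℕ) : ℕ :=
  Nat.findGreatest (fun y => cov W φ φ y < t + 1) x

lemma lastH_le (W : Fin r → WeierstrassCurve (MvPolynomial (Fin n) ℤ)) (φ : ℕ → (Fin r → Option ℤ) → ℝ) (x t : ℕ) : lastH W φ x t ≤ x :=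
  Nat.findGreatest_le _

lemma lastH_lt (W : Fin r → WeierstrassCurve (MvPolynomial (Fin n) ℤ)) (φ : ℕ → (Fin r → Option ℤ) → ℝ) (x t : ℕ) :
    cov W φ φ (lastH W φ x t) < t + 1 := by
  classical
  have h : cov W φ φ 0 < t + 1 := by rw [cov_zero]; positivity
  exact Nat.findGreatest_spec (P := fun y => cov W φ φ y < t + 1) (Nat.zero_le x) h

lemma le_lastH (W : Fin r → WeierstrassCurve (MvPolynomial (Fin n) ℤ)) (φ : ℕ → (Fin r → Option ℤ) → ℝ) (x t y : ℕ) (hy : y ≤ x)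
    (h : cov W φ φ y < t + 1) : y ≤ lastH W φ x t := by
  classical
  exact Nat.le_findGreatest hy h

lemma geo_sum (q : ℕ) : ∑ i ∈ range q, (3 / 4 : ℝ) ^ (q - i) ≤ 3 := by
  have h : ∀ q : ℕ, ∑ i ∈ range q, (3 / 4 : ℝ) ^ (q - i) = 3 - 3 * (3 / 4) ^ q := by
    intro q
    induction q with
    | zero => simp
    | succ q ih =>
      rw [sum_range_succ']
      have e : ∀ i ∈ range q, (3 / 4 : ℝ) ^ (q + 1 - (i + 1)) = (3 / 4) ^ (q - i) := by
        intro i _
        congr 1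
        omega
      rw [sum_congr rfl e, ih, Nat.sub_zero, pow_succ]
      ring
  rw [h]
  have : (0 : ℝ) ≤ (3 / 4) ^ q := by positivity
  linarith

/-- what holds at the level `j` outside the exceptional set -/
lemma level_det (W : Fin r → WeierstrassCurve (MvPolynomial (Fin n) ℤ)) (φ : ℕ → (Fin r → Option ℤ) → ℝ) (h01 : ∀ p d, φ p d = 0 ∨ φ p d = 1)
    (x j c : ℕ) (hcj : c ≤ j) (hj : 1 ≤ j) (δ κ : ℝ) (hδ : 0 < δ) (v : Fin n → ℤ)
    (h2 : ∀ q, 2 ^ c ≤ q → q < 2 ^ (c + 1) → ((q * 2 ^ (j - c) : ℕ) : ℝ) ≤ cov W φ φ x →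
      |err W φ (gr W φ (q * 2 ^ (j - c))) v| < lamj δ j * √(cov W φ φ (gr W φ (q * 2 ^ (j - c)))))
    (h1 : ∀ i, i < j - c → ∀ a, 2 ^ (j - i) ≤ a → a < 2 ^ (j - i + 1) → (((a + 1) * 2 ^ i : ℕ) : ℝ) ≤ cov W φ φ x →
      |err W φ (gr W φ ((a + 1) * 2 ^ i)) v - err W φ (gr W φ (a * 2 ^ i)) v| < √(Real.log j * 2 ^ j) * (3 / 4) ^ (j - i))
    (h3 : ∀ t : ℕ, 2 ^ j ≤ t → t < 2 ^ (j + 1) → (t : ℝ) ≤ cov W φ φ x →
      |err W (rare W φ) (lastH W φ x t) v - err W (rare W φ) (gr W φ t) v| < κ * √(2 ^ j))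
    (y : ℕ) (hy : y ≤ x) (hy1 : 2 ^ j ≤ cov W φ φ y) (hy2 : cov W φ φ y < 2 ^ (j + 1)) :
    |err W φ y v| ≤ lamj δ j * √(cov W φ φ y) + √(Real.log j * 2 ^ j) * (3 * (3 / 4) ^ c) + κ * √(2 ^ j) + 4 := by
  have hyx := cov_mono W φ y x hy
  obtain ⟨t, ht⟩ : ∃ t : ℕ, t = ⌊cov W φ φ y⌋₊ := ⟨_, rfl⟩
  have hV0 : 0 ≤ cov W φ φ y := le_trans (by positivity) hy1
  have ht1 : (t : ℝ) ≤ cov W φ φ y := by rw [ht]; exact Nat.floor_le hV0
  have ht2 : cov W φ φ y < t + 1 := by rw [ht]; exact Nat.lt_floor_add_one _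
  have ht3 : 2 ^ j ≤ t := by
    rw [ht]
    apply Nat.le_floor
    push_cast
    exact hy1
  have ht4 : t < 2 ^ (j + 1) := by
    rw [ht, Nat.floor_lt hV0]
    push_cast
    exact hy2
  have ht5 : (t : ℝ) ≤ cov W φ φ x := ht1.trans hyx
  have hg1 : gr W φ t ≤ y := gr_le W φ t y ht1
  have hg2 : y ≤ lastH W φ x t := le_lastH W φ x t y hy ht2
  -- the cell
  have hc1 := cell W φ h01 (gr W φ t) y (lastH W φ x t) hg1 hg2 v
  have hc2 := h3 t ht3 ht4 ht5
  have hc3 := lastH_lt W φ x t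
  have hc4 := gr_ge W φ t ⟨x, ht5⟩
  have hcell : |err W φ y v - err W φ (gr W φ t) v| ≤ κ * √(2 ^ j) + 4 := by linarith
  -- the chain
  have hchain := chain (fun s => err W φ (gr W φ s) v) (fun i => √(Real.log j * 2 ^ j) * (3 / 4) ^ (j - i)) j (j - c) t
    (Nat.sub_le _ _) (fun i => by positivity) (by
      intro i hi a ha1 ha2 ha3
      have e1 : 2 ^ j = 2 ^ (j - i) * 2 ^ i := by rw [← pow_add]; congr 1; omega
      have e2 : 2 ^ (j + 1) = 2 ^ (j - i + 1) * 2 ^ i := by rw [← pow_add]; congr 1; omega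
      have e3 : (0 : ℕ) < 2 ^ i := by positivity
      have ha4 : 2 ^ (j - i) ≤ a := by
        rw [e1] at ha1
        exact Nat.le_of_mul_le_mul_right ha1 e3
      have ha5 : a < 2 ^ (j - i + 1) := by
        rw [e2] at ha2
        have := Nat.le_of_mul_le_mul_right ha2 e3
        omega
      exact (h1 i hi a ha4 ha5 (le_trans (by exact_mod_cast ha3) ht5)).le) t ht3 ht4 le_rfl
  have hsum : ∑ i ∈ range (j - c), √(Real.log j * 2 ^ j) * (3 / 4 : ℝ) ^ (j - i) ≤ √(Real.log j * 2 ^ j) * (3 * (3 / 4) ^ c) := by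
    rw [← mul_sum]
    apply mul_le_mul_of_nonneg_left _ (Real.sqrt_nonneg _)
    have e : ∀ i ∈ range (j - c), (3 / 4 : ℝ) ^ (j - i) = (3 / 4) ^ c * (3 / 4) ^ (j - c - i) := by
      intro i hi
      rw [mem_range] at hi
      rw [← pow_add]
      congr 1
      omega
    rw [sum_congr rfl e, ← mul_sum]
    have h4 := geo_sum (j - c)
    have h5 : (0 : ℝ) ≤ (3 / 4) ^ c := by positivity
    nlinarith
  -- the coarse point
  obtain ⟨q, hq⟩ : ∃ q : ℕ, q = t / 2 ^ (j - c) := ⟨_, rfl⟩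
  rw [← hq] at hchain
  have hq1 : 2 ^ c ≤ q := by
    rw [hq, Nat.le_div_iff_mul_le (by positivity), ← pow_add]
    rw [show c + (j - c) = j by omega]
    exact ht3
  have hq2 : q < 2 ^ (c + 1) := by
    rw [hq, Nat.div_lt_iff_lt_mul (by positivity), ← pow_add]
    rw [show c + 1 + (j - c) = j + 1 by omega]
    exact ht4
  have hq3 : q * 2 ^ (j - c) ≤ t := by rw [hq]; exact Nat.div_mul_le_self _ _
  have hq4 : ((q * 2 ^ (j - c) : ℕ) : ℝ) ≤ cov W φ φ y := le_trans (by exact_mod_cast hq3) ht1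
  have hq5 := h2 q hq1 hq2 (hq4.trans hyx)
  have hq6 : cov W φ φ (gr W φ (q * 2 ^ (j - c))) ≤ cov W φ φ y := cov_mono W φ _ _ (gr_le W φ _ y hq4)
  have hlam0 : 0 ≤ lamj δ j := by
    unfold lamj
    have := Real.sqrt_nonneg (2 * Real.log j)
    positivity
  have hq7 : lamj δ j * √(cov W φ φ (gr W φ (q * 2 ^ (j - c)))) ≤ lamj δ j * √(cov W φ φ y) :=
    mul_le_mul_of_nonneg_left (Real.sqrt_le_sqrt hq6) hlam0
  have hfin : err W φ y v = (err W φ y v - err W φ (gr W φ t) v) + (err W φ (gr W φ t) v - err W φ (gr W φ (q * 2 ^ (j - c))) v) +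
      err W φ (gr W φ (q * 2 ^ (j - c))) v := by ring
  rw [hfin]
  refine (abs_add_le _ _).trans ?_
  have hfin2 := abs_add_le (err W φ y v - err W φ (gr W φ t) v) (err W φ (gr W φ t) v - err W φ (gr W φ (q * 2 ^ (j - c))) v)
  have hchain' : |err W φ (gr W φ t) v - err W φ (gr W φ (q * 2 ^ (j - c))) v| ≤ √(Real.log j * 2 ^ j) * (3 * (3 / 4) ^ c) := hchain.trans hsum
  linarith

/-- a coarse point of the level `j` is exceptional -/
def E2 (W : Fin r → WeierstrassCurve (MvPolynomial (Fin n) ℤ)) (φ : ℕ → (Fin r → Option ℤ) → ℝ) (x j c : ℕ) (δ : ℝ) (q : ℕ) (v : Fin n → ℤ) : Prop :=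
  ((q * 2 ^ (j - c) : ℕ) : ℝ) ≤ cov W φ φ x ∧
      lamj δ j * √(cov W φ φ (gr W φ (q * 2 ^ (j - c)))) ≤ |err W φ (gr W φ (q * 2 ^ (j - c))) v|

/-- a step of the chain of the level `j` is exceptional -/
def E1 (W : Fin r → WeierstrassCurve (MvPolynomial (Fin n) ℤ)) (φ : ℕ → (Fin r → Option ℤ) → ℝ) (x j i a : ℕ) (v : Fin n → ℤ) : Prop :=
  (((a + 1) * 2 ^ i : ℕ) : ℝ) ≤ cov W φ φ x ∧
      √(Real.log j * 2 ^ j) * (3 / 4) ^ (j - i) ≤ |err W φ (gr W φ ((a + 1) * 2 ^ i)) v - err W φ (gr W φ (a * 2 ^ i)) v|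

/-- a cell of the level `j` is exceptional -/
def E3 (W : Fin r → WeierstrassCurve (MvPolynomial (Fin n) ℤ)) (φ : ℕ → (Fin r → Option ℤ) → ℝ) (x j : ℕ) (κ : ℝ) (t : ℕ) (v : Fin n → ℤ) : Prop :=
  (t : ℝ) ≤ cov W φ φ x ∧ κ * √(2 ^ j) ≤ |err W (rare W φ) (lastH W φ x t) v - err W (rare W φ) (gr W φ t) v|

/-- some coarse point is exceptional -/
def F2 (W : Fin r → WeierstrassCurve (MvPolynomial (Fin n) ℤ)) (φ : ℕ → (Fin r → Option ℤ) → ℝ) (x j c : ℕ) (δ : ℝ) (v : Fin n → ℤ) : Prop :=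
  ∃ q ∈ Ico (2 ^ c) (2 ^ (c + 1)), E2 W φ x j c δ q v

/-- some step of length `2 ^ i` is exceptional -/
def F0 (W : Fin r → WeierstrassCurve (MvPolynomial (Fin n) ℤ)) (φ : ℕ → (Fin r → Option ℤ) → ℝ) (x j i : ℕ) (v : Fin n → ℤ) : Prop :=
  ∃ a ∈ Ico (2 ^ (j - i)) (2 ^ (j - i + 1)), E1 W φ x j i a v

/-- some step is exceptional -/
def F1 (W : Fin r → WeierstrassCurve (MvPolynomial (Fin n) ℤ)) (φ : ℕ → (Fin r → Option ℤ) → ℝ) (x j c : ℕ) (v : Fin n → ℤ) : Prop :=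
  ∃ i ∈ range (j - c), F0 W φ x j i v

/-- some cell is exceptional -/
def F3 (W : Fin r → WeierstrassCurve (MvPolynomial (Fin n) ℤ)) (φ : ℕ → (Fin r → Option ℤ) → ℝ) (x j : ℕ) (κ : ℝ) (v : Fin n → ℤ) : Prop :=
  ∃ t ∈ Ico (2 ^ j) (2 ^ (j + 1)), E3 W φ x j κ t v

/-- the exceptional set of the level `j` -/
def Bad (W : Fin r → WeierstrassCurve (MvPolynomial (Fin n) ℤ)) (φ : ℕ → (Fin r → Option ℤ) → ℝ) (x j c : ℕ) (δ κ : ℝ) (v : Fin n → ℤ) : Prop :=
  F2 W φ x j c δ v ∨ F1 W φ x j c v ∨ F3 W φ x j κ v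

lemma level_det' (W : Fin r → WeierstrassCurve (MvPolynomial (Fin n) ℤ)) (φ : ℕ → (Fin r → Option ℤ) → ℝ) (h01 : ∀ p d, φ p d = 0 ∨ φ p d = 1)
    (x j c : ℕ) (hcj : c ≤ j) (hj : 1 ≤ j) (δ κ : ℝ) (hδ : 0 < δ) (v : Fin n → ℤ) (hbad : ¬ Bad W φ x j c δ κ v)
    (y : ℕ) (hy : y ≤ x) (hy1 : 2 ^ j ≤ cov W φ φ y) (hy2 : cov W φ φ y < 2 ^ (j + 1)) :
    |err W φ y v| ≤ lamj δ j * √(cov W φ φ y) + √(Real.log j * 2 ^ j) * (3 * (3 / 4) ^ c) + κ * √(2 ^ j) + 4 := by
  unfold Bad F2 F1 F0 F3 E1 E2 E3 at hbad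
  push Not at hbad
  obtain ⟨b2, b1, b3⟩ := hbad
  refine level_det W φ h01 x j c hcj hj δ κ hδ v ?_ ?_ ?_ y hy hy1 hy2
  · intro q hq1 hq2 hq3
    exact b2 q (mem_Ico.2 ⟨hq1, hq2⟩) hq3
  · intro i hi a ha1 ha2 ha3
    exact b1 i (mem_range.2 hi) a (mem_Ico.2 ⟨ha1, ha2⟩) ha3
  · intro t ht1 ht2 ht3
    exact b3 t (mem_Ico.2 ⟨ht1, ht2⟩) ht3

lemma half_sum (j c : ℕ) : ∑ i ∈ range (j - c), (1 / 2 : ℝ) ^ (j - i) ≤ 1 := by
  have h : ∀ q : ℕ, ∑ i ∈ range q, (1 / 2 : ℝ) ^ (q - i) = 1 - (1 / 2) ^ q := by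
    intro q
    induction q with
    | zero => simp
    | succ q ih =>
      rw [sum_range_succ']
      have e : ∀ i ∈ range q, (1 / 2 : ℝ) ^ (q + 1 - (i + 1)) = (1 / 2) ^ (q - i) := by
        intro i _
        congr 1
        omega
      rw [sum_congr rfl e, ih, Nat.sub_zero, pow_succ]
      ring
  calc ∑ i ∈ range (j - c), (1 / 2 : ℝ) ^ (j - i) ≤ ∑ i ∈ range j, (1 / 2 : ℝ) ^ (j - i) := by
        apply sum_le_sum_of_subset_of_nonneg
        · intro i hi
          rw [mem_range] at hi ⊢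
          omega
        · intro _ _ _
          positivity
    _ ≤ 1 := by
        rw [h]
        have : (0 : ℝ) ≤ (1 / 2) ^ j := by positivity
        linarith

open Classical in
/-- the number of the exceptional members of the level `j` -/
theorem level_bad (n : ℕ) (δ κ : ℝ) (hδ : 0 < δ) (hδ1 : δ ≤ 1) (hκ : 0 < κ) : ∃ (A : ℕ) (c₀ : ℕ) (j₀ : ℕ), ∀ (r : ℕ)
    (W : Fin r → WeierstrassCurve (MvPolynomial (Fin n) ℤ)) (φ : ℕ → (Fin r → Option ℤ) → ℝ),
    (∀ p a, φ p a = 0 ∨ φ p a = 1) → ∀ (x j c : ℕ) (M : Fin n → ℤ) (N : Fin n → ℕ), c₀ ≤ c → j₀ ≤ j → c ≤ j →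
      2 ^ j ≤ cov W φ φ x → (∀ l, (x : ℝ) ^ ((A : ℝ) * Real.log j) ≤ N l) →
      (((box M N).filter (Bad W φ x j c δ κ)).card : ℝ) ≤
        (2 * 2 ^ c * (j : ℝ) ^ (-(1 + δ / 3)) + 3 * (1 / (j : ℝ) ^ 2) + 2304 / κ ^ 4 * (1 / 2) ^ j) * (box M N).card := by
  obtain ⟨A₂, j₂, H2⟩ := md_point n δ hδ hδ1
  obtain ⟨A₁, c₀, j₁, H1⟩ := tail_point n
  obtain ⟨A₃, H3⟩ := cell_point n
  obtain ⟨j₃, hj₃⟩ := log_ev 1 1 (by norm_num)
  refine ⟨A₁ + A₂ + A₃, c₀, j₁ + j₂ + j₃, ?_⟩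
  intro r W φ h01 x j c M N hc hj hcj hVx hN
  have hφ : ∀ p a, |φ p a| ≤ 1 := by
    intro p a
    rcases h01 p a with h | h <;> rw [h] <;> norm_num
  have hlog1 : 1 ≤ Real.log j := (hj₃ j (by omega)).1
  have hx1 : 1 ≤ x := by
    by_contra h
    have h5 : x = 0 := by omega
    rw [h5, cov_zero] at hVx
    have : (0 : ℝ) < 2 ^ j := by positivity
    linarith
  have hx1' : (1 : ℝ) ≤ x := by exact_mod_cast hx1
  have hN1 : ∀ l, (x : ℝ) ^ ((A₁ : ℝ) * Real.log j) ≤ N l := by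
    intro l
    refine le_trans ?_ (hN l)
    apply Real.rpow_le_rpow_of_exponent_le hx1'
    apply mul_le_mul_of_nonneg_right _ (by linarith)
    push_cast
    have h1 : (0 : ℝ) ≤ A₂ := Nat.cast_nonneg _
    have h2 : (0 : ℝ) ≤ A₃ := Nat.cast_nonneg _
    linarith
  have hN2 : ∀ l, (x : ℝ) ^ ((A₂ : ℝ) * Real.log j) ≤ N l := by
    intro l
    refine le_trans ?_ (hN l)
    apply Real.rpow_le_rpow_of_exponent_le hx1'
    apply mul_le_mul_of_nonneg_right _ (by linarith)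
    push_cast
    have h1 : (0 : ℝ) ≤ A₁ := Nat.cast_nonneg _
    have h2 : (0 : ℝ) ≤ A₃ := Nat.cast_nonneg _
    linarith
  have hN3 : ∀ l, x ^ A₃ ≤ N l := by
    intro l
    have h3 : (x : ℝ) ^ A₃ ≤ N l := by
      refine le_trans ?_ (hN l)
      rw [← Real.rpow_natCast]
      apply Real.rpow_le_rpow_of_exponent_le hx1'
      push_cast
      have h1 : (0 : ℝ) ≤ A₁ := Nat.cast_nonneg _
      have h2 : (0 : ℝ) ≤ A₂ := Nat.cast_nonneg _
      have h4 : (0 : ℝ) ≤ A₃ := Nat.cast_nonneg _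
      nlinarith
    exact_mod_cast h3
  have hB : (0 : ℝ) ≤ (box M N).card := Nat.cast_nonneg _
  have hj0 : 0 < j := by
    rcases Nat.eq_zero_or_pos j with h | h
    · rw [h] at hlog1
      norm_num at hlog1
    · exact h
  -- the three parts
  have p2 : (((box M N).filter (F2 W φ x j c δ)).card : ℝ) ≤
      2 * 2 ^ c * (j : ℝ) ^ (-(1 + δ / 3)) * (box M N).card := by
    refine (card_exists_le (box M N) (Ico (2 ^ c) (2 ^ (c + 1))) (F2 W φ x j c δ) (E2 W φ x j c δ) (fun v h => h)).trans ?_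
    have h1 : ∀ q ∈ Ico (2 ^ c) (2 ^ (c + 1)), (((box M N).filter (E2 W φ x j c δ q)).card : ℝ) ≤
        2 * ((j : ℝ) ^ (-(1 + δ / 3)) * (box M N).card) := by
      intro q hq
      rw [mem_Ico] at hq
      by_cases hq2 : ((q * 2 ^ (j - c) : ℕ) : ℝ) ≤ cov W φ φ x
      · have hq3 : 2 ^ j ≤ q * 2 ^ (j - c) := by
          calc 2 ^ j = 2 ^ c * 2 ^ (j - c) := by rw [← pow_add]; congr 1; omega
            _ ≤ _ := Nat.mul_le_mul_right _ hq.1
        have h3 := H2 r W φ hφ x j (q * 2 ^ (j - c)) M N (by omega) hq3 hq2 hN2 1 (Or.inl rfl)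
        have h4 := H2 r W φ hφ x j (q * 2 ^ (j - c)) M N (by omega) hq3 hq2 hN2 (-1) (Or.inr rfl)
        have h5 : (box M N).filter (E2 W φ x j c δ q) ⊆
            ((box M N).filter (fun v => lamj δ j * √(cov W φ φ (gr W φ (q * 2 ^ (j - c)))) ≤ 1 * err W φ (gr W φ (q * 2 ^ (j - c))) v)) ∪
            ((box M N).filter (fun v => lamj δ j * √(cov W φ φ (gr W φ (q * 2 ^ (j - c)))) ≤ (-1) * err W φ (gr W φ (q * 2 ^ (j - c))) v)) := by
          intro v hv
          rw [mem_filter] at hv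
          rw [mem_union, mem_filter, mem_filter]
          obtain ⟨hv1, hv2, hv3⟩ := hv
          rcases le_abs.1 hv3 with h | h
          · exact Or.inl ⟨hv1, by linarith⟩
          · exact Or.inr ⟨hv1, by linarith⟩
        have h6 := (card_le_card h5).trans (card_union_le _ _)
        have h7 : (((box M N).filter (E2 W φ x j c δ q)).card : ℝ) ≤
            (((box M N).filter (fun v => lamj δ j * √(cov W φ φ (gr W φ (q * 2 ^ (j - c)))) ≤ 1 * err W φ (gr W φ (q * 2 ^ (j - c))) v)).card : ℝ) +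
            (((box M N).filter (fun v => lamj δ j * √(cov W φ φ (gr W φ (q * 2 ^ (j - c)))) ≤ (-1) * err W φ (gr W φ (q * 2 ^ (j - c))) v)).card : ℝ) := by
          exact_mod_cast h6
        linarith
      · have h4 : (box M N).filter (E2 W φ x j c δ q) = ∅ := by
          rw [filter_eq_empty_iff]
          intro v _ hv
          exact hq2 hv.1
        rw [h4, card_empty]
        push_cast
        positivity
    refine (sum_le_sum h1).trans ?_
    rw [sum_const, nsmul_eq_mul, Nat.card_Ico]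
    have e : ((2 ^ (c + 1) - 2 ^ c : ℕ) : ℝ) = 2 ^ c := by
      have : 2 ^ (c + 1) - 2 ^ c = 2 ^ c := by rw [pow_succ]; omega
      rw [this]
      push_cast
      rfl
    rw [e]
    apply le_of_eq
    ring
  have p1 : (((box M N).filter (F1 W φ x j c)).card : ℝ) ≤
      3 * (1 / (j : ℝ) ^ 2) * (box M N).card := by
    refine (card_exists_le (box M N) (range (j - c)) (F1 W φ x j c) (F0 W φ x j) (fun v h => h)).trans ?_
    have h1 : ∀ i ∈ range (j - c), (((box M N).filter (F0 W φ x j i)).card : ℝ) ≤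
        3 * (1 / (j : ℝ) ^ 2) * (box M N).card * (1 / 2) ^ (j - i) := by
      intro i hi
      rw [mem_range] at hi
      refine (card_exists_le (box M N) (Ico (2 ^ (j - i)) (2 ^ (j - i + 1))) (F0 W φ x j i) (E1 W φ x j i) (fun v h => h)).trans ?_
      have h2 : ∀ a ∈ Ico (2 ^ (j - i)) (2 ^ (j - i + 1)), (((box M N).filter (E1 W φ x j i a)).card : ℝ) ≤
          3 * (1 / (j : ℝ) ^ 2) * (1 / 4) ^ (j - i) * (box M N).card := by
        intro a _
        by_cases ha : (((a + 1) * 2 ^ i : ℕ) : ℝ) ≤ cov W φ φ x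
        · have hmi : j - i + i = j := by omega
          have h3 := H1 r W φ hφ x i (j - i) ((a + 1) * 2 ^ i) (a * 2 ^ i) M N (by omega) (by omega) (Nat.mul_le_mul_right _ (Nat.le_succ a))
            (by rw [Nat.succ_mul]) ha (by rw [hmi]; exact hN1)
          rw [hmi] at h3
          refine le_trans ?_ h3
          have h4 : (box M N).filter (E1 W φ x j i a) ⊆
              (box M N).filter (fun v => √(Real.log j * 2 ^ j) * (3 / 4) ^ (j - i) ≤ |err W φ (gr W φ ((a + 1) * 2 ^ i)) v - err W φ (gr W φ (a * 2 ^ i)) v|) := by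
            intro v hv
            rw [mem_filter] at hv ⊢
            exact ⟨hv.1, hv.2.2⟩
          exact_mod_cast card_le_card h4
        · have h4 : (box M N).filter (E1 W φ x j i a) = ∅ := by
            rw [filter_eq_empty_iff]
            intro v _ hv
            exact ha hv.1
          rw [h4, card_empty]
          push_cast
          positivity
      refine (sum_le_sum h2).trans ?_
      rw [sum_const, nsmul_eq_mul, Nat.card_Ico]
      have e : ((2 ^ (j - i + 1) - 2 ^ (j - i) : ℕ) : ℝ) = 2 ^ (j - i) := by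
        have : 2 ^ (j - i + 1) - 2 ^ (j - i) = 2 ^ (j - i) := by rw [pow_succ]; omega
        rw [this]
        push_cast
        rfl
      rw [e]
      have e2 : (1 / 2 : ℝ) ^ (j - i) = 2 ^ (j - i) * (1 / 4) ^ (j - i) := by
        rw [← mul_pow]
        norm_num
      rw [e2]
      apply le_of_eq
      ring
    refine (sum_le_sum h1).trans ?_
    rw [← mul_sum]
    have h5 := half_sum j c
    have h6 : 0 ≤ 3 * (1 / (j : ℝ) ^ 2) * (box M N).card := by positivity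
    nlinarith
  have p3 : (((box M N).filter (F3 W φ x j κ)).card : ℝ) ≤
      2304 / κ ^ 4 * (1 / 2) ^ j * (box M N).card := by
    refine (card_exists_le (box M N) (Ico (2 ^ j) (2 ^ (j + 1))) (F3 W φ x j κ) (E3 W φ x j κ) (fun v h => h)).trans ?_
    have h1 : ∀ t ∈ Ico (2 ^ j) (2 ^ (j + 1)), (((box M N).filter (E3 W φ x j κ t)).card : ℝ) ≤
        2304 / κ ^ 4 * (1 / 4) ^ j * (box M N).card := by
      intro t _
      by_cases ha : (t : ℝ) ≤ cov W φ φ x
      · have h3 := H3 r W (rare W φ) (fun p d => rare_abs W φ h01 p d) x (gr W φ t) (lastH W φ x t) j M N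
          (le_lastH W φ x t _ (gr_le W φ t x ha) (gr_lt W φ hφ t ⟨x, ha⟩)) (lastH_le _ _ _ _) hx1 (by
          rw [cov_rare W φ h01, cov_rare W φ h01]
          have h5 := lastH_lt W φ x t
          have h6 := gr_ge W φ t ⟨x, ha⟩
          linarith) hN3 κ hκ
        refine le_trans ?_ h3
        have h4 : (box M N).filter (E3 W φ x j κ t) ⊆
            (box M N).filter (fun v => κ * √(2 ^ j) ≤ |err W (rare W φ) (lastH W φ x t) v - err W (rare W φ) (gr W φ t) v|) := by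
          intro v hv
          rw [mem_filter] at hv ⊢
          exact ⟨hv.1, hv.2.2⟩
        exact_mod_cast card_le_card h4
      · have h4 : (box M N).filter (E3 W φ x j κ t) = ∅ := by
          rw [filter_eq_empty_iff]
          intro v _ hv
          exact ha hv.1
        rw [h4, card_empty]
        push_cast
        positivity
    refine (sum_le_sum h1).trans ?_
    rw [sum_const, nsmul_eq_mul, Nat.card_Ico]
    have e : ((2 ^ (j + 1) - 2 ^ j : ℕ) : ℝ) = 2 ^ j := by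
      have : 2 ^ (j + 1) - 2 ^ j = 2 ^ j := by rw [pow_succ]; omega
      rw [this]
      push_cast
      rfl
    rw [e]
    have e2 : (1 / 2 : ℝ) ^ j = 2 ^ j * (1 / 4) ^ j := by
      rw [← mul_pow]
      norm_num
    rw [e2]
    apply le_of_eq
    ring
  have hsub : (box M N).filter (Bad W φ x j c δ κ) ⊆
      ((box M N).filter (F2 W φ x j c δ)) ∪
      (((box M N).filter (F1 W φ x j c)) ∪
      ((box M N).filter (F3 W φ x j κ))) := by
    intro v hv
    rw [mem_filter] at hv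
    rw [mem_union, mem_union, mem_filter, mem_filter, mem_filter]
    obtain ⟨hv1, hv2⟩ := hv
    rcases hv2 with h | h | h
    · exact Or.inl ⟨hv1, h⟩
    · exact Or.inr (Or.inl ⟨hv1, h⟩)
    · exact Or.inr (Or.inr ⟨hv1, h⟩)
  have h2 := (card_le_card hsub).trans ((card_union_le _ _).trans (Nat.add_le_add_left (card_union_le _ _) _))
  have h3 : (((box M N).filter (Bad W φ x j c δ κ)).card : ℝ) ≤
      (((box M N).filter (F2 W φ x j c δ)).card : ℝ) +
      ((((box M N).filter (F1 W φ x j c)).card : ℝ) +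
      (((box M N).filter (F3 W φ x j κ)).card : ℝ)) := by exact_mod_cast h2
  linarith

end Pool.Agent.K4H16.CG
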