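import Pool.Agent.K4H16.CG.IL4

/-!
# The upper half of the law of the iterated logarithm: end of the proof
-/

set_option autoImplicit false

namespace Pool.Agent.K4H16.CG

open Finset

variable {n r : ℕ}

lemma loglog_ge (V : ℝ) (j : ℕ) (hj : 1 ≤ j) (h : 2 ^ j ≤ V) : Real.log j - 1 ≤ Real.log (Real.log V) := by
  have hj0 : (0 : ℝ) < j := by exact_mod_cast hj
  have h1 : (j : ℝ) * Real.log 2 ≤ Real.log V := by
    rw [← Real.log_pow]
    exact Real.log_le_log (by positivity) h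
  have h2 : Real.exp (-1) ≤ Real.log 2 := by
    have e1 := Real.log_two_gt_d9
    have e2 := Real.exp_one_gt_d9
    rw [Real.exp_neg, ← one_div]
    rw [div_le_iff₀ (Real.exp_pos _)]
    nlinarith
  have h3 : (j : ℝ) * Real.exp (-1) ≤ Real.log V := (mul_le_mul_of_nonneg_left h2 hj0.le).trans h1
  have h4 : Real.log ((j : ℝ) * Real.exp (-1)) = Real.log j - 1 := by
    rw [Real.log_mul hj0.ne' (Real.exp_pos _).ne', Real.log_exp]
    ring
  rw [← h4]
  exact Real.log_le_log (by positivity) h3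

lemma final_num (δ : ℝ) (hδ : 0 < δ) (hδ1 : δ ≤ 1) : ∃ j₀ : ℕ, ∀ j : ℕ, j₀ ≤ j → ∀ V : ℝ, 2 ^ j ≤ V →
    lamj δ j * √V + √(Real.log j * 2 ^ j) * (δ / 8) + δ / 8 * √(2 ^ j) + 4 ≤ (1 + δ) * √(2 * V * Real.log (Real.log V)) := by
  obtain ⟨j₀, hj₀⟩ := log_ev ((δ / 32) ^ 2) (7 / δ) (by positivity)
  refine ⟨j₀ + 1, ?_⟩
  intro j hj V hV
  obtain ⟨h1, h2, _⟩ := hj₀ j (by omega)
  obtain ⟨l, hl⟩ : ∃ l : ℝ, l = Real.log j := ⟨_, rfl⟩
  have hll := loglog_ge V j (by omega) hV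
  rw [← hl] at h1 h2 hll ⊢
  have h7 : 7 ≤ 7 / δ := by
    rw [le_div_iff₀ hδ]
    linarith
  have hl7 : 7 ≤ l := h7.trans h1
  have hlδ : 7 ≤ l * δ := by
    rw [div_le_iff₀ hδ] at h1
    exact h1
  obtain ⟨P, hP⟩ : ∃ P : ℝ, P = 2 ^ j := ⟨_, rfl⟩
  rw [← hP] at h2 hV ⊢
  have hP0 : 0 < P := by rw [hP]; positivity
  have hV0 : 0 < V := by linarith
  obtain ⟨X, hX⟩ : ∃ X : ℝ, X = √(2 * l * V) := ⟨_, rfl⟩
  have hX0 : 0 ≤ X := by rw [hX]; exact Real.sqrt_nonneg _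
  have e1 : lamj δ j * √V = (1 + δ / 3) * X := by
    unfold lamj
    rw [hX, ← hl, mul_assoc, ← Real.sqrt_mul (by linarith)]
  have e2 : √(l * P) ≤ X := by
    rw [hX]
    apply Real.sqrt_le_sqrt
    nlinarith
  have e3 : √P ≤ X := by
    rw [hX]
    apply Real.sqrt_le_sqrt
    nlinarith
  have e4 : 4 ≤ δ / 8 * X := by
    have h3 : 32 / δ ≤ √P := by
      apply Real.le_sqrt_of_sq_le
      rw [div_pow, div_le_iff₀ (by positivity)]
      have h4 : 1 ≤ (δ / 32) ^ 2 * P := by linarith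
      nlinarith
    have h5 : 32 / δ ≤ X := h3.trans e3
    rw [div_le_iff₀ hδ] at h5
    linarith
  have e5 : (1 + 17 / 24 * δ) * X ≤ (1 + δ) * √(2 * V * Real.log (Real.log V)) := by
    have h3 : (1 + 17 / 24 * δ) * X = √((1 + 17 / 24 * δ) ^ 2 * (2 * l * V)) := by
      rw [Real.sqrt_mul (by positivity), Real.sqrt_sq (by positivity), hX]
    have h4 : (1 + δ) * √(2 * V * Real.log (Real.log V)) = √((1 + δ) ^ 2 * (2 * V * Real.log (Real.log V))) := by
      rw [Real.sqrt_mul (by positivity : (0 : ℝ) ≤ (1 + δ) ^ 2) (2 * V * Real.log (Real.log V)), Real.sqrt_sq (by positivity)]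
    rw [h3, h4]
    apply Real.sqrt_le_sqrt
    have h5 : (1 + 17 / 24 * δ) ^ 2 * l ≤ (1 + δ) ^ 2 * (l - 1) := by nlinarith
    have h6 : (1 + 17 / 24 * δ) ^ 2 * l ≤ (1 + δ) ^ 2 * Real.log (Real.log V) := by
      refine h5.trans ?_
      apply mul_le_mul_of_nonneg_left hll (by positivity)
    calc (1 + 17 / 24 * δ) ^ 2 * (2 * l * V) = 2 * V * ((1 + 17 / 24 * δ) ^ 2 * l) := by ring
      _ ≤ 2 * V * ((1 + δ) ^ 2 * Real.log (Real.log V)) := mul_le_mul_of_nonneg_left h6 (by linarith)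
      _ = _ := by ring
  rw [e1]
  have e6 : √(l * P) * (δ / 8) ≤ δ / 8 * X := by
    rw [mul_comm]
    exact mul_le_mul_of_nonneg_left e2 (by positivity)
  have e7 : δ / 8 * √P ≤ δ / 8 * X := mul_le_mul_of_nonneg_left e3 (by positivity)
  linarith

open Classical in
/-- **The upper half of the law of the iterated logarithm in families.** -/
theorem family_lil (n : ℕ) (ε δ : ℝ) (hε : 0 < ε) (hδ : 0 < δ) (hδ1 : δ ≤ 1) : ∃ A V₀ : ℝ, 0 < A ∧ 3 ≤ V₀ ∧
    ∀ (r : ℕ) (W : Fin r → WeierstrassCurve (MvPolynomial (Fin n) ℤ)) (φ : ℕ → (Fin r → Option ℤ) → ℝ),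
      (∀ p d, φ p d = 0 ∨ φ p d = 1) → ∀ (x : ℕ) (M : Fin n → ℤ) (N : Fin n → ℕ),
      (∀ i, (x : ℝ) ^ (A * Real.log (Real.log (cov W φ φ x))) ≤ N i) →
      (1 - ε) * (box M N).card ≤ (((box M N).filter (fun v => ∀ y ≤ x, V₀ ≤ cov W φ φ y →
        |total W φ y v - mean W φ y| ≤ (1 + δ) * √(2 * cov W φ φ y * Real.log (Real.log (cov W φ φ y))))).card : ℝ) := by
  obtain ⟨A, c₀, j₀, H⟩ := level_bad n δ (δ / 8) hδ hδ1 (by positivity)
  obtain ⟨c₁, hc₁⟩ := exists_pow_lt_of_lt_one (show (0 : ℝ) < δ / 24 by positivity) (show (3 / 4 : ℝ) < 1 by norm_num)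
  obtain ⟨j₂, hj₂⟩ := final_num δ hδ hδ1
  obtain ⟨j₃, hj₃⟩ := log_ev 1 2 (by norm_num)
  obtain ⟨c, hc⟩ : ∃ c : ℕ, c = c₀ + c₁ := ⟨_, rfl⟩
  have hc3 : 3 * (3 / 4 : ℝ) ^ c ≤ δ / 8 := by
    have h1 : (3 / 4 : ℝ) ^ c ≤ (3 / 4) ^ c₁ := pow_le_pow_of_le_one (by norm_num) (by norm_num) (by omega)
    linarith
  obtain ⟨g, hg⟩ : ∃ g : ℕ → ℝ, g = fun j : ℕ => 2 * 2 ^ c * (j : ℝ) ^ (-(1 + δ / 3)) + 3 * (1 / (j : ℝ) ^ 2) + 2304 / (δ / 8) ^ 4 * (1 / 2) ^ j := ⟨_, rfl⟩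
  have hgs : Summable g := by
    rw [hg]
    refine Summable.add (Summable.add ?_ ?_) ?_
    · apply Summable.mul_left
      apply Real.summable_nat_rpow.2
      linarith
    · apply Summable.mul_left
      exact Real.summable_one_div_nat_pow.2 (by norm_num)
    · apply Summable.mul_left
      exact summable_geometric_of_lt_one (by norm_num) (by norm_num)
  obtain ⟨s₀, hs₀⟩ := summable_iff_vanishing_norm.1 hgs ε hε
  obtain ⟨j₁, hj₁⟩ : ∃ j₁ : ℕ, j₁ = s₀.sup id + j₀ + c + j₂ + j₃ + 2 := ⟨_, rfl⟩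
  have h4j : (4 : ℝ) ≤ 2 ^ j₁ := by
    have h1 : (2 : ℝ) ^ 2 ≤ 2 ^ j₁ := pow_le_pow_right₀ (by norm_num) (by omega)
    norm_num at h1 ⊢
    exact h1
  refine ⟨2 * A + 1, 2 ^ j₁, by positivity, by linarith, ?_⟩
  intro r W φ h01 x M N hN
  obtain ⟨I, hI⟩ : ∃ I : Finset ℕ, I = (range (⌊cov W φ φ x⌋₊ + 1)).filter (fun j => j₁ ≤ j ∧ 2 ^ j ≤ cov W φ φ x) := ⟨_, rfl⟩
  have hmain := card_exists_le (box M N) I (fun v => ¬ ∀ y ≤ x, 2 ^ j₁ ≤ cov W φ φ y →
        |total W φ y v - mean W φ y| ≤ (1 + δ) * √(2 * cov W φ φ y * Real.log (Real.log (cov W φ φ y))))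
        (fun j => Bad W φ x j c δ (δ / 8)) (by
    intro v hv
    by_contra hcon
    push Not at hcon
    apply hv
    intro y hy hyV
    have hV0 : 0 ≤ cov W φ φ y := le_trans (by positivity) hyV
    obtain ⟨t, ht⟩ : ∃ t : ℕ, t = ⌊cov W φ φ y⌋₊ := ⟨_, rfl⟩
    have ht1 : (t : ℝ) ≤ cov W φ φ y := by rw [ht]; exact Nat.floor_le hV0
    have ht2 : cov W φ φ y < t + 1 := by rw [ht]; exact Nat.lt_floor_add_one _
    have ht3 : 2 ^ j₁ ≤ t := by
      rw [ht]
      apply Nat.le_floor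
      push_cast
      exact hyV
    have ht0 : t ≠ 0 := by
      have : 0 < 2 ^ j₁ := by positivity
      omega
    obtain ⟨j, hj⟩ : ∃ j : ℕ, j = Nat.log 2 t := ⟨_, rfl⟩
    have hj1 : 2 ^ j ≤ t := by rw [hj]; exact Nat.pow_log_le_self 2 ht0
    have hj2 : t < 2 ^ (j + 1) := by rw [hj]; exact Nat.lt_pow_succ_log_self (by norm_num) t
    have hj3 : j₁ ≤ j := by
      rw [hj]
      exact Nat.le_log_of_pow_le (by norm_num) ht3
    have hj4 : (2 : ℝ) ^ j ≤ cov W φ φ y := le_trans (by exact_mod_cast hj1) ht1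
    have hj5 : cov W φ φ y < 2 ^ (j + 1) := by
      have : ((t + 1 : ℕ) : ℝ) ≤ 2 ^ (j + 1) := by exact_mod_cast hj2
      push_cast at this
      linarith
    have hyx := cov_mono W φ y x hy
    have hjI : j ∈ I := by
      rw [hI, mem_filter, mem_range]
      refine ⟨?_, hj3, hj4.trans hyx⟩
      have h1 : 2 ^ j ≤ ⌊cov W φ φ x⌋₊ := by
        apply Nat.le_floor
        push_cast
        exact hj4.trans hyx
      have h2 : j < 2 ^ j := Nat.lt_two_pow_self
      omega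
    have h1 := level_det' W φ h01 x j c (by omega) (by omega) δ (δ / 8) hδ v (hcon j hjI) y hy hj4 hj5
    have h2 := hj₂ j (by omega) (cov W φ φ y) hj4
    have h3 : √(Real.log j * 2 ^ j) * (3 * (3 / 4) ^ c) ≤ √(Real.log j * 2 ^ j) * (δ / 8) :=
      mul_le_mul_of_nonneg_left hc3 (Real.sqrt_nonneg _)
    have h4 : err W φ y v = total W φ y v - mean W φ y := rfl
    rw [← h4]
    linarith)
  have hsum : ∑ j ∈ I, (((box M N).filter (Bad W φ x j c δ (δ / 8))).card : ℝ) ≤ ε * (box M N).card := by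
    have h1 : ∀ j ∈ I, (((box M N).filter (Bad W φ x j c δ (δ / 8))).card : ℝ) ≤ g j * (box M N).card := by
      intro j hj
      rw [hI, mem_filter, mem_range] at hj
      obtain ⟨_, hj1, hj2⟩ := hj
      have h2 := H r W φ h01 x j c M N (by omega) (by omega) (by omega) hj2 (by
        intro l
        have hx1 : 1 ≤ x := by
          by_contra h
          have h5 : x = 0 := by omega
          rw [h5, cov_zero] at hj2
          have : (0 : ℝ) < 2 ^ j := by positivity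
          linarith
        have hx1' : (1 : ℝ) ≤ x := by exact_mod_cast hx1
        refine le_trans ?_ (hN l)
        apply Real.rpow_le_rpow_of_exponent_le hx1'
        have h3 := loglog_ge (cov W φ φ x) j (by omega) hj2
        have h4 := (hj₃ j (by omega)).1
        have h5 : Real.log j ≤ 2 * Real.log (Real.log (cov W φ φ x)) := by linarith
        have h6 : (0 : ℝ) ≤ A := Nat.cast_nonneg _
        nlinarith)
      rw [hg]
      exact h2
    refine (sum_le_sum h1).trans ?_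
    rw [← sum_mul]
    apply mul_le_mul_of_nonneg_right _ (Nat.cast_nonneg _)
    have hd : Disjoint I s₀ := by
      rw [disjoint_left]
      intro j hj1 hj2
      rw [hI, mem_filter] at hj1
      have h2 : id j ≤ s₀.sup id := le_sup hj2
      simp only [id] at h2
      omega
    have h2 := hs₀ I hd
    rw [Real.norm_eq_abs] at h2
    exact (le_abs_self _).trans h2.le
  have hcompl : (((box M N).filter (fun v => ∀ y ≤ x, 2 ^ j₁ ≤ cov W φ φ y →
        |total W φ y v - mean W φ y| ≤ (1 + δ) * √(2 * cov W φ φ y * Real.log (Real.log (cov W φ φ y))))).card : ℝ) +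
      (((box M N).filter (fun v => ¬ ∀ y ≤ x, 2 ^ j₁ ≤ cov W φ φ y →
        |total W φ y v - mean W φ y| ≤ (1 + δ) * √(2 * cov W φ φ y * Real.log (Real.log (cov W φ φ y))))).card : ℝ) = (box M N).card := by
    have := card_filter_add_card_filter_not (s := box M N) (fun v => ∀ y ≤ x, 2 ^ j₁ ≤ cov W φ φ y →
        |total W φ y v - mean W φ y| ≤ (1 + δ) * √(2 * cov W φ φ y * Real.log (Real.log (cov W φ φ y))))
    exact_mod_cast this
  linarith

end Pool.Agent.K4H16.CG
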