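import Pool.Agent.K4H16.CG.MD3

/-!
# Products of two sums with disjoint supports
-/

set_option autoImplicit false

namespace Pool.Agent.K4H16.CG

open Finset

variable {J : Type} [Fintype J] [DecidableEq J] {R : J → Type} [∀ j, Fintype (R j)] [∀ j, Nonempty (R j)]

/-- mixed moments over a well distributed family -/
theorem family_prod {ι : Type} (s : Finset ι) (ρ : ι → ∀ j, R j) (k : ℕ) (δ : ℝ)
    (heq : Equi s ρ k δ) (F : Fin k → ∀ j, R j → ℝ) (hF : ∀ a j b, |F a j b| ≤ 1) :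
    |∑ i ∈ s, ∏ a, SS (F a) (ρ i) - (s.card : ℝ) * EE (fun ω => ∏ a, SS (F a) ω)| ≤
      (Fintype.card J : ℝ) ^ k * (δ * s.card) := by
  classical
  obtain ⟨h, hh⟩ : ∃ h : (Fin k → J) → ∀ j, R j → ℝ, h = fun ψ j b => ∏ a ∈ univ.filter (fun a => ψ a = j), F a j b := ⟨_, rfl⟩
  have hexp : ∀ ω : (∀ j, R j), ∏ a, SS (F a) ω = ∑ ψ : Fin k → J, ∏ j ∈ univ.image ψ, h ψ j (ω j) := by
    intro ω
    unfold SS
    rw [Finset.prod_univ_sum, Fintype.piFinset_univ]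
    refine sum_congr rfl fun ψ _ => ?_
    rw [hh]
    have h1 := Finset.prod_fiberwise_of_maps_to (s := (univ : Finset (Fin k))) (t := univ.image ψ) (g := ψ)
      (fun a ha => mem_image_of_mem ψ ha) (fun a => F a (ψ a) (ω (ψ a)))
    rw [← h1]
    refine prod_congr rfl fun j _ => ?_
    refine prod_congr rfl fun a ha => ?_
    rw [mem_filter] at ha
    rw [ha.2]
  have hone : ∀ ψ : Fin k → J, |∑ i ∈ s, ∏ j ∈ univ.image ψ, h ψ j (ρ i j) -
      (s.card : ℝ) * EE (fun ω => ∏ j ∈ univ.image ψ, h ψ j (ω j))| ≤ δ * s.card := by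
    intro ψ
    have h1 := heq (univ.image ψ) (by refine card_image_le.trans ?_; simp) (h ψ) (by
        intro j b
        rw [hh]
        simp only
        rw [abs_prod]
        exact prod_le_one (fun a _ => abs_nonneg _) (fun a _ => hF a j b))
    have h2 := avg_pi_prod (univ.image ψ) (h ψ)
    rw [← h2] at h1
    exact h1
  have e1 : ∑ i ∈ s, ∏ a, SS (F a) (ρ i) = ∑ ψ : Fin k → J, ∑ i ∈ s, ∏ j ∈ univ.image ψ, h ψ j (ρ i j) := by
    rw [sum_comm]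
    exact sum_congr rfl fun i _ => hexp (ρ i)
  have e2 : EE (fun ω => ∏ a, SS (F a) ω) = ∑ ψ : Fin k → J, EE (fun ω => ∏ j ∈ univ.image ψ, h ψ j (ω j)) := by
    unfold EE
    rw [← sum_div]
    congr 1
    rw [sum_comm]
    exact sum_congr rfl fun ω _ => hexp ω
  rw [e1, e2, mul_sum, ← sum_sub_distrib]
  refine (abs_sum_le_sum_abs _ _).trans ((sum_le_sum fun ψ _ => hone ψ).trans ?_)
  rw [sum_const, nsmul_eq_mul, card_univ, Fintype.card_fun, Fintype.card_fin]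
  push_cast
  exact le_rfl

/-- powers of two sums -/
lemma fam_pow2 {ι : Type} (s : Finset ι) (ρ : ι → ∀ j, R j) (D : ℕ) (δ : ℝ) (heq : Equi s ρ D δ)
    (f g : ∀ j, R j → ℝ) (hf : ∀ j b, |f j b| ≤ 1) (hg : ∀ j b, |g j b| ≤ 1) (m l : ℕ) (hm : m + l ≤ D) :
    |∑ i ∈ s, SS f (ρ i) ^ m * SS g (ρ i) ^ l - s.card * EE (fun ω => SS f ω ^ m * SS g ω ^ l)| ≤
      (Fintype.card J : ℝ) ^ (m + l) * (δ * s.card) := by
  have h1 := family_prod s ρ (m + l) δ (fun T hT h hh => heq T (hT.trans hm) h hh)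
    (fun a => Fin.addCases (motive := fun _ => ∀ j, R j → ℝ) (fun _ => f) (fun _ => g) a) (by
      intro a
      refine Fin.addCases (fun a => ?_) (fun a => ?_) a
      · intro j b
        rw [Fin.addCases_left]
        exact hf j b
      · intro j b
        rw [Fin.addCases_right]
        exact hg j b)
  have e : ∀ ω : (∀ j, R j), ∏ a, SS (Fin.addCases (motive := fun _ => ∀ j, R j → ℝ) (fun _ : Fin m => f) (fun _ : Fin l => g) a) ω =
      SS f ω ^ m * SS g ω ^ l := by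
    intro ω
    rw [Fin.prod_univ_add]
    simp only [Fin.addCases_left, Fin.addCases_right, prod_const, card_univ, Fintype.card_fin]
  simp only [e] at h1
  exact h1

/-- the independence of two sums with disjoint supports -/
lemma EE_indep (f g : ∀ j, R j → ℝ) (hd : ∀ j, (∀ b, f j b = 0) ∨ (∀ b, g j b = 0)) (P Q : ℝ → ℝ) :
    EE (fun ω => P (SS f ω) * Q (SS g ω)) = EE (fun ω => P (SS f ω)) * EE (fun ω => Q (SS g ω)) := by
  classical
  obtain ⟨p, hp⟩ : ∃ p : J → Prop, ∀ j, p j ↔ ¬ ∀ b, f j b = 0 := ⟨fun j => ¬ ∀ b, f j b = 0, fun _ => Iff.rfl⟩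
  obtain ⟨F, hF⟩ : ∃ F : (∀ j : {j // p j}, R j) → ℝ, F = fun ω => ∑ j : {j // p j}, f j (ω j) := ⟨_, rfl⟩
  obtain ⟨G, hG⟩ : ∃ G : (∀ j : {j // ¬ p j}, R j) → ℝ, G = fun ω => ∑ j : {j // ¬ p j}, g j (ω j) := ⟨_, rfl⟩
  have hf : ∀ ω : (∀ j, R j), SS f ω = F (Equiv.piEquivPiSubtypeProd p R ω).1 := by
    intro ω
    unfold SS
    rw [hF, ← Fintype.sum_subtype_add_sum_subtype p (fun j => f j (ω j))]
    have : ∑ j : {j // ¬ p j}, f (j : J) (ω j) = 0 := by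
      apply sum_eq_zero
      intro j _
      by_contra h1
      exact j.2 ((hp j).2 fun h2 => h1 (h2 _))
    rw [this, add_zero]
    rfl
  have hg : ∀ ω : (∀ j, R j), SS g ω = G (Equiv.piEquivPiSubtypeProd p R ω).2 := by
    intro ω
    unfold SS
    rw [hG, ← Fintype.sum_subtype_add_sum_subtype p (fun j => g j (ω j))]
    have : ∑ j : {j // p j}, g (j : J) (ω j) = 0 := by
      apply sum_eq_zero
      intro j _
      exact (hd j).resolve_left ((hp j).1 j.2) _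
    rw [this, zero_add]
    rfl
  have h1 : ∀ H : (∀ j : {j // p j}, R j) × (∀ j : {j // ¬ p j}, R j) → ℝ,
      ∑ ω : (∀ j, R j), H (Equiv.piEquivPiSubtypeProd p R ω) = ∑ a, ∑ b, H (a, b) := by
    intro H
    rw [Equiv.sum_comp (Equiv.piEquivPiSubtypeProd p R) H, Fintype.sum_prod_type]
  have hA : (0 : ℝ) < Fintype.card (∀ j : {j // p j}, R j) := by exact_mod_cast Fintype.card_pos
  have hB : (0 : ℝ) < Fintype.card (∀ j : {j // ¬ p j}, R j) := by exact_mod_cast Fintype.card_pos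
  have hc : (Fintype.card (∀ j, R j) : ℝ) = Fintype.card (∀ j : {j // p j}, R j) * Fintype.card (∀ j : {j // ¬ p j}, R j) := by
    rw [Fintype.card_congr (Equiv.piEquivPiSubtypeProd p R), Fintype.card_prod]
    push_cast
    rfl
  unfold EE
  simp only [hf, hg]
  rw [h1 (fun c => P (F c.1) * Q (G c.2)), h1 (fun c => P (F c.1)), h1 (fun c => Q (G c.2)), hc]
  simp only [sum_const, card_univ, nsmul_eq_mul]
  simp only [← mul_sum, ← sum_mul]
  field_simp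

/-- two squares of truncated exponentials over a family -/
lemma fam_QK2 {ι : Type} (s : Finset ι) (ρ : ι → ∀ j, R j) (K : ℕ) (δ : ℝ) (hδ : 0 ≤ δ) (heq : Equi s ρ (4 * K) δ)
    (f g : ∀ j, R j → ℝ) (hf : ∀ j b, |f j b| ≤ 1) (hg : ∀ j b, |g j b| ≤ 1) (u w : ℝ) (hu0 : 0 ≤ u) (hu : u ≤ 1)
    (hw0 : 0 ≤ w) (hw : w ≤ 1) :
    |∑ i ∈ s, QK K (u * SS f (ρ i)) * QK K (w * SS g (ρ i)) - s.card * EE (fun ω => QK K (u * SS f ω) * QK K (w * SS g ω))| ≤
      (1 + (Fintype.card J : ℝ)) ^ (4 * K) * (δ * s.card) := by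
  obtain ⟨I, hI⟩ : ∃ I : Finset (ℕ × ℕ), I = range (K + 1) ×ˢ range (K + 1) := ⟨_, rfl⟩
  obtain ⟨c, hc⟩ : ∃ c : ℝ → ℕ × ℕ → ℝ, c = fun u a => (u / 2) ^ (a.1 + a.2) / ((a.1.factorial : ℝ) * (a.2.factorial : ℝ)) := ⟨_, rfl⟩
  have hexp : ∀ u S : ℝ, QK K (u * S) = ∑ a ∈ I, c u a * S ^ (a.1 + a.2) := by
    intro u S
    rw [QK_expand, hI, sum_product, hc]
  have hexp2 : ∀ S S' : ℝ, QK K (u * S) * QK K (w * S') = ∑ a ∈ I, ∑ b ∈ I, c u a * c w b * (S ^ (a.1 + a.2) * S' ^ (b.1 + b.2)) := by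
    intro S S'
    rw [hexp, hexp, sum_mul_sum]
    refine sum_congr rfl fun a _ => sum_congr rfl fun b _ => ?_
    ring
  have e1 : ∑ i ∈ s, QK K (u * SS f (ρ i)) * QK K (w * SS g (ρ i)) =
      ∑ a ∈ I, ∑ b ∈ I, c u a * c w b * ∑ i ∈ s, (SS f (ρ i) ^ (a.1 + a.2) * SS g (ρ i) ^ (b.1 + b.2)) := by
    rw [sum_congr rfl fun i _ => hexp2 (SS f (ρ i)) (SS g (ρ i)), sum_comm]
    refine sum_congr rfl fun a _ => ?_
    rw [sum_comm]
    refine sum_congr rfl fun b _ => ?_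
    rw [mul_sum]
  have e2 : EE (fun ω => QK K (u * SS f ω) * QK K (w * SS g ω)) =
      ∑ a ∈ I, ∑ b ∈ I, c u a * c w b * EE (fun ω => SS f ω ^ (a.1 + a.2) * SS g ω ^ (b.1 + b.2)) := by
    have e : (fun ω : (∀ j, R j) => QK K (u * SS f ω) * QK K (w * SS g ω)) =
        fun ω => ∑ a ∈ I, ∑ b ∈ I, c u a * c w b * (SS f ω ^ (a.1 + a.2) * SS g ω ^ (b.1 + b.2)) := by
      funext ω
      exact hexp2 _ _
    rw [e, EE_sum]
    refine sum_congr rfl fun a _ => ?_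
    rw [EE_sum]
    refine sum_congr rfl fun b _ => EE_mul _ _
  obtain ⟨n, hn⟩ : ∃ n : ℝ, n = (Fintype.card J : ℝ) := ⟨_, rfl⟩
  have hn0 : 0 ≤ n := by rw [hn]; exact Nat.cast_nonneg _
  have hcb : ∀ u : ℝ, 0 ≤ u → u ≤ 1 → ∀ a : ℕ × ℕ, |c u a| ≤ 1 / ((a.1.factorial : ℝ) * (a.2.factorial : ℝ)) := by
    intro u hu0 hu a
    rw [hc]
    simp only
    rw [abs_of_nonneg (by positivity)]
    have : (u / 2) ^ (a.1 + a.2) ≤ 1 := pow_le_one₀ (by linarith) (by linarith)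
    gcongr
  obtain ⟨C, hC⟩ : ∃ C : ℕ × ℕ → ℝ, C = fun a => 1 / ((a.1.factorial : ℝ) * (a.2.factorial : ℝ)) * n ^ (a.1 + a.2) := ⟨_, rfl⟩
  have hC0 : ∀ a, 0 ≤ C a := by
    intro a
    rw [hC]
    positivity
  have hsumC : ∑ a ∈ I, C a = TK K n ^ 2 := by
    unfold TK
    rw [hI, hC, sum_product, pow_two, sum_mul_sum]
    refine sum_congr rfl fun a _ => sum_congr rfl fun b _ => ?_
    simp only
    rw [pow_add]
    field_simp
  rw [e1, e2, mul_sum, ← sum_sub_distrib]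
  have h1 : ∀ a ∈ I, |∑ b ∈ I, c u a * c w b * ∑ i ∈ s, (SS f (ρ i) ^ (a.1 + a.2) * SS g (ρ i) ^ (b.1 + b.2)) -
      s.card * ∑ b ∈ I, c u a * c w b * EE (fun ω => SS f ω ^ (a.1 + a.2) * SS g ω ^ (b.1 + b.2))| ≤
      ∑ b ∈ I, C a * C b * (δ * s.card) := by
    intro a ha
    rw [mul_sum, ← sum_sub_distrib]
    refine (abs_sum_le_sum_abs _ _).trans (sum_le_sum fun b hb => ?_)
    rw [hI, mem_product, mem_range, mem_range] at ha hb
    have h2 := fam_pow2 s ρ (4 * K) δ heq f g hf hg (a.1 + a.2) (b.1 + b.2) (by omega)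
    have e3 : c u a * c w b * ∑ i ∈ s, (SS f (ρ i) ^ (a.1 + a.2) * SS g (ρ i) ^ (b.1 + b.2)) -
        s.card * (c u a * c w b * EE (fun ω => SS f ω ^ (a.1 + a.2) * SS g ω ^ (b.1 + b.2))) =
        c u a * c w b * (∑ i ∈ s, (SS f (ρ i) ^ (a.1 + a.2) * SS g (ρ i) ^ (b.1 + b.2)) -
          s.card * EE (fun ω => SS f ω ^ (a.1 + a.2) * SS g ω ^ (b.1 + b.2))) := by ring
    rw [e3, abs_mul, abs_mul]
    have h3 := hcb u hu0 hu a
    have h4 := hcb w hw0 hw b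
    calc |c u a| * |c w b| * |∑ i ∈ s, (SS f (ρ i) ^ (a.1 + a.2) * SS g (ρ i) ^ (b.1 + b.2)) -
          s.card * EE (fun ω => SS f ω ^ (a.1 + a.2) * SS g ω ^ (b.1 + b.2))|
        ≤ 1 / ((a.1.factorial : ℝ) * (a.2.factorial : ℝ)) * (1 / ((b.1.factorial : ℝ) * (b.2.factorial : ℝ))) *
          ((Fintype.card J : ℝ) ^ (a.1 + a.2 + (b.1 + b.2)) * (δ * s.card)) := by gcongr
      _ = C a * C b * (δ * s.card) := by
          rw [hC, hn, pow_add]
          ring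
  refine (abs_sum_le_sum_abs _ _).trans ((sum_le_sum h1).trans ?_)
  have e4 : ∑ a ∈ I, ∑ b ∈ I, C a * C b * (δ * s.card) = TK K n ^ 4 * (δ * s.card) := by
    have : TK K n ^ 4 = TK K n ^ 2 * TK K n ^ 2 := by ring
    rw [this, ← hsumC, sum_mul_sum, sum_mul]
    refine sum_congr rfl fun a _ => ?_
    rw [sum_mul]
  rw [e4]
  have h2 := TK_le_pow K n hn0
  have h3 := TK_nonneg K n hn0
  rw [mul_comm 4 K, pow_mul, ← hn]
  gcongr

end Pool.Agent.K4H16.CG
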