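import Pool.Agent.K4H16.CG.IL6

/-!
# The second moment of the number of large windows
-/

set_option autoImplicit false

namespace Pool.Agent.K4H16.CG

open Finset

variable {J : Type} [Fintype J] [DecidableEq J] {R : J → Type} [∀ j, Fintype (R j)] [∀ j, Nonempty (R j)]

open Classical in
/-- one window -/
lemma one_window {ι : Type} (s : Finset ι) (ρ : ι → ∀ j, R j) (K : ℕ) (hK : 8 ≤ K) (δ : ℝ) (hδ : 0 ≤ δ) (heq : Equi s ρ (2 * K) δ)
    (hJ : (1 + (Fintype.card J : ℝ)) ^ (2 * K) * δ ≤ 1 / 4)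
    (f : ∀ j, R j → ℝ) (hf : ∀ j b, |f j b| ≤ 1) (h0 : ∀ j, avg (f j) = 0) (γ : ℝ) (hγ0 : 0 < γ) (hγ : γ ≤ 1 / 4)
    (u : ℝ) (hu0 : 0 < u) (hu : 64 * u ≤ 2 * γ ^ 2) (L : ℝ) (hL : u ^ 2 * VV f = L) (hL64 : 64 ≤ γ ^ 2 * L)
    (hKL : 4096 * L ≤ K) :
    s.card * (EE (fun ω => QK K (u * SS f ω)) - (3 / 4 + 16 * (Real.exp (L / 2 * (1 - 2 * u)) * Real.exp (-(L * γ ^ 2 / 8))))) ≤
      ∑ i ∈ s, (if u * VV f / (1 + γ) ≤ SS f (ρ i) then min (QK K (u * SS f (ρ i))) (2 * Real.exp ((1 + γ) * L)) else 0) := by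
  have hV := VV_nonneg f
  have hγ1 : 0 < 1 + γ := by linarith
  have hγ2 : γ ^ 2 ≤ 1 / 16 := by nlinarith
  have hγ2' : 0 < γ ^ 2 := by positivity
  have hL0 : 0 < L := by
    by_contra hcon
    push Not at hcon
    nlinarith
  have hu2 : u ≤ 1 / 2 := by nlinarith
  obtain ⟨v, hv⟩ : ∃ v : ℝ, v = γ / 2 * u := ⟨_, rfl⟩
  have hv0 : 0 ≤ v := by rw [hv]; positivity
  have hvu : v ≤ u := by rw [hv]; nlinarith
  obtain ⟨T, hT⟩ : ∃ T : ℝ, T = u * VV f / (1 + γ) := ⟨_, rfl⟩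
  obtain ⟨S₁, hS₁⟩ : ∃ S₁ : ℝ, S₁ = (1 + γ) * (u * VV f) := ⟨_, rfl⟩
  have hT0 : 0 ≤ T := by rw [hT]; positivity
  have hTS : T ≤ S₁ := by
    rw [hT, hS₁]
    have h1 : 0 ≤ u * VV f := by positivity
    calc u * VV f / (1 + γ) ≤ u * VV f := div_le_self h1 (by linarith)
      _ ≤ (1 + γ) * (u * VV f) := le_mul_of_one_le_left h1 (by linarith)
  rw [← hT]
  have e9 : u * S₁ = (1 + γ) * L := by rw [hS₁, ← hL]; ring
  rw [← e9]
  have hs : (0 : ℝ) ≤ s.card := Nat.cast_nonneg _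
  obtain ⟨N, hN⟩ : ∃ N : ℝ, N = s.card := ⟨_, rfl⟩
  have hN0 : 0 ≤ N := by rw [hN]; exact hs
  -- the main sum
  have hmain := fam_QK s ρ K δ hδ heq f hf u hu0.le (by linarith)
  have hupm := fam_up s ρ K hK δ hδ heq hJ f hf h0 (u - v) (by linarith) (by linarith) L (by
    have : (u - v) ^ 2 * VV f ≤ u ^ 2 * VV f := by
      have : (u - v) ^ 2 ≤ u ^ 2 := by nlinarith
      gcongr
    rw [hL] at this
    linarith) hKL
  have hupp := fam_up s ρ K hK δ hδ heq hJ f hf h0 (u + v) (by linarith) (by nlinarith) L (by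
    have : (u + v) ^ 2 * VV f ≤ (2 * u) ^ 2 * VV f := by
      have : (u + v) ^ 2 ≤ (2 * u) ^ 2 := by nlinarith
      gcongr
    have e : (2 * u) ^ 2 * VV f = 4 * L := by rw [← hL]; ring
    rw [e] at this
    linarith) hKL
  rw [← hN] at hmain hupm hupp ⊢
  -- the far range
  have hfar : ∑ i ∈ s, Real.exp (K / 8) * (8 * (u * SS f (ρ i)) / K) ^ (2 * K) ≤ 1 / 2 * N := by
    have hKr : (8 : ℝ) ≤ K := by exact_mod_cast hK
    have h1 := EE_far f hf h0 K (by omega) u hu0 (by nlinarith)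
    have h2 := fam_pow s ρ (2 * K) δ hδ heq f hf (2 * K) le_rfl
    rw [← hN] at h2
    have e1 : ∀ S : ℝ, (8 * (u * S) / K) ^ (2 * K) = (8 * u / K) ^ (2 * K) * S ^ (2 * K) := by
      intro S
      rw [← mul_pow]
      congr 1
      ring
    have e2 : EE (fun ω => (8 * (u * SS f ω) / K) ^ (2 * K)) = (8 * u / K) ^ (2 * K) * EE (fun ω => SS f ω ^ (2 * K)) := by
      rw [← EE_mul]
      congr 1
      funext ω
      exact e1 _
    rw [e2] at h1
    rw [← mul_sum, sum_congr rfl fun i _ => e1 (SS f (ρ i)), ← mul_sum]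
    have h3 := (abs_le.1 h2).2
    have h4 : ∑ i ∈ s, SS f (ρ i) ^ (2 * K) ≤ N * EE (fun ω => SS f ω ^ (2 * K)) + (Fintype.card J : ℝ) ^ (2 * K) * (δ * N) := by linarith
    have hq : 0 ≤ (8 * u / K) ^ (2 * K) := by positivity
    have h5 : Real.exp (K / 8) * ((8 * u / K) ^ (2 * K) * ((Fintype.card J : ℝ) ^ (2 * K) * (δ * N))) ≤ 1 / 4 * N := by
      have h6 : Real.exp (K / 8) * (8 * u / K) ^ (2 * K) ≤ 1 := by
        have h7 : 8 * u / K ≤ 1 / 4 := by
          rw [div_le_iff₀ (by linarith)]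
          linarith
        have h8 : Real.exp (K / 8) ≤ 4 ^ K := by
          have h9 : Real.exp (K / 8) = Real.exp (1 / 8) ^ K := by
            rw [← Real.exp_nat_mul]
            congr 1
            ring
          rw [h9]
          have h10 : Real.exp (1 / 8) ≤ 4 := by
            have h11 : Real.exp (1 / 8) ≤ Real.exp 1 := Real.exp_le_exp.2 (by norm_num)
            have := Real.exp_one_lt_d9
            linarith
          have := Real.exp_pos (1 / 8)
          gcongr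
        calc Real.exp (K / 8) * (8 * u / K) ^ (2 * K) ≤ 4 ^ K * (1 / 4) ^ (2 * K) := by gcongr
          _ = (1 / 4) ^ K := by
              rw [pow_mul, ← mul_pow]
              norm_num
          _ ≤ 1 := pow_le_one₀ (by norm_num) (by norm_num)
      have h7 : (Fintype.card J : ℝ) ^ (2 * K) * δ ≤ 1 / 4 := by
        refine le_trans ?_ hJ
        have : (Fintype.card J : ℝ) ≤ 1 + Fintype.card J := by linarith
        gcongr
      calc Real.exp (K / 8) * ((8 * u / K) ^ (2 * K) * ((Fintype.card J : ℝ) ^ (2 * K) * (δ * N)))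
          = (Real.exp (K / 8) * (8 * u / K) ^ (2 * K)) * ((Fintype.card J : ℝ) ^ (2 * K) * δ) * N := by ring
        _ ≤ 1 * (1 / 4) * N := by gcongr
        _ = 1 / 4 * N := by ring
    have h6 : Real.exp (K / 8) * ((8 * u / K) ^ (2 * K) * (N * EE (fun ω => SS f ω ^ (2 * K)))) ≤ 1 / 4 * N := by
      have h7 := num2 K hK L hKL
      have e3 : 4096 * u ^ 2 * VV f = 4096 * L := by rw [← hL]; ring
      rw [e3] at h1
      calc Real.exp (K / 8) * ((8 * u / K) ^ (2 * K) * (N * EE (fun ω => SS f ω ^ (2 * K))))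
          = Real.exp (K / 8) * ((8 * u / K) ^ (2 * K) * EE (fun ω => SS f ω ^ (2 * K))) * N := by ring
        _ ≤ Real.exp (K / 8) * ((1 / 4) ^ (2 * K) * (2 * Real.exp (4096 * L))) * N := by gcongr
        _ ≤ 1 / 4 * N := by gcongr
    calc Real.exp (K / 8) * ((8 * u / K) ^ (2 * K) * ∑ i ∈ s, SS f (ρ i) ^ (2 * K))
        ≤ Real.exp (K / 8) * ((8 * u / K) ^ (2 * K) * (N * EE (fun ω => SS f ω ^ (2 * K)) + (Fintype.card J : ℝ) ^ (2 * K) * (δ * N))) := by gcongr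
      _ = Real.exp (K / 8) * ((8 * u / K) ^ (2 * K) * (N * EE (fun ω => SS f ω ^ (2 * K)))) +
          Real.exp (K / 8) * ((8 * u / K) ^ (2 * K) * ((Fintype.card J : ℝ) ^ (2 * K) * (δ * N))) := by ring
      _ ≤ 1 / 2 * N := by linarith
  -- the decomposition
  have hdec : ∑ i ∈ s, QK K (u * SS f (ρ i)) ≤
      ∑ i ∈ s, (if T ≤ SS f (ρ i) then min (QK K (u * SS f (ρ i))) (2 * Real.exp (u * S₁)) else 0) +
      4 * Real.exp (v * T) * ∑ i ∈ s, QK K ((u - v) * SS f (ρ i)) +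
      4 * Real.exp (-(v * S₁)) * ∑ i ∈ s, QK K ((u + v) * SS f (ρ i)) + 1 / 2 * N := by
    have h1 : ∀ i ∈ s, QK K (u * SS f (ρ i)) ≤ (if T ≤ SS f (ρ i) then min (QK K (u * SS f (ρ i))) (2 * Real.exp (u * S₁)) else 0) +
        4 * Real.exp (v * T) * QK K ((u - v) * SS f (ρ i)) + 4 * Real.exp (-(v * S₁)) * QK K ((u + v) * SS f (ρ i)) +
        Real.exp (K / 8) * (8 * (u * SS f (ρ i)) / K) ^ (2 * K) := by
      intro i _
      have h2 := pointwise K hK u v T S₁ (SS f (ρ i)) hu0 hv0 hvu hT0 hTS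
      have p2 : 0 ≤ 4 * Real.exp (v * T) * QK K ((u - v) * SS f (ρ i)) := by
        have := QK_nonneg K ((u - v) * SS f (ρ i))
        positivity
      have p3 : 0 ≤ 4 * Real.exp (-(v * S₁)) * QK K ((u + v) * SS f (ρ i)) := by
        have := QK_nonneg K ((u + v) * SS f (ρ i))
        positivity
      have p4 : 0 ≤ Real.exp (K / 8) * (8 * (u * SS f (ρ i)) / K) ^ (2 * K) := by
        rw [pow_mul]
        positivity
      split_ifs at h2 ⊢ with hc
      · rcases min_choice (QK K (u * SS f (ρ i))) (2 * Real.exp (u * S₁)) with h | h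
        · rw [h]
          linarith
        · rw [h]
          linarith
      · linarith
    have h2 := sum_le_sum h1
    rw [sum_add_distrib, sum_add_distrib, sum_add_distrib, ← mul_sum, ← mul_sum] at h2
    linarith
  -- the exponents
  obtain ⟨E, hE⟩ : ∃ E : ℝ, E = Real.exp (L / 2 * (1 - 2 * u)) := ⟨_, rfl⟩
  obtain ⟨e, he⟩ : ∃ e : ℝ, e = Real.exp (-(L * γ ^ 2 / 8)) := ⟨_, rfl⟩
  rw [← hE, ← he]
  have hA : Real.exp (v * T) * Real.exp ((u - v) ^ 2 / 2 * (1 + (u - v)) * VV f) ≤ E * e := by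
    rw [← Real.exp_add, hE, he, ← Real.exp_add]
    apply Real.exp_le_exp.2
    have e1 : v * T = L * (γ / 2 / (1 + γ)) := by
      rw [hv, hT, ← hL]
      field_simp
    have e2 : (u - v) ^ 2 / 2 * (1 + (u - v)) * VV f ≤ L / 2 * ((1 - γ / 2) ^ 2 * (1 + u)) := by
      have h1 : (u - v) ^ 2 = u ^ 2 * (1 - γ / 2) ^ 2 := by rw [hv]; ring
      rw [h1]
      calc u ^ 2 * (1 - γ / 2) ^ 2 / 2 * (1 + (u - v)) * VV f = (u ^ 2 * VV f) / 2 * ((1 - γ / 2) ^ 2 * (1 + (u - v))) := by ring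
        _ ≤ (u ^ 2 * VV f) / 2 * ((1 - γ / 2) ^ 2 * (1 + u)) := by
            have : 1 + (u - v) ≤ 1 + u := by linarith
            gcongr
        _ = _ := by rw [hL]
    have e3 : γ / 2 / (1 + γ) ≤ (γ - γ ^ 2 + γ ^ 3) / 2 := by
      rw [div_le_iff₀ hγ1]
      nlinarith [pow_pos hγ0 3, pow_pos hγ0 4]
    have e4 : L * (γ / 2 / (1 + γ)) ≤ L * ((γ - γ ^ 2 + γ ^ 3) / 2) := by gcongr
    rw [e1]
    have e5 : L * ((γ - γ ^ 2 + γ ^ 3) / 2) + L / 2 * ((1 - γ / 2) ^ 2 * (1 + u)) =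
        L / 2 * (1 - 3 / 4 * γ ^ 2 + γ ^ 3 + u * (1 - γ / 2) ^ 2) := by ring
    have e6 : 1 - 3 / 4 * γ ^ 2 + γ ^ 3 + u * (1 - γ / 2) ^ 2 ≤ 1 - 2 * u - γ ^ 2 / 4 := by
      have h1 : γ ^ 3 ≤ γ ^ 2 / 4 := by nlinarith
      have h2 : u * (1 - γ / 2) ^ 2 ≤ u := by
        have : (1 - γ / 2) ^ 2 ≤ 1 := by nlinarith
        nlinarith
      nlinarith
    have e7 : L / 2 * (1 - 3 / 4 * γ ^ 2 + γ ^ 3 + u * (1 - γ / 2) ^ 2) ≤ L / 2 * (1 - 2 * u - γ ^ 2 / 4) := by gcongr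
    have e8 : L / 2 * (1 - 2 * u - γ ^ 2 / 4) = L / 2 * (1 - 2 * u) + -(L * γ ^ 2 / 8) := by ring
    linarith
  have hB : Real.exp (-(v * S₁)) * Real.exp ((u + v) ^ 2 / 2 * (1 + (u + v)) * VV f) ≤ E * e := by
    rw [← Real.exp_add, hE, he, ← Real.exp_add]
    apply Real.exp_le_exp.2
    have e1 : v * S₁ = L * (γ / 2 * (1 + γ)) := by
      rw [hv, hS₁, ← hL]
      ring
    have e2 : (u + v) ^ 2 / 2 * (1 + (u + v)) * VV f ≤ L / 2 * ((1 + γ / 2) ^ 2 * (1 + 2 * u)) := by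
      have h1 : (u + v) ^ 2 = u ^ 2 * (1 + γ / 2) ^ 2 := by rw [hv]; ring
      rw [h1]
      calc u ^ 2 * (1 + γ / 2) ^ 2 / 2 * (1 + (u + v)) * VV f = (u ^ 2 * VV f) / 2 * ((1 + γ / 2) ^ 2 * (1 + (u + v))) := by ring
        _ ≤ (u ^ 2 * VV f) / 2 * ((1 + γ / 2) ^ 2 * (1 + 2 * u)) := by
            have : 1 + (u + v) ≤ 1 + 2 * u := by linarith
            gcongr
        _ = _ := by rw [hL]
    rw [e1]
    have e5 : -(L * (γ / 2 * (1 + γ))) + L / 2 * ((1 + γ / 2) ^ 2 * (1 + 2 * u)) =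
        L / 2 * (1 - 3 / 4 * γ ^ 2 + 2 * u * (1 + γ / 2) ^ 2) := by ring
    have e6 : 1 - 3 / 4 * γ ^ 2 + 2 * u * (1 + γ / 2) ^ 2 ≤ 1 - 2 * u - γ ^ 2 / 4 := by
      have h2 : 2 * u * (1 + γ / 2) ^ 2 ≤ 4 * u := by
        have : (1 + γ / 2) ^ 2 ≤ 2 := by nlinarith
        nlinarith
      nlinarith
    have e7 : L / 2 * (1 - 3 / 4 * γ ^ 2 + 2 * u * (1 + γ / 2) ^ 2) ≤ L / 2 * (1 - 2 * u - γ ^ 2 / 4) := by gcongr
    have e8 : L / 2 * (1 - 2 * u - γ ^ 2 / 4) = L / 2 * (1 - 2 * u) + -(L * γ ^ 2 / 8) := by ring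
    linarith
  have h1 : 4 * Real.exp (v * T) * ∑ i ∈ s, QK K ((u - v) * SS f (ρ i)) ≤ 8 * (E * e) * N := by
    calc 4 * Real.exp (v * T) * ∑ i ∈ s, QK K ((u - v) * SS f (ρ i))
        ≤ 4 * Real.exp (v * T) * (N * (2 * Real.exp ((u - v) ^ 2 / 2 * (1 + (u - v)) * VV f))) := by gcongr
      _ = 8 * (Real.exp (v * T) * Real.exp ((u - v) ^ 2 / 2 * (1 + (u - v)) * VV f)) * N := by ring
      _ ≤ 8 * (E * e) * N := by gcongr
  have h2 : 4 * Real.exp (-(v * S₁)) * ∑ i ∈ s, QK K ((u + v) * SS f (ρ i)) ≤ 8 * (E * e) * N := by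
    calc 4 * Real.exp (-(v * S₁)) * ∑ i ∈ s, QK K ((u + v) * SS f (ρ i))
        ≤ 4 * Real.exp (-(v * S₁)) * (N * (2 * Real.exp ((u + v) ^ 2 / 2 * (1 + (u + v)) * VV f))) := by gcongr
      _ = 8 * (Real.exp (-(v * S₁)) * Real.exp ((u + v) ^ 2 / 2 * (1 + (u + v)) * VV f)) * N := by ring
      _ ≤ 8 * (E * e) * N := by gcongr
  have h3 := (abs_le.1 hmain).1
  have h4 : (1 + (Fintype.card J : ℝ)) ^ (2 * K) * (δ * N) ≤ 1 / 4 * N := by
    rw [← mul_assoc]
    gcongr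
  have h5 : N * (EE (fun ω => QK K (u * SS f ω)) - (3 / 4 + 16 * (E * e))) =
      N * EE (fun ω => QK K (u * SS f ω)) - 3 / 4 * N - 16 * (E * e) * N := by ring
  rw [h5]
  linarith

open Classical in
/-- **The second moment method.** For most members some window is large. -/
theorem second_moment {ι : Type} (s : Finset ι) (ρ : ι → ∀ j, R j) (K : ℕ) (hK : 8 ≤ K) (δ : ℝ) (hδ : 0 ≤ δ) (heq : Equi s ρ (4 * K) δ)
    (hJ : (1 + (Fintype.card J : ℝ)) ^ (4 * K) * δ ≤ 1 / 4) (m : ℕ) (hm : 1 ≤ m)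
    (f : Fin m → ∀ j, R j → ℝ) (hf : ∀ a j b, |f a j b| ≤ 1) (h0 : ∀ a j, avg (f a j) = 0)
    (hd : ∀ a b, a ≠ b → ∀ j, (∀ c, f a j c = 0) ∨ (∀ c, f b j c = 0)) (γ : ℝ) (hγ0 : 0 < γ) (hγ : γ ≤ 1 / 4)
    (u : Fin m → ℝ) (hu0 : ∀ a, 0 < u a) (hu : ∀ a, 64 * u a ≤ 2 * γ ^ 2) (L : ℝ) (hL : ∀ a, u a ^ 2 * VV (f a) = L) (hL64 : 64 ≤ γ ^ 2 * L)
    (hKL : 4096 * L ≤ K) :
    ((s.filter (fun i => ∀ a, SS (f a) (ρ i) < u a * VV (f a) / (1 + γ))).card : ℝ) ≤
      (8 * Real.exp ((1 + 3 * γ) * L / 2) / m + 102 * Real.exp (-(L * γ ^ 2 / 8))) * s.card := by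
  have heq2 : Equi s ρ (2 * K) δ := fun T hT h hh => heq T (by omega) h hh
  have hJ2 : (1 + (Fintype.card J : ℝ)) ^ (2 * K) * δ ≤ 1 / 4 := by
    refine le_trans ?_ hJ
    apply mul_le_mul_of_nonneg_right _ hδ
    apply pow_le_pow_right₀
    · have : (0 : ℝ) ≤ Fintype.card J := Nat.cast_nonneg _
      linarith
    · omega
  have hγ2 : γ ^ 2 ≤ 1 / 16 := by nlinarith
  have hL00 : 0 < L := by
    by_contra hcon
    push Not at hcon
    have : 0 < γ ^ 2 := by positivity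
    nlinarith
  have hL1000 : 1024 ≤ L := by nlinarith
  have hs : (0 : ℝ) ≤ s.card := Nat.cast_nonneg _
  obtain ⟨N, hN⟩ : ∃ N : ℝ, N = s.card := ⟨_, rfl⟩
  have hN0 : 0 ≤ N := by rw [hN]; exact hs
  have hmr : (1 : ℝ) ≤ m := by exact_mod_cast hm
  obtain ⟨G, hG⟩ : ∃ G : Fin m → ι → ℝ, G = fun a i => QK K (u a * SS (f a) (ρ i)) := ⟨_, rfl⟩
  obtain ⟨q, hq⟩ : ∃ q : Fin m → ℝ, q = fun a => EE (fun ω => QK K (u a * SS (f a) ω)) := ⟨_, rfl⟩
  obtain ⟨H, hH⟩ : ∃ H : Fin m → ι → ℝ, H = fun a i => if u a * VV (f a) / (1 + γ) ≤ SS (f a) (ρ i) then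
    min (G a i) (2 * Real.exp ((1 + γ) * L)) else 0 := ⟨_, rfl⟩
  obtain ⟨e, he⟩ : ∃ e : ℝ, e = Real.exp (-(L * γ ^ 2 / 8)) := ⟨_, rfl⟩
  obtain ⟨E, hE⟩ : ∃ E : Fin m → ℝ, E = fun a => Real.exp (L / 2 * (1 - 2 * u a)) := ⟨_, rfl⟩
  obtain ⟨θ, hθ⟩ : ∃ θ : ℝ, θ = 2 * Real.exp (-(L / 4)) + 32 * e := ⟨_, rfl⟩
  have he0 : 0 < e := by rw [he]; exact Real.exp_pos _
  have hG0 : ∀ a i, 0 ≤ G a i := by
    intro a i
    rw [hG]
    exact QK_nonneg _ _
  have hH0 : ∀ a i, 0 ≤ H a i := by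
    intro a i
    rw [hH]
    simp only
    split_ifs
    · exact le_min (hG0 a i) (by positivity)
    · exact le_rfl
  have hHG : ∀ a i, H a i ≤ G a i := by
    intro a i
    rw [hH]
    simp only
    split_ifs
    · exact min_le_left _ _
    · exact hG0 a i
  have hHc : ∀ a i, H a i ≤ 2 * Real.exp ((1 + γ) * L) := by
    intro a i
    rw [hH]
    simp only
    split_ifs
    · exact min_le_right _ _
    · positivity
  have hu8 : ∀ a, u a ≤ 1 / 8 := fun a => by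
    have := hu a
    nlinarith
  have huγ : ∀ a, 2 * u a ≤ γ := fun a => by
    have := hu a
    nlinarith
  have hE1 : ∀ a, Real.exp (L / 4) ≤ E a := by
    intro a
    rw [hE]
    apply Real.exp_le_exp.2
    have := hu8 a
    nlinarith
  have hE64 : (64 : ℝ) ≤ Real.exp (L / 4) := by
    have := Real.add_one_le_exp (L / 4)
    linarith
  have hqE : ∀ a, E a / 2 ≤ q a := by
    intro a
    have h1 := EE_QK (f a) (hf a) (h0 a) K (u a) (hu0 a).le (by linarith [hu8 a])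
    have h2 := EE_exp_ge (f a) (hf a) (h0 a) (u a) (by rw [abs_of_pos (hu0 a)]; linarith [hu8 a])
    rw [abs_of_pos (hu0 a)] at h2
    have h3 : u a ^ 2 / 2 * (1 - 2 * u a) * VV (f a) = L / 2 * (1 - 2 * u a) := by rw [← hL a]; ring
    rw [h3] at h2
    have h5 : (1 / 2 : ℝ) ^ K * (2 * Real.exp (4 * u a ^ 2 * VV (f a))) ≤ 1 / 4 := by
      refine le_trans ?_ (num1 K hK L hKL)
      have : Real.exp (4 * u a ^ 2 * VV (f a)) ≤ Real.exp (16 * L) := by
        apply Real.exp_le_exp.2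
        have := hL a
        nlinarith
      gcongr
    have h6 := (abs_le.1 h1).1
    have h7 := hE1 a
    have h8 : E a - 1 / 4 ≤ q a := by
      rw [hE, hq]
      simp only
      linarith
    linarith
  have hq0 : ∀ a, 0 < q a := by
    intro a
    have h1 := hqE a
    have h2 := hE1 a
    linarith
  have hE0 : ∀ a, 0 < E a := fun a => by linarith [hE1 a]
  have hinv : ∀ a, 1 / E a ≤ Real.exp (-(L / 4)) := by
    intro a
    rw [Real.exp_neg, ← one_div]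
    exact one_div_le_one_div_of_le (Real.exp_pos _) (hE1 a)
  -- the sums of the variables
  have hsumG : ∀ a, ∑ i ∈ s, G a i ≤ N * q a + 1 / 4 * N := by
    intro a
    have h1 := fam_QK s ρ K δ hδ heq2 (f a) (hf a) (u a) (hu0 a).le (by linarith [hu8 a])
    rw [← hN] at h1
    have h2 := (abs_le.1 h1).2
    have h4 : (1 + (Fintype.card J : ℝ)) ^ (2 * K) * (δ * N) ≤ 1 / 4 * N := by
      rw [← mul_assoc]
      gcongr
    rw [hG, hq]
    simp only
    linarith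
  have hsumH : ∀ a, N * (1 - θ) ≤ ∑ i ∈ s, H a i / q a := by
    intro a
    have h1 := one_window s ρ K hK δ hδ heq2 hJ2 (f a) (hf a) (h0 a) γ hγ0 hγ (u a) (hu0 a) (hu a) L (hL a) hL64 hKL
    rw [← hN, ← he] at h1
    rw [← sum_div, le_div_iff₀ (hq0 a)]
    have h2 : ∑ i ∈ s, H a i = ∑ i ∈ s, (if u a * VV (f a) / (1 + γ) ≤ SS (f a) (ρ i) then
        min (QK K (u a * SS (f a) (ρ i))) (2 * Real.exp ((1 + γ) * L)) else 0) := by
      rw [hH, hG]
    rw [h2]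
    refine le_trans ?_ h1
    have h3 : Real.exp (L / 2 * (1 - 2 * u a)) = E a := by rw [hE]
    have h4 : EE (fun ω => QK K (u a * SS (f a) ω)) = q a := by rw [hq]
    rw [h3, h4, mul_assoc]
    apply mul_le_mul_of_nonneg_left _ hN0
    have h5 : 3 / 4 + 16 * (E a * e) ≤ θ * q a := by
      have h6 : θ * (E a / 2) ≤ θ * q a := by
        apply mul_le_mul_of_nonneg_left (hqE a)
        rw [hθ]
        positivity
      refine le_trans ?_ h6
      rw [hθ]
      have h7 : 1 ≤ Real.exp (-(L / 4)) * E a := by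
        have := hinv a
        rw [div_le_iff₀ (hE0 a)] at this
        exact this
      nlinarith
    linarith
  -- the products
  have hdiag : ∀ a, ∑ i ∈ s, (H a i / q a) * (H a i / q a) ≤ 8 * Real.exp ((1 + 3 * γ) * L / 2) * N := by
    intro a
    have h1 : ∀ i ∈ s, (H a i / q a) * (H a i / q a) ≤ (2 * Real.exp ((1 + γ) * L) / q a) * (G a i / q a) := by
      intro i _
      have h2 : H a i / q a ≤ 2 * Real.exp ((1 + γ) * L) / q a := div_le_div_of_nonneg_right (hHc a i) (hq0 a).le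
      have h3 : H a i / q a ≤ G a i / q a := div_le_div_of_nonneg_right (hHG a i) (hq0 a).le
      exact mul_le_mul h2 h3 (div_nonneg (hH0 a i) (hq0 a).le) (div_nonneg (by positivity) (hq0 a).le)
    refine (sum_le_sum h1).trans ?_
    rw [← mul_sum, ← sum_div]
    have h2 : (∑ i ∈ s, G a i) / q a ≤ 2 * N := by
      rw [div_le_iff₀ (hq0 a)]
      have := hsumG a
      have h3 : 1 ≤ q a := by linarith [hqE a, hE1 a]
      nlinarith
    have h3 : 2 * Real.exp ((1 + γ) * L) / q a ≤ 4 * Real.exp ((1 + 3 * γ) * L / 2) := by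
      rw [div_le_iff₀ (hq0 a)]
      have h4 : 4 * Real.exp ((1 + 3 * γ) * L / 2) * (E a / 2) ≤ 4 * Real.exp ((1 + 3 * γ) * L / 2) * q a :=
        mul_le_mul_of_nonneg_left (hqE a) (by positivity)
      refine le_trans ?_ h4
      have h5 : Real.exp ((1 + γ) * L) ≤ Real.exp ((1 + 3 * γ) * L / 2) * E a := by
        rw [hE]
        simp only
        rw [← Real.exp_add]
        apply Real.exp_le_exp.2
        have := huγ a
        nlinarith
      linarith
    calc 2 * Real.exp ((1 + γ) * L) / q a * ((∑ i ∈ s, G a i) / q a)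
        ≤ 4 * Real.exp ((1 + 3 * γ) * L / 2) * (2 * N) := by
          apply mul_le_mul h3 h2 _ (by positivity)
          exact div_nonneg (sum_nonneg fun i _ => hG0 a i) (hq0 a).le
      _ = _ := by ring
  have hoff : ∀ a b, a ≠ b → ∑ i ∈ s, (H a i / q a) * (H b i / q b) ≤ (1 + θ) * N := by
    intro a b hab
    have h1 : ∀ i ∈ s, (H a i / q a) * (H b i / q b) ≤ (G a i * G b i) / (q a * q b) := by
      intro i _
      rw [div_mul_div_comm]
      apply div_le_div_of_nonneg_right _ (mul_pos (hq0 a) (hq0 b)).le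
      exact mul_le_mul (hHG a i) (hHG b i) (hH0 b i) (hG0 a i)
    refine (sum_le_sum h1).trans ?_
    rw [← sum_div, div_le_iff₀ (mul_pos (hq0 a) (hq0 b))]
    have h2 := fam_QK2 s ρ K δ hδ heq (f a) (f b) (hf a) (hf b) (u a) (u b) (hu0 a).le (by linarith [hu8 a]) (hu0 b).le (by linarith [hu8 b])
    rw [← hN, EE_indep (f a) (f b) (hd a b hab) (fun S => QK K (u a * S)) (fun S => QK K (u b * S))] at h2
    have h3 := (abs_le.1 h2).2
    have h4 : (1 + (Fintype.card J : ℝ)) ^ (4 * K) * (δ * N) ≤ 1 / 4 * N := by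
      rw [← mul_assoc]
      gcongr
    have h5 : ∑ i ∈ s, G a i * G b i ≤ N * (q a * q b) + 1 / 4 * N := by
      rw [hG, hq]
      simp only
      linarith
    refine h5.trans ?_
    have h6 : 1 / 4 ≤ θ * (q a * q b) := by
      have h7 : 1 ≤ q b := by linarith [hqE b, hE1 b]
      have h8 : θ * (E a / 2) ≤ θ * q a := by
        apply mul_le_mul_of_nonneg_left (hqE a)
        rw [hθ]
        positivity
      have h9 : 1 / 4 ≤ θ * (E a / 2) := by
        rw [hθ]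
        have h7 : 1 ≤ Real.exp (-(L / 4)) * E a := by
          have := hinv a
          rw [div_le_iff₀ (hE0 a)] at this
          exact this
        have h10 : 0 ≤ 32 * e * (E a / 2) := by
          have := hE0 a
          positivity
        nlinarith
      have h10 : θ * q a ≤ θ * q a * q b := by
        apply le_mul_of_one_le_right _ h7
        linarith
      calc 1 / 4 ≤ θ * q a := h9.trans h8
        _ ≤ θ * q a * q b := h10
        _ = _ := by ring
    nlinarith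
  -- the second moment
  obtain ⟨X, hX⟩ : ∃ X : ι → ℝ, X = fun i => ∑ a, H a i / q a := ⟨_, rfl⟩
  have hX1 : N * (m * (1 - θ)) ≤ ∑ i ∈ s, X i := by
    rw [hX]
    simp only
    rw [sum_comm]
    have h1 : ∑ a : Fin m, N * (1 - θ) ≤ ∑ a, ∑ i ∈ s, H a i / q a := sum_le_sum fun a _ => hsumH a
    rw [sum_const, card_univ, Fintype.card_fin, nsmul_eq_mul] at h1
    linarith
  have hθ0 : 0 < θ := by rw [hθ]; positivity
  have hX2 : ∑ i ∈ s, X i ^ 2 ≤ m * (8 * Real.exp ((1 + 3 * γ) * L / 2) * N) + m ^ 2 * ((1 + θ) * N) := by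
    have h1 : ∑ i ∈ s, X i ^ 2 = ∑ a, ∑ b, ∑ i ∈ s, (H a i / q a) * (H b i / q b) := by
      rw [hX]
      simp only [pow_two, sum_mul_sum]
      rw [sum_comm]
      refine sum_congr rfl fun a _ => ?_
      rw [sum_comm]
    rw [h1]
    have h2 : ∀ a b, ∑ i ∈ s, (H a i / q a) * (H b i / q b) ≤ (if a = b then 8 * Real.exp ((1 + 3 * γ) * L / 2) * N else 0) + (1 + θ) * N := by
      intro a b
      split_ifs with hab
      · rw [← hab]
        have := hdiag a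
        have h3 : 0 ≤ (1 + θ) * N := by positivity
        linarith
      · rw [zero_add]
        exact hoff a b hab
    refine (sum_le_sum fun a _ => sum_le_sum fun b _ => h2 a b).trans ?_
    simp only [sum_add_distrib, sum_ite_eq, mem_univ, if_true, sum_const, card_univ, Fintype.card_fin, nsmul_eq_mul]
    apply le_of_eq
    ring
  have hbad : ((s.filter (fun i => ∀ a, SS (f a) (ρ i) < u a * VV (f a) / (1 + γ))).card : ℝ) * (m : ℝ) ^ 2 ≤
      ∑ i ∈ s, (X i - m) ^ 2 := by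
    calc ((s.filter (fun i => ∀ a, SS (f a) (ρ i) < u a * VV (f a) / (1 + γ))).card : ℝ) * (m : ℝ) ^ 2
        = ∑ i ∈ s.filter (fun i => ∀ a, SS (f a) (ρ i) < u a * VV (f a) / (1 + γ)), (X i - m) ^ 2 := by
          rw [← nsmul_eq_mul, ← sum_const]
          apply sum_congr rfl
          intro i hi
          rw [mem_filter] at hi
          have h1 : X i = 0 := by
            rw [hX]
            apply sum_eq_zero
            intro a _
            rw [hH]
            simp only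
            rw [if_neg (not_le.2 (hi.2 a)), zero_div]
          rw [h1]
          ring
      _ ≤ ∑ i ∈ s, (X i - m) ^ 2 := sum_le_sum_of_subset_of_nonneg (filter_subset _ _) fun i _ _ => sq_nonneg _
  have hvar : ∑ i ∈ s, (X i - m) ^ 2 = ∑ i ∈ s, X i ^ 2 - 2 * m * ∑ i ∈ s, X i + m ^ 2 * N := by
    have h1 : ∀ i ∈ s, (X i - m) ^ 2 = X i ^ 2 - 2 * m * X i + m ^ 2 := fun i _ => by ring
    rw [sum_congr rfl h1, sum_add_distrib, sum_sub_distrib, ← mul_sum, sum_const, nsmul_eq_mul, ← hN]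
    ring
  have h3θ : 3 * θ ≤ 102 * e := by
    rw [hθ]
    have h1 : Real.exp (-(L / 4)) ≤ e := by
      rw [he]
      apply Real.exp_le_exp.2
      nlinarith
    linarith
  obtain ⟨B, hB⟩ : ∃ B : ℝ, B = ((s.filter (fun i => ∀ a, SS (f a) (ρ i) < u a * VV (f a) / (1 + γ))).card : ℝ) := ⟨_, rfl⟩
  rw [← hB] at hbad ⊢
  rw [← he, ← hN]
  obtain ⟨C, hC⟩ : ∃ C : ℝ, C = 8 * Real.exp ((1 + 3 * γ) * L / 2) := ⟨_, rfl⟩
  rw [← hC] at hX2 ⊢
  have hm0 : (0 : ℝ) < m := by linarith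
  have h1 : B * (m : ℝ) ^ 2 ≤ m * (C * N) + 3 * θ * (m ^ 2 * N) := by
    rw [hvar] at hbad
    have h2 : 2 * (m : ℝ) * (N * (m * (1 - θ))) ≤ 2 * m * ∑ i ∈ s, X i := by gcongr
    nlinarith
  have h2 : 3 * θ * ((m : ℝ) ^ 2 * N) ≤ 102 * e * (m ^ 2 * N) := by gcongr
  have h3 : (C / m + 102 * e) * N * (m : ℝ) ^ 2 = m * (C * N) + 102 * e * (m ^ 2 * N) := by
    field_simp
  have h4 : B * (m : ℝ) ^ 2 ≤ (C / m + 102 * e) * N * (m : ℝ) ^ 2 := by
    rw [h3]
    linarith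
  exact le_of_mul_le_mul_right h4 (by positivity)

end Pool.Agent.K4H16.CG
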