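import Pool.Agent.K4H16.CG.IL7
import Pool.Agent.K4H16.CG.IL3

/-!
# Large windows in families
-/

set_option autoImplicit false

namespace Pool.Agent.K4H16.CG

open Finset

variable {n r : ℕ}

lemma lf_off (W : Fin r → WeierstrassCurve (MvPolynomial (Fin n) ℤ)) (φ : ℕ → (Fin r → Option ℤ) → ℝ) (σ : ℝ) (a b x : ℕ) (j : Prs x)
    (h : ¬ (a < (j : ℕ) ∧ (j : ℕ) ≤ b)) (c : Fin n → ZMod (j : ℕ)) : lf W (wφ φ σ a b) x j c = 0 := by
  unfold lf
  rw [meanMod_wφ, loc_wφ, if_neg h, if_neg h]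
  norm_num

lemma mono_steps (y : ℕ → ℕ) (m : ℕ) (h : ∀ k, k < m → y k ≤ y (k + 1)) (a b : ℕ) (hab : a ≤ b) (hb : b ≤ m) : y a ≤ y b := by
  induction b with
  | zero =>
    have : a = 0 := by omega
    rw [this]
  | succ b ih =>
    rcases Nat.lt_or_ge a (b + 1) with h1 | h1
    · exact (ih (by omega) (by omega)).trans (h b (by omega))
    · have : a = b + 1 := by omega
      rw [this]

open Classical in
/-- for most members some window is large -/
theorem family_windows (n : ℕ) : ∃ A : ℕ, ∀ (r : ℕ) (W : Fin r → WeierstrassCurve (MvPolynomial (Fin n) ℤ)) (φ : ℕ → (Fin r → Option ℤ) → ℝ),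
    (∀ p a, |φ p a| ≤ 1) → ∀ (x m : ℕ) (y : ℕ → ℕ), 1 ≤ m → (∀ k, k < m → y k ≤ y (k + 1)) → y m ≤ x →
    ∀ γ L : ℝ, 0 < γ → γ ≤ 1 / 4 → 64 ≤ γ ^ 2 * L → (∀ k, k < m → 4096 * L ≤ γ ^ 4 * (cov W φ φ (y (k + 1)) - cov W φ φ (y k))) →
    ∀ (M : Fin n → ℤ) (N : Fin n → ℕ), (∀ i, (x : ℝ) ^ ((A : ℝ) * L) ≤ N i) → ∀ σ : ℝ, (σ = 1 ∨ σ = -1) →
    (((box M N).filter (fun v => ∀ k, k < m → σ * (err W φ (y (k + 1)) v - err W φ (y k) v) <
      √(L * (cov W φ φ (y (k + 1)) - cov W φ φ (y k))) / (1 + γ))).card : ℝ) ≤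
      (8 * Real.exp ((1 + 3 * γ) * L / 2) / m + 102 * Real.exp (-(L * γ ^ 2 / 8))) * (box M N).card := by
  refine ⟨12 * 4097 + 8 * n, ?_⟩
  intro r W φ hφ x m y hm hy hyx γ L hγ0 hγ hL64 hLV M N hN σ hσ
  have hγ2 : γ ^ 2 ≤ 1 / 16 := by nlinarith
  have hγ20 : 0 < γ ^ 2 := by positivity
  have hL00 : 0 < L := by
    by_contra hcon
    push Not at hcon
    nlinarith
  have hL1000 : 1024 ≤ L := by nlinarith
  have hσ1 : |σ| = 1 := by rcases hσ with h | h <;> rw [h] <;> norm_num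
  have hσ2 : σ * σ = 1 := by rcases hσ with h | h <;> rw [h] <;> norm_num
  have hγ40 : 0 < γ ^ 4 := by positivity
  have hΔ0 : ∀ k, k < m → 0 < cov W φ φ (y (k + 1)) - cov W φ φ (y k) := by
    intro k hk
    have h1 := hLV k hk
    by_contra hcon
    push Not at hcon
    have : γ ^ 4 * (cov W φ φ (y (k + 1)) - cov W φ φ (y k)) ≤ 0 := mul_nonpos_of_nonneg_of_nonpos hγ40.le hcon
    linarith
  have hymx : ∀ k, k ≤ m → y k ≤ x := fun k hk => (mono_steps y m hy k m hk le_rfl).trans hyx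
  have hx : 2 ≤ x := by
    by_contra hcon
    push Not at hcon
    have h1 : ∀ z : ℕ, z ≤ x → cov W φ φ z = 0 := by
      intro z hz
      unfold cov
      have h2 : (range (z + 1)).filter Nat.Prime = ∅ := by
        rw [filter_eq_empty_iff]
        intro p hp
        rw [mem_range] at hp
        intro h
        have := h.two_le
        omega
      rw [h2, sum_empty]
    have h2 := hΔ0 0 (by omega)
    rw [h1 _ (hymx (0 + 1) (by omega)), h1 _ (hymx 0 (by omega))] at h2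
    linarith
  have hx2 : (2 : ℝ) ≤ x := by exact_mod_cast hx
  have hx1 : (1 : ℝ) ≤ x := by linarith
  have hx0 : (0 : ℝ) < x := by linarith
  obtain ⟨K, hK⟩ : ∃ K : ℕ, K = ⌈4096 * L⌉₊ := ⟨_, rfl⟩
  have hK1 : 4096 * L ≤ K := by rw [hK]; exact Nat.le_ceil _
  have hK2 : (K : ℝ) ≤ 4097 * L := by
    rw [hK]
    have h1 := Nat.ceil_lt_add_one (show 0 ≤ 4096 * L by positivity)
    linarith
  have hK8 : 8 ≤ K := by
    have : (8 : ℝ) ≤ K := by linarith
    exact_mod_cast this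
  obtain ⟨S, hS⟩ : ∃ S : ℕ, S = ⌈(x : ℝ) ^ (((12 * 4097 + 8 * n : ℕ) : ℝ) * L)⌉₊ := ⟨_, rfl⟩
  have hS1 : (x : ℝ) ^ (((12 * 4097 + 8 * n : ℕ) : ℝ) * L) ≤ S := by rw [hS]; exact Nat.le_ceil _
  have hSp : 0 < S := by
    rw [hS]
    exact Nat.ceil_pos.2 (Real.rpow_pos_of_pos hx0 _)
  have hSr : (0 : ℝ) < S := by exact_mod_cast hSp
  have hSN : ∀ i, S ≤ N i := fun i => by rw [hS]; exact Nat.ceil_le.2 (hN i)
  have heq := equi_box (fun j : Prs x => (j : ℕ)) (Prs.cop x) x (by omega) (fun j => j.le) (4 * K) S hSp n M N hSN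
  have hJ : (1 + (Fintype.card (Prs x) : ℝ)) ^ (4 * K) * (n * (2 * (x : ℝ) ^ (4 * K) / S)) ≤ 1 / 4 := by
    have h1 : 1 + (Fintype.card (Prs x) : ℝ) ≤ (x : ℝ) ^ 2 := by
      have h2 : (Fintype.card (Prs x) : ℝ) ≤ x := by exact_mod_cast Prs.card_le x
      nlinarith
    have h2 : (1 + (Fintype.card (Prs x) : ℝ)) ^ (4 * K) * (n * (2 * (x : ℝ) ^ (4 * K) / S)) ≤
        ((x : ℝ) ^ 2) ^ (4 * K) * (n * (2 * (x : ℝ) ^ (4 * K) / S)) := by gcongr
    refine h2.trans ?_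
    have h3 : ((x : ℝ) ^ 2) ^ (4 * K) * (n * (2 * (x : ℝ) ^ (4 * K) / S)) = 1 / 4 * (8 * n * (x : ℝ) ^ (12 * K)) / S := by
      rw [← pow_mul]
      have : (x : ℝ) ^ (12 * K) = (x : ℝ) ^ (2 * (4 * K)) * (x : ℝ) ^ (4 * K) := by
        rw [← pow_add]
        congr 1
        ring
      rw [this]
      ring
    rw [h3, div_le_iff₀ hSr]
    have h4 : 8 * (n : ℝ) ≤ (x : ℝ) ^ (8 * (n : ℝ) * L) := by
      have h9 : (((8 * n : ℕ)) : ℝ) ≤ (x : ℝ) ^ (8 * n) :=
        (nat_le_two_pow' (8 * n)).trans (pow_le_pow_left₀ (by norm_num) hx2 _)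
      push_cast at h9
      refine h9.trans ?_
      rw [← Real.rpow_natCast]
      apply Real.rpow_le_rpow_of_exponent_le hx1
      push_cast
      have : 0 ≤ 8 * (n : ℝ) := by positivity
      nlinarith
    have h5 : (x : ℝ) ^ (12 * K) ≤ (x : ℝ) ^ (12 * 4097 * L) := by
      rw [← Real.rpow_natCast]
      apply Real.rpow_le_rpow_of_exponent_le hx1
      push_cast
      linarith
    have h6 : 8 * n * (x : ℝ) ^ (12 * K) ≤ S := by
      calc 8 * n * (x : ℝ) ^ (12 * K) ≤ (x : ℝ) ^ (8 * (n : ℝ) * L) * (x : ℝ) ^ (12 * 4097 * L) := by gcongr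
        _ = (x : ℝ) ^ (((12 * 4097 + 8 * n : ℕ) : ℝ) * L) := by
            rw [← Real.rpow_add hx0]
            congr 1
            push_cast
            ring
        _ ≤ S := hS1
    linarith
  -- the windows
  obtain ⟨f, hf⟩ : ∃ f : Fin m → ∀ j : Prs x, (Fin n → ZMod (j : ℕ)) → ℝ,
    f = fun a : Fin m => lf W (wφ φ σ (y a) (y (a + 1))) x := ⟨_, rfl⟩
  have hVV : ∀ a : Fin m, VV (f a) = (cov W φ φ (y (a + 1)) - cov W φ φ (y a)) / 4 := by
    intro a
    rw [hf]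
    simp only
    rw [lf_VV, cov_wφ W φ σ hσ2 _ _ x (hy a a.2) (hymx _ a.2)]
  have hV0 : ∀ a : Fin m, 0 < VV (f a) := by
    intro a
    rw [hVV]
    have := hΔ0 a a.2
    linarith
  have hSS : ∀ (a : Fin m) (v : Fin n → ℤ), SS (f a) (fun j i => (v i : ZMod (j : ℕ))) = σ * (err W φ (y (a + 1)) v - err W φ (y a) v) / 2 := by
    intro a v
    rw [hf]
    simp only
    rw [lf_SS, err_win W φ σ _ _ x (hy a a.2) (hymx _ a.2)]
  have hL' : ∀ a : Fin m, √(L / VV (f a)) ^ 2 * VV (f a) = L := by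
    intro a
    rw [Real.sq_sqrt (div_nonneg hL00.le (hV0 a).le), div_mul_cancel₀ _ (hV0 a).ne']
  have hu : ∀ a : Fin m, 64 * √(L / VV (f a)) ≤ 2 * γ ^ 2 := by
    intro a
    have h1 : √(L / VV (f a)) ≤ γ ^ 2 / 32 := by
      rw [Real.sqrt_le_left (by positivity), div_le_iff₀ (hV0 a), hVV]
      have := hLV a a.2
      have e : (γ ^ 2 / 32) ^ 2 = γ ^ 4 / 1024 := by ring
      rw [e]
      linarith
    linarith
  have hT : ∀ a : Fin m, √(L / VV (f a)) * VV (f a) / (1 + γ) = √(L * (cov W φ φ (y (a + 1)) - cov W φ φ (y a))) / (1 + γ) / 2 := by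
    intro a
    have h1 : √(L / VV (f a)) * VV (f a) = √(L * VV (f a)) := by
      have h2 : VV (f a) = √(VV (f a)) * √(VV (f a)) := (Real.mul_self_sqrt (hV0 a).le).symm
      rw [Real.sqrt_div hL00.le, Real.sqrt_mul hL00.le]
      have h3 : 0 < √(VV (f a)) := Real.sqrt_pos.2 (hV0 a)
      calc √L / √(VV (f a)) * VV (f a) = √L / √(VV (f a)) * (√(VV (f a)) * √(VV (f a))) := by rw [← h2]
        _ = √L * √(VV (f a)) := by field_simp
    have h4 : √(L * VV (f a)) = √(L * (cov W φ φ (y (a + 1)) - cov W φ φ (y a))) / 2 := by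
      have h5 : L * VV (f a) = L * (cov W φ φ (y (a + 1)) - cov W φ φ (y a)) / 2 ^ 2 := by
        rw [hVV]
        ring
      rw [h5, Real.sqrt_div' _ (by positivity), Real.sqrt_sq (by norm_num)]
    rw [h1, h4]
    ring
  have hdis : ∀ a b : Fin m, a ≠ b → ∀ j : Prs x, (∀ c, f a j c = 0) ∨ (∀ c, f b j c = 0) := by
    intro a b hab j
    rw [hf]
    simp only
    have hne : ¬ (y a < (j : ℕ) ∧ (j : ℕ) ≤ y (a + 1)) ∨ ¬ (y b < (j : ℕ) ∧ (j : ℕ) ≤ y (b + 1)) := by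
      rcases Nat.lt_or_gt_of_ne (fun h => hab (Fin.ext h)) with h | h
      · have := mono_steps y m hy (a + 1) b h b.2.le
        omega
      · have := mono_steps y m hy (b + 1) a h a.2.le
        omega
    rcases hne with h | h
    · exact Or.inl fun c => lf_off W φ σ _ _ x j h c
    · exact Or.inr fun c => lf_off W φ σ _ _ x j h c
  have h1 := second_moment (box M N) (fun v (j : Prs x) i => (v i : ZMod (j : ℕ))) K hK8 (n * (2 * (x : ℝ) ^ (4 * K) / S)) (by positivity) heq hJ m hm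
    f (fun a j b => by rw [hf]; exact lf_abs W _ (fun p d => wφ_abs φ hφ σ hσ1 _ _ p d) x j b)
    (fun a j => by rw [hf]; exact lf_avg W _ x j) hdis γ hγ0 hγ (fun a => √(L / VV (f a)))
    (fun a => Real.sqrt_pos.2 (div_pos hL00 (hV0 a))) hu L hL' hL64 hK1
  have e : (box M N).filter (fun v => ∀ a : Fin m, SS (f a) (fun (j : Prs x) i => (v i : ZMod (j : ℕ))) < √(L / VV (f a)) * VV (f a) / (1 + γ)) =
      (box M N).filter (fun v => ∀ k, k < m → σ * (err W φ (y (k + 1)) v - err W φ (y k) v) <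
        √(L * (cov W φ φ (y (k + 1)) - cov W φ φ (y k))) / (1 + γ)) := by
    apply filter_congr
    intro v _
    constructor
    · intro h k hk
      have h2 := h ⟨k, hk⟩
      rw [hSS, hT] at h2
      simp only at h2
      linarith
    · intro h a
      rw [hSS, hT]
      have h2 := h a a.2
      linarith
  rw [e] at h1
  exact h1

open Classical in
/-- a rough bound with a small probability -/
theorem md_big (n : ℕ) : ∃ (A : ℕ) (η Λ : ℝ), 0 < η ∧ ∀ (r : ℕ)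
    (W : Fin r → WeierstrassCurve (MvPolynomial (Fin n) ℤ)) (φ : ℕ → (Fin r → Option ℤ) → ℝ),
    (∀ p a, |φ p a| ≤ 1) → ∀ (x t : ℕ) (l : ℝ) (M : Fin n → ℤ) (N : Fin n → ℕ), Λ ≤ l → l ≤ η * t → (t : ℝ) ≤ cov W φ φ x →
      (∀ i, (x : ℝ) ^ ((A : ℝ) * l) ≤ N i) →
      (((box M N).filter (fun v => 4 * √l * √(cov W φ φ (gr W φ t)) ≤ |err W φ (gr W φ t) v|)).card : ℝ) ≤
        2 * Real.exp (-(4 * l)) * (box M N).card := by
  obtain ⟨A, η, Λ, hη, hΛ, H⟩ := family_md n (1 / 2) (by norm_num) (by norm_num)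
  refine ⟨16 * A, η / 16, Λ ^ 2, by positivity, ?_⟩
  intro r W φ hφ x t l M N hl hlt htx hN
  have hl1 : 1 ≤ l := le_trans (by nlinarith) hl
  obtain ⟨lam, hlam⟩ : ∃ lam : ℝ, lam = 4 * √l := ⟨_, rfl⟩
  have hlam2 : lam ^ 2 = 16 * l := by
    rw [hlam, mul_pow, Real.sq_sqrt (by linarith)]
    norm_num
  have hlamΛ : Λ ≤ lam := by
    have h1 : Λ ≤ √l := Real.le_sqrt_of_sq_le hl
    have h2 : 0 ≤ √l := Real.sqrt_nonneg _
    linarith
  have hgx : gr W φ t ≤ x := gr_le W φ t x htx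
  have hg : (t : ℝ) ≤ cov W φ φ (gr W φ t) := gr_ge W φ t ⟨x, htx⟩
  have hx1 : 1 ≤ x := by
    by_contra h
    have h5 : x = 0 := by omega
    rw [h5, cov_zero] at htx
    have : η / 16 * (t : ℝ) ≤ 0 := mul_nonpos_of_nonneg_of_nonpos (by positivity) htx
    linarith
  have hx1' : (1 : ℝ) ≤ x := by exact_mod_cast hx1
  rw [← hlam]
  have key : ∀ σ : ℝ, (σ = 1 ∨ σ = -1) → (((box M N).filter (fun v => lam * √(cov W φ φ (gr W φ t)) ≤ σ * err W φ (gr W φ t) v)).card : ℝ) ≤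
      Real.exp (-(4 * l)) * (box M N).card := by
    intro σ hσ
    have hσ1 : |σ| = 1 := by rcases hσ with h | h <;> rw [h] <;> norm_num
    have hσ2 : σ * σ = 1 := by rcases hσ with h | h <;> rw [h] <;> norm_num
    have hcov : cov W (wφ φ σ 0 (gr W φ t)) (wφ φ σ 0 (gr W φ t)) (gr W φ t) = cov W φ φ (gr W φ t) := by
      rw [cov_wφ W φ σ hσ2 0 _ _ (Nat.zero_le _) le_rfl, cov_zero, sub_zero]
    have h3 := (H r W (wφ φ σ 0 (gr W φ t)) (fun p d => wφ_abs φ hφ σ hσ1 0 _ p d) (gr W φ t) lam hlamΛ (by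
      rw [hcov, hlam2]
      have : η * t ≤ η * cov W φ φ (gr W φ t) := mul_le_mul_of_nonneg_left hg hη.le
      linarith) M N (by
      intro i
      refine le_trans ?_ (hN i)
      calc ((gr W φ t : ℕ) : ℝ) ^ ((A : ℝ) * lam ^ 2) ≤ (x : ℝ) ^ ((A : ℝ) * lam ^ 2) := by
            apply Real.rpow_le_rpow (Nat.cast_nonneg _) (by exact_mod_cast hgx)
            positivity
        _ = (x : ℝ) ^ (((16 * A : ℕ) : ℝ) * l) := by
            rw [hlam2]
            push_cast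
            congr 1
            ring)).2
    rw [hcov] at h3
    have e : (box M N).filter (fun v => mean W (wφ φ σ 0 (gr W φ t)) (gr W φ t) + lam * √(cov W φ φ (gr W φ t)) ≤
        total W (wφ φ σ 0 (gr W φ t)) (gr W φ t) v) =
        (box M N).filter (fun v => lam * √(cov W φ φ (gr W φ t)) ≤ σ * err W φ (gr W φ t) v) := by
      apply filter_congr
      intro v _
      have h4 := err_win W φ σ 0 (gr W φ t) (gr W φ t) (Nat.zero_le _) le_rfl v
      rw [err_zero, sub_zero] at h4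
      rw [← h4]
      constructor
      · intro h; linarith
      · intro h; linarith
    rw [e] at h3
    refine h3.trans (le_of_eq ?_)
    rw [hlam2]
    congr 2
    ring
  have h5 : (box M N).filter (fun v => lam * √(cov W φ φ (gr W φ t)) ≤ |err W φ (gr W φ t) v|) ⊆
      ((box M N).filter (fun v => lam * √(cov W φ φ (gr W φ t)) ≤ 1 * err W φ (gr W φ t) v)) ∪
      ((box M N).filter (fun v => lam * √(cov W φ φ (gr W φ t)) ≤ (-1) * err W φ (gr W φ t) v)) := by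
    intro v hv
    rw [mem_filter] at hv
    rw [mem_union, mem_filter, mem_filter]
    obtain ⟨hv1, hv3⟩ := hv
    rcases le_abs.1 hv3 with h | h
    · exact Or.inl ⟨hv1, by linarith⟩
    · exact Or.inr ⟨hv1, by linarith⟩
  have h6 := (card_le_card h5).trans (card_union_le _ _)
  have h7 : (((box M N).filter (fun v => lam * √(cov W φ φ (gr W φ t)) ≤ |err W φ (gr W φ t) v|)).card : ℝ) ≤
      (((box M N).filter (fun v => lam * √(cov W φ φ (gr W φ t)) ≤ 1 * err W φ (gr W φ t) v)).card : ℝ) +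
      (((box M N).filter (fun v => lam * √(cov W φ φ (gr W φ t)) ≤ (-1) * err W φ (gr W φ t) v)).card : ℝ) := by
    exact_mod_cast h6
  have h8 := key 1 (Or.inl rfl)
  have h9 := key (-1) (Or.inr rfl)
  linarith

end Pool.Agent.K4H16.CG
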