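import Pool.Agent.K4H16.CG.IL8
import Pool.Agent.K4H16.CG.IL5

/-!
# The lower half of the law of the iterated logarithm
-/

set_option autoImplicit false

namespace Pool.Agent.K4H16.CG

open Finset

variable {n r : ℕ}

/-- the parameters -/
lemma low_params (γ δ ε η Λ : ℝ) (R : ℕ) (hγ : 0 < γ) (hγδ : γ = δ / 32) (hδ1 : δ ≤ 1) (hε : 0 < ε) (hη : 0 < η) (hR : 2 ≤ R) :
    ∃ J₀ : ℕ, ∀ J : ℕ, J₀ ≤ J → ∃ m : ℕ, 1 ≤ m ∧ 2 * m ≤ J ∧ (m : ℝ) ≤ δ * J / 2 ∧ (1 - γ) * Real.log J ≤ Real.log m ∧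
      Λ ≤ Real.log J ∧ Real.log J ≤ η * 2 ^ (J - m) ∧ 64 ≤ γ ^ 2 * (2 * (1 - 4 * γ) * Real.log m) ∧
      4096 * (2 * (1 - 4 * γ) * Real.log m) ≤ γ ^ 4 * 2 ^ (J - m) ∧
      8 * Real.exp ((1 + 3 * γ) * (2 * (1 - 4 * γ) * Real.log m) / 2) / m + 102 * Real.exp (-((2 * (1 - 4 * γ) * Real.log m) * γ ^ 2 / 8)) +
        (m + 1) * (2 * Real.exp (-(4 * Real.log J))) ≤ ε ∧
      Real.log ((J + 1) * Real.log R) ≤ (1 + γ) * Real.log J := by
  have hδ : 0 < δ := by linarith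
  have hγ1 : γ ≤ 1 / 32 := by linarith
  obtain ⟨B, hB⟩ : ∃ B : ℝ, B = Λ + |Real.log (4 / δ)| / γ + 64 / γ ^ 2 + 8 / γ ^ 2 * |Real.log (112 / ε)| + |Real.log (2 * Real.log R)| / γ + |Λ| + 2 := ⟨_, rfl⟩
  obtain ⟨η', hη'⟩ : ∃ η' : ℝ, η' = min (η / 2) (γ ^ 4 / 16384) := ⟨_, rfl⟩
  have hη'0 : 0 < η' := by rw [hη']; exact lt_min (by positivity) (by positivity)
  obtain ⟨j₁, hj₁⟩ := log_ev η' 1 hη'0
  obtain ⟨j₂, hj₂⟩ := log_ev 1 B (by norm_num)
  obtain ⟨j₃, hj₃⟩ := exists_nat_ge (4 / δ)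
  refine ⟨2 * j₁ + j₂ + j₃ + 4, ?_⟩
  intro J hJ
  have hJ0 : (0 : ℝ) < J := by exact_mod_cast (show 0 < J by omega)
  have hJ3 : 4 / δ ≤ J := hj₃.trans (by exact_mod_cast (show j₃ ≤ J by omega))
  have hδJ : 4 ≤ δ * J := by
    rw [div_le_iff₀ hδ] at hJ3
    linarith
  obtain ⟨l, hl⟩ : ∃ l : ℝ, l = Real.log J := ⟨_, rfl⟩
  have hlB : B ≤ l := by rw [hl]; exact (hj₂ J (by omega)).1
  have hRr : (2 : ℝ) ≤ R := by exact_mod_cast hR
  have hlR : 0 < Real.log R := Real.log_pos (by linarith)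
  have a1 : 0 ≤ |Real.log (4 / δ)| / γ := by positivity
  have a2 : 0 ≤ 64 / γ ^ 2 := by positivity
  have a3 : 0 ≤ 8 / γ ^ 2 * |Real.log (112 / ε)| := by positivity
  have a4 : 0 ≤ |Real.log (2 * Real.log R)| / γ := by positivity
  have a5 : 0 ≤ |Λ| + Λ := by linarith [neg_abs_le Λ]
  have b0 : Λ ≤ l := by linarith [le_abs_self Λ, abs_nonneg Λ]
  have b1 : Real.log (4 / δ) ≤ γ * l := by
    have h1 : |Real.log (4 / δ)| / γ ≤ l := by linarith
    rw [div_le_iff₀ hγ] at h1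
    linarith [le_abs_self (Real.log (4 / δ))]
  have b2 : 64 ≤ γ ^ 2 * l := by
    have h1 : 64 / γ ^ 2 ≤ l := by linarith
    rw [div_le_iff₀ (by positivity)] at h1
    linarith
  have b3 : Real.log (112 / ε) ≤ γ ^ 2 * l / 8 := by
    have h1 : 8 / γ ^ 2 * |Real.log (112 / ε)| ≤ l := by linarith
    rw [div_mul_eq_mul_div, div_le_iff₀ (by positivity)] at h1
    linarith [le_abs_self (Real.log (112 / ε))]
  have b4 : Real.log (2 * Real.log R) ≤ γ * l := by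
    have h1 : |Real.log (2 * Real.log R)| / γ ≤ l := by linarith
    rw [div_le_iff₀ hγ] at h1
    linarith [le_abs_self (Real.log (2 * Real.log R))]
  have b5 : 2 ≤ l := by linarith
  obtain ⟨m, hm⟩ : ∃ m : ℕ, m = ⌊δ * J / 2⌋₊ := ⟨_, rfl⟩
  have m1 : (m : ℝ) ≤ δ * J / 2 := by rw [hm]; exact Nat.floor_le (by positivity)
  have m2 : δ * J / 4 ≤ m := by
    have h1 : δ * J / 2 < m + 1 := by rw [hm]; exact Nat.lt_floor_add_one _
    linarith
  have m3 : (1 : ℝ) ≤ m := by linarith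
  have m4 : 1 ≤ m := by exact_mod_cast m3
  have m5 : 2 * m ≤ J := by
    have h1 : (2 * m : ℝ) ≤ J := by nlinarith
    exact_mod_cast h1
  have m6 : (1 - γ) * l ≤ Real.log m := by
    have h1 : Real.log (δ * J / 4) ≤ Real.log m := Real.log_le_log (by positivity) m2
    have h2 : Real.log (δ * J / 4) = l - Real.log (4 / δ) := by
      have h3 : δ * J / 4 = J / (4 / δ) := by field_simp
      rw [h3, Real.log_div hJ0.ne' (by positivity), hl]
    linarith
  have m7 : Real.log m ≤ l := by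
    rw [hl]
    apply Real.log_le_log (by linarith)
    exact_mod_cast (show m ≤ J by omega)
  have hlm0 : 0 ≤ Real.log m := Real.log_nonneg m3
  obtain ⟨L, hL⟩ : ∃ L : ℝ, L = 2 * (1 - 4 * γ) * Real.log m := ⟨_, rfl⟩
  have hLl : l ≤ L := by
    rw [hL]
    nlinarith
  have hL2 : L ≤ 2 * l := by
    rw [hL]
    nlinarith
  have hj' : 2 * (J - m) ≥ J := by omega
  have hlog2 : l ≤ 2 * Real.log ((J - m : ℕ) : ℝ) := by
    obtain ⟨j', hj'd⟩ : ∃ j' : ℕ, j' = J - m := ⟨_, rfl⟩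
    rw [← hj'd] at hj' ⊢
    have h1 : (2 : ℝ) ≤ j' := by exact_mod_cast (show 2 ≤ j' by omega)
    have h2 : (J : ℝ) ≤ (j' : ℝ) ^ 2 := by
      have : (J : ℝ) ≤ 2 * j' := by exact_mod_cast hj'
      nlinarith
    rw [hl]
    calc Real.log J ≤ Real.log ((j' : ℝ) ^ 2) := Real.log_le_log hJ0 h2
      _ = 2 * Real.log j' := by rw [Real.log_pow]; norm_num
  have h2J : l ≤ 2 * (η' * 2 ^ (J - m)) := by
    have := (hj₁ (J - m) (by omega)).2.1
    linarith
  have hη1 : η' ≤ η / 2 := by rw [hη']; exact min_le_left _ _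
  have hη2 : η' ≤ γ ^ 4 / 16384 := by rw [hη']; exact min_le_right _ _
  have hP : (0 : ℝ) < 2 ^ (J - m) := by positivity
  refine ⟨m, m4, m5, m1, ?_, ?_, ?_, ?_, ?_, ?_, ?_⟩
  · rw [← hl]; exact m6
  · rw [← hl]; exact b0
  · rw [← hl]
    have : η' * 2 ^ (J - m) ≤ η / 2 * 2 ^ (J - m) := mul_le_mul_of_nonneg_right hη1 hP.le
    linarith
  · rw [← hL]
    have : γ ^ 2 * l ≤ γ ^ 2 * L := mul_le_mul_of_nonneg_left hLl (by positivity)
    linarith
  · rw [← hL]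
    have h3 : η' * 2 ^ (J - m) ≤ γ ^ 4 / 16384 * 2 ^ (J - m) := mul_le_mul_of_nonneg_right hη2 hP.le
    linarith
  · rw [← hL, ← hl]
    have hm0 : (0 : ℝ) < m := by linarith
    have e1 : 8 * Real.exp ((1 + 3 * γ) * L / 2) / m ≤ 8 * Real.exp (-(γ ^ 2 * l / 8)) := by
      rw [div_le_iff₀ hm0]
      have h1 : Real.exp ((1 + 3 * γ) * L / 2) ≤ Real.exp (-(γ ^ 2 * l / 8)) * m := by
        have h2 : (m : ℝ) = Real.exp (Real.log m) := (Real.exp_log hm0).symm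
        rw [h2, ← Real.exp_add]
        apply Real.exp_le_exp.2
        rw [hL]
        have h3 : (1 + 3 * γ) * (2 * (1 - 4 * γ) * Real.log m) / 2 ≤ (1 - γ) * Real.log m := by nlinarith [mul_nonneg (sq_nonneg γ) hlm0]
        have h4 : γ ^ 2 * l / 8 ≤ γ * Real.log m := by
          have h5 : γ ^ 2 * l ≤ γ * l := by nlinarith
          have h6 : l / 2 ≤ Real.log m := by nlinarith
          nlinarith
        linarith
      linarith
    have e2 : 102 * Real.exp (-(L * γ ^ 2 / 8)) ≤ 102 * Real.exp (-(γ ^ 2 * l / 8)) := by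
      have : Real.exp (-(L * γ ^ 2 / 8)) ≤ Real.exp (-(γ ^ 2 * l / 8)) := by
        apply Real.exp_le_exp.2
        nlinarith [mul_le_mul_of_nonneg_left hLl (sq_nonneg γ)]
      linarith
    have e3 : ((m : ℝ) + 1) * (2 * Real.exp (-(4 * l))) ≤ 2 * Real.exp (-(γ ^ 2 * l / 8)) := by
      have h1 : (m : ℝ) + 1 ≤ Real.exp l := by
        rw [hl, Real.exp_log hJ0]
        exact_mod_cast (show m + 1 ≤ J by omega)
      have h2 : ((m : ℝ) + 1) * (2 * Real.exp (-(4 * l))) ≤ Real.exp l * (2 * Real.exp (-(4 * l))) :=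
        mul_le_mul_of_nonneg_right h1 (by positivity)
      have h3 : Real.exp l * (2 * Real.exp (-(4 * l))) = 2 * Real.exp (-(3 * l)) := by
        rw [mul_left_comm, ← Real.exp_add]
        congr 2
        ring
      have h4 : Real.exp (-(3 * l)) ≤ Real.exp (-(γ ^ 2 * l / 8)) := by
        apply Real.exp_le_exp.2
        have h5 : γ ^ 2 ≤ 1 := by nlinarith
        have h6 : γ ^ 2 * l ≤ 1 * l := mul_le_mul_of_nonneg_right h5 (by linarith)
        linarith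
      linarith
    have e4 : 112 * Real.exp (-(γ ^ 2 * l / 8)) ≤ ε := by
      have h1 : Real.exp (-(γ ^ 2 * l / 8)) ≤ Real.exp (-(Real.log (112 / ε))) := by
        apply Real.exp_le_exp.2
        linarith
      rw [Real.exp_neg (Real.log (112 / ε)), Real.exp_log (by positivity)] at h1
      calc 112 * Real.exp (-(γ ^ 2 * l / 8)) ≤ 112 * (112 / ε)⁻¹ := by linarith
        _ = ε := by
            rw [inv_div]
            ring
    linarith
  · rw [← hl]
    have h1 : Real.log ((J + 1) * Real.log R) ≤ Real.log (J * (2 * Real.log R)) := by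
      apply Real.log_le_log (by positivity)
      have h2 : (1 : ℝ) ≤ J := by exact_mod_cast (show 1 ≤ J by omega)
      nlinarith
    rw [Real.log_mul hJ0.ne' (by positivity), ← hl] at h1
    linarith

/-- the final inequality -/
lemma low_final (γ Y c l L lam₂ a : ℝ) (hγ : 0 < γ) (hγ1 : γ ≤ 1 / 32) (hY : 0 < Y) (hc0 : 0 ≤ c) (hc : c ≤ γ ^ 2 / 8 * Y) (hl : 0 < l)
    (hL : 2 * (1 - 4 * γ) * ((1 - γ) * l) ≤ L) (hlam : lam₂ ≤ (1 + γ) * l)
    (h1 : √(L * (Y - c)) / (1 + γ) - 4 * √l * √c ≤ a) : (1 - 32 * γ) * √(2 * Y * lam₂) ≤ a := by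
  refine le_trans ?_ h1
  obtain ⟨Z, hZ⟩ : ∃ Z : ℝ, Z = √(2 * Y * l) := ⟨_, rfl⟩
  have hZ0 : 0 ≤ Z := by rw [hZ]; exact Real.sqrt_nonneg _
  have e1 : (1 - 6 * γ) * Z ≤ √(L * (Y - c)) := by
    have h2 : (1 - 6 * γ) * Z = √((1 - 6 * γ) ^ 2 * (2 * Y * l)) := by
      rw [Real.sqrt_mul (sq_nonneg _), Real.sqrt_sq (by linarith), hZ]
    rw [h2]
    apply Real.sqrt_le_sqrt
    have h3 : (1 - γ) * Y ≤ Y - c := by nlinarith [mul_pos (mul_pos hγ hγ) hY, mul_pos hγ hY]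
    have h4 : 2 * (1 - 4 * γ) * ((1 - γ) * l) * ((1 - γ) * Y) ≤ L * (Y - c) := by
      apply mul_le_mul hL h3
      · have : 0 ≤ 1 - γ := by linarith
        positivity
      · refine le_trans ?_ hL
        have : 0 ≤ 1 - γ := by linarith
        have : 0 ≤ 1 - 4 * γ := by linarith
        positivity
    refine le_trans ?_ h4
    have h5 : (1 - 6 * γ) ^ 2 ≤ (1 - 4 * γ) * ((1 - γ) * (1 - γ)) := by nlinarith [mul_pos hγ hγ, mul_pos (mul_pos hγ hγ) hγ]
    calc (1 - 6 * γ) ^ 2 * (2 * Y * l) ≤ (1 - 4 * γ) * ((1 - γ) * (1 - γ)) * (2 * Y * l) := mul_le_mul_of_nonneg_right h5 (by positivity)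
      _ = _ := by ring
  have e2 : (1 - 7 * γ) * Z ≤ √(L * (Y - c)) / (1 + γ) := by
    rw [le_div_iff₀ (by linarith)]
    refine le_trans ?_ e1
    have : (1 - 7 * γ) * (1 + γ) ≤ 1 - 6 * γ := by nlinarith
    nlinarith
  have e3 : 4 * √l * √c ≤ γ * Z := by
    have h2 : √l * √c = √(l * c) := (Real.sqrt_mul hl.le c).symm
    have h3 : √(l * c) ≤ γ / 4 * Z := by
      have h4 : γ / 4 * Z = √((γ / 4) ^ 2 * (2 * Y * l)) := by
        rw [Real.sqrt_mul (sq_nonneg _), Real.sqrt_sq (by linarith), hZ]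
      rw [h4]
      apply Real.sqrt_le_sqrt
      have : l * c ≤ l * (γ ^ 2 / 8 * Y) := mul_le_mul_of_nonneg_left hc hl.le
      linarith
    rw [mul_assoc, h2]
    linarith
  have e4 : √(2 * Y * lam₂) ≤ (1 + γ) * Z := by
    have h4 : (1 + γ) * Z = √((1 + γ) ^ 2 * (2 * Y * l)) := by
      rw [Real.sqrt_mul (sq_nonneg _), Real.sqrt_sq (by linarith), hZ]
    rw [h4]
    apply Real.sqrt_le_sqrt
    have h5 : 2 * Y * lam₂ ≤ 2 * Y * ((1 + γ) * l) := mul_le_mul_of_nonneg_left hlam (by positivity)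
    have h6 : 2 * Y * ((1 + γ) * l) ≤ (1 + γ) ^ 2 * (2 * Y * l) := by
      have : (1 + γ) ≤ (1 + γ) ^ 2 := by nlinarith
      calc 2 * Y * ((1 + γ) * l) = (1 + γ) * (2 * Y * l) := by ring
        _ ≤ (1 + γ) ^ 2 * (2 * Y * l) := mul_le_mul_of_nonneg_right this (by positivity)
    linarith
  have e5 : (1 - 32 * γ) * √(2 * Y * lam₂) ≤ (1 - 32 * γ) * ((1 + γ) * Z) := mul_le_mul_of_nonneg_left e4 (by linarith)
  have e6 : (1 - 32 * γ) * ((1 + γ) * Z) ≤ (1 - 8 * γ) * Z := by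
    have : (1 - 32 * γ) * (1 + γ) ≤ 1 - 8 * γ := by nlinarith
    nlinarith
  linarith

open Classical in
/-- **The lower half of the law of the iterated logarithm in families**, one sign. -/
theorem family_lil_low (n : ℕ) (ε δ : ℝ) (hε : 0 < ε) (hδ : 0 < δ) (hδ1 : δ ≤ 1) : ∃ A V₀ : ℝ, 0 < A ∧ 3 ≤ V₀ ∧
    ∀ (r : ℕ) (W : Fin r → WeierstrassCurve (MvPolynomial (Fin n) ℤ)) (φ : ℕ → (Fin r → Option ℤ) → ℝ),
      (∀ p d, |φ p d| ≤ 1) → ∀ (x : ℕ) (M : Fin n → ℤ) (N : Fin n → ℕ), V₀ ≤ cov W φ φ x →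
      (∀ i, (x : ℝ) ^ (A * Real.log (Real.log (cov W φ φ x))) ≤ N i) → ∀ σ : ℝ, (σ = 1 ∨ σ = -1) →
      (((box M N).filter (fun v => ¬ ∃ y ≤ x, (cov W φ φ x) ^ (1 - δ) ≤ cov W φ φ y ∧
        (1 - δ) * √(2 * cov W φ φ y * Real.log (Real.log (cov W φ φ x))) ≤ σ * err W φ y v)).card : ℝ) ≤ ε * (box M N).card := by
  obtain ⟨A₁, H1⟩ := family_windows n
  obtain ⟨A₂, η, Λ, hη, H2⟩ := md_big n
  obtain ⟨γ, hγd⟩ : ∃ γ : ℝ, γ = δ / 32 := ⟨_, rfl⟩
  have hγ0 : 0 < γ := by rw [hγd]; positivity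
  have hγ1 : γ ≤ 1 / 32 := by rw [hγd]; linarith
  obtain ⟨R, hR⟩ : ∃ R : ℕ, R = ⌈16 / γ ^ 2⌉₊ + 3 := ⟨_, rfl⟩
  have hR3 : 3 ≤ R := by omega
  have hR16 : 16 / γ ^ 2 ≤ R := by
    rw [hR]
    push_cast
    linarith [Nat.le_ceil (16 / γ ^ 2)]
  have hRr : (3 : ℝ) ≤ R := by exact_mod_cast hR3
  have hR1 : (1 : ℝ) ≤ R := by linarith
  have hR0 : (0 : ℝ) < R := by linarith
  obtain ⟨J₀, hJ₀⟩ := low_params γ δ ε η (Λ + |Λ| + 2) R hγ0 hγd hδ1 hε hη (by omega)
  refine ⟨2 * (2 * A₁ + A₂) + 1, R ^ (J₀ + 1), by positivity, ?_, ?_⟩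
  · calc (3 : ℝ) ≤ R := hRr
      _ = (R : ℝ) ^ 1 := (pow_one _).symm
      _ ≤ (R : ℝ) ^ (J₀ + 1) := pow_le_pow_right₀ hR1 (by omega)
  intro r W φ hφ x M N hVx hN σ hσ
  obtain ⟨V, hV⟩ : ∃ V : ℝ, V = cov W φ φ x := ⟨_, rfl⟩
  rw [← hV] at hVx hN ⊢
  have hV0 : 0 ≤ V := le_trans (by positivity) hVx
  -- the scale
  obtain ⟨t, ht⟩ : ∃ t : ℕ, t = ⌊V⌋₊ := ⟨_, rfl⟩
  have ht1 : (t : ℝ) ≤ V := by rw [ht]; exact Nat.floor_le hV0
  have ht2 : V < t + 1 := by rw [ht]; exact Nat.lt_floor_add_one _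
  have ht3 : R ^ (J₀ + 1) ≤ t := by
    rw [ht]
    apply Nat.le_floor
    push_cast
    exact hVx
  have ht0 : t ≠ 0 := by
    have : 0 < R ^ (J₀ + 1) := by positivity
    omega
  obtain ⟨J, hJ⟩ : ∃ J : ℕ, J = Nat.log R t := ⟨_, rfl⟩
  have hJ1 : R ^ J ≤ t := by rw [hJ]; exact Nat.pow_log_le_self R ht0
  have hJ2 : t < R ^ (J + 1) := by rw [hJ]; exact Nat.lt_pow_succ_log_self (by omega) t
  have hJ3 : J₀ ≤ J := by
    have : J₀ + 1 ≤ J := by
      rw [hJ]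
      exact Nat.le_log_of_pow_le (by omega) ht3
    omega
  have hJ4 : (R : ℝ) ^ J ≤ V := le_trans (by exact_mod_cast hJ1) ht1
  have hJ5 : V < (R : ℝ) ^ (J + 1) := by
    have : ((t + 1 : ℕ) : ℝ) ≤ (R : ℝ) ^ (J + 1) := by exact_mod_cast hJ2
    push_cast at this
    linarith
  obtain ⟨m, m1, m2, m3, m4, m5, m6, m7, m8, m9, m10⟩ := hJ₀ J hJ3
  obtain ⟨l, hl⟩ : ∃ l : ℝ, l = Real.log J := ⟨_, rfl⟩
  obtain ⟨L, hL⟩ : ∃ L : ℝ, L = 2 * (1 - 4 * γ) * Real.log m := ⟨_, rfl⟩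
  rw [← hL] at m7 m8 m9
  rw [← hl] at m4 m5 m6 m9 m10
  have hl2 : 2 ≤ l := by linarith [neg_abs_le Λ]
  have hΛl : Λ ≤ l := by linarith [abs_nonneg Λ]
  have hLl : L ≤ 2 * l := by
    have h1 : Real.log m ≤ l := by
      rw [hl]
      apply Real.log_le_log (by exact_mod_cast m1)
      exact_mod_cast (show m ≤ J by omega)
    have h2 : 0 ≤ Real.log m := Real.log_nonneg (by exact_mod_cast m1)
    rw [hL]
    nlinarith
  have hJpos : 1 ≤ J := by omega
  have hll : l ≤ 2 * Real.log (Real.log V) := by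
    have h1 : (2 : ℝ) ^ J ≤ V := le_trans (pow_le_pow_left₀ (by norm_num) (by linarith) _) hJ4
    have h2 := loglog_ge V J hJpos h1
    rw [← hl] at h2
    linarith
  have hx1 : 1 ≤ x := by
    by_contra h
    have h5 : x = 0 := by omega
    rw [h5, cov_zero] at hV
    have : (0 : ℝ) < (R : ℝ) ^ J := by positivity
    linarith
  have hx1' : (1 : ℝ) ≤ x := by exact_mod_cast hx1
  -- the points
  obtain ⟨y, hy⟩ : ∃ y : ℕ → ℕ, y = fun k => gr W φ (R ^ (J - m + k)) := ⟨_, rfl⟩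
  have hex : ∀ k, k ≤ m → ((R ^ (J - m + k) : ℕ) : ℝ) ≤ cov W φ φ x := by
    intro k hk
    rw [← hV]
    push_cast
    exact (pow_le_pow_right₀ hR1 (by omega)).trans hJ4
  have hy1 : ∀ k, k < m → y k ≤ y (k + 1) := by
    intro k hk
    rw [hy]
    exact gr_mono W φ _ _ (Nat.pow_le_pow_right (by omega) (by omega)) ⟨x, hex (k + 1) hk⟩
  have hyx : ∀ k, k ≤ m → y k ≤ x := by
    intro k hk
    rw [hy]
    exact gr_le W φ _ x (hex k hk)
  have hylo : ∀ k, k ≤ m → (R : ℝ) ^ (J - m + k) ≤ cov W φ φ (y k) := by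
    intro k hk
    rw [hy]
    have := gr_ge W φ (R ^ (J - m + k)) ⟨x, hex k hk⟩
    push_cast at this
    exact this
  have hyhi : ∀ k, k ≤ m → cov W φ φ (y k) < (R : ℝ) ^ (J - m + k) + 1 := by
    intro k hk
    rw [hy]
    have := gr_lt W φ hφ (R ^ (J - m + k)) ⟨x, hex k hk⟩
    push_cast at this
    exact this
  have hgap : ∀ k, k < m → (2 : ℝ) ^ (J - m) ≤ cov W φ φ (y (k + 1)) - cov W φ φ (y k) := by
    intro k hk
    have h1 := hylo (k + 1) hk
    have h2 := hyhi k hk.le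
    have h3 : (R : ℝ) ^ (J - m + (k + 1)) = R * (R : ℝ) ^ (J - m + k) := by
      rw [← add_assoc, pow_succ]
      ring
    have h4 : (1 : ℝ) ≤ (R : ℝ) ^ (J - m + k) := one_le_pow₀ hR1
    have h5 : (2 : ℝ) ^ (J - m) ≤ (R : ℝ) ^ (J - m + k) :=
      (pow_le_pow_left₀ (by norm_num) (by linarith) _).trans (pow_le_pow_right₀ hR1 (by omega))
    rw [h3] at h1
    nlinarith
  have hγ4 : 0 < γ ^ 4 := by positivity
  have w1 := H1 r W φ hφ x m y m1 hy1 (hyx m le_rfl) γ L hγ0 (by linarith) m7 (by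
    intro k hk
    refine m8.trans ?_
    exact mul_le_mul_of_nonneg_left (hgap k hk) hγ4.le) M N (by
    intro i
    refine le_trans ?_ (hN i)
    apply Real.rpow_le_rpow_of_exponent_le hx1'
    have h1 : (0 : ℝ) ≤ A₁ := Nat.cast_nonneg _
    have h2 : (0 : ℝ) ≤ A₂ := Nat.cast_nonneg _
    have h3 : (A₁ : ℝ) * L ≤ A₁ * (4 * Real.log (Real.log V)) := by
      apply mul_le_mul_of_nonneg_left _ h1
      linarith
    have h4 : 0 ≤ Real.log (Real.log V) := by linarith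
    have h5 : 0 ≤ (2 * A₂ + 1) * Real.log (Real.log V) := by positivity
    linarith) σ hσ
  obtain ⟨Q, hQ⟩ : ∃ Q : (Fin n → ℤ) → Prop, ∀ v, Q v ↔ ∃ k ∈ range (m + 1), 4 * √l * √(cov W φ φ (y k)) ≤ |err W φ (y k) v| :=
    ⟨fun v => ∃ k ∈ range (m + 1), 4 * √l * √(cov W φ φ (y k)) ≤ |err W φ (y k) v|, fun _ => Iff.rfl⟩
  have w2 : (((box M N).filter Q).card : ℝ) ≤
      (m + 1) * (2 * Real.exp (-(4 * l))) * (box M N).card := by
    refine (card_exists_le (box M N) (range (m + 1)) Q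
      (fun k v => 4 * √l * √(cov W φ φ (y k)) ≤ |err W φ (y k) v|) (fun v h => (hQ v).1 h)).trans ?_
    have h1 : ∀ k ∈ range (m + 1), (((box M N).filter (fun v => 4 * √l * √(cov W φ φ (y k)) ≤ |err W φ (y k) v|)).card : ℝ) ≤
        2 * Real.exp (-(4 * l)) * (box M N).card := by
      intro k hk
      rw [mem_range] at hk
      have h2 := H2 r W φ hφ x (R ^ (J - m + k)) l M N hΛl (by
        refine m6.trans ?_
        apply mul_le_mul_of_nonneg_left _ hη.le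
        push_cast
        exact (pow_le_pow_left₀ (by norm_num) (by linarith) _).trans (pow_le_pow_right₀ hR1 (by omega))) (hex k (by omega)) (by
        intro i
        refine le_trans ?_ (hN i)
        apply Real.rpow_le_rpow_of_exponent_le hx1'
        have h1 : (0 : ℝ) ≤ A₁ := Nat.cast_nonneg _
        have h2 : (0 : ℝ) ≤ A₂ := Nat.cast_nonneg _
        have h3 : (A₂ : ℝ) * l ≤ A₂ * (2 * Real.log (Real.log V)) := by
          apply mul_le_mul_of_nonneg_left hll h2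
        have h4 : 0 ≤ Real.log (Real.log V) := by linarith
        have h5 : 0 ≤ (4 * A₁ + 1) * Real.log (Real.log V) := by positivity
        linarith)
      rw [hy]
      exact h2
    refine (sum_le_sum h1).trans ?_
    rw [sum_const, card_range, nsmul_eq_mul]
    push_cast
    apply le_of_eq
    ring
  -- the good members
  have hsub : (box M N).filter (fun v => ¬ ∃ y ≤ x, V ^ (1 - δ) ≤ cov W φ φ y ∧
        (1 - δ) * √(2 * cov W φ φ y * Real.log (Real.log V)) ≤ σ * err W φ y v) ⊆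
      (box M N).filter (fun v => ∀ k, k < m → σ * (err W φ (y (k + 1)) v - err W φ (y k) v) <
        √(L * (cov W φ φ (y (k + 1)) - cov W φ φ (y k))) / (1 + γ)) ∪
      (box M N).filter Q := by
    intro v hv
    rw [mem_filter] at hv
    obtain ⟨hv1, hv2⟩ := hv
    rw [mem_union, mem_filter, mem_filter, hQ]
    by_contra hcon
    push Not at hcon
    obtain ⟨c1, c2⟩ := hcon
    obtain ⟨k, hk, hk1⟩ := c1 hv1
    have hk2 := c2 hv1 k (mem_range.2 (by omega))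
    apply hv2
    refine ⟨y (k + 1), hyx (k + 1) hk, ?_, ?_⟩
    · refine le_trans ?_ (hylo (k + 1) hk)
      calc V ^ (1 - δ) ≤ ((R : ℝ) ^ (J + 1)) ^ (1 - δ) := Real.rpow_le_rpow hV0 hJ5.le (by linarith)
        _ = (R : ℝ) ^ (((J + 1 : ℕ) : ℝ) * (1 - δ)) := by
            rw [← Real.rpow_natCast, ← Real.rpow_mul hR0.le]
        _ ≤ (R : ℝ) ^ (((J - m + (k + 1) : ℕ)) : ℝ) := by
            apply Real.rpow_le_rpow_of_exponent_le hR1
            push_cast [Nat.cast_sub (show m ≤ J by omega)]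
            have h1 : (0 : ℝ) ≤ k := Nat.cast_nonneg _
            have h2 : (0 : ℝ) ≤ J := Nat.cast_nonneg _
            nlinarith
        _ = (R : ℝ) ^ (J - m + (k + 1)) := Real.rpow_natCast _ _
    · obtain ⟨Y, hY⟩ : ∃ Y : ℝ, Y = cov W φ φ (y (k + 1)) := ⟨_, rfl⟩
      obtain ⟨c, hc⟩ : ∃ c : ℝ, c = cov W φ φ (y k) := ⟨_, rfl⟩
      rw [← hY, ← hc] at hk1
      rw [← hc] at hk2
      rw [← hY]
      have hP1 : (1 : ℝ) ≤ (R : ℝ) ^ (J - m + k) := one_le_pow₀ hR1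
      have hYlo := hylo (k + 1) hk
      have hclo := hylo k hk.le
      have hchi := hyhi k hk.le
      rw [← hY] at hYlo
      rw [← hc] at hclo hchi
      have h3 : (R : ℝ) ^ (J - m + (k + 1)) = R * (R : ℝ) ^ (J - m + k) := by
        rw [← add_assoc, pow_succ]
        ring
      rw [h3] at hYlo
      have hc8 : c ≤ γ ^ 2 / 8 * Y := by
        have h4 : 16 ≤ γ ^ 2 * R := by
          rw [div_le_iff₀ (by positivity)] at hR16
          linarith
        have h5 : 2 * (R : ℝ) ^ (J - m + k) ≤ γ ^ 2 / 8 * (R * (R : ℝ) ^ (J - m + k)) := by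
          have : 2 * (R : ℝ) ^ (J - m + k) = 16 / 8 * (R : ℝ) ^ (J - m + k) := by ring
          rw [this]
          calc 16 / 8 * (R : ℝ) ^ (J - m + k) ≤ (γ ^ 2 * R) / 8 * (R : ℝ) ^ (J - m + k) := by gcongr
            _ = _ := by ring
        have h6 : γ ^ 2 / 8 * (R * (R : ℝ) ^ (J - m + k)) ≤ γ ^ 2 / 8 * Y := mul_le_mul_of_nonneg_left hYlo (by positivity)
        linarith
      have hY0 : 0 < Y := by
        have : 0 < R * (R : ℝ) ^ (J - m + k) := by positivity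
        linarith
      have hδγ : 1 - δ = 1 - 32 * γ := by rw [hγd]; ring
      rw [hδγ]
      refine low_final γ Y c l L (Real.log (Real.log V)) (σ * err W φ (y (k + 1)) v) hγ0 hγ1 hY0 (by linarith) hc8 (by linarith) ?_ ?_ ?_
      · rw [hL]
        apply mul_le_mul_of_nonneg_left m4
        linarith
      · refine le_trans ?_ m10
        have hlR : 0 < Real.log R := Real.log_pos (by linarith)
        have h7 : Real.log V ≤ (J + 1) * Real.log R := by
          have h8 : Real.log V ≤ Real.log ((R : ℝ) ^ (J + 1)) := Real.log_le_log (by linarith [show (0 : ℝ) < (R : ℝ) ^ J by positivity]) hJ5.le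
          rw [Real.log_pow] at h8
          push_cast at h8
          exact h8
        have h9 : 0 < Real.log V := by
          by_contra hcon
          push Not at hcon
          have h10 : Real.log (Real.log V) ≤ Real.log (Real.log V) := le_rfl
          have h11 : V ≤ 1 := by
            by_contra h12
            push Not at h12
            have := Real.log_pos h12
            linarith
          have h13 : (3 : ℝ) ≤ (R : ℝ) ^ J := by
            calc (3 : ℝ) ≤ R := hRr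
              _ = (R : ℝ) ^ 1 := (pow_one _).symm
              _ ≤ (R : ℝ) ^ J := pow_le_pow_right₀ hR1 hJpos
          linarith
        exact Real.log_le_log h9 h7
      · have h7 : |σ * err W φ (y k) v| < 4 * √l * √c := by
          rw [abs_mul]
          have : |σ| = 1 := by rcases hσ with h | h <;> rw [h] <;> norm_num
          rw [this, one_mul]
          exact hk2
        have h8 := (abs_lt.1 h7).1
        have h9 : σ * (err W φ (y (k + 1)) v - err W φ (y k) v) = σ * err W φ (y (k + 1)) v - σ * err W φ (y k) v := by ring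
        rw [h9] at hk1
        linarith
  have h2 := (card_le_card hsub).trans (card_union_le _ _)
  have h3 : (((box M N).filter (fun v => ¬ ∃ y ≤ x, V ^ (1 - δ) ≤ cov W φ φ y ∧
        (1 - δ) * √(2 * cov W φ φ y * Real.log (Real.log V)) ≤ σ * err W φ y v)).card : ℝ) ≤
      (((box M N).filter (fun v => ∀ k, k < m → σ * (err W φ (y (k + 1)) v - err W φ (y k) v) <
        √(L * (cov W φ φ (y (k + 1)) - cov W φ φ (y k))) / (1 + γ))).card : ℝ) +
      (((box M N).filter Q).card : ℝ) := by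
    exact_mod_cast h2
  have h4 : (8 * Real.exp ((1 + 3 * γ) * L / 2) / m + 102 * Real.exp (-(L * γ ^ 2 / 8)) + (m + 1) * (2 * Real.exp (-(4 * l)))) * (box M N).card ≤
      ε * (box M N).card := mul_le_mul_of_nonneg_right m9 (Nat.cast_nonneg _)
  linarith

open Classical in
/-- **The lower half of the law of the iterated logarithm in families**, both signs. -/
theorem family_lil_low2 (n : ℕ) (ε δ : ℝ) (hε : 0 < ε) (hδ : 0 < δ) (hδ1 : δ ≤ 1) : ∃ A V₀ : ℝ, 0 < A ∧ 3 ≤ V₀ ∧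
    ∀ (r : ℕ) (W : Fin r → WeierstrassCurve (MvPolynomial (Fin n) ℤ)) (φ : ℕ → (Fin r → Option ℤ) → ℝ),
      (∀ p d, |φ p d| ≤ 1) → ∀ (x : ℕ) (M : Fin n → ℤ) (N : Fin n → ℕ), V₀ ≤ cov W φ φ x →
      (∀ i, (x : ℝ) ^ (A * Real.log (Real.log (cov W φ φ x))) ≤ N i) →
      (1 - ε) * (box M N).card ≤ (((box M N).filter (fun v =>
        (∃ y ≤ x, (cov W φ φ x) ^ (1 - δ) ≤ cov W φ φ y ∧
          mean W φ y + (1 - δ) * √(2 * cov W φ φ y * Real.log (Real.log (cov W φ φ x))) ≤ total W φ y v) ∧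
        (∃ y ≤ x, (cov W φ φ x) ^ (1 - δ) ≤ cov W φ φ y ∧
          total W φ y v ≤ mean W φ y - (1 - δ) * √(2 * cov W φ φ y * Real.log (Real.log (cov W φ φ x)))))).card : ℝ) := by
  obtain ⟨A, V₀, hA, hV₀, H⟩ := family_lil_low n (ε / 2) δ (by positivity) hδ hδ1
  refine ⟨A, V₀, hA, hV₀, ?_⟩
  intro r W φ hφ x M N hV hN
  have h1 := H r W φ hφ x M N hV hN 1 (Or.inl rfl)
  have h2 := H r W φ hφ x M N hV hN (-1) (Or.inr rfl)
  obtain ⟨B1, hB1⟩ : ∃ B1 : Finset (Fin n → ℤ), B1 = (box M N).filter (fun v => ¬ ∃ y ≤ x, (cov W φ φ x) ^ (1 - δ) ≤ cov W φ φ y ∧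
        (1 - δ) * √(2 * cov W φ φ y * Real.log (Real.log (cov W φ φ x))) ≤ 1 * err W φ y v) := ⟨_, rfl⟩
  obtain ⟨B2, hB2⟩ : ∃ B2 : Finset (Fin n → ℤ), B2 = (box M N).filter (fun v => ¬ ∃ y ≤ x, (cov W φ φ x) ^ (1 - δ) ≤ cov W φ φ y ∧
        (1 - δ) * √(2 * cov W φ φ y * Real.log (Real.log (cov W φ φ x))) ≤ (-1) * err W φ y v) := ⟨_, rfl⟩
  obtain ⟨G, hG⟩ : ∃ G : Finset (Fin n → ℤ), G = (box M N).filter (fun v =>
        (∃ y ≤ x, (cov W φ φ x) ^ (1 - δ) ≤ cov W φ φ y ∧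
          mean W φ y + (1 - δ) * √(2 * cov W φ φ y * Real.log (Real.log (cov W φ φ x))) ≤ total W φ y v) ∧
        (∃ y ≤ x, (cov W φ φ x) ^ (1 - δ) ≤ cov W φ φ y ∧
          total W φ y v ≤ mean W φ y - (1 - δ) * √(2 * cov W φ φ y * Real.log (Real.log (cov W φ φ x))))) := ⟨_, rfl⟩
  rw [← hB1] at h1
  rw [← hB2] at h2
  rw [← hG]
  have hsub : box M N ⊆ G ∪ (B1 ∪ B2) := by
    intro v hv
    rw [mem_union, mem_union]
    by_contra hcon
    push Not at hcon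
    obtain ⟨c1, c2, c3⟩ := hcon
    rw [hB1, mem_filter] at c2
    rw [hB2, mem_filter] at c3
    push Not at c2 c3
    obtain ⟨y₁, a1, a2, a3⟩ := c2 hv
    obtain ⟨y₂, b1, b2, b3⟩ := c3 hv
    apply c1
    rw [hG, mem_filter]
    unfold err at a3 b3
    exact ⟨hv, ⟨y₁, a1, a2, by linarith⟩, ⟨y₂, b1, b2, by linarith⟩⟩
  have h3 := (card_le_card hsub).trans ((card_union_le _ _).trans (Nat.add_le_add_left (card_union_le _ _) _))
  have h4 : ((box M N).card : ℝ) ≤ G.card + (B1.card + B2.card) := by exact_mod_cast h3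
  linarith

end Pool.Agent.K4H16.CG
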