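import Mathlib

/-!
# Families of elliptic curves over the integer points, and their Frobenius traces
-/

set_option autoImplicit false

namespace Pool.Agent.K4H16.CG

open Finset

/-- The trace of Frobenius of the reduction modulo `p` of the Weierstrass curve `E`: `p` minus the number of
the affine points modulo `p`. -/
def tr (E : WeierstrassCurve ℤ) (p : ℕ) : ℤ :=
  (p : ℤ) - (((range p ×ˢ range p).filter (fun q : ℕ × ℕ =>
    (q.2 : ZMod p) ^ 2 + (E.a₁ : ZMod p) * (q.1 : ZMod p) * (q.2 : ZMod p) + (E.a₃ : ZMod p) * (q.2 : ZMod p) =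
      (q.1 : ZMod p) ^ 3 + (E.a₂ : ZMod p) * (q.1 : ZMod p) ^ 2 + (E.a₄ : ZMod p) * (q.1 : ZMod p) + (E.a₆ : ZMod p))).card : ℤ)

/-- The Frobenius datum of `E` at `p`: the trace of Frobenius if `p` does not divide the discriminant, and `none`
otherwise. -/
def frob (E : WeierstrassCurve ℤ) (p : ℕ) : Option ℤ := if (p : ℤ) ∣ E.Δ then none else some (tr E p)

variable {n r : ℕ}

/-- The member at the integer point `v` of the family `W`. -/
noncomputable def member (W : WeierstrassCurve (MvPolynomial (Fin n) ℤ)) (v : Fin n → ℤ) : WeierstrassCurve ℤ :=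
  W.map (MvPolynomial.eval v)

/-- The local term at `p` and `v`: the value of the test function `φ p` at the Frobenius data modulo `p` of the members
at `v` of the families `W 0, …, W (r - 1)`. -/
noncomputable def loc (W : Fin r → WeierstrassCurve (MvPolynomial (Fin n) ℤ)) (φ : ℕ → (Fin r → Option ℤ) → ℝ) (p : ℕ)
    (v : Fin n → ℤ) : ℝ := φ p (fun i => frob (member (W i) v) p)

/-- The sum over the primes `p ≤ x` of the local terms. -/
noncomputable def total (W : Fin r → WeierstrassCurve (MvPolynomial (Fin n) ℤ)) (φ : ℕ → (Fin r → Option ℤ) → ℝ) (x : ℕ)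
    (v : Fin n → ℤ) : ℝ := ∑ p ∈ (range (x + 1)).filter Nat.Prime, loc W φ p v

/-- The mean modulo `p`: the average of `g` over the points with coordinates `0, …, p - 1`. -/
noncomputable def meanMod (p : ℕ) (g : (Fin n → ℤ) → ℝ) : ℝ :=
  (∑ c ∈ Fintype.piFinset (fun _ : Fin n => range p), g (fun i => (c i : ℤ))) / (p : ℝ) ^ n

/-- The mean of the sum over the primes `p ≤ x`. -/
noncomputable def mean (W : Fin r → WeierstrassCurve (MvPolynomial (Fin n) ℤ)) (φ : ℕ → (Fin r → Option ℤ) → ℝ) (x : ℕ) : ℝ :=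
  ∑ p ∈ (range (x + 1)).filter Nat.Prime, meanMod p (loc W φ p)

/-- The covariance of the sums with two test functions over the primes `p ≤ x`. -/
noncomputable def cov (W : Fin r → WeierstrassCurve (MvPolynomial (Fin n) ℤ)) (φ ψ : ℕ → (Fin r → Option ℤ) → ℝ) (x : ℕ) : ℝ :=
  ∑ p ∈ (range (x + 1)).filter Nat.Prime, (meanMod p (fun c => loc W φ p c * loc W ψ p c) -
    meanMod p (loc W φ p) * meanMod p (loc W ψ p))

/-- The box of the integer points `v` with `M i < v i ≤ M i + N i`. -/
noncomputable def box (M : Fin n → ℤ) (N : Fin n → ℕ) : Finset (Fin n → ℤ) := Fintype.piFinset (fun i => Ioc (M i) (M i + N i))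

end Pool.Agent.K4H16.CG
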