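import Pool.Agent.K4H16.CG.MD3
import Pool.Agent.K4H16.CG.LTfam

/-!
# Oscillation of the sums over the primes of functions of the traces of Frobenius
-/

set_option autoImplicit false

namespace Pool.Agent.K4H16.CG

open Finset ProbabilityTheory MeasureTheory

variable {n r : ℕ}

lemma Phi_nonneg (t : ℝ) : 0 ≤ Phi t := measureReal_nonneg

lemma Phi_lt_one (t : ℝ) : Phi t < 1 := by
  unfold Phi
  have h1 : (gaussianReal 0 1).real (Set.Iic t) + (gaussianReal 0 1).real (Set.Ioi t) = 1 := by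
    have h2 := measureReal_add_measureReal_compl (μ := gaussianReal 0 1) (s := Set.Iic t) measurableSet_Iic
    rw [Set.compl_Iic] at h2
    rw [h2]
    simp
  have h2 : 0 < (gaussianReal 0 1).real (Set.Ioi t) := by
    rw [measureReal_def, ENNReal.toReal_pos_iff]
    refine ⟨?_, measure_lt_top _ _⟩
    rw [pos_iff_ne_zero]
    intro h3
    have h4 := gaussianReal_absolutelyContinuous' 0 (v := 1) one_ne_zero h3
    rw [Real.volume_Ioi] at h4
    exact ENNReal.top_ne_zero h4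
  linarith

/-- the variance modulo `p` -/
noncomputable def vterm (W : Fin r → WeierstrassCurve (MvPolynomial (Fin n) ℤ)) (φ ψ : ℕ → (Fin r → Option ℤ) → ℝ) (p : ℕ) : ℝ :=
  meanMod p (fun c => loc W φ p c * loc W ψ p c) - meanMod p (loc W φ p) * meanMod p (loc W ψ p)

lemma vterm_nonneg (W : Fin r → WeierstrassCurve (MvPolynomial (Fin n) ℤ)) (φ : ℕ → (Fin r → Option ℤ) → ℝ) (p : ℕ) [NeZero p] :
    0 ≤ vterm W φ φ p := by
  unfold vterm
  rw [meanMod_eq, meanMod_eq]
  have h1 := avg_mul_centred (fun b : Fin n → ZMod p => loc W φ p (rep p b)) (fun b : Fin n → ZMod p => loc W φ p (rep p b))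
  have h2 : 0 ≤ avg (fun b : Fin n → ZMod p => (loc W φ p (rep p b) - avg (fun b : Fin n → ZMod p => loc W φ p (rep p b))) / 2 *
      ((loc W φ p (rep p b) - avg (fun b : Fin n → ZMod p => loc W φ p (rep p b))) / 2)) := by
    unfold avg
    apply div_nonneg _ (Nat.cast_nonneg _)
    exact sum_nonneg fun b _ => mul_self_nonneg _
  rw [h1] at h2
  linarith

lemma vterm_le (W : Fin r → WeierstrassCurve (MvPolynomial (Fin n) ℤ)) (φ : ℕ → (Fin r → Option ℤ) → ℝ) (hφ : ∀ p a, |φ p a| ≤ 1)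
    (p : ℕ) [NeZero p] : vterm W φ φ p ≤ 1 := by
  unfold vterm
  have h4 : meanMod p (fun c => loc W φ p c * loc W φ p c) ≤ 1 := by
    rw [meanMod_eq]
    refine (le_abs_self _).trans (avg_abs_le_one _ fun b => ?_)
    rw [abs_mul]
    have := loc_abs W φ hφ p (rep p b)
    have h5 := abs_nonneg (loc W φ p (rep p b))
    nlinarith
  nlinarith [mul_self_nonneg (meanMod p (loc W φ p))]

/-- the primes in a window -/
def win (a b : ℕ) : Finset ℕ := (Ioc a b).filter Nat.Prime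

lemma primes_split (a b : ℕ) (hab : a ≤ b) : (range (b + 1)).filter Nat.Prime = (range (a + 1)).filter Nat.Prime ∪ win a b := by
  ext p
  simp only [win, mem_filter, mem_range, mem_union, mem_Ioc]
  constructor
  · rintro ⟨h1, h2⟩
    rcases Nat.lt_or_ge a p with h | h
    · right
      exact ⟨⟨h, by omega⟩, h2⟩
    · left
      exact ⟨by omega, h2⟩
  · rintro (⟨h1, h2⟩ | ⟨⟨h1, h3⟩, h2⟩)
    · exact ⟨by omega, h2⟩
    · exact ⟨by omega, h2⟩

lemma primes_disj (a b : ℕ) : Disjoint ((range (a + 1)).filter Nat.Prime) (win a b) := by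
  rw [disjoint_left]
  intro p h1 h2
  rw [mem_filter, mem_range] at h1
  unfold win at h2
  rw [mem_filter, mem_Ioc] at h2
  omega

lemma sum_split (g : ℕ → ℝ) (a b : ℕ) (hab : a ≤ b) :
    ∑ p ∈ win a b, g p = ∑ p ∈ (range (b + 1)).filter Nat.Prime, g p - ∑ p ∈ (range (a + 1)).filter Nat.Prime, g p := by
  rw [primes_split a b hab, sum_union (primes_disj a b)]
  ring

lemma cov_eq (W : Fin r → WeierstrassCurve (MvPolynomial (Fin n) ℤ)) (φ ψ : ℕ → (Fin r → Option ℤ) → ℝ) (x : ℕ) :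
    cov W φ ψ x = ∑ p ∈ (range (x + 1)).filter Nat.Prime, vterm W φ ψ p := rfl

lemma cov_mono (W : Fin r → WeierstrassCurve (MvPolynomial (Fin n) ℤ)) (φ : ℕ → (Fin r → Option ℤ) → ℝ) (a b : ℕ) (hab : a ≤ b) :
    cov W φ φ a ≤ cov W φ φ b := by
  have h1 := sum_split (vterm W φ φ) a b hab
  rw [← cov_eq, ← cov_eq] at h1
  have h2 : 0 ≤ ∑ p ∈ win a b, vterm W φ φ p := by
    apply sum_nonneg
    intro p hp
    unfold win at hp
    rw [mem_filter] at hp
    haveI : NeZero p := ⟨hp.2.ne_zero⟩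
    exact vterm_nonneg W φ p
  linarith

lemma cov_succ (W : Fin r → WeierstrassCurve (MvPolynomial (Fin n) ℤ)) (φ : ℕ → (Fin r → Option ℤ) → ℝ) (hφ : ∀ p a, |φ p a| ≤ 1) (a : ℕ) :
    cov W φ φ (a + 1) ≤ cov W φ φ a + 1 := by
  have h1 := sum_split (vterm W φ φ) a (a + 1) (by omega)
  rw [← cov_eq, ← cov_eq] at h1
  have h2 : ∑ p ∈ win a (a + 1), vterm W φ φ p ≤ 1 := by
    have h3 : win a (a + 1) ⊆ {a + 1} := by
      intro p hp
      unfold win at hp
      rw [mem_filter, mem_Ioc] at hp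
      rw [mem_singleton]
      omega
    by_cases hp : (a + 1).Prime
    · have h4 : win a (a + 1) = {a + 1} := by
        apply Subset.antisymm h3
        intro p hp'
        rw [mem_singleton] at hp'
        unfold win
        rw [mem_filter, mem_Ioc, hp']
        exact ⟨⟨by omega, le_rfl⟩, hp⟩
      rw [h4, sum_singleton]
      exact vterm_le W φ hφ (a + 1)
    · have h4 : win a (a + 1) = ∅ := by
        rw [eq_empty_iff_forall_notMem]
        intro p hp'
        have h5 := mem_singleton.1 (h3 hp')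
        unfold win at hp'
        rw [mem_filter] at hp'
        rw [h5] at hp'
        exact hp hp'.2
      rw [h4, sum_empty]
      norm_num
  linarith

lemma cov_zero (W : Fin r → WeierstrassCurve (MvPolynomial (Fin n) ℤ)) (φ : ℕ → (Fin r → Option ℤ) → ℝ) : cov W φ φ 0 = 0 := by
  unfold cov
  have h2 : (range (0 + 1)).filter Nat.Prime = ∅ := by
    rw [filter_eq_empty_iff]
    intro p hp
    rw [mem_range] at hp
    intro h
    have := h.two_le
    omega
  rw [h2, sum_empty]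

/-- the test function on a window, with a sign -/
noncomputable def wφ (φ : ℕ → (Fin r → Option ℤ) → ℝ) (σ : ℝ) (a b : ℕ) : ℕ → (Fin r → Option ℤ) → ℝ :=
  fun p d => if a < p ∧ p ≤ b then σ * φ p d else 0

lemma wφ_abs (φ : ℕ → (Fin r → Option ℤ) → ℝ) (hφ : ∀ p a, |φ p a| ≤ 1) (σ : ℝ) (hσ : |σ| = 1) (a b : ℕ) (p : ℕ) (d : Fin r → Option ℤ) :
    |wφ φ σ a b p d| ≤ 1 := by
  unfold wφ
  split_ifs
  · rw [abs_mul, hσ, one_mul]
    exact hφ _ _
  · simp

lemma wsum (g : ℕ → ℝ) (a b x : ℕ) (hb : b ≤ x) :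
    ∑ p ∈ (range (x + 1)).filter Nat.Prime, (if a < p ∧ p ≤ b then g p else 0) = ∑ p ∈ win a b, g p := by
  rw [← sum_filter, filter_filter]
  apply sum_congr _ fun _ _ => rfl
  ext p
  simp only [win, mem_filter, mem_range, mem_Ioc]
  constructor
  · rintro ⟨h1, h2, h3, h4⟩
    exact ⟨⟨h3, h4⟩, h2⟩
  · rintro ⟨⟨h1, h2⟩, h3⟩
    exact ⟨by omega, h3, h1, h2⟩

lemma loc_wφ (W : Fin r → WeierstrassCurve (MvPolynomial (Fin n) ℤ)) (φ : ℕ → (Fin r → Option ℤ) → ℝ) (σ : ℝ) (a b p : ℕ) (v : Fin n → ℤ) :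
    loc W (wφ φ σ a b) p v = if a < p ∧ p ≤ b then σ * loc W φ p v else 0 := rfl

lemma total_wφ (W : Fin r → WeierstrassCurve (MvPolynomial (Fin n) ℤ)) (φ : ℕ → (Fin r → Option ℤ) → ℝ) (σ : ℝ) (a b x : ℕ)
    (hab : a ≤ b) (hb : b ≤ x) (v : Fin n → ℤ) :
    total W (wφ φ σ a b) x v = σ * (total W φ b v - total W φ a v) := by
  unfold total
  simp only [loc_wφ]
  rw [wsum (fun p => σ * loc W φ p v) a b x hb, sum_split _ a b hab, ← mul_sum, ← mul_sum]
  ring

lemma meanMod_mul (p : ℕ) (σ : ℝ) (g : (Fin n → ℤ) → ℝ) : meanMod p (fun c => σ * g c) = σ * meanMod p g := by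
  unfold meanMod
  rw [← mul_sum, mul_div_assoc]

lemma meanMod_zero (p : ℕ) : meanMod p (fun _ : Fin n → ℤ => (0 : ℝ)) = 0 := by
  unfold meanMod
  simp

lemma meanMod_wφ (W : Fin r → WeierstrassCurve (MvPolynomial (Fin n) ℤ)) (φ : ℕ → (Fin r → Option ℤ) → ℝ) (σ : ℝ) (a b p : ℕ) :
    meanMod p (loc W (wφ φ σ a b) p) = if a < p ∧ p ≤ b then σ * meanMod p (loc W φ p) else 0 := by
  by_cases h : a < p ∧ p ≤ b
  · rw [if_pos h, ← meanMod_mul]
    congr 1
    funext c
    rw [loc_wφ, if_pos h]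
  · rw [if_neg h]
    have e : loc W (wφ φ σ a b) p = fun _ => 0 := by
      funext c
      rw [loc_wφ, if_neg h]
    rw [e, meanMod_zero]

lemma mean_wφ (W : Fin r → WeierstrassCurve (MvPolynomial (Fin n) ℤ)) (φ : ℕ → (Fin r → Option ℤ) → ℝ) (σ : ℝ) (a b x : ℕ)
    (hab : a ≤ b) (hb : b ≤ x) : mean W (wφ φ σ a b) x = σ * (mean W φ b - mean W φ a) := by
  unfold mean
  simp only [meanMod_wφ]
  rw [wsum (fun p => σ * meanMod p (loc W φ p)) a b x hb, sum_split _ a b hab, ← mul_sum, ← mul_sum]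
  ring

lemma vterm_wφ (W : Fin r → WeierstrassCurve (MvPolynomial (Fin n) ℤ)) (φ : ℕ → (Fin r → Option ℤ) → ℝ) (σ : ℝ) (hσ : σ * σ = 1) (a b p : ℕ) :
    vterm W (wφ φ σ a b) (wφ φ σ a b) p = if a < p ∧ p ≤ b then vterm W φ φ p else 0 := by
  unfold vterm
  rw [meanMod_wφ]
  by_cases h : a < p ∧ p ≤ b
  · rw [if_pos h, if_pos h]
    have e : (fun c => loc W (wφ φ σ a b) p c * loc W (wφ φ σ a b) p c) = fun c => loc W φ p c * loc W φ p c := by
      funext c
      rw [loc_wφ, if_pos h]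
      calc σ * loc W φ p c * (σ * loc W φ p c) = (σ * σ) * (loc W φ p c * loc W φ p c) := by ring
        _ = _ := by rw [hσ, one_mul]
    rw [e]
    have e2 : σ * meanMod p (loc W φ p) * (σ * meanMod p (loc W φ p)) = meanMod p (loc W φ p) * meanMod p (loc W φ p) := by
      calc σ * meanMod p (loc W φ p) * (σ * meanMod p (loc W φ p)) = (σ * σ) * (meanMod p (loc W φ p) * meanMod p (loc W φ p)) := by ring
        _ = _ := by rw [hσ, one_mul]
    rw [e2]
  · rw [if_neg h, if_neg h]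
    have e : (fun c => loc W (wφ φ σ a b) p c * loc W (wφ φ σ a b) p c) = fun _ => 0 := by
      funext c
      rw [loc_wφ, if_neg h, zero_mul]
    rw [e, meanMod_zero]
    ring

lemma cov_wφ (W : Fin r → WeierstrassCurve (MvPolynomial (Fin n) ℤ)) (φ : ℕ → (Fin r → Option ℤ) → ℝ) (σ : ℝ) (hσ : σ * σ = 1) (a b x : ℕ)
    (hab : a ≤ b) (hb : b ≤ x) : cov W (wφ φ σ a b) (wφ φ σ a b) x = cov W φ φ b - cov W φ φ a := by
  rw [cov_eq, cov_eq, cov_eq]
  simp only [vterm_wφ W φ σ hσ]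
  rw [wsum (vterm W φ φ) a b x hb, sum_split _ a b hab]

lemma cov_disj (W : Fin r → WeierstrassCurve (MvPolynomial (Fin n) ℤ)) (φ : ℕ → (Fin r → Option ℤ) → ℝ) (σ : ℝ) (a b a' b' x : ℕ)
    (h : b ≤ a' ∨ b' ≤ a) : cov W (wφ φ σ a b) (wφ φ σ a' b') x = 0 := by
  rw [cov_eq]
  apply sum_eq_zero
  intro p _
  unfold vterm
  rw [meanMod_wφ, meanMod_wφ]
  have hne : ¬ (a < p ∧ p ≤ b) ∨ ¬ (a' < p ∧ p ≤ b') := by
    rcases h with h | h <;> omega
  have e : (fun c => loc W (wφ φ σ a b) p c * loc W (wφ φ σ a' b') p c) = fun _ => 0 := by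
    funext c
    rw [loc_wφ, loc_wφ]
    rcases hne with h1 | h1
    · rw [if_neg h1, zero_mul]
    · rw [if_neg h1, mul_zero]
  rw [e, meanMod_zero]
  rcases hne with h1 | h1
  · rw [if_neg h1, zero_mul, sub_zero]
  · rw [if_neg h1, mul_zero, sub_zero]

open Classical in
/-- the second moment over a box -/
theorem chebyshev (n : ℕ) : ∃ A : ℕ, ∀ (r : ℕ) (W : Fin r → WeierstrassCurve (MvPolynomial (Fin n) ℤ)) (φ : ℕ → (Fin r → Option ℤ) → ℝ),
    (∀ p a, |φ p a| ≤ 1) → ∀ (x : ℕ) (M : Fin n → ℤ) (N : Fin n → ℕ), 1 ≤ x → (∀ i, x ^ A ≤ N i) → ∀ T : ℝ, 0 < T →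
      (((box M N).filter (fun v => T ≤ |total W φ x v - mean W φ x|)).card : ℝ) ≤
        (64 * (1 + cov W φ φ x) / T ^ 2) * (box M N).card := by
  refine ⟨4 + 8 * n, ?_⟩
  intro r W φ hφ x M N hx hN T hT
  have hxr : (1 : ℝ) ≤ x := by exact_mod_cast hx
  have hx0 : (0 : ℝ) < x := by linarith
  obtain ⟨V, hV⟩ : ∃ V : ℝ, V = VV (lf W φ x) := ⟨_, rfl⟩
  have hV0 : 0 ≤ V := by rw [hV]; exact VV_nonneg _
  have hVc : cov W φ φ x = 4 * V := by rw [hV, lf_VV]; ring
  have hs : (0 : ℝ) ≤ (box M N).card := Nat.cast_nonneg _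
  have hJx : (Fintype.card (Prs x) : ℝ) ≤ x := by exact_mod_cast Prs.card_le x
  have heq := equi_box (fun j : Prs x => (j : ℕ)) (Prs.cop x) x hx (fun j => j.le) 2 (x ^ (4 + 8 * n)) (by positivity) n M N hN
  have h1 := fam_pow (box M N) (fun v (j : Prs x) i => (v i : ZMod (j : ℕ))) 2 _ (by positivity) heq (lf W φ x)
    (fun j b => lf_abs W φ hφ x j b) 2 le_rfl
  -- the error
  have herr : (Fintype.card (Prs x) : ℝ) ^ 2 * (n * (2 * (x : ℝ) ^ 2 / ((x ^ (4 + 8 * n) : ℕ) : ℝ))) ≤ 1 := by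
    rcases Nat.lt_or_ge x 2 with h | h
    · have h2 : Fintype.card (Prs x) = 0 := by
        rw [Fintype.card_eq_zero_iff]
        refine ⟨fun j => ?_⟩
        have h3 := j.prime.two_le
        have h4 := j.le
        omega
      rw [h2]
      norm_num
    · have hx2 : (2 : ℝ) ≤ x := by exact_mod_cast h
      have h3 : 2 * (n : ℝ) ≤ (x : ℝ) ^ (8 * n) := by
        have h4 : 2 * n ≤ 2 ^ (8 * n) := by
          calc 2 * n ≤ 8 * n := by omega
            _ ≤ 2 ^ (8 * n) := Nat.lt_two_pow_self.le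
        have h5 : (2 : ℝ) * n ≤ 2 ^ (8 * n) := by exact_mod_cast h4
        exact h5.trans (pow_le_pow_left₀ (by norm_num) hx2 _)
      calc (Fintype.card (Prs x) : ℝ) ^ 2 * (n * (2 * (x : ℝ) ^ 2 / ((x ^ (4 + 8 * n) : ℕ) : ℝ)))
          ≤ (x : ℝ) ^ 2 * (n * (2 * (x : ℝ) ^ 2 / ((x ^ (4 + 8 * n) : ℕ) : ℝ))) := by gcongr
        _ = 2 * n / (x : ℝ) ^ (8 * n) := by
            push_cast
            rw [pow_add]
            field_simp
        _ ≤ 1 := by
            rw [div_le_one (by positivity)]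
            exact h3
  -- the model
  have hmodel : EE (fun ω => SS (lf W φ x) ω ^ 2) ≤ 12 * (1 + V) := by
    obtain ⟨w, hw⟩ : ∃ w : ℝ, w = 1 / √(1 + V) := ⟨_, rfl⟩
    have hs1 : 1 ≤ √(1 + V) := Real.one_le_sqrt.2 (by linarith)
    have hs0 : 0 < √(1 + V) := by linarith
    have hw0 : 0 < w := by rw [hw]; positivity
    have hw1 : w ≤ 1 := by rw [hw, div_le_one hs0]; exact hs1
    have hw2 : w ^ 2 = 1 / (1 + V) := by rw [hw, div_pow, one_pow, Real.sq_sqrt (by linarith)]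
    have h2 : ∀ ω, SS (lf W φ x) ω ^ 2 ≤ 2 * (1 + V) * (Real.exp (w * SS (lf W φ x) ω) + Real.exp ((-w) * SS (lf W φ x) ω)) := by
      intro ω
      obtain ⟨y, hy⟩ : ∃ y : ℝ, y = w * SS (lf W φ x) ω := ⟨_, rfl⟩
      have h3 : |y| ^ 2 / ((2 : ℕ).factorial : ℝ) ≤ Real.exp |y| := Real.pow_div_factorial_le_exp _ (abs_nonneg _) _
      have h4 : Real.exp |y| ≤ Real.exp y + Real.exp (-y) := by
        rcases le_total 0 y with h | h
        · rw [abs_of_nonneg h]
          have := Real.exp_pos (-y)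
          linarith
        · rw [abs_of_nonpos h]
          have := Real.exp_pos y
          linarith
      rw [sq_abs] at h3
      have h5 : y ^ 2 = w ^ 2 * SS (lf W φ x) ω ^ 2 := by rw [hy]; ring
      rw [h5, hw2] at h3
      have h6 : (-w) * SS (lf W φ x) ω = -y := by rw [hy]; ring
      rw [h6, ← hy]
      have h7 : (2 : ℕ).factorial = 2 := rfl
      rw [h7] at h3
      push_cast at h3
      have h8 := h3.trans h4
      rw [div_mul_eq_mul_div, one_mul, div_div, div_le_iff₀ (by positivity)] at h8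
      linarith
    refine (EE_le _ _ h2).trans ?_
    rw [EE_mul]
    have h3 : EE (fun ω => Real.exp (w * SS (lf W φ x) ω) + Real.exp ((-w) * SS (lf W φ x) ω)) =
        EE (fun ω => Real.exp (w * SS (lf W φ x) ω)) + EE (fun ω => Real.exp ((-w) * SS (lf W φ x) ω)) := by
      unfold EE
      rw [sum_add_distrib, add_div]
    rw [h3]
    have h4 := EE_exp_le (lf W φ x) (fun j b => lf_abs W φ hφ x j b) (fun j => lf_avg W φ x j) w (by rw [abs_of_pos hw0]; exact hw1)
    have h5 := EE_exp_le (lf W φ x) (fun j b => lf_abs W φ hφ x j b) (fun j => lf_avg W φ x j) (-w) (by rw [abs_neg, abs_of_pos hw0]; exact hw1)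
    rw [abs_neg, neg_sq] at h5
    rw [abs_of_pos hw0, ← hV] at h4 h5
    have h6 : Real.exp (w ^ 2 / 2 * (1 + w) * V) ≤ 3 := by
      have h7 : w ^ 2 / 2 * (1 + w) * V ≤ 1 := by
        rw [hw2]
        have h8 : 1 / (1 + V) / 2 * (1 + w) * V ≤ 1 / (1 + V) / 2 * 2 * V := by
          gcongr
          linarith
        have h9 : 1 / (1 + V) / 2 * 2 * V = V / (1 + V) := by
          field_simp
        have h10 : V / (1 + V) ≤ 1 := by
          rw [div_le_one (by linarith)]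
          linarith
        linarith
      have h8 := Real.exp_le_exp.2 h7
      have h9 := Real.exp_one_lt_d9
      linarith
    have h7 : EE (fun ω => Real.exp (w * SS (lf W φ x) ω)) + EE (fun ω => Real.exp ((-w) * SS (lf W φ x) ω)) ≤ 6 := by linarith
    calc 2 * (1 + V) * (EE (fun ω => Real.exp (w * SS (lf W φ x) ω)) + EE (fun ω => Real.exp ((-w) * SS (lf W φ x) ω)))
        ≤ 2 * (1 + V) * 6 := by gcongr
      _ = 12 * (1 + V) := by ring
  have h2 : ∑ v ∈ box M N, SS (lf W φ x) (fun (j : Prs x) i => (v i : ZMod (j : ℕ))) ^ 2 ≤ (12 * (1 + V) + 1) * (box M N).card := by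
    have h3 := (abs_le.1 h1).2
    have h4 : (Fintype.card (Prs x) : ℝ) ^ 2 * (n * (2 * (x : ℝ) ^ 2 / ((x ^ (4 + 8 * n) : ℕ) : ℝ)) * (box M N).card) ≤ 1 * (box M N).card := by
      rw [← mul_assoc]
      gcongr
    have h5 : ((box M N).card : ℝ) * EE (fun ω => SS (lf W φ x) ω ^ 2) ≤ (box M N).card * (12 * (1 + V)) := by gcongr
    linarith
  have h3 : (((box M N).filter (fun v => T ≤ |total W φ x v - mean W φ x|)).card : ℝ) * (T ^ 2 / 4) ≤
      ∑ v ∈ box M N, SS (lf W φ x) (fun (j : Prs x) i => (v i : ZMod (j : ℕ))) ^ 2 := by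
    calc (((box M N).filter (fun v => T ≤ |total W φ x v - mean W φ x|)).card : ℝ) * (T ^ 2 / 4)
        = ∑ v ∈ (box M N).filter (fun v => T ≤ |total W φ x v - mean W φ x|), T ^ 2 / 4 := by rw [sum_const, nsmul_eq_mul]
      _ ≤ ∑ v ∈ (box M N).filter (fun v => T ≤ |total W φ x v - mean W φ x|), SS (lf W φ x) (fun (j : Prs x) i => (v i : ZMod (j : ℕ))) ^ 2 := by
          apply sum_le_sum
          intro v hv
          rw [mem_filter] at hv
          rw [lf_SS, div_pow]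
          have h4 : T ^ 2 ≤ (total W φ x v - mean W φ x) ^ 2 := by
            rw [← sq_abs (total W φ x v - mean W φ x)]
            gcongr
            exact hv.2
          linarith
      _ ≤ _ := sum_le_sum_of_subset_of_nonneg (filter_subset _ _) fun _ _ _ => sq_nonneg _
  have h4 := h3.trans h2
  rw [div_mul_eq_mul_div, le_div_iff₀ (by positivity), hVc]
  nlinarith

end Pool.Agent.K4H16.CG
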