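import Pool.Agent.K4H16.CG.LTosc2

/-!
# Large values with prescribed signs
-/

set_option autoImplicit false

namespace Pool.Agent.K4H16.CG

open Finset

variable {n r : ℕ}


lemma cov_disj' (W : Fin r → WeierstrassCurve (MvPolynomial (Fin n) ℤ)) (φ : ℕ → (Fin r → Option ℤ) → ℝ) (σ σ' : ℝ) (a b a' b' x : ℕ)
    (h : b ≤ a' ∨ b' ≤ a) : cov W (wφ φ σ a b) (wφ φ σ' a' b') x = 0 := by
  rw [cov_eq]
  apply sum_eq_zero
  intro p _
  unfold vterm
  rw [meanMod_wφ, meanMod_wφ]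
  have hne : ¬ (a < p ∧ p ≤ b) ∨ ¬ (a' < p ∧ p ≤ b') := by
    rcases h with h | h <;> omega
  have e : (fun c => loc W (wφ φ σ a b) p c * loc W (wφ φ σ' a' b') p c) = fun _ => 0 := by
    funext c
    rw [loc_wφ, loc_wφ]
    rcases hne with h1 | h1
    · rw [if_neg h1, zero_mul]
    · rw [if_neg h1, mul_zero]
  rw [e, meanMod_zero]
  rcases hne with h1 | h1
  · rw [if_neg h1, zero_mul, sub_zero]
  · rw [if_neg h1, mul_zero, sub_zero]

lemma scales' (W : Fin r → WeierstrassCurve (MvPolynomial (Fin n) ℤ)) (φ : ℕ → (Fin r → Option ℤ) → ℝ) (hφ : ∀ p a, |φ p a| ≤ 1)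
    (x : ℕ) (c R : ℝ) (hc : 2 ≤ c) (hR : 3 ≤ R) (J : ℕ) (hV : c * R ^ J ≤ cov W φ φ x) :
    ∃ y : ℕ → ℕ, (∀ j, j ≤ J → y j ≤ x ∧ 1 ≤ y j ∧ c * R ^ j ≤ cov W φ φ (y j) ∧ cov W φ φ (y j) ≤ c * R ^ j + 1) ∧
      (∀ i j, i < j → j ≤ J → y i < y j) ∧ ∀ i j, i < j → j ≤ J → cov W φ φ (y i) < cov W φ φ (y j) := by
  obtain ⟨y, hy, hm⟩ := scales W φ hφ x c R hc hR J hV
  refine ⟨y, hy, hm, ?_⟩
  intro i j hij hj
  have h3 := (hy i (by omega)).2.2.2
  have h4 := (hy j hj).2.2.1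
  have h5 : R ^ (i + 1) ≤ R ^ j := pow_le_pow_right₀ (by linarith) hij
  have h6 : 1 ≤ R ^ i := one_le_pow₀ (by linarith)
  rw [pow_succ] at h5
  have h7 : c * (R ^ i * 3) ≤ c * R ^ j := by
    apply mul_le_mul_of_nonneg_left _ (by linarith)
    refine le_trans ?_ h5
    nlinarith
  nlinarith

open Classical in
/-- large values with prescribed signs -/
theorem family_sign (n k : ℕ) (B ε : ℝ) (hε : 0 < ε) : ∃ (A : ℕ) (κ V₀ : ℝ), 0 < κ ∧
    ∀ (r : ℕ) (W : Fin r → WeierstrassCurve (MvPolynomial (Fin n) ℤ)) (φ : ℕ → (Fin r → Option ℤ) → ℝ),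
      (∀ p a, |φ p a| ≤ 1) → ∀ τ : ℕ → ℕ → ℝ, (∀ i y, τ i y = 1 ∨ τ i y = -1) →
    ∀ (x : ℕ) (M : Fin n → ℤ) (N : Fin n → ℕ), (∀ i, x ^ A ≤ N i) → V₀ ≤ cov W φ φ x →
      (((box M N).filter (fun v => ¬ ∃ y : Fin k → ℕ, StrictMono y ∧ StrictMono (fun i => cov W φ φ (y i)) ∧ (∀ i, y i ≤ x ∧ κ * cov W φ φ x ≤ cov W φ φ (y i)) ∧
          ∀ i, B * √(1 + cov W φ φ (y i)) ≤ τ i (y i) * (total W φ (y i) v - mean W φ (y i)))).card : ℝ) ≤
        ε * (box M N).card := by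
  obtain ⟨b, hb⟩ : ∃ b : ℝ, b = max B 1 := ⟨_, rfl⟩
  have hb1 : 1 ≤ b := by rw [hb]; exact le_max_right _ _
  have hbB : B ≤ b := by rw [hb]; exact le_max_left _ _
  obtain ⟨q, hq⟩ : ∃ q : ℝ, q = ε / (4 * (k + 1)) := ⟨_, rfl⟩
  have hq0 : 0 < q := by rw [hq]; positivity
  have hkq : k * (q + q) ≤ ε / 2 := by
    rw [hq]
    have h1 : (k : ℝ) * (ε / (4 * (k + 1)) + ε / (4 * (k + 1))) = (ε / 2) * (k / (k + 1)) := by
      field_simp
      ring
    rw [h1]
    have h2 : (k : ℝ) / (k + 1) ≤ 1 := by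
      rw [div_le_one (by positivity)]
      linarith
    nlinarith
  obtain ⟨m, hm⟩ := exists_pow_lt_of_lt_one hq0 (Phi_lt_one (4 * b))
  obtain ⟨A₁, κ₁, V₁, hκ₁, HF⟩ := family_law n m q hq0
  obtain ⟨A₂, HC⟩ := chebyshev n
  obtain ⟨J, hJ⟩ : ∃ J : ℕ, J = k * m := ⟨_, rfl⟩
  obtain ⟨R, hR⟩ : ∃ R : ℝ, R = 3 + 1024 * J / ε := ⟨_, rfl⟩
  have hR3 : 3 ≤ R := by rw [hR]; have : 0 ≤ 1024 * (J : ℝ) / ε := by positivity
                         linarith
  have hJR : J * (512 / R) ≤ ε / 2 := by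
    have h1 : 1024 * (J : ℝ) / ε ≤ R := by rw [hR]; linarith
    rw [div_le_iff₀ hε] at h1
    have hR0 : 0 < R := by linarith
    rw [mul_div_assoc', div_le_iff₀ hR0]
    linarith
  have hRJ : 0 < R ^ J := by positivity
  obtain ⟨κ, hκd⟩ : ∃ κ : ℝ, κ = 1 / R ^ J := ⟨_, rfl⟩
  have hκ : 0 < κ := by rw [hκd]; positivity
  refine ⟨max A₁ A₂, κ, max 2 (2 * V₁) * R ^ J, hκ, ?_⟩
  intro r W φ hφ τ hτ x M N hN hV₀
  obtain ⟨c, hc⟩ : ∃ c : ℝ, c = cov W φ φ x / R ^ J := ⟨_, rfl⟩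
  have hcmax : max 2 (2 * V₁) ≤ c := by rw [hc, le_div_iff₀ hRJ]; exact hV₀
  have hc2 : 2 ≤ c := (le_max_left _ _).trans hcmax
  have hcV : 2 * V₁ ≤ c := (le_max_right _ _).trans hcmax
  have hV : c * R ^ J ≤ cov W φ φ x := by rw [hc, div_mul_cancel₀ _ hRJ.ne']
  obtain ⟨y, hy, hmono, hcmono⟩ := scales' W φ hφ x c R hc2 hR3 J hV
  have hx1 : 1 ≤ x := (hy 0 (Nat.zero_le _)).2.1.trans (hy 0 (Nat.zero_le _)).1
  have hs : (0 : ℝ) ≤ (box M N).card := Nat.cast_nonneg _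
  have hN1 : ∀ i, x ^ A₁ ≤ N i := fun i => (Nat.pow_le_pow_right hx1 (le_max_left _ _)).trans (hN i)
  have hN2 : ∀ i, ∀ z, z ≤ x → z ^ A₂ ≤ N i := fun i z hz =>
    (Nat.pow_le_pow_left hz _).trans ((Nat.pow_le_pow_right hx1 (le_max_right _ _)).trans (hN i))
  -- the variances at the scales
  have hstep : ∀ j, j + 1 ≤ J → (1 + cov W φ φ (y j)) / cov W φ φ (y (j + 1)) ≤ 2 / R ∧
      cov W φ φ (y (j + 1)) / 2 ≤ cov W φ φ (y (j + 1)) - cov W φ φ (y j) ∧ 1 ≤ cov W φ φ (y (j + 1)) ∧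
      V₁ ≤ cov W φ φ (y (j + 1)) - cov W φ φ (y j) := by
    intro j hj
    have h1 := (hy j (by omega)).2.2.2
    have h2 := (hy (j + 1) hj).2.2.1
    have h3 : 1 ≤ R ^ j := one_le_pow₀ (by linarith)
    have hR0 : 0 < R := by linarith
    rw [pow_succ] at h2
    obtain ⟨u, hu⟩ : ∃ u : ℝ, u = c * R ^ j := ⟨_, rfl⟩
    have hu2 : 2 ≤ u := by rw [hu]; nlinarith
    have huc : c ≤ u := by rw [hu]; nlinarith
    rw [← hu] at h1
    have h2' : u * R ≤ cov W φ φ (y (j + 1)) := by rw [hu]; linarith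
    have h4 : 6 ≤ u * R := by nlinarith
    have h5 : 3 * u ≤ u * R := by nlinarith
    refine ⟨?_, ?_, ?_, ?_⟩
    · rw [div_le_div_iff₀ (by linarith) hR0]
      have : (1 + cov W φ φ (y j)) * R ≤ (2 * u) * R := by
        apply mul_le_mul_of_nonneg_right _ hR0.le
        linarith
      linarith
    · linarith
    · linarith
    · linarith
  -- the two bad events
  obtain ⟨D, hD⟩ : ∃ D : ℕ → (Fin n → ℤ) → ℝ, D = fun j v => total W φ (y j) v - mean W φ (y j) := ⟨_, rfl⟩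
  obtain ⟨T, hT⟩ : ∃ T : ℕ → ℝ, T = fun j => b / 2 * √(cov W φ φ (y (j + 1))) := ⟨_, rfl⟩
  obtain ⟨ψ, hψ⟩ : ∃ ψ : ℕ → Fin m → ℕ → (Fin r → Option ℤ) → ℝ, ψ = fun (i : ℕ) (l : Fin m) =>
    wφ φ (τ i (y (i * m + (l : ℕ) + 1))) (y (i * m + (l : ℕ))) (y (i * m + (l : ℕ) + 1)) := ⟨_, rfl⟩
  have hidx : ∀ (i : ℕ) (l : Fin m), i < k → i * m + l + 1 ≤ J := by
    intro i l hi
    have h1 : (i + 1) * m ≤ k * m := Nat.mul_le_mul_right m hi
    have h2 := l.isLt
    rw [hJ]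
    nlinarith
  have hσ : ∀ i z : ℕ, τ i z * τ i z = 1 := by
    intro i z
    rcases hτ i z with h | h <;> rw [h] <;> norm_num
  have hσa : ∀ i z : ℕ, |τ i z| = 1 := by
    intro i z
    rcases hτ i z with h | h <;> rw [h] <;> norm_num
  have bad1 : ∀ j, j + 1 ≤ J → (((box M N).filter (fun v => T j ≤ |D j v|)).card : ℝ) ≤ 512 / R * (box M N).card := by
    intro j hj
    obtain ⟨h1, h2, h3, h4⟩ := hstep j hj
    have hs0 : 0 < √(cov W φ φ (y (j + 1))) := Real.sqrt_pos.2 (by linarith)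
    have hT0 : 0 < T j := by rw [hT]; positivity
    have h5 := HC r W φ hφ (y j) M N (hy j (by omega)).2.1 (fun i => hN2 i _ (hy j (by omega)).1) (T j) hT0
    rw [hD]
    refine h5.trans (mul_le_mul_of_nonneg_right ?_ hs)
    have h6 : T j ^ 2 = b ^ 2 / 4 * cov W φ φ (y (j + 1)) := by
      rw [hT]
      rw [mul_pow, div_pow, Real.sq_sqrt (by linarith)]
      ring
    rw [h6]
    have hb2 : 1 ≤ b ^ 2 := one_le_pow₀ hb1
    have h7 : 64 * (1 + cov W φ φ (y j)) / (b ^ 2 / 4 * cov W φ φ (y (j + 1))) =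
        256 / b ^ 2 * ((1 + cov W φ φ (y j)) / cov W φ φ (y (j + 1))) := by
      have : cov W φ φ (y (j + 1)) ≠ 0 := by linarith
      have hbn : b ≠ 0 := by linarith
      field_simp
      ring
    rw [h7]
    have h8 : 256 / b ^ 2 ≤ 256 := by
      rw [div_le_iff₀ (by positivity)]
      linarith
    have h9 : 0 ≤ (1 + cov W φ φ (y j)) / cov W φ φ (y (j + 1)) := by
      have : 0 ≤ cov W φ φ (y j) := by
        have h := (hy j (by omega)).2.2.1
        have h' : 0 ≤ c * R ^ j := by positivity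
        linarith
      apply div_nonneg <;> linarith
    calc 256 / b ^ 2 * ((1 + cov W φ φ (y j)) / cov W φ φ (y (j + 1)))
        ≤ 256 * (2 / R) := by
          apply mul_le_mul h8 h1 h9 (by norm_num)
      _ = 512 / R := by ring
  have bad2 : ∀ i, i < k → (((box M N).filter (fun v => ∀ l : Fin m, total W (ψ i l) x v ≤
      mean W (ψ i l) x + 4 * b * √(cov W (ψ i l) (ψ i l) x))).card : ℝ) ≤ (q + q) * (box M N).card := by
    intro i hi
    have hcv : ∀ l, cov W (ψ i l) (ψ i l) x = cov W φ φ (y (i * m + (l : ℕ) + 1)) - cov W φ φ (y (i * m + (l : ℕ))) := by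
      intro l
      rw [hψ]
      exact cov_wφ W φ _ (hσ i _) _ _ x (hmono _ _ (by omega) (hidx i l hi)).le (hy _ (hidx i l hi)).1
    have h1 := HF r W (ψ i) (by
        intro l p a
        rw [hψ]
        exact wφ_abs φ hφ _ (hσa i _) _ _ p a) x M N hN1 (by
        intro l
        rw [hcv]
        exact (hstep _ (hidx i l hi)).2.2.2) (by
        intro l l' hll
        rw [hψ]
        have h2 : cov W (wφ φ (τ i (y (i * m + l + 1))) (y (i * m + l)) (y (i * m + l + 1)))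
            (wφ φ (τ i (y (i * m + l' + 1))) (y (i * m + l')) (y (i * m + l' + 1))) x = 0 := by
          apply cov_disj'
          rcases lt_trichotomy (l : ℕ) (l' : ℕ) with h | h | h
          · left
            rcases Nat.eq_or_lt_of_le (show i * m + (l : ℕ) + 1 ≤ i * m + l' by omega) with h3 | h3
            · rw [h3]
            · exact (hmono _ _ h3 (by have := hidx i l' hi; omega)).le
          · exact absurd (Fin.ext h) hll
          · right
            rcases Nat.eq_or_lt_of_le (show i * m + (l' : ℕ) + 1 ≤ i * m + l by omega) with h3 | h3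
            · rw [h3]
            · exact (hmono _ _ h3 (by have := hidx i l hi; omega)).le
        rw [h2, abs_zero]
        positivity) (fun _ => 4 * b)
    have h2 := (abs_le.1 h1).2
    rw [prod_const, card_univ, Fintype.card_fin] at h2
    have h3 : ((box M N).card : ℝ) * Phi (4 * b) ^ m ≤ (box M N).card * q := by gcongr
    linarith
  -- the union
  have hsub : (box M N).filter (fun v => ¬ ∃ y : Fin k → ℕ, StrictMono y ∧ StrictMono (fun i => cov W φ φ (y i)) ∧ (∀ i, y i ≤ x ∧ κ * cov W φ φ x ≤ cov W φ φ (y i)) ∧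
          ∀ i, B * √(1 + cov W φ φ (y i)) ≤ τ i (y i) * (total W φ (y i) v - mean W φ (y i))) ⊆
      ((range J).biUnion (fun j => (box M N).filter (fun v => T j ≤ |D j v|))) ∪
      ((range k).biUnion (fun i => (box M N).filter (fun v => ∀ l : Fin m, total W (ψ i l) x v ≤
        mean W (ψ i l) x + 4 * b * √(cov W (ψ i l) (ψ i l) x)))) := by
    intro v hv
    rw [mem_filter] at hv
    obtain ⟨hvb, hv⟩ := hv
    by_contra hno
    rw [mem_union, not_or, mem_biUnion, mem_biUnion] at hno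
    push Not at hno
    obtain ⟨hn1, hn2⟩ := hno
    apply hv
    have hD' : ∀ j, j < J → |D j v| < T j := by
      intro j hj
      have h1 := hn1 j (mem_range.2 hj)
      rw [mem_filter] at h1
      push Not at h1
      exact h1 hvb
    have hl : ∀ i : Fin k, ∃ l : Fin m, mean W (ψ i l) x + 4 * b * √(cov W (ψ i l) (ψ i l) x) < total W (ψ i l) x v := by
      intro i
      have h1 := hn2 i (mem_range.2 i.isLt)
      rw [mem_filter] at h1
      push Not at h1
      exact h1 hvb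
    choose l hl using hl
    refine ⟨fun i => y (i * m + l i + 1), ?_, ?_, ?_, ?_⟩
    · intro i i' hii
      apply hmono _ _ _ (hidx i' (l i') i'.isLt)
      have h1 : ((i : ℕ) + 1) * m ≤ i' * m := Nat.mul_le_mul_right m hii
      have h2 := (l i).isLt
      nlinarith
    · intro i i' hii
      apply hcmono _ _ _ (hidx i' (l i') i'.isLt)
      have h1 : ((i : ℕ) + 1) * m ≤ i' * m := Nat.mul_le_mul_right m hii
      have h2 := (l i).isLt
      nlinarith
    · intro i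
      refine ⟨(hy _ (hidx i (l i) i.isLt)).1, ?_⟩
      refine le_trans ?_ (hy _ (hidx i (l i) i.isLt)).2.2.1
      have h1 : κ * cov W φ φ x = c := by rw [hκd, hc]; ring
      rw [h1]
      exact le_mul_of_one_le_right (by linarith) (one_le_pow₀ (by linarith))
    · intro i
      obtain ⟨j, hj⟩ : ∃ j : ℕ, j = i * m + l i := ⟨_, rfl⟩
      have hjJ : j + 1 ≤ J := by rw [hj]; exact hidx i (l i) i.isLt
      have h1 := hl i
      rw [hψ] at h1
      simp only at h1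
      have hle := (hmono _ _ (Nat.lt_succ_self j) hjJ).le
      have hlx := (hy _ hjJ).1
      rw [← hj] at h1
      rw [cov_wφ W φ _ (hσ i _) _ _ x hle hlx, mean_wφ W φ _ _ _ x hle hlx, total_wφ W φ _ _ _ x hle hlx] at h1
      have h2 := hD' j (by omega)
      obtain ⟨h3, h4, h5, h6⟩ := hstep j hjJ
      change B * √(1 + cov W φ φ (y (i * m + l i + 1))) ≤ τ i (y (i * m + l i + 1)) * (total W φ (y (i * m + l i + 1)) v - mean W φ (y (i * m + l i + 1)))
      rw [← hj]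
      have h7 : |τ i (y (j + 1)) * D j v| < T j := by rw [abs_mul, hσa, one_mul]; exact h2
      have h8 := (abs_lt.1 h7).1
      rw [hD, hT] at h8
      simp only at h8
      obtain ⟨V, hVd⟩ : ∃ V : ℝ, V = cov W φ φ (y (j + 1)) := ⟨_, rfl⟩
      rw [← hVd] at h1 h4 h5 h8 ⊢
      have h9 : √V / 2 ≤ √(V - cov W φ φ (y j)) := by
        apply Real.le_sqrt_of_sq_le
        rw [div_pow, Real.sq_sqrt (by linarith)]
        linarith
      have h10 : √(1 + V) ≤ 3 / 2 * √V := by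
        rw [Real.sqrt_le_left (by positivity), mul_pow, Real.sq_sqrt (by linarith)]
        linarith
      have h11 : 0 ≤ √(1 + V) := Real.sqrt_nonneg _
      have h12 : B * √(1 + V) ≤ b * √(1 + V) := mul_le_mul_of_nonneg_right hbB h11
      have h13 : b * √(1 + V) ≤ b * (3 / 2 * √V) := mul_le_mul_of_nonneg_left h10 (by linarith)
      have h14 : b * (√V / 2) ≤ b * √(V - cov W φ φ (y j)) := mul_le_mul_of_nonneg_left h9 (by linarith)
      nlinarith
  have hcard : (((box M N).filter (fun v => ¬ ∃ y : Fin k → ℕ, StrictMono y ∧ StrictMono (fun i => cov W φ φ (y i)) ∧ (∀ i, y i ≤ x ∧ κ * cov W φ φ x ≤ cov W φ φ (y i)) ∧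
          ∀ i, B * √(1 + cov W φ φ (y i)) ≤ τ i (y i) * (total W φ (y i) v - mean W φ (y i)))).card : ℝ) ≤
      ∑ j ∈ range J, (((box M N).filter (fun v => T j ≤ |D j v|)).card : ℝ) +
      ∑ i ∈ range k, (((box M N).filter (fun v => ∀ l : Fin m, total W (ψ i l) x v ≤
        mean W (ψ i l) x + 4 * b * √(cov W (ψ i l) (ψ i l) x))).card : ℝ) := by
    have h1 := (card_le_card hsub).trans ((card_union_le _ _).trans (add_le_add card_biUnion_le card_biUnion_le))
    exact_mod_cast h1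
  refine hcard.trans ?_
  have h1 : ∑ j ∈ range J, (((box M N).filter (fun v => T j ≤ |D j v|)).card : ℝ) ≤ J * (512 / R * (box M N).card) := by
    calc ∑ j ∈ range J, (((box M N).filter (fun v => T j ≤ |D j v|)).card : ℝ) ≤ ∑ j ∈ range J, 512 / R * (box M N).card := by
          apply sum_le_sum
          intro j hj
          exact bad1 j (mem_range.1 hj)
      _ = _ := by rw [sum_const, card_range, nsmul_eq_mul]
  have h2 : ∑ i ∈ range k, (((box M N).filter (fun v => ∀ l : Fin m, total W (ψ i l) x v ≤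
        mean W (ψ i l) x + 4 * b * √(cov W (ψ i l) (ψ i l) x))).card : ℝ) ≤ k * ((q + q) * (box M N).card) := by
    calc ∑ i ∈ range k, (((box M N).filter (fun v => ∀ l : Fin m, total W (ψ i l) x v ≤
        mean W (ψ i l) x + 4 * b * √(cov W (ψ i l) (ψ i l) x))).card : ℝ) ≤ ∑ i ∈ range k, (q + q) * (box M N).card := by
          apply sum_le_sum
          intro i hi
          exact bad2 i (mem_range.1 hi)
      _ = _ := by rw [sum_const, card_range, nsmul_eq_mul]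
  calc _ ≤ J * (512 / R * (box M N).card) + k * ((q + q) * (box M N).card) := add_le_add h1 h2
    _ = (J * (512 / R) + k * (q + q)) * (box M N).card := by ring
    _ ≤ (ε / 2 + ε / 2) * (box M N).card := by
        apply mul_le_mul_of_nonneg_right _ hs
        linarith
    _ = ε * (box M N).card := by ring

open Classical in
/-- **No centring.** -/
theorem family_omega (n k : ℕ) (B ε : ℝ) (hε : 0 < ε) : ∃ (A : ℕ) (κ V₀ : ℝ), 0 < κ ∧
    ∀ (r : ℕ) (W : Fin r → WeierstrassCurve (MvPolynomial (Fin n) ℤ)) (φ : ℕ → (Fin r → Option ℤ) → ℝ),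
      (∀ p a, |φ p a| ≤ 1) → ∀ c : ℕ → ℝ,
    ∀ (x : ℕ) (M : Fin n → ℤ) (N : Fin n → ℕ), (∀ i, x ^ A ≤ N i) → V₀ ≤ cov W φ φ x →
      (((box M N).filter (fun v => ¬ ∃ y : Fin k → ℕ, StrictMono y ∧ StrictMono (fun i => cov W φ φ (y i)) ∧ (∀ i, y i ≤ x ∧ κ * cov W φ φ x ≤ cov W φ φ (y i)) ∧
          ∀ i, B * √(1 + cov W φ φ (y i)) ≤ |total W φ (y i) v - c (y i)|)).card : ℝ) ≤
        ε * (box M N).card := by
  obtain ⟨A, κ, V₀, hκ, H⟩ := family_sign n k B ε hε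
  refine ⟨A, κ, V₀, hκ, ?_⟩
  intro r W φ hφ c x M N hN hV
  refine le_trans ?_ (H r W φ hφ (fun _ y => if 0 ≤ mean W φ y - c y then 1 else -1) (by
    intro i y
    beta_reduce
    split_ifs
    · left; rfl
    · right; rfl) x M N hN hV)
  have hsub : (box M N).filter (fun v => ¬ ∃ y : Fin k → ℕ, StrictMono y ∧ StrictMono (fun i => cov W φ φ (y i)) ∧ (∀ i, y i ≤ x ∧ κ * cov W φ φ x ≤ cov W φ φ (y i)) ∧
          ∀ i, B * √(1 + cov W φ φ (y i)) ≤ |total W φ (y i) v - c (y i)|) ⊆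
      (box M N).filter (fun v => ¬ ∃ y : Fin k → ℕ, StrictMono y ∧ StrictMono (fun i => cov W φ φ (y i)) ∧ (∀ i, y i ≤ x ∧ κ * cov W φ φ x ≤ cov W φ φ (y i)) ∧
          ∀ i, B * √(1 + cov W φ φ (y i)) ≤ (if 0 ≤ mean W φ (y i) - c (y i) then 1 else -1) *
            (total W φ (y i) v - mean W φ (y i))) := by
    intro v hv
    rw [mem_filter] at hv ⊢
    refine ⟨hv.1, fun hex => hv.2 ?_⟩
    obtain ⟨y, h1, h1', h2, h3⟩ := hex
    refine ⟨y, h1, h1', h2, fun i => (h3 i).trans ?_⟩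
    split_ifs with h
    · refine le_trans ?_ (le_abs_self _)
      linarith
    · push Not at h
      refine le_trans ?_ (neg_le_abs _)
      linarith
  exact_mod_cast card_le_card hsub

open Classical in
/-- **Oscillation at every scale.** -/
theorem family_osc' (n k : ℕ) (B ε : ℝ) (hε : 0 < ε) : ∃ (A : ℕ) (κ V₀ : ℝ), 0 < κ ∧
    ∀ (r : ℕ) (W : Fin r → WeierstrassCurve (MvPolynomial (Fin n) ℤ)) (φ : ℕ → (Fin r → Option ℤ) → ℝ),
      (∀ p a, |φ p a| ≤ 1) →
    ∀ (x : ℕ) (M : Fin n → ℤ) (N : Fin n → ℕ), (∀ i, x ^ A ≤ N i) → V₀ ≤ cov W φ φ x →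
      (((box M N).filter (fun v => ¬ ∃ y : Fin k → ℕ, StrictMono y ∧ (∀ i, y i ≤ x ∧ κ * cov W φ φ x ≤ cov W φ φ (y i)) ∧
          ∀ i, B * √(1 + cov W φ φ (y i)) ≤ (-1) ^ (i : ℕ) * (total W φ (y i) v - mean W φ (y i)))).card : ℝ) ≤
        ε * (box M N).card := by
  obtain ⟨A, κ, V₀, hκ, H⟩ := family_sign n k B ε hε
  refine ⟨A, κ, V₀, hκ, ?_⟩
  intro r W φ hφ x M N hN hV
  refine le_trans ?_ (H r W φ hφ (fun i _ => (-1) ^ i) (by
    intro i y
    exact neg_one_pow_eq_or ℝ i) x M N hN hV)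
  have hsub : (box M N).filter (fun v => ¬ ∃ y : Fin k → ℕ, StrictMono y ∧
      (∀ i, y i ≤ x ∧ κ * cov W φ φ x ≤ cov W φ φ (y i)) ∧
          ∀ i, B * √(1 + cov W φ φ (y i)) ≤ (-1) ^ (i : ℕ) * (total W φ (y i) v - mean W φ (y i))) ⊆
      (box M N).filter (fun v => ¬ ∃ y : Fin k → ℕ, StrictMono y ∧ StrictMono (fun i => cov W φ φ (y i)) ∧
      (∀ i, y i ≤ x ∧ κ * cov W φ φ x ≤ cov W φ φ (y i)) ∧
          ∀ i, B * √(1 + cov W φ φ (y i)) ≤ (-1) ^ (i : ℕ) * (total W φ (y i) v - mean W φ (y i))) := by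
    intro v hv
    rw [mem_filter] at hv ⊢
    refine ⟨hv.1, fun hex => hv.2 ?_⟩
    obtain ⟨y, h1, _, h2, h3⟩ := hex
    exact ⟨y, h1, h2, h3⟩
  exact_mod_cast card_le_card hsub

end Pool.Agent.K4H16.CG
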