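import Pool.Agent.K4H16.CG.TV

/-!
# The law of the rare marks of a well distributed family, in total variation: averages
-/

set_option autoImplicit false

namespace Pool.Agent.K4H16.CG

open Finset

variable {J : Type} [Fintype J] [DecidableEq J] {k : ℕ} {R : J → Type} [∀ j, Fintype (R j)] [∀ j, Nonempty (R j)]

/-- the configuration of the marks of a point -/
def cfg (m : ∀ j, R j → Fin (k + 1)) (ω : ∀ j, R j) : J → Fin (k + 1) := fun j => m j (ω j)

/-- the average over the product -/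
noncomputable def EE (F : (∀ j, R j) → ℝ) : ℝ := (∑ ω : (∀ j, R j), F ω) / (Fintype.card (∀ j, R j) : ℝ)

omit [∀ j, Nonempty (R j)] in
lemma EE_sum {κ : Type} (s : Finset κ) (F : κ → (∀ j, R j) → ℝ) : EE (fun ω => ∑ a ∈ s, F a ω) = ∑ a ∈ s, EE (F a) := by
  unfold EE
  rw [sum_comm, sum_div]

omit [∀ j, Nonempty (R j)] in
lemma EE_mul (c : ℝ) (F : (∀ j, R j) → ℝ) : EE (fun ω => c * F ω) = c * EE F := by
  unfold EE
  rw [← mul_sum, mul_div_assoc]

omit [∀ j, Nonempty (R j)] in
lemma EE_le (F F' : (∀ j, R j) → ℝ) (h : ∀ ω, F ω ≤ F' ω) : EE F ≤ EE F' := by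
  unfold EE
  gcongr
  exact h _

omit [∀ j, Nonempty (R j)] in
lemma EE_sub (F F' : (∀ j, R j) → ℝ) : EE (fun ω => F ω - F' ω) = EE F - EE F' := by
  unfold EE
  rw [sum_sub_distrib, sub_div]

omit [∀ j, Nonempty (R j)] in
lemma EE_abs (F : (∀ j, R j) → ℝ) : |EE F| ≤ EE (fun ω => |F ω|) := by
  unfold EE
  have h0 : (0 : ℝ) ≤ (Fintype.card (∀ j, R j) : ℝ) := Nat.cast_nonneg _
  rw [abs_div, abs_of_nonneg h0]
  gcongr
  exact abs_sum_le_sum_abs _ _

/-- the configurations supported on `S` -/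
def Conf (k : ℕ) (S : Finset J) : Finset (J → Fin (k + 1)) := Fintype.piFinset (fun j => if j ∈ S then univ else {0})

lemma Conf_card (S : Finset J) : (Conf k S).card = (k + 1) ^ S.card := by
  unfold Conf
  rw [Fintype.card_piFinset]
  have h1 : ∀ j, (if j ∈ S then (univ : Finset (Fin (k + 1))) else {0}).card = if j ∈ S then (k + 1) else 1 := by
    intro j
    split_ifs <;> simp
  rw [prod_congr rfl fun j _ => h1 j, prod_ite_mem, univ_inter, prod_const]

lemma Conf_expand (S : Finset J) (H : (J → Fin (k + 1)) → ℝ) (hH : ∀ f, H f = H (restr S f)) (g : J → Fin (k + 1)) :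
    H g = ∑ a ∈ Conf k S, H a * ∏ j ∈ S, (if g j = a j then (1 : ℝ) else 0) := by
  rw [sum_eq_single_of_mem (restr S g)]
  · rw [prod_eq_one, mul_one]
    · exact hH g
    · intro j hj
      unfold restr
      simp [hj]
  · unfold Conf
    rw [Fintype.mem_piFinset]
    intro j
    unfold restr
    split_ifs <;> simp
  · intro a ha hne
    have h1 : ∃ j ∈ S, g j ≠ a j := by
      by_contra hcon
      push Not at hcon
      apply hne
      funext j
      unfold restr
      by_cases hj : j ∈ S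
      · rw [if_pos hj, hcon j hj]
      · rw [if_neg hj]
        unfold Conf at ha
        rw [Fintype.mem_piFinset] at ha
        have := ha j
        rw [if_neg hj, mem_singleton] at this
        exact this
    obtain ⟨j, hj, hne'⟩ := h1
    rw [prod_eq_zero hj (if_neg hne'), mul_zero]

/-- the average of a function of few marks -/
lemma local_avg {ι : Type} (s : Finset ι) (ρ : ι → ∀ j, R j) (K : ℕ) (δ : ℝ) (heq : Equi s ρ K δ)
    (m : ∀ j, R j → Fin (k + 1)) (S : Finset J) (hS : S.card ≤ K) (H : (J → Fin (k + 1)) → ℝ) (b : ℝ)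
    (hb : ∀ f, |H f| ≤ b) (hH : ∀ f, H f = H (restr S f)) :
    |∑ i ∈ s, H (cfg m (ρ i)) - s.card * EE (fun ω => H (cfg m ω))| ≤ (k + 1) ^ S.card * (b * (δ * s.card)) := by
  have h1 : ∑ i ∈ s, H (cfg m (ρ i)) = ∑ a ∈ Conf k S, H a * ∑ i ∈ s, ∏ j ∈ S, (if m j (ρ i j) = a j then (1 : ℝ) else 0) := by
    rw [sum_congr rfl fun i _ => Conf_expand S H hH (cfg m (ρ i)), sum_comm]
    refine sum_congr rfl fun a _ => ?_
    rw [mul_sum]
    rfl
  have h2 : EE (fun ω => H (cfg m ω)) = ∑ a ∈ Conf k S, H a * EE (fun ω => ∏ j ∈ S, (if m j (ω j) = a j then (1 : ℝ) else 0)) := by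
    have e : (fun ω : (∀ j, R j) => H (cfg m ω)) = fun ω => ∑ a ∈ Conf k S, H a * ∏ j ∈ S, (if m j (ω j) = a j then (1 : ℝ) else 0) := by
      funext ω
      exact Conf_expand S H hH (cfg m ω)
    rw [e, EE_sum]
    refine sum_congr rfl fun a _ => EE_mul _ _
  rw [h1, h2, mul_sum, ← sum_sub_distrib]
  have h3 : ∀ a ∈ Conf k S, |H a * ∑ i ∈ s, ∏ j ∈ S, (if m j (ρ i j) = a j then (1 : ℝ) else 0) -
      s.card * (H a * EE (fun ω => ∏ j ∈ S, (if m j (ω j) = a j then (1 : ℝ) else 0)))| ≤ b * (δ * s.card) := by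
    intro a _
    have h4 := heq S hS (fun j c => if m j c = a j then (1 : ℝ) else 0) (by
      intro j c
      split_ifs <;> simp)
    have h5 := avg_pi_prod S (fun j c => if m j c = a j then (1 : ℝ) else 0)
    rw [← h5] at h4
    have e : H a * ∑ i ∈ s, ∏ j ∈ S, (if m j (ρ i j) = a j then (1 : ℝ) else 0) -
      s.card * (H a * EE (fun ω => ∏ j ∈ S, (if m j (ω j) = a j then (1 : ℝ) else 0))) = H a *
      (∑ i ∈ s, ∏ j ∈ S, (if m j (ρ i j) = a j then (1 : ℝ) else 0) - s.card * ((∑ ω : (∀ j, R j), ∏ j ∈ S, (if m j (ω j) = a j then (1 : ℝ) else 0)) / (Fintype.card (∀ j, R j) : ℝ))) := by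
      unfold EE
      ring
    rw [e, abs_mul]
    have h6 := hb a
    have h7 := abs_nonneg (H a)
    exact mul_le_mul h6 h4 (abs_nonneg _) (h7.trans h6)
  refine (abs_sum_le_sum_abs _ _).trans ((sum_le_sum h3).trans ?_)
  rw [sum_const, nsmul_eq_mul, Conf_card]
  push_cast
  exact le_rfl

/-- elementary symmetric functions -/
lemma esymm_le (A : Finset J) (w : J → ℝ) (hw : ∀ j, 0 ≤ w j) (n : ℕ) :
    ∑ S ∈ A.powersetCard n, ∏ j ∈ S, w j ≤ (∑ j ∈ A, w j) ^ n / n.factorial := by
  classical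
  induction A using Finset.induction_on generalizing n with
  | empty =>
    rcases n with _ | n
    · simp
    · rw [powersetCard_eq_empty.2 (by simp)]
      simp
  | insert j A hj ih =>
    rcases n with _ | n
    · simp
    · rw [powersetCard_succ_insert hj, sum_union, sum_insert hj]
      · have h1 : ∑ S ∈ (A.powersetCard n).image (insert j), ∏ i ∈ S, w i = w j * ∑ S ∈ A.powersetCard n, ∏ i ∈ S, w i := by
          rw [sum_image, mul_sum]
          · refine sum_congr rfl fun S hS => ?_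
            rw [prod_insert]
            exact fun h => hj ((mem_powersetCard.1 hS).1 h)
          · intro S hS S' hS' h
            have h2 : j ∉ S := fun h => hj ((mem_powersetCard.1 hS).1 h)
            have h3 : j ∉ S' := fun h => hj ((mem_powersetCard.1 hS').1 h)
            rw [← erase_insert h2, h, erase_insert h3]
        rw [h1]
        have h2 := ih (n + 1)
        have h3 := ih n
        obtain ⟨M, hM⟩ : ∃ M : ℝ, M = ∑ i ∈ A, w i := ⟨_, rfl⟩
        rw [← hM] at h2 h3 ⊢
        have hM0 : 0 ≤ M := by rw [hM]; exact sum_nonneg fun i _ => hw i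
        have hwj := hw j
        have h4 : M ^ (n + 1) + (n + 1) * w j * M ^ n ≤ (w j + M) ^ (n + 1) := by
          have h5 : ∀ n : ℕ, M ^ (n + 1) + (n + 1) * w j * M ^ n ≤ (w j + M) ^ (n + 1) := by
            intro n
            induction n with
            | zero =>
              simp
              linarith
            | succ n ih' =>
              have h6 : (w j + M) ^ (n + 1 + 1) = (w j + M) ^ (n + 1) * (w j + M) := pow_succ _ _
              rw [h6]
              have h7 : (M ^ (n + 1) + (n + 1) * w j * M ^ n) * (w j + M) ≤ (w j + M) ^ (n + 1) * (w j + M) := by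
                gcongr
              have h8 : 0 ≤ (n + 1) * w j * M ^ n * w j := by positivity
              have h9 : (M ^ (n + 1) + (n + 1) * w j * M ^ n) * (w j + M) =
                  M ^ (n + 1 + 1) + (n + 1 + 1) * w j * M ^ (n + 1) + (n + 1) * w j * M ^ n * w j := by ring
              push_cast
              linarith
          exact h5 n
        have hf : ((n + 1).factorial : ℝ) = (n + 1) * n.factorial := by
          rw [Nat.factorial_succ]
          push_cast
          ring
        have hf0 : (0 : ℝ) < n.factorial := by exact_mod_cast Nat.factorial_pos n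
        calc ∑ S ∈ A.powersetCard (n + 1), ∏ i ∈ S, w i + w j * ∑ S ∈ A.powersetCard n, ∏ i ∈ S, w i
            ≤ M ^ (n + 1) / ((n + 1).factorial : ℝ) + w j * (M ^ n / n.factorial) := by gcongr
          _ = (M ^ (n + 1) + (n + 1) * w j * M ^ n) / ((n + 1).factorial : ℝ) := by
              rw [hf]
              field_simp
          _ ≤ (w j + M) ^ (n + 1) / ((n + 1).factorial : ℝ) := by gcongr
      · rw [disjoint_left]
        intro S hS hS'
        rw [mem_image] at hS'
        obtain ⟨S', _, rfl⟩ := hS'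
        exact hj ((mem_powersetCard.1 hS).1 (mem_insert_self _ _))

/-- the binomial moments -/
lemma choose_sum (A : Finset J) (n : ℕ) : (A.card.choose n : ℝ) = ∑ S ∈ (univ : Finset J).powersetCard n, ∏ j ∈ S, (if j ∈ A then (1 : ℝ) else 0) := by
  rw [← card_powersetCard, card_eq_sum_ones, Nat.cast_sum]
  have h1 : A.powersetCard n ⊆ (univ : Finset J).powersetCard n := powersetCard_mono (subset_univ _)
  rw [← sum_subset h1]
  · refine sum_congr rfl fun S hS => ?_
    rw [prod_eq_one, Nat.cast_one]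
    intro j hj
    rw [if_pos ((mem_powersetCard.1 hS).1 hj)]
  · intro S hS hS'
    have h2 : ∃ j ∈ S, j ∉ A := by
      by_contra hcon
      push Not at hcon
      exact hS' (mem_powersetCard.2 ⟨hcon, (mem_powersetCard.1 hS).2⟩)
    obtain ⟨j, hj, hj'⟩ := h2
    exact prod_eq_zero hj (if_neg hj')

/-- the proportion of the marked residues -/
noncomputable def ww (m : ∀ j, R j → Fin (k + 1)) (j : J) : ℝ := avg (fun b => if m j b ≠ 0 then (1 : ℝ) else 0)

omit [Fintype J] [DecidableEq J] [∀ j, Nonempty (R j)] in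
lemma ww_nonneg (m : ∀ j, R j → Fin (k + 1)) (j : J) : 0 ≤ ww m j := by
  unfold ww avg
  apply div_nonneg _ (Nat.cast_nonneg _)
  refine sum_nonneg fun b _ => ?_
  split_ifs <;> norm_num

lemma model_choose (m : ∀ j, R j → Fin (k + 1)) (n : ℕ) :
    EE (fun ω => ((spt (cfg m ω)).card.choose n : ℝ)) ≤ (∑ j, ww m j) ^ n / n.factorial := by
  have e : (fun ω : (∀ j, R j) => ((spt (cfg m ω)).card.choose n : ℝ)) = fun ω => ∑ S ∈ (univ : Finset J).powersetCard n, ∏ j ∈ S, (if m j (ω j) ≠ 0 then (1 : ℝ) else 0) := by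
    funext ω
    rw [choose_sum]
    refine sum_congr rfl fun S _ => prod_congr rfl fun j _ => ?_
    unfold spt cfg
    simp
  rw [e, EE_sum]
  refine le_trans (le_of_eq ?_) (esymm_le univ (ww m) (ww_nonneg m) n)
  refine sum_congr rfl fun S _ => ?_
  unfold EE
  rw [avg_pi_prod S (fun j b => if m j b ≠ 0 then (1 : ℝ) else 0)]
  rfl

lemma family_choose {ι : Type} (s : Finset ι) (ρ : ι → ∀ j, R j) (n : ℕ) (δ : ℝ) (hδ : 0 ≤ δ) (heq : Equi s ρ n δ)
    (m : ∀ j, R j → Fin (k + 1)) :
    ∑ i ∈ s, ((spt (cfg m (ρ i))).card.choose n : ℝ) ≤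
      s.card * ((∑ j, ww m j) ^ n / n.factorial + (Fintype.card J : ℝ) ^ n * δ) := by
  have e : ∀ i, ((spt (cfg m (ρ i))).card.choose n : ℝ) = ∑ S ∈ (univ : Finset J).powersetCard n, ∏ j ∈ S, (if m j (ρ i j) ≠ 0 then (1 : ℝ) else 0) := by
    intro i
    rw [choose_sum]
    refine sum_congr rfl fun S _ => prod_congr rfl fun j _ => ?_
    unfold spt cfg
    simp
  rw [sum_congr rfl fun i _ => e i, sum_comm]
  have h1 : ∀ S ∈ (univ : Finset J).powersetCard n, ∑ i ∈ s, ∏ j ∈ S, (if m j (ρ i j) ≠ 0 then (1 : ℝ) else 0) ≤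
      s.card * ∏ j ∈ S, ww m j + δ * s.card := by
    intro S hS
    have h2 := heq S (le_of_eq (mem_powersetCard.1 hS).2) (fun j b => if m j b ≠ 0 then (1 : ℝ) else 0) (by
      intro j c
      split_ifs <;> simp)
    have h3 := (abs_le.1 h2).2
    unfold ww
    linarith
  refine (sum_le_sum h1).trans ?_
  rw [sum_add_distrib, sum_const, card_powersetCard, card_univ, ← mul_sum, nsmul_eq_mul]
  have h2 := esymm_le univ (ww m) (ww_nonneg m) n
  have h3 : ((Fintype.card J).choose n : ℝ) ≤ (Fintype.card J : ℝ) ^ n := by exact_mod_cast Nat.choose_le_pow _ _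
  have hs : (0 : ℝ) ≤ s.card := Nat.cast_nonneg _
  calc (s.card : ℝ) * ∑ S ∈ (univ : Finset J).powersetCard n, ∏ j ∈ S, ww m j + ((Fintype.card J).choose n : ℝ) * (δ * s.card)
      ≤ s.card * ((∑ j, ww m j) ^ n / n.factorial) + (Fintype.card J : ℝ) ^ n * (δ * s.card) := by gcongr
    _ = _ := by ring

/-- **The law of the marks, in total variation.** -/
theorem tv_bound {ι : Type} (s : Finset ι) (ρ : ι → ∀ j, R j) (K : ℕ) (δ : ℝ) (hδ : 0 ≤ δ) (heq : Equi s ρ (K + 1) δ)
    (m : ∀ j, R j → Fin (k + 1)) (G : (J → Fin (k + 1)) → ℝ) (hG : ∀ f, |G f| ≤ 1) :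
    |∑ i ∈ s, G (cfg m (ρ i)) - s.card * EE (fun ω => G (cfg m ω))| ≤
      (2 * (4 * ∑ j, ww m j) ^ (K + 1) / ((K + 1).factorial : ℝ) + (4 * (Fintype.card J : ℝ)) ^ (K + 1) * δ +
        (1 + 2 * (k + 1) * (Fintype.card J : ℝ)) ^ K * δ) * s.card := by
  obtain ⟨T, hT⟩ : ∃ T : (J → Fin (k + 1)) → ℝ, T = fun f => ∑ S ∈ (univ : Finset (Finset J)).filter (fun S => S.card ≤ K), DD G S f := ⟨_, rfl⟩
  have hTe : ∀ f, |G f - T f| ≤ 4 ^ (K + 1) * ((spt f).card.choose (K + 1) : ℝ) := by
    intro f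
    rw [hT]
    exact trunc_error G hG K f
  have hs : (0 : ℝ) ≤ s.card := Nat.cast_nonneg _
  -- the family
  have h1 : |∑ i ∈ s, (G (cfg m (ρ i)) - T (cfg m (ρ i)))| ≤ 4 ^ (K + 1) * (s.card * ((∑ j, ww m j) ^ (K + 1) / (K + 1).factorial + (Fintype.card J : ℝ) ^ (K + 1) * δ)) := by
    refine (abs_sum_le_sum_abs _ _).trans ((sum_le_sum fun i _ => hTe _).trans ?_)
    rw [← mul_sum]
    have := family_choose s ρ (K + 1) δ hδ heq m
    gcongr
  -- the model
  have h2 : |EE (fun ω => G (cfg m ω) - T (cfg m ω))| ≤ 4 ^ (K + 1) * ((∑ j, ww m j) ^ (K + 1) / (K + 1).factorial) := by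
    refine (EE_abs _).trans ((EE_le _ _ fun ω => hTe _).trans ?_)
    rw [EE_mul]
    have := model_choose m (K + 1)
    gcongr
  -- the truncated sums
  have h3 : |∑ i ∈ s, T (cfg m (ρ i)) - s.card * EE (fun ω => T (cfg m ω))| ≤
      (1 + 2 * (k + 1) * (Fintype.card J : ℝ)) ^ K * δ * s.card := by
    have e1 : ∑ i ∈ s, T (cfg m (ρ i)) - s.card * EE (fun ω => T (cfg m ω)) =
        ∑ S ∈ (univ : Finset (Finset J)).filter (fun S => S.card ≤ K), (∑ i ∈ s, DD G S (cfg m (ρ i)) - s.card * EE (fun ω => DD G S (cfg m ω))) := by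
      rw [hT, sum_sub_distrib, sum_comm, EE_sum, mul_sum]
    rw [e1]
    have h4 : ∀ S ∈ (univ : Finset (Finset J)).filter (fun S => S.card ≤ K),
        |∑ i ∈ s, DD G S (cfg m (ρ i)) - s.card * EE (fun ω => DD G S (cfg m ω))| ≤ (2 * (k + 1)) ^ S.card * (δ * s.card) := by
      intro S hS
      rw [mem_filter] at hS
      have h5 := local_avg s ρ (K + 1) δ heq m S (by omega) (DD G S) (2 ^ S.card) (DD_abs G hG S) (fun f => (DD_local G S f).symm)
      refine h5.trans (le_of_eq ?_)
      rw [mul_pow]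
      ring
    refine (abs_sum_le_sum_abs _ _).trans ((sum_le_sum h4).trans ?_)
    rw [← sum_mul]
    have h5 : ∑ S ∈ (univ : Finset (Finset J)).filter (fun S => S.card ≤ K), (2 * ((k : ℝ) + 1)) ^ S.card ≤
        (1 + 2 * (k + 1) * (Fintype.card J : ℝ)) ^ K := by
      have h6 : (univ : Finset (Finset J)).filter (fun S => S.card ≤ K) = (range (K + 1)).biUnion (fun s => (univ : Finset J).powersetCard s) := by
        ext S
        simp only [mem_filter, mem_univ, true_and, mem_biUnion, mem_range, mem_powersetCard, subset_univ]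
        constructor
        · intro h
          exact ⟨S.card, by omega, rfl⟩
        · rintro ⟨a, h7, h8⟩
          omega
      rw [h6, sum_biUnion]
      · have h7 : ∀ a ∈ range (K + 1), ∑ S ∈ (univ : Finset J).powersetCard a, (2 * ((k : ℝ) + 1)) ^ S.card ≤
            (K.choose a : ℝ) * (2 * (k + 1) * (Fintype.card J : ℝ)) ^ a := by
          intro a ha
          rw [mem_range] at ha
          have h8 : ∀ S ∈ (univ : Finset J).powersetCard a, (2 * ((k : ℝ) + 1)) ^ S.card = (2 * ((k : ℝ) + 1)) ^ a := by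
            intro S hS
            rw [(mem_powersetCard.1 hS).2]
          rw [sum_congr rfl h8, sum_const, card_powersetCard, card_univ, nsmul_eq_mul]
          have h9 : ((Fintype.card J).choose a : ℝ) ≤ (Fintype.card J : ℝ) ^ a := by exact_mod_cast Nat.choose_le_pow _ _
          have h10 : (1 : ℝ) ≤ (K.choose a : ℝ) := by
            have : 0 < K.choose a := Nat.choose_pos (by omega)
            exact_mod_cast this
          calc ((Fintype.card J).choose a : ℝ) * (2 * ((k : ℝ) + 1)) ^ a ≤ (Fintype.card J : ℝ) ^ a * (2 * ((k : ℝ) + 1)) ^ a := by gcongr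
            _ = 1 * (2 * (k + 1) * (Fintype.card J : ℝ)) ^ a := by rw [one_mul, mul_pow _ (Fintype.card J : ℝ), mul_comm]
            _ ≤ _ := by gcongr
        refine (sum_le_sum h7).trans (le_of_eq ?_)
        rw [add_comm (1 : ℝ), add_pow]
        refine sum_congr rfl fun a _ => ?_
        rw [one_pow, mul_one]
        ring
      · intro a _ b _ hab
        rw [Function.onFun, disjoint_left]
        intro S h5 h6
        rw [mem_powersetCard] at h5 h6
        exact hab (by rw [← h5.2, ← h6.2])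
    have hδs : 0 ≤ δ * s.card := by positivity
    calc (∑ S ∈ (univ : Finset (Finset J)).filter (fun S => S.card ≤ K), (2 * ((k : ℝ) + 1)) ^ S.card) * (δ * s.card)
        ≤ (1 + 2 * (k + 1) * (Fintype.card J : ℝ)) ^ K * (δ * s.card) := by gcongr
      _ = _ := by ring
  have e : ∑ i ∈ s, G (cfg m (ρ i)) - s.card * EE (fun ω => G (cfg m ω)) =
      ∑ i ∈ s, (G (cfg m (ρ i)) - T (cfg m (ρ i))) - s.card * EE (fun ω => G (cfg m ω) - T (cfg m ω)) +
      (∑ i ∈ s, T (cfg m (ρ i)) - s.card * EE (fun ω => T (cfg m ω))) := by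
    rw [sum_sub_distrib, EE_sub]
    ring
  rw [e]
  refine (abs_add_le _ _).trans ?_
  have h4 : |∑ i ∈ s, (G (cfg m (ρ i)) - T (cfg m (ρ i))) - s.card * EE (fun ω => G (cfg m ω) - T (cfg m ω))| ≤
      4 ^ (K + 1) * (s.card * ((∑ j, ww m j) ^ (K + 1) / (K + 1).factorial + (Fintype.card J : ℝ) ^ (K + 1) * δ)) +
      s.card * (4 ^ (K + 1) * ((∑ j, ww m j) ^ (K + 1) / (K + 1).factorial)) := by
    refine (abs_sub _ _).trans (add_le_add h1 ?_)
    rw [abs_mul, abs_of_nonneg hs]
    gcongr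
  have e2 : (2 * (4 * ∑ j, ww m j) ^ (K + 1) / ((K + 1).factorial : ℝ) + (4 * (Fintype.card J : ℝ)) ^ (K + 1) * δ +
        (1 + 2 * (k + 1) * (Fintype.card J : ℝ)) ^ K * δ) * s.card =
      4 ^ (K + 1) * (s.card * ((∑ j, ww m j) ^ (K + 1) / (K + 1).factorial + (Fintype.card J : ℝ) ^ (K + 1) * δ)) +
      s.card * (4 ^ (K + 1) * ((∑ j, ww m j) ^ (K + 1) / (K + 1).factorial)) +
      (1 + 2 * (k + 1) * (Fintype.card J : ℝ)) ^ K * δ * s.card := by
    rw [mul_pow, mul_pow]
    ring
  rw [e2]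
  linarith

/-- the model law in product form -/
theorem model_law (m : ∀ j, R j → Fin (k + 1)) (G : (J → Fin (k + 1)) → ℝ) :
    EE (fun ω => G (cfg m ω)) = ∑ f : J → Fin (k + 1), G f * ∏ j, avg (fun b => if m j b = f j then (1 : ℝ) else 0) := by
  have e : (fun ω : (∀ j, R j) => G (cfg m ω)) = fun ω => ∑ f : J → Fin (k + 1), G f * ∏ j, (if m j (ω j) = f j then (1 : ℝ) else 0) := by
    funext ω
    rw [sum_eq_single_of_mem (cfg m ω) (mem_univ _)]
    · rw [prod_eq_one, mul_one]
      intro j _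
      simp [cfg]
    · intro f _ hf
      have h1 : ∃ j, m j (ω j) ≠ f j := by
        by_contra hcon
        push Not at hcon
        apply hf
        funext j
        exact (hcon j).symm
      obtain ⟨j, hj⟩ := h1
      rw [prod_eq_zero (mem_univ j) (if_neg hj), mul_zero]
  rw [e, EE_sum]
  refine sum_congr rfl fun f _ => ?_
  rw [EE_mul]
  congr 1
  unfold EE
  exact avg_pi_prod univ (fun j b => if m j b = f j then (1 : ℝ) else 0)

end Pool.Agent.K4H16.CG
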