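import Pool.Agent.K4H16.CG.TVdefs
import Pool.Agent.K4H16.CG.TV2
import Pool.Agent.K4H16.CG.LTfam

/-!
# The law of the marks of the primes, in total variation
-/

set_option autoImplicit false

namespace Pool.Agent.K4H16.CG

open Finset

variable {n r k : ℕ}

lemma factorial_lower (m : ℕ) : (m : ℝ) ^ m / m.factorial ≤ Real.exp m := by
  have h1 := Real.pow_div_factorial_le_exp (m : ℝ) (Nat.cast_nonneg m) m
  exact h1

lemma nat_le_two_pow (a : ℕ) : (a : ℝ) ≤ 2 ^ a := by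
  have : a < 2 ^ a := Nat.lt_two_pow_self
  exact_mod_cast this.le

/-- the constants -/
lemma tv_numbers (n k : ℕ) (C : ℝ) : ∃ B : ℕ, ∀ (x : ℕ), 2 ≤ x → ∀ μ M : ℝ, 0 ≤ M → M ≤ μ → 1 ≤ μ → ∀ (Jc : ℝ), 0 ≤ Jc → Jc ≤ x →
    ∃ K : ℕ, ∀ S : ℝ, (x : ℝ) ^ ((B : ℝ) * μ) ≤ S →
      2 * (4 * M) ^ (K + 1) / ((K + 1).factorial : ℝ) + (4 * Jc) ^ (K + 1) * (n * (2 * (x : ℝ) ^ (K + 1) / S)) +
        (1 + 2 * (k + 1) * Jc) ^ K * (n * (2 * (x : ℝ) ^ (K + 1) / S)) ≤ Real.exp (-(C * μ)) := by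
  obtain ⟨Cn, hCn⟩ : ∃ Cn : ℕ, C ≤ Cn := exists_nat_ge C
  obtain ⟨β, hβ⟩ : ∃ β : ℕ, β = Cn + 32 := ⟨_, rfl⟩
  obtain ⟨a, ha⟩ : ∃ a : ℕ, a = 2 * k + 4 := ⟨_, rfl⟩
  refine ⟨(a + 2) * (β + 1) + 2 * Cn + 8 * n, ?_⟩
  intro x hx μ M hM0 hMμ hμ Jc hJ0 hJx
  have hx2 : (2 : ℝ) ≤ x := by exact_mod_cast hx
  have hx1 : (1 : ℝ) ≤ x := by linarith
  have hx0 : (0 : ℝ) < x := by linarith
  have hβ32 : (32 : ℝ) ≤ β := by
    have : 32 ≤ β := by omega
    exact_mod_cast this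
  have hβC : (Cn : ℝ) + 32 = β := by rw [hβ]; push_cast; ring
  obtain ⟨K, hK⟩ : ∃ K : ℕ, K + 1 = ⌈(β : ℝ) * μ⌉₊ := by
    have h1 : 0 < ⌈(β : ℝ) * μ⌉₊ := Nat.ceil_pos.2 (by positivity)
    exact ⟨⌈(β : ℝ) * μ⌉₊ - 1, by omega⟩
  have hK1 : (β : ℝ) * μ ≤ ((K + 1 : ℕ) : ℝ) := by rw [hK]; exact Nat.le_ceil _
  have hK2 : ((K + 1 : ℕ) : ℝ) ≤ ((β : ℝ) + 1) * μ := by
    rw [hK]
    have h1 := Nat.ceil_lt_add_one (show 0 ≤ (β : ℝ) * μ by positivity)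
    nlinarith
  refine ⟨K, fun S hS => ?_⟩
  have hS0 : 0 < S := lt_of_lt_of_le (Real.rpow_pos_of_pos hx0 _) hS
  obtain ⟨m, hm⟩ : ∃ m : ℕ, m = K + 1 := ⟨_, rfl⟩
  rw [← hm] at hK1 hK2 ⊢
  have hm0 : (0 : ℝ) < m := by
    have : 0 < m := by omega
    exact_mod_cast this
  have hfac : (0 : ℝ) < m.factorial := by exact_mod_cast Nat.factorial_pos m
  have hexp0 : 0 < Real.exp (-(C * μ)) := Real.exp_pos _
  -- the first term
  have h1 : 2 * (4 * M) ^ m / (m.factorial : ℝ) ≤ 1 / 2 * Real.exp (-(C * μ)) := by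
    have h2 := factorial_lower m
    have h3 : (4 * M) ^ m / (m.factorial : ℝ) ≤ (4 * M / m) ^ m * Real.exp m := by
      calc (4 * M) ^ m / (m.factorial : ℝ) = (4 * M / m) ^ m * ((m : ℝ) ^ m / m.factorial) := by
            rw [div_pow]
            field_simp
        _ ≤ (4 * M / m) ^ m * Real.exp m := by gcongr
    have h4 : 4 * M / m ≤ 1 / 8 := by
      rw [div_le_iff₀ hm0]
      have : 32 * μ ≤ β * μ := by gcongr
      linarith
    have h5 : (4 * M / m) ^ m * Real.exp m ≤ (1 / 8) ^ m * Real.exp m := by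
      gcongr
    have h6 : (1 / 8 : ℝ) ≤ Real.exp (-2) := by
      rw [Real.exp_neg, one_div]
      apply inv_anti₀ (Real.exp_pos _)
      have := Real.exp_one_lt_d9
      have h7 : Real.exp 2 = Real.exp 1 ^ 2 := by rw [← Real.exp_nat_mul]; norm_num
      rw [h7]
      nlinarith [Real.exp_pos 1]
    have h8 : (1 / 8 : ℝ) ^ m * Real.exp m ≤ Real.exp (-(m : ℝ)) := by
      calc (1 / 8 : ℝ) ^ m * Real.exp m ≤ Real.exp (-2) ^ m * Real.exp m := by gcongr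
        _ = Real.exp (-(m : ℝ)) := by
            rw [← Real.exp_nat_mul, ← Real.exp_add]
            congr 1
            ring
    have h9 : Real.exp (-(m : ℝ)) ≤ Real.exp (-(C * μ)) * Real.exp (-2) := by
      rw [← Real.exp_add]
      apply Real.exp_le_exp.2
      have h10 : C * μ ≤ Cn * μ := by gcongr
      have h11 : (β : ℝ) * μ = Cn * μ + 32 * μ := by rw [← hβC]; ring
      linarith
    have h12 : Real.exp (-2) ≤ 1 / 4 := by
      rw [Real.exp_neg, one_div]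
      apply inv_anti₀ (by norm_num)
      have := Real.add_one_le_exp (1 : ℝ)
      have h7 : Real.exp 2 = Real.exp 1 ^ 2 := by rw [← Real.exp_nat_mul]; norm_num
      rw [h7]
      nlinarith [Real.exp_pos 1]
    calc 2 * (4 * M) ^ m / (m.factorial : ℝ) = 2 * ((4 * M) ^ m / (m.factorial : ℝ)) := by ring
      _ ≤ 2 * (Real.exp (-(C * μ)) * Real.exp (-2)) := by
          have := h3.trans (h5.trans (h8.trans h9))
          linarith
      _ ≤ 2 * (Real.exp (-(C * μ)) * (1 / 4)) := by gcongr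
      _ = _ := by ring
  -- the other terms
  have hδ : n * (2 * (x : ℝ) ^ m / S) ≤ 2 * n * (x : ℝ) ^ m / (x : ℝ) ^ ((((a + 2) * (β + 1) + 2 * Cn + 8 * n : ℕ) : ℝ) * μ) := by
    calc n * (2 * (x : ℝ) ^ m / S) ≤ n * (2 * (x : ℝ) ^ m / (x : ℝ) ^ ((((a + 2) * (β + 1) + 2 * Cn + 8 * n : ℕ) : ℝ) * μ)) := by
          gcongr
      _ = _ := by ring
  have hbase : (1 : ℝ) ≤ (a : ℝ) * x := by
    have h2 : (4 : ℝ) ≤ a := by
      have : 4 ≤ a := by omega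
      exact_mod_cast this
    nlinarith
  have h2 : (4 * Jc) ^ m ≤ ((a : ℝ) * x) ^ m := by
    have h3 : (4 : ℝ) ≤ a := by
      have : 4 ≤ a := by omega
      exact_mod_cast this
    gcongr
  have h3 : (1 + 2 * (k + 1) * Jc) ^ K ≤ ((a : ℝ) * x) ^ m := by
    have h4 : (a : ℝ) = 2 * k + 4 := by rw [ha]; push_cast; ring
    calc (1 + 2 * (k + 1) * Jc) ^ K ≤ ((a : ℝ) * x) ^ K := by
          have h5 : 1 + 2 * (k + 1) * Jc ≤ (a : ℝ) * x := by
            have h6 : 2 * ((k : ℝ) + 1) * Jc ≤ 2 * (k + 1) * x := by gcongr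
            rw [h4]
            nlinarith
          gcongr
      _ ≤ ((a : ℝ) * x) ^ m := pow_le_pow_right₀ hbase (by omega)
  obtain ⟨δ, hδd⟩ : ∃ δ : ℝ, δ = n * (2 * (x : ℝ) ^ m / S) := ⟨_, rfl⟩
  have hδ0 : 0 ≤ δ := by rw [hδd]; positivity
  rw [← hδd] at hδ ⊢
  have h4 : (4 * Jc) ^ m * δ + (1 + 2 * (k + 1) * Jc) ^ K * δ ≤ 1 / 2 * Real.exp (-(C * μ)) := by
    have h5 : (4 * Jc) ^ m * δ + (1 + 2 * (k + 1) * Jc) ^ K * δ ≤ 2 * ((a : ℝ) * x) ^ m * δ := by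
      have h6 : (4 * Jc) ^ m * δ ≤ ((a : ℝ) * x) ^ m * δ := by gcongr
      have h7 : (1 + 2 * (k + 1) * Jc) ^ K * δ ≤ ((a : ℝ) * x) ^ m * δ := by gcongr
      linarith
    refine h5.trans ?_
    have hpow : ∀ y : ℕ, (2 : ℝ) ^ y ≤ (x : ℝ) ^ y := fun y => pow_le_pow_left₀ (by norm_num) hx2 y
    -- everything as a power of x
    have h6 : ((a : ℝ) * x) ^ m ≤ (x : ℝ) ^ (((a : ℝ) + 1) * ((β + 1) * μ)) := by
      have h7 : (a : ℝ) * x ≤ (x : ℝ) ^ ((a : ℝ) + 1) := by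
        rw [Real.rpow_add_one hx0.ne', Real.rpow_natCast]
        have := (nat_le_two_pow a).trans (hpow a)
        gcongr
      calc ((a : ℝ) * x) ^ m ≤ ((x : ℝ) ^ ((a : ℝ) + 1)) ^ m := by gcongr
        _ = (x : ℝ) ^ (((a : ℝ) + 1) * m) := by rw [← Real.rpow_natCast ((x : ℝ) ^ ((a : ℝ) + 1)), ← Real.rpow_mul hx0.le]
        _ ≤ (x : ℝ) ^ (((a : ℝ) + 1) * ((β + 1) * μ)) := by
            apply Real.rpow_le_rpow_of_exponent_le hx1
            gcongr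
    have h7 : (x : ℝ) ^ m ≤ (x : ℝ) ^ (((β : ℝ) + 1) * μ) := by
      rw [← Real.rpow_natCast]
      exact Real.rpow_le_rpow_of_exponent_le hx1 hK2
    have h8 : 8 * (n : ℝ) ≤ (x : ℝ) ^ (8 * (n : ℝ) * μ) := by
      have h9 : (((8 * n : ℕ)) : ℝ) ≤ (x : ℝ) ^ (8 * n) := (nat_le_two_pow (8 * n)).trans (hpow _)
      push_cast at h9
      refine h9.trans ?_
      rw [← Real.rpow_natCast]
      apply Real.rpow_le_rpow_of_exponent_le hx1
      push_cast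
      have : 0 ≤ 8 * (n : ℝ) := by positivity
      nlinarith
    have h9 : Real.exp (C * μ) ≤ (x : ℝ) ^ (2 * (Cn : ℝ) * μ) := by
      have h10 : Real.exp (C * μ) ≤ Real.exp (Cn * μ) := by
        apply Real.exp_le_exp.2
        gcongr
      refine h10.trans ?_
      have h11 : Real.exp 1 ≤ (x : ℝ) ^ (2 : ℝ) := by
        have := Real.exp_one_lt_d9
        have h12 : (x : ℝ) ^ (2 : ℝ) = (x : ℝ) ^ 2 := Real.rpow_natCast _ 2
        rw [h12]
        nlinarith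
      have h12 : Real.exp (Cn * μ) = Real.exp 1 ^ ((Cn : ℝ) * μ) := by rw [← Real.exp_mul, one_mul]
      rw [h12]
      calc Real.exp 1 ^ ((Cn : ℝ) * μ) ≤ ((x : ℝ) ^ (2 : ℝ)) ^ ((Cn : ℝ) * μ) := by
            apply Real.rpow_le_rpow (Real.exp_pos _).le h11
            positivity
        _ = (x : ℝ) ^ (2 * (Cn : ℝ) * μ) := by
            rw [← Real.rpow_mul hx0.le]
            congr 1
            ring
    have h10 : Real.exp (-(C * μ)) = (Real.exp (C * μ))⁻¹ := Real.exp_neg _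
    have hE0 := Real.exp_pos (C * μ)
    have hP0 : 0 < (x : ℝ) ^ ((((a + 2) * (β + 1) + 2 * Cn + 8 * n : ℕ) : ℝ) * μ) := Real.rpow_pos_of_pos hx0 _
    rw [h10]
    calc 2 * ((a : ℝ) * x) ^ m * δ ≤ 2 * ((a : ℝ) * x) ^ m * (2 * n * (x : ℝ) ^ m / (x : ℝ) ^ ((((a + 2) * (β + 1) + 2 * Cn + 8 * n : ℕ) : ℝ) * μ)) := by gcongr
      _ = 1 / 2 * (8 * n * ((a : ℝ) * x) ^ m * (x : ℝ) ^ m) / (x : ℝ) ^ ((((a + 2) * (β + 1) + 2 * Cn + 8 * n : ℕ) : ℝ) * μ) := by ring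
      _ ≤ 1 / 2 * (Real.exp (C * μ))⁻¹ := by
          rw [div_le_iff₀ hP0]
          have h11 : (8 * n * ((a : ℝ) * x) ^ m * (x : ℝ) ^ m) * Real.exp (C * μ) ≤ (x : ℝ) ^ ((((a + 2) * (β + 1) + 2 * Cn + 8 * n : ℕ) : ℝ) * μ) := by
            calc (8 * n * ((a : ℝ) * x) ^ m * (x : ℝ) ^ m) * Real.exp (C * μ)
                ≤ ((x : ℝ) ^ (8 * (n : ℝ) * μ) * (x : ℝ) ^ (((a : ℝ) + 1) * ((β + 1) * μ)) * (x : ℝ) ^ (((β : ℝ) + 1) * μ)) * (x : ℝ) ^ (2 * (Cn : ℝ) * μ) := by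
                  gcongr
              _ = (x : ℝ) ^ ((((a + 2) * (β + 1) + 2 * Cn + 8 * n : ℕ) : ℝ) * μ) := by
                  rw [← Real.rpow_add hx0, ← Real.rpow_add hx0, ← Real.rpow_add hx0]
                  congr 1
                  push_cast
                  ring
          have h12 : 8 * n * ((a : ℝ) * x) ^ m * (x : ℝ) ^ m ≤ (x : ℝ) ^ ((((a + 2) * (β + 1) + 2 * Cn + 8 * n : ℕ) : ℝ) * μ) * (Real.exp (C * μ))⁻¹ := by
            rw [← div_eq_mul_inv, le_div_iff₀ hE0]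
            exact h11
          linarith
  rw [add_assoc]
  linarith

lemma mark_congr (p : ℕ) (W : Fin r → WeierstrassCurve (MvPolynomial (Fin n) ℤ)) (θ : ℕ → (Fin r → Option ℤ) → Fin (k + 1)) (v v' : Fin n → ℤ)
    (h : ∀ i, (v i : ZMod p) = (v' i : ZMod p)) : mark W θ p v = mark W θ p v' := by
  unfold mark
  congr 1
  funext i
  exact frob_congr p (W i) v v' h

lemma mark_rep (p : ℕ) [NeZero p] (W : Fin r → WeierstrassCurve (MvPolynomial (Fin n) ℤ)) (θ : ℕ → (Fin r → Option ℤ) → Fin (k + 1)) (v : Fin n → ℤ) :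
    mark W θ p (rep p (fun i => (v i : ZMod p))) = mark W θ p v := by
  apply mark_congr
  intro i
  unfold rep
  push_cast
  exact ZMod.natCast_zmod_val _

/-- **The law of the marks.** -/
theorem tv_family (n k : ℕ) (C : ℝ) : ∃ B : ℕ, ∀ (r : ℕ) (W : Fin r → WeierstrassCurve (MvPolynomial (Fin n) ℤ))
    (θ : ℕ → (Fin r → Option ℤ) → Fin (k + 1)) (x : ℕ), 2 ≤ x → ∀ L : ℝ, 1 ≤ L →
    ∀ (M : Fin n → ℤ) (N : Fin n → ℕ), (∀ i, (x : ℝ) ^ ((B : ℝ) * (expected W θ x + L)) ≤ N i) →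
    ∀ G : (PrimesUpTo x → Fin (k + 1)) → ℝ, (∀ f, |G f| ≤ 1) →
      |∑ v ∈ box M N, G (fun p => mark W θ p v) -
        (box M N).card * ∑ f : PrimesUpTo x → Fin (k + 1), G f * ∏ p : PrimesUpTo x, lawMod W θ p (f p)| ≤
        Real.exp (-(C * (expected W θ x + L))) * (box M N).card := by
  obtain ⟨B, hB⟩ := tv_numbers n k C
  refine ⟨B, ?_⟩
  intro r W θ x hx L hL M N hN G hG
  obtain ⟨m, hm⟩ : ∃ m : ∀ j : Prs x, (Fin n → ZMod (j : ℕ)) → Fin (k + 1), m = fun (j : Prs x) b => mark W θ (j : ℕ) (rep (j : ℕ) b) := ⟨_, rfl⟩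
  have hww : ∑ j, ww m j = expected W θ x := by
    unfold expected ww
    rw [← sum_coe_sort ((range (x + 1)).filter Nat.Prime)]
    refine sum_congr rfl fun j _ => ?_
    rw [meanMod_eq, hm]
  have hM0 : 0 ≤ expected W θ x := by
    rw [← hww]
    exact sum_nonneg fun j _ => ww_nonneg m j
  obtain ⟨K, hK⟩ := hB x hx (expected W θ x + L) (expected W θ x) hM0 (by linarith) (by linarith) (Fintype.card (Prs x))
    (Nat.cast_nonneg _) (by exact_mod_cast Prs.card_le x)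
  obtain ⟨S, hS⟩ : ∃ S : ℕ, S = ⌈(x : ℝ) ^ ((B : ℝ) * (expected W θ x + L))⌉₊ := ⟨_, rfl⟩
  have hx0 : (0 : ℝ) < x := by
    have : (2 : ℝ) ≤ x := by exact_mod_cast hx
    linarith
  have hS1 : (x : ℝ) ^ ((B : ℝ) * (expected W θ x + L)) ≤ S := by rw [hS]; exact Nat.le_ceil _
  have hSp : 0 < S := by
    rw [hS]
    exact Nat.ceil_pos.2 (Real.rpow_pos_of_pos hx0 _)
  have hSN : ∀ i, S ≤ N i := fun i => by rw [hS]; exact Nat.ceil_le.2 (hN i)
  have heq := equi_box (fun j : Prs x => (j : ℕ)) (Prs.cop x) x (by omega) (fun j => j.le) (K + 1) S hSp n M N hSN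
  have h1 := tv_bound (box M N) (fun v (j : Prs x) i => (v i : ZMod (j : ℕ))) K _ (by positivity) heq m G hG
  rw [hww] at h1
  have h2 := hK S hS1
  have e1 : ∑ v ∈ box M N, G (cfg m (fun j i => (v i : ZMod (j : ℕ)))) = ∑ v ∈ box M N, G (fun p => mark W θ p v) := by
    refine sum_congr rfl fun v _ => ?_
    congr 1
    funext j
    unfold cfg
    rw [hm]
    exact mark_rep (j : ℕ) W θ v
  have e2 : EE (fun ω => G (cfg m ω)) = ∑ f : Prs x → Fin (k + 1), G f * ∏ p : Prs x, lawMod W θ p (f p) := by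
    rw [model_law]
    refine sum_congr rfl fun f _ => ?_
    congr 1
    refine prod_congr rfl fun j _ => ?_
    unfold lawMod
    rw [meanMod_eq, hm]
  rw [e1, e2] at h1
  refine h1.trans ?_
  have hc : (0 : ℝ) ≤ (box M N).card := Nat.cast_nonneg _
  gcongr

end Pool.Agent.K4H16.CG
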