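import Pool.Agent.K4H16.CG.TV2

/-!
# Truncated exponentials
-/

set_option autoImplicit false

namespace Pool.Agent.K4H16.CG

open Finset

/-- the truncated exponential -/
noncomputable def TK (K : ℕ) (z : ℝ) : ℝ := ∑ m ∈ range (K + 1), z ^ m / (m.factorial : ℝ)

/-- the square of the truncated exponential of `y / 2` -/
noncomputable def QK (K : ℕ) (y : ℝ) : ℝ := TK K (y / 2) ^ 2

lemma tail_exp (n : ℕ) (a : ℝ) (ha : 0 ≤ a) :
    Real.exp a - ∑ m ∈ range n, a ^ m / (m.factorial : ℝ) ≤ (1 / 2) ^ n * Real.exp (2 * a) := by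
  have hs : ∀ b : ℝ, Summable (fun m : ℕ => b ^ m / (m.factorial : ℝ)) := fun b => Real.summable_pow_div_factorial b
  have he : ∀ b : ℝ, Real.exp b = ∑' m : ℕ, b ^ m / (m.factorial : ℝ) := fun b => by
    rw [Real.exp_eq_exp_ℝ, NormedSpace.exp_eq_tsum_div]
  have h1 := (hs a).sum_add_tsum_nat_add n
  rw [← he] at h1
  have h2 : Real.exp a - ∑ m ∈ range n, a ^ m / (m.factorial : ℝ) = ∑' m : ℕ, a ^ (m + n) / ((m + n).factorial : ℝ) := by
    linarith
  rw [h2]
  have h3 : ∑' m : ℕ, a ^ (m + n) / ((m + n).factorial : ℝ) ≤ ∑' m : ℕ, (1 / 2) ^ n * ((2 * a) ^ (m + n) / ((m + n).factorial : ℝ)) := by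
    apply Summable.tsum_le_tsum
    · intro m
      rw [mul_pow, mul_div_assoc, ← mul_assoc]
      have h4 : (1 : ℝ) ≤ (1 / 2) ^ n * 2 ^ (m + n) := by
        rw [pow_add, mul_comm (2 ^ m : ℝ), ← mul_assoc, ← mul_pow]
        norm_num
        exact one_le_pow₀ (by norm_num)
      have h5 : 0 ≤ a ^ (m + n) / ((m + n).factorial : ℝ) := by positivity
      exact le_mul_of_one_le_left h5 h4
    · exact (summable_nat_add_iff n).2 (hs a)
    · exact ((summable_nat_add_iff n).2 (hs (2 * a))).mul_left _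
  refine h3.trans ?_
  rw [tsum_mul_left]
  have h4 := (hs (2 * a)).sum_add_tsum_nat_add n
  rw [← he] at h4
  have h5 : 0 ≤ ∑ m ∈ range n, (2 * a) ^ m / (m.factorial : ℝ) := sum_nonneg fun m _ => by positivity
  gcongr
  linarith

lemma TK_close (K : ℕ) (z : ℝ) : |Real.exp z - TK K z| ≤ (1 / 2) ^ (K + 1) * Real.exp (2 * |z|) := by
  have h1 := Complex.norm_exp_sub_sum_le_exp_norm_sub_sum (z : ℂ) (K + 1)
  have e : Complex.exp (z : ℂ) - ∑ m ∈ range (K + 1), (z : ℂ) ^ m / (m.factorial : ℂ) = ((Real.exp z - TK K z : ℝ) : ℂ) := by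
    unfold TK
    push_cast
    rfl
  rw [e, Complex.norm_real, Complex.norm_real, Real.norm_eq_abs, Real.norm_eq_abs] at h1
  exact h1.trans (tail_exp (K + 1) |z| (abs_nonneg z))

lemma TK_abs (K : ℕ) (z : ℝ) : |TK K z| ≤ TK K |z| := by
  unfold TK
  refine (abs_sum_le_sum_abs _ _).trans (sum_le_sum fun m _ => ?_)
  rw [abs_div, abs_pow, abs_of_nonneg (Nat.cast_nonneg (m.factorial : ℕ) : (0 : ℝ) ≤ (m.factorial : ℝ))]

lemma TK_nonneg (K : ℕ) (z : ℝ) (hz : 0 ≤ z) : 0 ≤ TK K z := by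
  unfold TK
  positivity

lemma TK_mono (K : ℕ) (z z' : ℝ) (hz : 0 ≤ z) (h : z ≤ z') : TK K z ≤ TK K z' := by
  unfold TK
  gcongr

lemma TK_le_exp (K : ℕ) (z : ℝ) (hz : 0 ≤ z) : TK K z ≤ Real.exp z := Real.sum_le_exp_of_nonneg hz _

lemma TK_le_pow (K : ℕ) (z : ℝ) (hz : 0 ≤ z) : TK K z ≤ (1 + z) ^ K := by
  unfold TK
  rw [add_comm (1 : ℝ) z, add_pow]
  apply sum_le_sum
  intro m hm
  rw [mem_range] at hm
  rw [one_pow, mul_one]
  have h1 : (1 : ℝ) ≤ (m.factorial : ℝ) := by exact_mod_cast Nat.factorial_pos m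
  have h2 : (1 : ℝ) ≤ (K.choose m : ℝ) := by exact_mod_cast Nat.choose_pos (by omega)
  have h3 : 0 ≤ z ^ m := by positivity
  calc z ^ m / (m.factorial : ℝ) ≤ z ^ m := div_le_self h3 h1
    _ ≤ z ^ m * (K.choose m : ℝ) := le_mul_of_one_le_right h3 h2

lemma QK_nonneg (K : ℕ) (y : ℝ) : 0 ≤ QK K y := sq_nonneg _

lemma QK_mono (K : ℕ) (y y' : ℝ) (hy : 0 ≤ y) (h : y ≤ y') : QK K y ≤ QK K y' := by
  unfold QK
  have h1 := TK_nonneg K (y / 2) (by linarith)
  have h2 := TK_mono K (y / 2) (y' / 2) (by linarith) (by linarith)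
  gcongr

lemma QK_close (K : ℕ) (y : ℝ) : |QK K y - Real.exp y| ≤ (1 / 2) ^ K * Real.exp (2 * |y|) := by
  unfold QK
  have e : TK K (y / 2) ^ 2 - Real.exp y = -((Real.exp (y / 2) - TK K (y / 2)) * (TK K (y / 2) + Real.exp (y / 2))) := by
    have : Real.exp y = Real.exp (y / 2) ^ 2 := by
      rw [← Real.exp_nat_mul]
      congr 1
      push_cast
      ring
    rw [this]
    ring
  rw [e, abs_neg, abs_mul]
  have h1 := TK_close K (y / 2)
  have h2 : |TK K (y / 2) + Real.exp (y / 2)| ≤ 2 * Real.exp (|y| / 2) := by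
    refine (abs_add_le _ _).trans ?_
    have h3 := TK_abs K (y / 2)
    have h4 := TK_le_exp K |y / 2| (abs_nonneg _)
    have h5 : |y / 2| = |y| / 2 := by rw [abs_div, abs_two]
    rw [h5] at h3 h4
    have h6 : |Real.exp (y / 2)| ≤ Real.exp (|y| / 2) := by
      rw [abs_of_pos (Real.exp_pos _)]
      apply Real.exp_le_exp.2
      have := le_abs_self y
      linarith
    linarith
  have h5 : |y / 2| = |y| / 2 := by rw [abs_div, abs_two]
  rw [h5] at h1
  calc |Real.exp (y / 2) - TK K (y / 2)| * |TK K (y / 2) + Real.exp (y / 2)|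
      ≤ ((1 / 2) ^ (K + 1) * Real.exp (2 * (|y| / 2))) * (2 * Real.exp (|y| / 2)) := by gcongr
    _ = (1 / 2) ^ K * Real.exp (2 * (|y| / 2) + |y| / 2) := by
        rw [Real.exp_add, pow_succ]
        ring
    _ ≤ (1 / 2) ^ K * Real.exp (2 * |y|) := by
        have := abs_nonneg y
        have h7 : Real.exp (2 * (|y| / 2) + |y| / 2) ≤ Real.exp (2 * |y|) := by
          apply Real.exp_le_exp.2
          linarith
        gcongr

/-- In the main range the square of the truncated exponential is close to the exponential. -/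
lemma QK_main (K : ℕ) (hK : 8 ≤ K) (y : ℝ) (hy : |y| ≤ K / 4) : QK K y ≤ 2 * Real.exp y ∧ Real.exp y ≤ 2 * QK K y := by
  have h1 := TK_close K (y / 2)
  have h5 : |y / 2| = |y| / 2 := by rw [abs_div, abs_two]
  rw [h5] at h1
  have hKr : (8 : ℝ) ≤ K := by exact_mod_cast hK
  have h2 : (1 / 2 : ℝ) ^ (K + 1) * Real.exp (2 * (|y| / 2)) ≤ 1 / 8 * Real.exp (y / 2) := by
    have h3 : Real.exp (2 * (|y| / 2)) ≤ Real.exp (3 * K / 8) * Real.exp (y / 2) := by
      rw [← Real.exp_add]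
      apply Real.exp_le_exp.2
      have := neg_abs_le y
      linarith
    have h4 : (1 / 2 : ℝ) ^ (K + 1) * Real.exp (3 * K / 8) ≤ 1 / 8 := by
      have h6 : Real.exp (3 * K / 8) = Real.exp (3 / 8) ^ K := by
        rw [← Real.exp_nat_mul]
        congr 1
        ring
      have h7 : Real.exp (3 / 8) ≤ 3 / 2 := by
        have h8 : Real.exp (3 / 8) ^ 8 ≤ (3 / 2) ^ 8 := by
          have h9 : Real.exp (3 / 8) ^ 8 = Real.exp 1 ^ 3 := by
            rw [← Real.exp_nat_mul, ← Real.exp_nat_mul]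
            congr 1
            norm_num
          rw [h9]
          have h12 := Real.exp_one_lt_d9
          have h13 : Real.exp 1 ^ 3 ≤ (2.7182818286 : ℝ) ^ 3 := by
            gcongr
          refine h13.trans ?_
          norm_num
        exact le_of_pow_le_pow_left₀ (by norm_num) (by norm_num) h8
      rw [h6, pow_succ]
      have h8 : (1 / 2 : ℝ) ^ K * Real.exp (3 / 8) ^ K ≤ (3 / 4) ^ K := by
        rw [← mul_pow]
        gcongr
        linarith
      have h9 : (3 / 4 : ℝ) ^ K ≤ (3 / 4) ^ 8 := pow_le_pow_of_le_one (by norm_num) (by norm_num) hK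
      have h10 : (3 / 4 : ℝ) ^ 8 ≤ 1 / 4 := by norm_num
      nlinarith
    calc (1 / 2 : ℝ) ^ (K + 1) * Real.exp (2 * (|y| / 2)) ≤ (1 / 2 : ℝ) ^ (K + 1) * (Real.exp (3 * K / 8) * Real.exp (y / 2)) := by gcongr
      _ = ((1 / 2 : ℝ) ^ (K + 1) * Real.exp (3 * K / 8)) * Real.exp (y / 2) := by ring
      _ ≤ 1 / 8 * Real.exp (y / 2) := by
          have := Real.exp_pos (y / 2)
          gcongr
  have h3 := abs_le.1 (h1.trans h2)
  have hE := Real.exp_pos (y / 2)
  have hy2 : Real.exp y = Real.exp (y / 2) ^ 2 := by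
    rw [← Real.exp_nat_mul]
    congr 1
    push_cast
    ring
  unfold QK
  rw [hy2]
  obtain ⟨a, ha⟩ : ∃ a : ℝ, a = Real.exp (y / 2) := ⟨_, rfl⟩
  obtain ⟨b, hb⟩ : ∃ b : ℝ, b = TK K (y / 2) := ⟨_, rfl⟩
  rw [← ha] at h3 hE ⊢
  rw [← hb] at h3 ⊢
  constructor
  · nlinarith [h3.1, h3.2]
  · nlinarith [h3.1, h3.2]

/-- Far away the square of the truncated exponential is at most a power. -/
lemma QK_far (K : ℕ) (hK : 1 ≤ K) (y : ℝ) (hy : (K : ℝ) / 8 < |y|) : QK K y ≤ Real.exp (K / 8) * (8 * y / K) ^ (2 * K) := by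
  have hKr : (1 : ℝ) ≤ K := by exact_mod_cast hK
  have hK0 : (0 : ℝ) < K := by linarith
  have h5 : |y / 2| = |y| / 2 := by rw [abs_div, abs_two]
  obtain ⟨z, hz⟩ : ∃ z : ℝ, z = |y| / 2 := ⟨_, rfl⟩
  have hz1 : (K : ℝ) / 16 < z := by rw [hz]; linarith
  have hq : 1 ≤ 16 * z / K := by
    rw [le_div_iff₀ hK0]
    linarith
  have h1 : |TK K (y / 2)| ≤ (16 * z / K) ^ K * Real.exp (K / 16) := by
    refine (TK_abs K _).trans ?_
    rw [h5, ← hz]
    have h2 : TK K z ≤ (16 * z / K) ^ K * TK K (K / 16) := by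
      unfold TK
      rw [mul_sum]
      apply sum_le_sum
      intro m hm
      rw [mem_range] at hm
      have h3 : z ^ m ≤ (16 * z / K) ^ K * (K / 16 : ℝ) ^ m := by
        calc z ^ m = (16 * z / K) ^ m * (K / 16 : ℝ) ^ m := by
              rw [← mul_pow]
              congr 1
              field_simp
          _ ≤ (16 * z / K) ^ K * (K / 16 : ℝ) ^ m := by
              have := pow_le_pow_right₀ hq (by omega : m ≤ K)
              gcongr
      rw [← mul_div_assoc]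
      gcongr
    have h4 := TK_le_exp K (K / 16) (by positivity)
    have h6 : 0 ≤ (16 * z / K) ^ K := by positivity
    calc TK K z ≤ (16 * z / K) ^ K * TK K (K / 16) := h2
      _ ≤ (16 * z / K) ^ K * Real.exp (K / 16) := by gcongr
  unfold QK
  have h2 : TK K (y / 2) ^ 2 ≤ ((16 * z / K) ^ K * Real.exp (K / 16)) ^ 2 := by
    rw [← sq_abs]
    gcongr
  refine h2.trans (le_of_eq ?_)
  have h3 : (8 * y / K) ^ (2 * K) = ((16 * z / K) ^ K) ^ 2 := by
    rw [pow_mul, ← pow_mul (16 * z / K) K 2, mul_comm K 2, pow_mul (16 * z / K) 2 K]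
    congr 1
    rw [hz]
    have : (8 * y / K) ^ 2 = (8 * |y| / K) ^ 2 := by
      rw [div_pow, div_pow, mul_pow, mul_pow, sq_abs]
    rw [this]
    congr 1
    ring
  rw [h3, mul_pow, ← Real.exp_nat_mul, mul_comm]
  congr 2
  push_cast
  ring

end Pool.Agent.K4H16.CG
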