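import Pool.Agent.K4H16.CG.MD1

/-!
# The Laplace transform in the model, and its comparison with a family
-/

set_option autoImplicit false

namespace Pool.Agent.K4H16.CG

open Finset

/-- elementary inequality for the exponential -/
lemma exp_two_sided (y : ℝ) (hy : |y| ≤ 1) :
    1 + y + y ^ 2 / 2 * (1 - |y|) ≤ Real.exp y ∧ Real.exp y ≤ 1 + y + y ^ 2 / 2 * (1 + |y|) := by
  have h1 := Real.exp_bound hy (n := 3) (by norm_num)
  have h3 : ∑ m ∈ range 3, y ^ m / (m.factorial : ℝ) = 1 + y + y ^ 2 / 2 := by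
    simp [sum_range_succ, Nat.factorial]
  rw [h3] at h1
  have h4 : |y| ^ 3 * (((Nat.succ 3 : ℕ) : ℝ) / ((Nat.factorial 3 : ℕ) * (3 : ℕ) : ℝ)) ≤ y ^ 2 / 2 * |y| := by
    have h5 : |y| ^ 3 = y ^ 2 * |y| := by
      rw [pow_succ, sq_abs]
    rw [h5]
    have h6 : 0 ≤ y ^ 2 * |y| := by positivity
    have h7 : ((Nat.succ 3 : ℕ) : ℝ) / ((Nat.factorial 3 : ℕ) * (3 : ℕ) : ℝ) ≤ 1 / 2 := by
      norm_num [Nat.factorial]
    calc y ^ 2 * |y| * (((Nat.succ 3 : ℕ) : ℝ) / ((Nat.factorial 3 : ℕ) * (3 : ℕ) : ℝ)) ≤ y ^ 2 * |y| * (1 / 2) := by gcongr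
      _ = y ^ 2 / 2 * |y| := by ring
  have h5 := abs_le.1 (h1.trans h4)
  constructor
  · linarith [h5.1]
  · linarith [h5.2]

variable {J : Type} [Fintype J] [DecidableEq J] {R : J → Type} [∀ j, Fintype (R j)] [∀ j, Nonempty (R j)]

omit [DecidableEq J] in
lemma avg_exp_bounds {R : Type} [Fintype R] [Nonempty R] (g : R → ℝ) (hg : ∀ b, |g b| ≤ 1) (h0 : avg g = 0) (w : ℝ) (hw : |w| ≤ 1) :
    1 + w ^ 2 / 2 * (1 - |w|) * avg (fun b => g b ^ 2) ≤ avg (fun b => Real.exp (w * g b)) ∧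
      avg (fun b => Real.exp (w * g b)) ≤ 1 + w ^ 2 / 2 * (1 + |w|) * avg (fun b => g b ^ 2) := by
  have hp0 : (0 : ℝ) < Fintype.card R := by exact_mod_cast Fintype.card_pos
  have hsum0 : ∑ b, g b = 0 := by
    unfold avg at h0
    rw [div_eq_zero_iff] at h0
    rcases h0 with h | h
    · exact h
    · exact absurd h hp0.ne'
  have hb : ∀ b, |w * g b| ≤ |w| := by
    intro b
    rw [abs_mul]
    have := hg b
    have h2 := abs_nonneg w
    nlinarith
  have key : ∀ c : ℝ, (∑ b : R, (1 + w * g b + c * g b ^ 2)) / (Fintype.card R : ℝ) = 1 + c * avg (fun b => g b ^ 2) := by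
    intro c
    rw [sum_add_distrib, sum_add_distrib, ← mul_sum, hsum0, ← mul_sum]
    unfold avg
    simp only [sum_const, card_univ, nsmul_eq_mul, mul_one, mul_zero, add_zero]
    field_simp
  constructor
  · rw [← key (w ^ 2 / 2 * (1 - |w|))]
    unfold avg
    gcongr with b _
    have h1 := (exp_two_sided (w * g b) ((hb b).trans hw)).1
    have h2 := hb b
    refine le_trans ?_ h1
    have h3 : 0 ≤ (w * g b) ^ 2 / 2 := by positivity
    have h4 : w ^ 2 / 2 * (1 - |w|) * g b ^ 2 = (w * g b) ^ 2 / 2 * (1 - |w|) := by ring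
    rw [h4]
    have h5 : (w * g b) ^ 2 / 2 * (1 - |w|) ≤ (w * g b) ^ 2 / 2 * (1 - |w * g b|) := by gcongr
    linarith
  · rw [← key (w ^ 2 / 2 * (1 + |w|))]
    unfold avg
    gcongr with b _
    have h1 := (exp_two_sided (w * g b) ((hb b).trans hw)).2
    have h2 := hb b
    refine le_trans h1 ?_
    have h3 : 0 ≤ (w * g b) ^ 2 / 2 := by positivity
    have h4 : w ^ 2 / 2 * (1 + |w|) * g b ^ 2 = (w * g b) ^ 2 / 2 * (1 + |w|) := by ring
    rw [h4]
    have h5 : (w * g b) ^ 2 / 2 * (1 + |w * g b|) ≤ (w * g b) ^ 2 / 2 * (1 + |w|) := by gcongr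
    linarith

lemma EE_exp (f : ∀ j, R j → ℝ) (w : ℝ) : EE (fun ω => Real.exp (w * SS f ω)) = ∏ j, avg (fun b => Real.exp (w * f j b)) := by
  unfold EE avg
  rw [prod_div_distrib, Fintype.card_pi]
  push_cast
  congr 1
  rw [Finset.prod_univ_sum, Fintype.piFinset_univ]
  refine sum_congr rfl fun ω _ => ?_
  unfold SS
  rw [mul_sum, Real.exp_sum]

/-- the Laplace transform in the model: upper bound -/
lemma EE_exp_le (f : ∀ j, R j → ℝ) (hf : ∀ j b, |f j b| ≤ 1) (h0 : ∀ j, avg (f j) = 0) (w : ℝ) (hw : |w| ≤ 1) :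
    EE (fun ω => Real.exp (w * SS f ω)) ≤ Real.exp (w ^ 2 / 2 * (1 + |w|) * VV f) := by
  rw [EE_exp]
  unfold VV
  rw [mul_sum, Real.exp_sum]
  apply prod_le_prod
  · intro j _
    unfold avg
    positivity
  · intro j _
    refine (avg_exp_bounds (f j) (hf j) (h0 j) w hw).2.trans ?_
    have := Real.add_one_le_exp (w ^ 2 / 2 * (1 + |w|) * avg (fun b => f j b ^ 2))
    linarith

lemma one_add_ge (z : ℝ) (hz : 0 ≤ z) : Real.exp (z * (1 - z)) ≤ 1 + z := by
  have h1 := Real.le_log_one_add_of_nonneg hz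
  have h2 : z * (1 - z) ≤ 2 * z / (z + 2) := by
    rw [le_div_iff₀ (by linarith)]
    nlinarith [mul_nonneg hz hz, mul_nonneg hz (mul_nonneg hz hz)]
  have h3 : z * (1 - z) ≤ Real.log (1 + z) := h2.trans h1
  calc Real.exp (z * (1 - z)) ≤ Real.exp (Real.log (1 + z)) := Real.exp_le_exp.2 h3
    _ = 1 + z := Real.exp_log (by linarith)

/-- the Laplace transform in the model: lower bound -/
lemma EE_exp_ge (f : ∀ j, R j → ℝ) (hf : ∀ j b, |f j b| ≤ 1) (h0 : ∀ j, avg (f j) = 0) (w : ℝ) (hw : |w| ≤ 1) :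
    Real.exp (w ^ 2 / 2 * (1 - 2 * |w|) * VV f) ≤ EE (fun ω => Real.exp (w * SS f ω)) := by
  rw [EE_exp]
  unfold VV
  rw [mul_sum, Real.exp_sum]
  apply prod_le_prod
  · intro j _
    exact (Real.exp_pos _).le
  · intro j _
    refine le_trans ?_ (avg_exp_bounds (f j) (hf j) (h0 j) w hw).1
    have hv0 := avg_sq_nonneg (f j)
    have hv1 := avg_sq_le_one (f j) (hf j)
    obtain ⟨v, hv⟩ : ∃ v : ℝ, v = avg (fun b => f j b ^ 2) := ⟨_, rfl⟩
    rw [← hv] at hv0 hv1 ⊢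
    have ha := abs_nonneg w
    have hww : w ^ 2 ≤ |w| := by
      rw [← sq_abs]
      nlinarith
    have hw0 := sq_nonneg w
    obtain ⟨z, hz⟩ : ∃ z : ℝ, z = w ^ 2 / 2 * (1 - |w|) * v := ⟨_, rfl⟩
    have hz0 : 0 ≤ z := by
      rw [hz]
      have : 0 ≤ 1 - |w| := by linarith
      positivity
    have hzw : z ≤ |w| := by
      rw [hz]
      have h1 : w ^ 2 / 2 * (1 - |w|) ≤ |w| := by nlinarith
      calc w ^ 2 / 2 * (1 - |w|) * v ≤ |w| * 1 := by
            apply mul_le_mul h1 hv1 hv0 ha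
        _ = |w| := mul_one _
    rw [← hz]
    refine le_trans ?_ (one_add_ge z hz0)
    apply Real.exp_le_exp.2
    have h2 : z * (1 - |w|) ≤ z * (1 - z) := by gcongr
    refine le_trans ?_ h2
    rw [hz]
    have h3 : w ^ 2 / 2 * (1 - 2 * |w|) * v ≤ w ^ 2 / 2 * ((1 - |w|) * (1 - |w|)) * v := by
      have : 1 - 2 * |w| ≤ (1 - |w|) * (1 - |w|) := by nlinarith
      gcongr
    linarith

/-- the square of the truncated exponential in the model -/
lemma EE_QK (f : ∀ j, R j → ℝ) (hf : ∀ j b, |f j b| ≤ 1) (h0 : ∀ j, avg (f j) = 0) (K : ℕ) (w : ℝ) (hw0 : 0 ≤ w) (hw : w ≤ 1 / 2) :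
    |EE (fun ω => QK K (w * SS f ω)) - EE (fun ω => Real.exp (w * SS f ω))| ≤ (1 / 2) ^ K * (2 * Real.exp (4 * w ^ 2 * VV f)) := by
  rw [← EE_sub]
  refine (EE_abs _).trans ?_
  have h1 : EE (fun ω => |QK K (w * SS f ω) - Real.exp (w * SS f ω)|) ≤
      EE (fun ω => (1 / 2) ^ K * (Real.exp ((2 * w) * SS f ω) + Real.exp ((-(2 * w)) * SS f ω))) := by
    apply EE_le
    intro ω
    refine (QK_close K _).trans ?_
    have h2 : Real.exp (2 * |w * SS f ω|) ≤ Real.exp ((2 * w) * SS f ω) + Real.exp ((-(2 * w)) * SS f ω) := by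
      rcases le_total 0 (w * SS f ω) with h | h
      · rw [abs_of_nonneg h]
        have : 2 * (w * SS f ω) = 2 * w * SS f ω := by ring
        rw [this]
        have := Real.exp_pos ((-(2 * w)) * SS f ω)
        linarith
      · rw [abs_of_nonpos h]
        have : 2 * -(w * SS f ω) = (-(2 * w)) * SS f ω := by ring
        rw [this]
        have := Real.exp_pos ((2 * w) * SS f ω)
        linarith
    gcongr
  refine h1.trans ?_
  rw [EE_mul]
  have h3 : EE (fun ω => Real.exp ((2 * w) * SS f ω) + Real.exp ((-(2 * w)) * SS f ω)) =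
      EE (fun ω => Real.exp ((2 * w) * SS f ω)) + EE (fun ω => Real.exp ((-(2 * w)) * SS f ω)) := by
    unfold EE
    rw [sum_add_distrib, add_div]
  rw [h3]
  have hab : |2 * w| ≤ 1 := by
    rw [abs_of_nonneg (by linarith)]
    linarith
  have h4 := EE_exp_le f hf h0 (2 * w) hab
  have h5 := EE_exp_le f hf h0 (-(2 * w)) (by rw [abs_neg]; exact hab)
  rw [abs_neg] at h5
  have hV0 : 0 ≤ VV f := by
    unfold VV
    exact sum_nonneg fun j _ => avg_sq_nonneg _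
  have h6 : Real.exp ((2 * w) ^ 2 / 2 * (1 + |2 * w|) * VV f) ≤ Real.exp (4 * w ^ 2 * VV f) := by
    apply Real.exp_le_exp.2
    have h7 : (2 * w) ^ 2 / 2 * (1 + |2 * w|) ≤ 4 * w ^ 2 := by nlinarith [sq_nonneg w]
    gcongr
  have h7 : (-(2 * w)) ^ 2 = (2 * w) ^ 2 := by ring
  rw [h7] at h5
  have h8 : EE (fun ω => Real.exp ((2 * w) * SS f ω)) + EE (fun ω => Real.exp ((-(2 * w)) * SS f ω)) ≤ 2 * Real.exp (4 * w ^ 2 * VV f) := by linarith
  gcongr

/-- the far range in the model -/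
lemma EE_far (f : ∀ j, R j → ℝ) (hf : ∀ j b, |f j b| ≤ 1) (h0 : ∀ j, avg (f j) = 0) (K : ℕ) (hK : 1 ≤ K) (u : ℝ) (hu0 : 0 < u) (hu : 64 * u ≤ 1) :
    EE (fun ω => (8 * (u * SS f ω) / K) ^ (2 * K)) ≤ (1 / 4) ^ (2 * K) * (2 * Real.exp (4096 * u ^ 2 * VV f)) := by
  have hKr : (1 : ℝ) ≤ K := by exact_mod_cast hK
  have hK0 : (0 : ℝ) < K := by linarith
  have h1 : ∀ ω : (∀ j, R j), (8 * (u * SS f ω) / K) ^ (2 * K) ≤ (1 / 4) ^ (2 * K) * (Real.exp ((64 * u) * SS f ω) + Real.exp ((-(64 * u)) * SS f ω)) := by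
    intro ω
    have h2 : (8 * (u * SS f ω) / K) ^ (2 * K) = (1 / 4) ^ (2 * K) * ((64 * u * SS f ω) ^ (2 * K) / (2 * K : ℝ) ^ (2 * K)) := by
      rw [← div_pow, ← mul_pow]
      congr 1
      field_simp
      ring
    have h3 : (64 * u * SS f ω) ^ (2 * K) / (2 * K : ℝ) ^ (2 * K) ≤ |64 * u * SS f ω| ^ (2 * K) / ((2 * K).factorial : ℝ) := by
      have h4 : (64 * u * SS f ω) ^ (2 * K) = |64 * u * SS f ω| ^ (2 * K) := by
        rw [pow_mul, pow_mul, sq_abs]
      rw [h4]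
      have h5 : ((2 * K).factorial : ℝ) ≤ (2 * K : ℝ) ^ (2 * K) := by exact_mod_cast Nat.factorial_le_pow (2 * K)
      have h6 : (0 : ℝ) < ((2 * K).factorial : ℝ) := by exact_mod_cast Nat.factorial_pos _
      gcongr
    have h4 : |64 * u * SS f ω| ^ (2 * K) / ((2 * K).factorial : ℝ) ≤ Real.exp |64 * u * SS f ω| := Real.pow_div_factorial_le_exp _ (abs_nonneg _) _
    have h5 : Real.exp |64 * u * SS f ω| ≤ Real.exp ((64 * u) * SS f ω) + Real.exp ((-(64 * u)) * SS f ω) := by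
      rcases le_total 0 (64 * u * SS f ω) with h | h
      · rw [abs_of_nonneg h]
        have := Real.exp_pos ((-(64 * u)) * SS f ω)
        linarith
      · rw [abs_of_nonpos h]
        have : -(64 * u * SS f ω) = (-(64 * u)) * SS f ω := by ring
        rw [this]
        have := Real.exp_pos ((64 * u) * SS f ω)
        linarith
    rw [h2]
    have h6 := h3.trans (h4.trans h5)
    gcongr
  refine (EE_le _ _ h1).trans ?_
  rw [EE_mul]
  have h3 : EE (fun ω => Real.exp ((64 * u) * SS f ω) + Real.exp ((-(64 * u)) * SS f ω)) =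
      EE (fun ω => Real.exp ((64 * u) * SS f ω)) + EE (fun ω => Real.exp ((-(64 * u)) * SS f ω)) := by
    unfold EE
    rw [sum_add_distrib, add_div]
  rw [h3]
  have hab : |64 * u| ≤ 1 := by
    rw [abs_of_nonneg (by linarith)]
    exact hu
  have h4 := EE_exp_le f hf h0 (64 * u) hab
  have h5 := EE_exp_le f hf h0 (-(64 * u)) (by rw [abs_neg]; exact hab)
  rw [abs_neg] at h5
  have hV0 : 0 ≤ VV f := by
    unfold VV
    exact sum_nonneg fun j _ => avg_sq_nonneg _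
  have h6 : Real.exp ((64 * u) ^ 2 / 2 * (1 + |64 * u|) * VV f) ≤ Real.exp (4096 * u ^ 2 * VV f) := by
    apply Real.exp_le_exp.2
    have h7 : (64 * u) ^ 2 / 2 * (1 + |64 * u|) ≤ 4096 * u ^ 2 := by nlinarith [sq_nonneg u]
    gcongr
  have h7 : (-(64 * u)) ^ 2 = (64 * u) ^ 2 := by ring
  rw [h7] at h5
  have h8 : EE (fun ω => Real.exp ((64 * u) * SS f ω)) + EE (fun ω => Real.exp ((-(64 * u)) * SS f ω)) ≤ 2 * Real.exp (4096 * u ^ 2 * VV f) := by linarith
  gcongr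

/-- powers over a family -/
lemma fam_pow {ι : Type} (s : Finset ι) (ρ : ι → ∀ j, R j) (D : ℕ) (δ : ℝ) (hδ : 0 ≤ δ) (heq : Equi s ρ D δ)
    (f : ∀ j, R j → ℝ) (hf : ∀ j b, |f j b| ≤ 1) (m : ℕ) (hm : m ≤ D) :
    |∑ i ∈ s, SS f (ρ i) ^ m - s.card * EE (fun ω => SS f ω ^ m)| ≤ (Fintype.card J : ℝ) ^ m * (δ * s.card) := by
  have h1 := family_moment s ρ m δ hδ (fun T hT h hh => heq T (hT.trans hm) h hh) f hf
  have e : (s.card : ℝ) / (Fintype.card (∀ j, R j) : ℝ) * ∑ ω : (∀ j, R j), SS f ω ^ m = s.card * EE (fun ω => SS f ω ^ m) := by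
    unfold EE
    ring
  rw [e] at h1
  exact h1

lemma QK_expand (K : ℕ) (u S : ℝ) : QK K (u * S) = ∑ a ∈ range (K + 1), ∑ b ∈ range (K + 1),
    (u / 2) ^ (a + b) / ((a.factorial : ℝ) * (b.factorial : ℝ)) * S ^ (a + b) := by
  unfold QK TK
  rw [pow_two, sum_mul_sum]
  refine sum_congr rfl fun a _ => sum_congr rfl fun b _ => ?_
  have : u * S / 2 = u / 2 * S := by ring
  rw [this, mul_pow, mul_pow, pow_add, pow_add, div_mul_div_comm]
  ring

/-- the square of the truncated exponential over a family -/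
lemma fam_QK {ι : Type} (s : Finset ι) (ρ : ι → ∀ j, R j) (K : ℕ) (δ : ℝ) (hδ : 0 ≤ δ) (heq : Equi s ρ (2 * K) δ)
    (f : ∀ j, R j → ℝ) (hf : ∀ j b, |f j b| ≤ 1) (u : ℝ) (hu0 : 0 ≤ u) (hu : u ≤ 1) :
    |∑ i ∈ s, QK K (u * SS f (ρ i)) - s.card * EE (fun ω => QK K (u * SS f ω))| ≤
      (1 + (Fintype.card J : ℝ)) ^ (2 * K) * (δ * s.card) := by
  have e1 : ∑ i ∈ s, QK K (u * SS f (ρ i)) = ∑ a ∈ range (K + 1), ∑ b ∈ range (K + 1),
    (u / 2) ^ (a + b) / ((a.factorial : ℝ) * (b.factorial : ℝ)) * ∑ i ∈ s, SS f (ρ i) ^ (a + b) := by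
    rw [sum_congr rfl fun i _ => QK_expand K u (SS f (ρ i)), sum_comm]
    refine sum_congr rfl fun a _ => ?_
    rw [sum_comm]
    refine sum_congr rfl fun b _ => ?_
    rw [mul_sum]
  have e2 : EE (fun ω => QK K (u * SS f ω)) = ∑ a ∈ range (K + 1), ∑ b ∈ range (K + 1),
    (u / 2) ^ (a + b) / ((a.factorial : ℝ) * (b.factorial : ℝ)) * EE (fun ω => SS f ω ^ (a + b)) := by
    have e : (fun ω : (∀ j, R j) => QK K (u * SS f ω)) = fun ω => ∑ a ∈ range (K + 1), ∑ b ∈ range (K + 1),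
      (u / 2) ^ (a + b) / ((a.factorial : ℝ) * (b.factorial : ℝ)) * SS f ω ^ (a + b) := by
      funext ω
      exact QK_expand K u (SS f ω)
    rw [e, EE_sum]
    refine sum_congr rfl fun a _ => ?_
    rw [EE_sum]
    refine sum_congr rfl fun b _ => EE_mul _ _
  rw [e1, e2, mul_sum, ← sum_sub_distrib]
  have h1 : ∀ a ∈ range (K + 1), |∑ b ∈ range (K + 1), (u / 2) ^ (a + b) / ((a.factorial : ℝ) * (b.factorial : ℝ)) * ∑ i ∈ s, SS f (ρ i) ^ (a + b) -
      s.card * ∑ b ∈ range (K + 1), (u / 2) ^ (a + b) / ((a.factorial : ℝ) * (b.factorial : ℝ)) * EE (fun ω => SS f ω ^ (a + b))| ≤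
      ∑ b ∈ range (K + 1), ((Fintype.card J : ℝ) ^ a / (a.factorial : ℝ)) * ((Fintype.card J : ℝ) ^ b / (b.factorial : ℝ)) * (δ * s.card) := by
    intro a ha
    rw [mem_range] at ha
    rw [mul_sum, ← sum_sub_distrib]
    refine (abs_sum_le_sum_abs _ _).trans (sum_le_sum fun b hb => ?_)
    rw [mem_range] at hb
    have h2 := fam_pow s ρ (2 * K) δ hδ heq f hf (a + b) (by omega)
    have e3 : (u / 2) ^ (a + b) / ((a.factorial : ℝ) * (b.factorial : ℝ)) * ∑ i ∈ s, SS f (ρ i) ^ (a + b) -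
        s.card * ((u / 2) ^ (a + b) / ((a.factorial : ℝ) * (b.factorial : ℝ)) * EE (fun ω => SS f ω ^ (a + b))) =
        (u / 2) ^ (a + b) / ((a.factorial : ℝ) * (b.factorial : ℝ)) * (∑ i ∈ s, SS f (ρ i) ^ (a + b) - s.card * EE (fun ω => SS f ω ^ (a + b))) := by ring
    rw [e3, abs_mul]
    have h3 : |(u / 2) ^ (a + b) / ((a.factorial : ℝ) * (b.factorial : ℝ))| ≤ 1 / ((a.factorial : ℝ) * (b.factorial : ℝ)) := by
      rw [abs_of_nonneg (by positivity)]
      have : (u / 2) ^ (a + b) ≤ 1 := pow_le_one₀ (by linarith) (by linarith)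
      gcongr
    calc |(u / 2) ^ (a + b) / ((a.factorial : ℝ) * (b.factorial : ℝ))| * |∑ i ∈ s, SS f (ρ i) ^ (a + b) - s.card * EE (fun ω => SS f ω ^ (a + b))|
        ≤ 1 / ((a.factorial : ℝ) * (b.factorial : ℝ)) * ((Fintype.card J : ℝ) ^ (a + b) * (δ * s.card)) := by gcongr
      _ = _ := by
          rw [pow_add]
          field_simp
  refine (abs_sum_le_sum_abs _ _).trans ((sum_le_sum h1).trans ?_)
  have e4 : ∑ a ∈ range (K + 1), ∑ b ∈ range (K + 1), ((Fintype.card J : ℝ) ^ a / (a.factorial : ℝ)) * ((Fintype.card J : ℝ) ^ b / (b.factorial : ℝ)) * (δ * s.card) =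
      TK K (Fintype.card J : ℝ) ^ 2 * (δ * s.card) := by
    unfold TK
    rw [pow_two, sum_mul_sum, sum_mul]
    refine sum_congr rfl fun a _ => ?_
    rw [sum_mul]
  rw [e4]
  have h2 := TK_le_pow K (Fintype.card J : ℝ) (Nat.cast_nonneg _)
  have h3 := TK_nonneg K (Fintype.card J : ℝ) (Nat.cast_nonneg _)
  rw [mul_comm 2 K, pow_mul]
  gcongr

end Pool.Agent.K4H16.CG
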