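import Pool.Agent.K4H16.CG.MD2

/-!
# Moderate deviations
-/

set_option autoImplicit false

namespace Pool.Agent.K4H16.CG

open Finset

/-- numbers -/
lemma num1 (K : ℕ) (hK : 8 ≤ K) (L : ℝ) (hKL : 4096 * L ≤ K) :
    (1 / 2 : ℝ) ^ K * (2 * Real.exp (16 * L)) ≤ 1 / 4 := by
  have h1 : Real.exp (16 * L) ≤ Real.exp (1 / 256) ^ K := by
    rw [← Real.exp_nat_mul]
    apply Real.exp_le_exp.2
    linarith
  have h2 : Real.exp (1 / 256) ≤ 5 / 4 := by
    have h3 : Real.exp (1 / 256) ≤ Real.exp (1 / 8) := Real.exp_le_exp.2 (by norm_num)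
    have h4 : Real.exp (1 / 8) ^ 8 ≤ (5 / 4) ^ 8 := by
      have h9 : Real.exp (1 / 8) ^ 8 = Real.exp 1 := by
        rw [← Real.exp_nat_mul]
        congr 1
        norm_num
      rw [h9]
      have h12 := Real.exp_one_lt_d9
      refine h12.le.trans ?_
      norm_num
    have h5 : Real.exp (1 / 8) ≤ 5 / 4 := le_of_pow_le_pow_left₀ (by norm_num) (by norm_num) h4
    linarith
  calc (1 / 2 : ℝ) ^ K * (2 * Real.exp (16 * L)) ≤ (1 / 2 : ℝ) ^ K * (2 * (5 / 4) ^ K) := by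
        have h3 : Real.exp (1 / 256) ^ K ≤ (5 / 4) ^ K := by
          have := Real.exp_pos (1 / 256)
          gcongr
        have := h1.trans h3
        gcongr
    _ = 2 * (5 / 8) ^ K := by
        rw [mul_left_comm, ← mul_pow]
        norm_num
    _ ≤ 2 * (5 / 8) ^ 8 := by
        have : (5 / 8 : ℝ) ^ K ≤ (5 / 8) ^ 8 := pow_le_pow_of_le_one (by norm_num) (by norm_num) hK
        linarith
    _ ≤ 1 / 4 := by norm_num

lemma num2 (K : ℕ) (hK : 8 ≤ K) (L : ℝ) (hKL : 4096 * L ≤ K) :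
    Real.exp (K / 8) * ((1 / 4 : ℝ) ^ (2 * K) * (2 * Real.exp (4096 * L))) ≤ 1 / 4 := by
  have h1 : Real.exp (K / 8) * Real.exp (4096 * L) ≤ 4 ^ K := by
    rw [← Real.exp_add]
    have h2 : Real.exp (K / 8 + 4096 * L) ≤ Real.exp (9 / 8) ^ K := by
      rw [← Real.exp_nat_mul]
      apply Real.exp_le_exp.2
      linarith
    have h3 : Real.exp (9 / 8) ≤ 4 := by
      have h4 : Real.exp (9 / 8) ^ 8 ≤ 4 ^ 8 := by
        have h9 : Real.exp (9 / 8) ^ 8 = Real.exp 1 ^ 9 := by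
          rw [← Real.exp_nat_mul, ← Real.exp_nat_mul]
          congr 1
          norm_num
        rw [h9]
        have h12 := Real.exp_one_lt_d9
        have h13 : Real.exp 1 ^ 9 ≤ (2.7182818286 : ℝ) ^ 9 := by
          gcongr
        refine h13.trans ?_
        norm_num
      exact le_of_pow_le_pow_left₀ (by norm_num) (by norm_num) h4
    have := Real.exp_pos (9 / 8)
    exact h2.trans (by gcongr)
  calc Real.exp (K / 8) * ((1 / 4 : ℝ) ^ (2 * K) * (2 * Real.exp (4096 * L))) =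
        2 * (1 / 4 : ℝ) ^ (2 * K) * (Real.exp (K / 8) * Real.exp (4096 * L)) := by ring
    _ ≤ 2 * (1 / 4 : ℝ) ^ (2 * K) * 4 ^ K := by gcongr
    _ = 2 * (1 / 4) ^ K := by
        rw [pow_mul, mul_assoc, ← mul_pow]
        norm_num
    _ ≤ 2 * (1 / 4) ^ 8 := by
        have : (1 / 4 : ℝ) ^ K ≤ (1 / 4) ^ 8 := pow_le_pow_of_le_one (by norm_num) (by norm_num) hK
        linarith
    _ ≤ 1 / 4 := by norm_num

variable {J : Type} [Fintype J] [DecidableEq J] {R : J → Type} [∀ j, Fintype (R j)] [∀ j, Nonempty (R j)]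

lemma VV_nonneg (f : ∀ j, R j → ℝ) : 0 ≤ VV f := by
  unfold VV
  exact sum_nonneg fun j _ => avg_sq_nonneg _

/-- the mean over the family of the square of the truncated exponential: upper bound -/
lemma fam_up {ι : Type} (s : Finset ι) (ρ : ι → ∀ j, R j) (K : ℕ) (hK : 8 ≤ K) (δ : ℝ) (hδ : 0 ≤ δ) (heq : Equi s ρ (2 * K) δ)
    (hJ : (1 + (Fintype.card J : ℝ)) ^ (2 * K) * δ ≤ 1 / 4)
    (f : ∀ j, R j → ℝ) (hf : ∀ j b, |f j b| ≤ 1) (h0 : ∀ j, avg (f j) = 0) (w : ℝ) (hw0 : 0 ≤ w) (hw : w ≤ 1 / 2)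
    (L : ℝ) (hL : w ^ 2 * VV f ≤ 4 * L) (hKL : 4096 * L ≤ K) :
    ∑ i ∈ s, QK K (w * SS f (ρ i)) ≤ s.card * (2 * Real.exp (w ^ 2 / 2 * (1 + w) * VV f)) := by
  have h1 := fam_QK s ρ K δ hδ heq f hf w hw0 (by linarith)
  have h2 := EE_QK f hf h0 K w hw0 hw
  have h3 := EE_exp_le f hf h0 w (by rw [abs_of_nonneg hw0]; linarith)
  rw [abs_of_nonneg hw0] at h3
  have hs : (0 : ℝ) ≤ s.card := Nat.cast_nonneg _
  have h4 : (1 + (Fintype.card J : ℝ)) ^ (2 * K) * (δ * s.card) ≤ 1 / 4 * s.card := by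
    rw [← mul_assoc]
    gcongr
  have h5 : (1 / 2 : ℝ) ^ K * (2 * Real.exp (4 * w ^ 2 * VV f)) ≤ 1 / 4 := by
    refine le_trans ?_ (num1 K hK L hKL)
    have : Real.exp (4 * w ^ 2 * VV f) ≤ Real.exp (16 * L) := by
      apply Real.exp_le_exp.2
      linarith
    gcongr
  have h6 : EE (fun ω => QK K (w * SS f ω)) ≤ Real.exp (w ^ 2 / 2 * (1 + w) * VV f) + 1 / 4 := by
    have := (abs_le.1 h2).2
    linarith
  have h7 : (1 : ℝ) ≤ Real.exp (w ^ 2 / 2 * (1 + w) * VV f) := by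
    apply Real.one_le_exp
    have := VV_nonneg f
    positivity
  have h8 := (abs_le.1 h1).2
  have h9 : (s.card : ℝ) * EE (fun ω => QK K (w * SS f ω)) ≤ s.card * (Real.exp (w ^ 2 / 2 * (1 + w) * VV f) + 1 / 4) := by gcongr
  have h10 : (s.card : ℝ) * 1 ≤ s.card * Real.exp (w ^ 2 / 2 * (1 + w) * VV f) := by gcongr
  linarith

/-- the mean over the family of the square of the truncated exponential: lower bound -/
lemma fam_low {ι : Type} (s : Finset ι) (ρ : ι → ∀ j, R j) (K : ℕ) (hK : 8 ≤ K) (δ : ℝ) (hδ : 0 ≤ δ) (heq : Equi s ρ (2 * K) δ)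
    (hJ : (1 + (Fintype.card J : ℝ)) ^ (2 * K) * δ ≤ 1 / 4)
    (f : ∀ j, R j → ℝ) (hf : ∀ j b, |f j b| ≤ 1) (h0 : ∀ j, avg (f j) = 0) (w : ℝ) (hw0 : 0 ≤ w) (hw : w ≤ 1 / 2)
    (L : ℝ) (hL : w ^ 2 * VV f ≤ 4 * L) (hKL : 4096 * L ≤ K) :
    s.card * (Real.exp (w ^ 2 / 2 * (1 - 2 * w) * VV f) - 1 / 2) ≤ ∑ i ∈ s, QK K (w * SS f (ρ i)) := by
  have h1 := fam_QK s ρ K δ hδ heq f hf w hw0 (by linarith)
  have h2 := EE_QK f hf h0 K w hw0 hw
  have h3 := EE_exp_ge f hf h0 w (by rw [abs_of_nonneg hw0]; linarith)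
  rw [abs_of_nonneg hw0] at h3
  have hs : (0 : ℝ) ≤ s.card := Nat.cast_nonneg _
  have h4 : (1 + (Fintype.card J : ℝ)) ^ (2 * K) * (δ * s.card) ≤ 1 / 4 * s.card := by
    rw [← mul_assoc]
    gcongr
  have h5 : (1 / 2 : ℝ) ^ K * (2 * Real.exp (4 * w ^ 2 * VV f)) ≤ 1 / 4 := by
    refine le_trans ?_ (num1 K hK L hKL)
    have : Real.exp (4 * w ^ 2 * VV f) ≤ Real.exp (16 * L) := by
      apply Real.exp_le_exp.2
      linarith
    gcongr
  have h6 : Real.exp (w ^ 2 / 2 * (1 - 2 * w) * VV f) - 1 / 4 ≤ EE (fun ω => QK K (w * SS f ω)) := by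
    have := (abs_le.1 h2).1
    linarith
  have h8 := (abs_le.1 h1).1
  have h9 : (s.card : ℝ) * (Real.exp (w ^ 2 / 2 * (1 - 2 * w) * VV f) - 1 / 4) ≤ s.card * EE (fun ω => QK K (w * SS f ω)) := by gcongr
  linarith

open Classical in
/-- upper bound for the tail -/
lemma tail_up {ι : Type} (s : Finset ι) (ρ : ι → ∀ j, R j) (K : ℕ) (hK : 8 ≤ K) (δ : ℝ) (hδ : 0 ≤ δ) (heq : Equi s ρ (2 * K) δ)
    (hJ : (1 + (Fintype.card J : ℝ)) ^ (2 * K) * δ ≤ 1 / 4)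
    (f : ∀ j, R j → ℝ) (hf : ∀ j b, |f j b| ≤ 1) (h0 : ∀ j, avg (f j) = 0) (u : ℝ) (hu0 : 0 < u) (hu : u ≤ 1 / 2)
    (hKL : 4096 * (u ^ 2 * VV f) ≤ K) :
    ((s.filter (fun i => u * VV f ≤ SS f (ρ i))).card : ℝ) ≤ 4 * Real.exp (-(u ^ 2 * VV f / 2 * (1 - u))) * s.card := by
  have hV := VV_nonneg f
  obtain ⟨L, hL⟩ : ∃ L : ℝ, L = u ^ 2 * VV f := ⟨_, rfl⟩
  have hL0 : 0 ≤ L := by rw [hL]; positivity
  rw [← hL] at hKL ⊢
  have h1 := fam_up s ρ K hK δ hδ heq hJ f hf h0 u hu0.le hu L (by rw [← hL]; linarith) hKL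
  have h2 : ((s.filter (fun i => u * VV f ≤ SS f (ρ i))).card : ℝ) * (Real.exp L / 2) ≤ ∑ i ∈ s, QK K (u * SS f (ρ i)) := by
    calc ((s.filter (fun i => u * VV f ≤ SS f (ρ i))).card : ℝ) * (Real.exp L / 2)
        = ∑ i ∈ s.filter (fun i => u * VV f ≤ SS f (ρ i)), Real.exp L / 2 := by rw [sum_const, nsmul_eq_mul]
      _ ≤ ∑ i ∈ s.filter (fun i => u * VV f ≤ SS f (ρ i)), QK K (u * SS f (ρ i)) := by
          apply sum_le_sum
          intro i hi
          rw [mem_filter] at hi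
          have h3 : L ≤ u * SS f (ρ i) := by
            rw [hL]
            have : u ^ 2 * VV f = u * (u * VV f) := by ring
            rw [this]
            gcongr
            exact hi.2
          have h4 := QK_mono K L (u * SS f (ρ i)) hL0 h3
          have h5 := (QK_main K hK L (by rw [abs_of_nonneg hL0]; linarith)).2
          linarith
      _ ≤ ∑ i ∈ s, QK K (u * SS f (ρ i)) := sum_le_sum_of_subset_of_nonneg (filter_subset _ _) fun i _ _ => QK_nonneg _ _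
  have h3 : u ^ 2 / 2 * (1 + u) * VV f = L / 2 * (1 + u) := by rw [hL]; ring
  rw [h3] at h1
  have hE := Real.exp_pos L
  have h4 : 4 * Real.exp (-(L / 2 * (1 - u))) * s.card * (Real.exp L / 2) = s.card * (2 * Real.exp (L / 2 * (1 + u))) := by
    have : Real.exp (L / 2 * (1 + u)) = Real.exp (-(L / 2 * (1 - u))) * Real.exp L := by
      rw [← Real.exp_add]
      congr 1
      ring
    rw [this]
    ring
  have h5 : ((s.filter (fun i => u * VV f ≤ SS f (ρ i))).card : ℝ) * (Real.exp L / 2) ≤ 4 * Real.exp (-(L / 2 * (1 - u))) * s.card * (Real.exp L / 2) := by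
    rw [h4]
    exact h2.trans h1
  exact le_of_mul_le_mul_right h5 (by positivity)

/-- the pointwise inequality for the lower bound -/
lemma pointwise (K : ℕ) (hK : 8 ≤ K) (u v T S₁ S : ℝ) (hu0 : 0 < u) (hv0 : 0 ≤ v) (hvu : v ≤ u) (hT0 : 0 ≤ T) (hTS : T ≤ S₁) :
    QK K (u * S) ≤ (if T ≤ S then 2 * Real.exp (u * S₁) else 0) + 4 * Real.exp (v * T) * QK K ((u - v) * S) +
      4 * Real.exp (-(v * S₁)) * QK K ((u + v) * S) + Real.exp (K / 8) * (8 * (u * S) / K) ^ (2 * K) := by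
  have h1 : 0 ≤ (if T ≤ S then 2 * Real.exp (u * S₁) else 0) := by
    split_ifs
    · positivity
    · exact le_rfl
  have h2 : 0 ≤ 4 * Real.exp (v * T) * QK K ((u - v) * S) := by
    have := QK_nonneg K ((u - v) * S)
    positivity
  have h3 : 0 ≤ 4 * Real.exp (-(v * S₁)) * QK K ((u + v) * S) := by
    have := QK_nonneg K ((u + v) * S)
    positivity
  have h4 : 0 ≤ Real.exp (K / 8) * (8 * (u * S) / K) ^ (2 * K) := by
    rw [pow_mul]
    positivity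
  rcases lt_or_ge ((K : ℝ) / 8) |u * S| with hfar | hnear
  · have := QK_far K (by omega) (u * S) hfar
    linarith
  · have hab : |u * S| = u * |S| := by rw [abs_mul, abs_of_pos hu0]
    rw [hab] at hnear
    have hS0 := abs_nonneg S
    have hK0 : (0 : ℝ) ≤ K := Nat.cast_nonneg _
    have hm := (QK_main K hK (u * S) (by rw [hab]; linarith)).1
    have hminus := (QK_main K hK ((u - v) * S) (by
      rw [abs_mul, abs_of_nonneg (by linarith : 0 ≤ u - v)]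
      have : (u - v) * |S| ≤ u * |S| := by gcongr; linarith
      linarith)).2
    have hplus := (QK_main K hK ((u + v) * S) (by
      rw [abs_mul, abs_of_nonneg (by linarith : 0 ≤ u + v)]
      have : (u + v) * |S| ≤ (2 * u) * |S| := by gcongr; linarith
      linarith)).2
    by_cases hc : T ≤ S
    · rw [if_pos hc] at h1 ⊢
      by_cases hc' : S ≤ S₁
      · have h5 : Real.exp (u * S) ≤ Real.exp (u * S₁) := by
          apply Real.exp_le_exp.2
          gcongr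
        linarith
      · push Not at hc'
        have h5 : Real.exp (u * S) ≤ Real.exp (-(v * S₁)) * Real.exp ((u + v) * S) := by
          rw [← Real.exp_add]
          apply Real.exp_le_exp.2
          have : v * S₁ ≤ v * S := by gcongr
          linarith
        have h6 : Real.exp (-(v * S₁)) * Real.exp ((u + v) * S) ≤ Real.exp (-(v * S₁)) * (2 * QK K ((u + v) * S)) := by gcongr
        linarith
    · push Not at hc
      have h5 : Real.exp (u * S) ≤ Real.exp (v * T) * Real.exp ((u - v) * S) := by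
        rw [← Real.exp_add]
        apply Real.exp_le_exp.2
        have : v * S ≤ v * T := by gcongr
        linarith
      have h6 : Real.exp (v * T) * Real.exp ((u - v) * S) ≤ Real.exp (v * T) * (2 * QK K ((u - v) * S)) := by gcongr
      linarith

open Classical in
/-- lower bound for the tail -/
lemma tail_low {ι : Type} (s : Finset ι) (ρ : ι → ∀ j, R j) (K : ℕ) (hK : 8 ≤ K) (δ : ℝ) (hδ : 0 ≤ δ) (heq : Equi s ρ (2 * K) δ)
    (hJ : (1 + (Fintype.card J : ℝ)) ^ (2 * K) * δ ≤ 1 / 4)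
    (f : ∀ j, R j → ℝ) (hf : ∀ j b, |f j b| ≤ 1) (h0 : ∀ j, avg (f j) = 0) (γ : ℝ) (hγ0 : 0 < γ) (hγ : γ ≤ 1 / 4)
    (u : ℝ) (hu0 : 0 < u) (hu : 64 * u ≤ 2 * γ ^ 2) (hL64 : 64 ≤ γ ^ 2 * (u ^ 2 * VV f))
    (hKL : 4096 * (u ^ 2 * VV f) ≤ K) :
    1 / 4 * Real.exp (-(u ^ 2 * VV f / 2 * (1 + 2 * u + 2 * γ))) * s.card ≤
      ((s.filter (fun i => u * VV f / (1 + γ) ≤ SS f (ρ i))).card : ℝ) := by
  have hV := VV_nonneg f
  have hγ1 : 0 < 1 + γ := by linarith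
  have hγ2 : γ ^ 2 ≤ 1 / 16 := by nlinarith
  have hγ2' : 0 < γ ^ 2 := by positivity
  obtain ⟨L, hL⟩ : ∃ L : ℝ, L = u ^ 2 * VV f := ⟨_, rfl⟩
  rw [← hL] at hKL hL64 ⊢
  have hL0 : 0 < L := by
    by_contra hcon
    push Not at hcon
    nlinarith
  have hL1000 : 1024 ≤ L := by nlinarith
  have hu2 : u ≤ 1 / 2 := by nlinarith
  obtain ⟨v, hv⟩ : ∃ v : ℝ, v = γ / 2 * u := ⟨_, rfl⟩
  have hv0 : 0 ≤ v := by rw [hv]; positivity
  have hvu : v ≤ u := by rw [hv]; nlinarith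
  obtain ⟨T, hT⟩ : ∃ T : ℝ, T = u * VV f / (1 + γ) := ⟨_, rfl⟩
  obtain ⟨S₁, hS₁⟩ : ∃ S₁ : ℝ, S₁ = (1 + γ) * (u * VV f) := ⟨_, rfl⟩
  have hT0 : 0 ≤ T := by rw [hT]; positivity
  have hTS : T ≤ S₁ := by
    rw [hT, hS₁]
    have h1 : 0 ≤ u * VV f := by positivity
    calc u * VV f / (1 + γ) ≤ u * VV f := div_le_self h1 (by linarith)
      _ ≤ (1 + γ) * (u * VV f) := le_mul_of_one_le_left h1 (by linarith)
  rw [← hT]
  have hs : (0 : ℝ) ≤ s.card := Nat.cast_nonneg _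
  obtain ⟨N, hN⟩ : ∃ N : ℝ, N = s.card := ⟨_, rfl⟩
  obtain ⟨c, hc⟩ : ∃ c : ℝ, c = ((s.filter (fun i => T ≤ SS f (ρ i))).card : ℝ) := ⟨_, rfl⟩
  -- the main sum
  have hlow := fam_low s ρ K hK δ hδ heq hJ f hf h0 u hu0.le hu2 L (by rw [← hL]; linarith) hKL
  have hupm := fam_up s ρ K hK δ hδ heq hJ f hf h0 (u - v) (by linarith) (by linarith) L (by
    have : (u - v) ^ 2 * VV f ≤ u ^ 2 * VV f := by
      have : (u - v) ^ 2 ≤ u ^ 2 := by nlinarith
      gcongr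
    rw [← hL] at this
    linarith) hKL
  have hupp := fam_up s ρ K hK δ hδ heq hJ f hf h0 (u + v) (by linarith) (by nlinarith) L (by
    have : (u + v) ^ 2 * VV f ≤ (2 * u) ^ 2 * VV f := by
      have : (u + v) ^ 2 ≤ (2 * u) ^ 2 := by nlinarith
      gcongr
    have e : (2 * u) ^ 2 * VV f = 4 * L := by rw [hL]; ring
    rw [e] at this
    linarith) hKL
  rw [← hN] at hlow hupm hupp ⊢
  -- the far range
  have hfar : ∑ i ∈ s, Real.exp (K / 8) * (8 * (u * SS f (ρ i)) / K) ^ (2 * K) ≤ 1 / 2 * N := by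
    have hKr : (8 : ℝ) ≤ K := by exact_mod_cast hK
    have h1 := EE_far f hf h0 K (by omega) u hu0 (by nlinarith)
    have h2 := fam_pow s ρ (2 * K) δ hδ heq f hf (2 * K) le_rfl
    rw [← hN] at h2
    have e1 : ∀ S : ℝ, (8 * (u * S) / K) ^ (2 * K) = (8 * u / K) ^ (2 * K) * S ^ (2 * K) := by
      intro S
      rw [← mul_pow]
      congr 1
      ring
    have e2 : EE (fun ω => (8 * (u * SS f ω) / K) ^ (2 * K)) = (8 * u / K) ^ (2 * K) * EE (fun ω => SS f ω ^ (2 * K)) := by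
      rw [← EE_mul]
      congr 1
      funext ω
      exact e1 _
    rw [e2] at h1
    rw [← mul_sum, sum_congr rfl fun i _ => e1 (SS f (ρ i)), ← mul_sum]
    have h3 := (abs_le.1 h2).2
    have h4 : ∑ i ∈ s, SS f (ρ i) ^ (2 * K) ≤ N * EE (fun ω => SS f ω ^ (2 * K)) + (Fintype.card J : ℝ) ^ (2 * K) * (δ * N) := by linarith
    have hq : 0 ≤ (8 * u / K) ^ (2 * K) := by positivity
    have hN0 : 0 ≤ N := by rw [hN]; exact hs
    have h5 : Real.exp (K / 8) * ((8 * u / K) ^ (2 * K) * ((Fintype.card J : ℝ) ^ (2 * K) * (δ * N))) ≤ 1 / 4 * N := by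
      have h6 : Real.exp (K / 8) * (8 * u / K) ^ (2 * K) ≤ 1 := by
        have h7 : 8 * u / K ≤ 1 / 4 := by
          rw [div_le_iff₀ (by linarith)]
          linarith
        have h8 : Real.exp (K / 8) ≤ 4 ^ K := by
          have h9 : Real.exp (K / 8) = Real.exp (1 / 8) ^ K := by
            rw [← Real.exp_nat_mul]
            congr 1
            ring
          rw [h9]
          have h10 : Real.exp (1 / 8) ≤ 4 := by
            have h11 : Real.exp (1 / 8) ≤ Real.exp 1 := Real.exp_le_exp.2 (by norm_num)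
            have := Real.exp_one_lt_d9
            linarith
          have := Real.exp_pos (1 / 8)
          gcongr
        calc Real.exp (K / 8) * (8 * u / K) ^ (2 * K) ≤ 4 ^ K * (1 / 4) ^ (2 * K) := by gcongr
          _ = (1 / 4) ^ K := by
              rw [pow_mul, ← mul_pow]
              norm_num
          _ ≤ 1 := pow_le_one₀ (by norm_num) (by norm_num)
      have h7 : (Fintype.card J : ℝ) ^ (2 * K) * δ ≤ 1 / 4 := by
        refine le_trans ?_ hJ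
        have : (Fintype.card J : ℝ) ≤ 1 + Fintype.card J := by linarith
        gcongr
      calc Real.exp (K / 8) * ((8 * u / K) ^ (2 * K) * ((Fintype.card J : ℝ) ^ (2 * K) * (δ * N)))
          = (Real.exp (K / 8) * (8 * u / K) ^ (2 * K)) * ((Fintype.card J : ℝ) ^ (2 * K) * δ) * N := by ring
        _ ≤ 1 * (1 / 4) * N := by gcongr
        _ = 1 / 4 * N := by ring
    have h6 : Real.exp (K / 8) * ((8 * u / K) ^ (2 * K) * (N * EE (fun ω => SS f ω ^ (2 * K)))) ≤ 1 / 4 * N := by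
      have h7 := num2 K hK L hKL
      have e3 : 4096 * u ^ 2 * VV f = 4096 * L := by rw [hL]; ring
      rw [e3] at h1
      calc Real.exp (K / 8) * ((8 * u / K) ^ (2 * K) * (N * EE (fun ω => SS f ω ^ (2 * K))))
          = Real.exp (K / 8) * ((8 * u / K) ^ (2 * K) * EE (fun ω => SS f ω ^ (2 * K))) * N := by ring
        _ ≤ Real.exp (K / 8) * ((1 / 4) ^ (2 * K) * (2 * Real.exp (4096 * L))) * N := by gcongr
        _ ≤ 1 / 4 * N := by gcongr
    calc Real.exp (K / 8) * ((8 * u / K) ^ (2 * K) * ∑ i ∈ s, SS f (ρ i) ^ (2 * K))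
        ≤ Real.exp (K / 8) * ((8 * u / K) ^ (2 * K) * (N * EE (fun ω => SS f ω ^ (2 * K)) + (Fintype.card J : ℝ) ^ (2 * K) * (δ * N))) := by gcongr
      _ = Real.exp (K / 8) * ((8 * u / K) ^ (2 * K) * (N * EE (fun ω => SS f ω ^ (2 * K)))) +
          Real.exp (K / 8) * ((8 * u / K) ^ (2 * K) * ((Fintype.card J : ℝ) ^ (2 * K) * (δ * N))) := by ring
      _ ≤ 1 / 2 * N := by linarith
  -- the decomposition
  have hdec : ∑ i ∈ s, QK K (u * SS f (ρ i)) ≤ c * (2 * Real.exp (u * S₁)) + 4 * Real.exp (v * T) * ∑ i ∈ s, QK K ((u - v) * SS f (ρ i)) +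
      4 * Real.exp (-(v * S₁)) * ∑ i ∈ s, QK K ((u + v) * SS f (ρ i)) + 1 / 2 * N := by
    have h1 := sum_le_sum (s := s) fun i (_ : i ∈ s) => pointwise K hK u v T S₁ (SS f (ρ i)) hu0 hv0 hvu hT0 hTS
    rw [sum_add_distrib, sum_add_distrib, sum_add_distrib, ← mul_sum, ← mul_sum, ← sum_filter, sum_const, nsmul_eq_mul, ← hc] at h1
    linarith
  have hN0 : 0 ≤ N := by rw [hN]; exact hs
  have hc0 : 0 ≤ c := by rw [hc]; exact Nat.cast_nonneg _
  -- the exponents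
  obtain ⟨E, hE⟩ : ∃ E : ℝ, E = Real.exp (L / 2 * (1 - 2 * u)) := ⟨_, rfl⟩
  have hE0 : 0 < E := by rw [hE]; exact Real.exp_pos _
  have hsmall : Real.exp (-(L * γ ^ 2 / 8)) ≤ 1 / 256 := by
    have h1 : Real.exp (-(L * γ ^ 2 / 8)) ≤ Real.exp (-8) := by
      apply Real.exp_le_exp.2
      nlinarith
    have h2 : Real.exp (-8) ≤ 1 / 256 := by
      rw [Real.exp_neg, one_div]
      apply inv_anti₀ (by norm_num)
      have h3 : Real.exp 8 = Real.exp 1 ^ 8 := by rw [← Real.exp_nat_mul]; norm_num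
      rw [h3]
      have h4 := Real.add_one_le_exp (1 : ℝ)
      calc (256 : ℝ) = 2 ^ 8 := by norm_num
        _ ≤ Real.exp 1 ^ 8 := by
            gcongr
            linarith
    linarith
  have hEbig : 64 ≤ E := by
    have h1 : (64 : ℝ) ≤ L / 2 * (1 - 2 * u) := by
      have : u ≤ 1 / 8 := by nlinarith
      nlinarith
    have h2 := Real.add_one_le_exp (L / 2 * (1 - 2 * u))
    rw [hE]
    linarith
  have hA : Real.exp (v * T) * Real.exp ((u - v) ^ 2 / 2 * (1 + (u - v)) * VV f) ≤ E * (1 / 256) := by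
    refine le_trans ?_ (mul_le_mul_of_nonneg_left hsmall hE0.le)
    rw [← Real.exp_add, hE, ← Real.exp_add]
    apply Real.exp_le_exp.2
    have e1 : v * T = L * (γ / 2 / (1 + γ)) := by
      rw [hv, hT, hL]
      field_simp
    have e2 : (u - v) ^ 2 / 2 * (1 + (u - v)) * VV f ≤ L / 2 * ((1 - γ / 2) ^ 2 * (1 + u)) := by
      have h1 : (u - v) ^ 2 = u ^ 2 * (1 - γ / 2) ^ 2 := by rw [hv]; ring
      rw [h1]
      calc u ^ 2 * (1 - γ / 2) ^ 2 / 2 * (1 + (u - v)) * VV f = (u ^ 2 * VV f) / 2 * ((1 - γ / 2) ^ 2 * (1 + (u - v))) := by ring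
        _ ≤ (u ^ 2 * VV f) / 2 * ((1 - γ / 2) ^ 2 * (1 + u)) := by
            have : 1 + (u - v) ≤ 1 + u := by linarith
            gcongr
        _ = _ := by rw [← hL]
    have e3 : γ / 2 / (1 + γ) ≤ (γ - γ ^ 2 + γ ^ 3) / 2 := by
      rw [div_le_iff₀ hγ1]
      nlinarith [pow_pos hγ0 3, pow_pos hγ0 4]
    have e4 : L * (γ / 2 / (1 + γ)) ≤ L * ((γ - γ ^ 2 + γ ^ 3) / 2) := by gcongr
    rw [e1]
    have e5 : L * ((γ - γ ^ 2 + γ ^ 3) / 2) + L / 2 * ((1 - γ / 2) ^ 2 * (1 + u)) =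
        L / 2 * (1 - 3 / 4 * γ ^ 2 + γ ^ 3 + u * (1 - γ / 2) ^ 2) := by ring
    have e6 : 1 - 3 / 4 * γ ^ 2 + γ ^ 3 + u * (1 - γ / 2) ^ 2 ≤ 1 - 2 * u - γ ^ 2 / 4 := by
      have h1 : γ ^ 3 ≤ γ ^ 2 / 4 := by nlinarith
      have h2 : u * (1 - γ / 2) ^ 2 ≤ u := by
        have : (1 - γ / 2) ^ 2 ≤ 1 := by nlinarith
        nlinarith
      nlinarith
    have e7 : L / 2 * (1 - 3 / 4 * γ ^ 2 + γ ^ 3 + u * (1 - γ / 2) ^ 2) ≤ L / 2 * (1 - 2 * u - γ ^ 2 / 4) := by gcongr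
    have e8 : L / 2 * (1 - 2 * u - γ ^ 2 / 4) = L / 2 * (1 - 2 * u) + -(L * γ ^ 2 / 8) := by ring
    linarith
  have hB : Real.exp (-(v * S₁)) * Real.exp ((u + v) ^ 2 / 2 * (1 + (u + v)) * VV f) ≤ E * (1 / 256) := by
    refine le_trans ?_ (mul_le_mul_of_nonneg_left hsmall hE0.le)
    rw [← Real.exp_add, hE, ← Real.exp_add]
    apply Real.exp_le_exp.2
    have e1 : v * S₁ = L * (γ / 2 * (1 + γ)) := by
      rw [hv, hS₁, hL]
      ring
    have e2 : (u + v) ^ 2 / 2 * (1 + (u + v)) * VV f ≤ L / 2 * ((1 + γ / 2) ^ 2 * (1 + 2 * u)) := by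
      have h1 : (u + v) ^ 2 = u ^ 2 * (1 + γ / 2) ^ 2 := by rw [hv]; ring
      rw [h1]
      calc u ^ 2 * (1 + γ / 2) ^ 2 / 2 * (1 + (u + v)) * VV f = (u ^ 2 * VV f) / 2 * ((1 + γ / 2) ^ 2 * (1 + (u + v))) := by ring
        _ ≤ (u ^ 2 * VV f) / 2 * ((1 + γ / 2) ^ 2 * (1 + 2 * u)) := by
            have : 1 + (u + v) ≤ 1 + 2 * u := by linarith
            gcongr
        _ = _ := by rw [← hL]
    rw [e1]
    have e5 : -(L * (γ / 2 * (1 + γ))) + L / 2 * ((1 + γ / 2) ^ 2 * (1 + 2 * u)) =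
        L / 2 * (1 - 3 / 4 * γ ^ 2 + 2 * u * (1 + γ / 2) ^ 2) := by ring
    have e6 : 1 - 3 / 4 * γ ^ 2 + 2 * u * (1 + γ / 2) ^ 2 ≤ 1 - 2 * u - γ ^ 2 / 4 := by
      have h2 : 2 * u * (1 + γ / 2) ^ 2 ≤ 4 * u := by
        have : (1 + γ / 2) ^ 2 ≤ 2 := by nlinarith
        nlinarith
      nlinarith
    have e7 : L / 2 * (1 - 3 / 4 * γ ^ 2 + 2 * u * (1 + γ / 2) ^ 2) ≤ L / 2 * (1 - 2 * u - γ ^ 2 / 4) := by gcongr
    have e8 : L / 2 * (1 - 2 * u - γ ^ 2 / 4) = L / 2 * (1 - 2 * u) + -(L * γ ^ 2 / 8) := by ring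
    linarith
  have e0 : u ^ 2 / 2 * (1 - 2 * u) * VV f = L / 2 * (1 - 2 * u) := by rw [hL]; ring
  rw [e0, ← hE] at hlow
  have h1 : 4 * Real.exp (v * T) * ∑ i ∈ s, QK K ((u - v) * SS f (ρ i)) ≤ 8 * (E * (1 / 256)) * N := by
    calc 4 * Real.exp (v * T) * ∑ i ∈ s, QK K ((u - v) * SS f (ρ i))
        ≤ 4 * Real.exp (v * T) * (N * (2 * Real.exp ((u - v) ^ 2 / 2 * (1 + (u - v)) * VV f))) := by gcongr
      _ = 8 * (Real.exp (v * T) * Real.exp ((u - v) ^ 2 / 2 * (1 + (u - v)) * VV f)) * N := by ring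
      _ ≤ 8 * (E * (1 / 256)) * N := by gcongr
  have h2 : 4 * Real.exp (-(v * S₁)) * ∑ i ∈ s, QK K ((u + v) * SS f (ρ i)) ≤ 8 * (E * (1 / 256)) * N := by
    calc 4 * Real.exp (-(v * S₁)) * ∑ i ∈ s, QK K ((u + v) * SS f (ρ i))
        ≤ 4 * Real.exp (-(v * S₁)) * (N * (2 * Real.exp ((u + v) ^ 2 / 2 * (1 + (u + v)) * VV f))) := by gcongr
      _ = 8 * (Real.exp (-(v * S₁)) * Real.exp ((u + v) ^ 2 / 2 * (1 + (u + v)) * VV f)) * N := by ring
      _ ≤ 8 * (E * (1 / 256)) * N := by gcongr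
  have h3 : N * (E / 2) ≤ c * (2 * Real.exp (u * S₁)) := by
    have h4 : 64 * N ≤ E * N := by gcongr
    linarith
  have e9 : u * S₁ = (1 + γ) * L := by rw [hS₁, hL]; ring
  rw [e9] at h3
  have h4 : 1 / 4 * Real.exp (-(L / 2 * (1 + 2 * u + 2 * γ))) * N * (2 * Real.exp ((1 + γ) * L)) = N * (E / 2) := by
    have h5 : E = Real.exp (-(L / 2 * (1 + 2 * u + 2 * γ))) * Real.exp ((1 + γ) * L) := by
      rw [hE, ← Real.exp_add]
      congr 1
      ring
    rw [h5]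
    ring
  rw [← h4] at h3
  rw [← hc]
  have h6 : 0 < 2 * Real.exp ((1 + γ) * L) := by positivity
  exact le_of_mul_le_mul_right h3 h6

open Classical in
/-- **Moderate deviations.** -/
theorem md (ε : ℝ) (hε : 0 < ε) (hε1 : ε ≤ 1) : ∃ η Λ : ℝ, 0 < η ∧ 1 ≤ Λ ∧
    ∀ (J : Type) [Fintype J] [DecidableEq J] (R : J → Type) [∀ j, Fintype (R j)] [∀ j, Nonempty (R j)]
      (f : ∀ j, R j → ℝ), (∀ j b, |f j b| ≤ 1) → (∀ j, avg (f j) = 0) → ∀ lam : ℝ, Λ ≤ lam → lam ^ 2 ≤ η * VV f →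
    ∀ (ι : Type) (s : Finset ι) (ρ : ι → ∀ j, R j) (K : ℕ) (δ : ℝ), 8192 * lam ^ 2 ≤ K → 0 ≤ δ → Equi s ρ (2 * K) δ →
      (1 + (Fintype.card J : ℝ)) ^ (2 * K) * δ ≤ 1 / 4 →
      Real.exp (-((1 + ε) * lam ^ 2 / 2)) * s.card ≤ ((s.filter (fun i => lam * √(VV f) ≤ SS f (ρ i))).card : ℝ) ∧
      ((s.filter (fun i => lam * √(VV f) ≤ SS f (ρ i))).card : ℝ) ≤ Real.exp (-((1 - ε) * lam ^ 2 / 2)) * s.card := by
  obtain ⟨γ, hγ⟩ : ∃ γ : ℝ, γ = ε / 16 := ⟨_, rfl⟩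
  have hγ0 : 0 < γ := by rw [hγ]; positivity
  have hγ1 : γ ≤ 1 / 16 := by rw [hγ]; linarith
  refine ⟨(γ ^ 2 / 64) ^ 2, 32 / γ, by positivity, ?_, ?_⟩
  · rw [le_div_iff₀ hγ0]
    linarith
  intro J _ _ R _ _ f hf h0 lam hlam hlamV ι s ρ K δ hKl hδ heq hJ
  have hΛ : 32 ≤ lam * γ := by
    rw [div_le_iff₀ hγ0] at hlam
    exact hlam
  have hlam0 : 0 < lam := by
    by_contra hcon
    push Not at hcon
    nlinarith
  have hlam512 : 512 ≤ lam := by nlinarith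
  have hV : 0 < VV f := by
    by_contra hcon
    push Not at hcon
    have h1 : (γ ^ 2 / 64) ^ 2 * VV f ≤ 0 := mul_nonpos_of_nonneg_of_nonpos (by positivity) hcon
    nlinarith
  have hsV : 0 < √(VV f) := Real.sqrt_pos.2 hV
  have hsV2 : √(VV f) ^ 2 = VV f := Real.sq_sqrt hV.le
  -- the ratio
  obtain ⟨u₀, hu₀⟩ : ∃ u₀ : ℝ, u₀ = lam / √(VV f) := ⟨_, rfl⟩
  have hu₀0 : 0 < u₀ := by rw [hu₀]; positivity
  have hu₀V : u₀ * VV f = lam * √(VV f) := by
    rw [hu₀, ← hsV2, Real.sqrt_sq hsV.le]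
    field_simp
  have hu₀L : u₀ ^ 2 * VV f = lam ^ 2 := by
    rw [hu₀, div_pow, hsV2]
    field_simp
  have hu₀s : u₀ ≤ γ ^ 2 / 64 := by
    have h1 : u₀ ^ 2 ≤ (γ ^ 2 / 64) ^ 2 := by
      have h2 : u₀ ^ 2 * VV f ≤ (γ ^ 2 / 64) ^ 2 * VV f := by rw [hu₀L]; exact hlamV
      exact le_of_mul_le_mul_right h2 hV
    exact le_of_sq_le_sq h1 (by positivity)
  have hγ2 : γ ^ 2 ≤ γ / 16 := by nlinarith
  have hK8 : 8 ≤ K := by
    have h1 : (8 : ℝ) ≤ K := by nlinarith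
    exact_mod_cast h1
  constructor
  · -- the lower bound
    obtain ⟨u, hu⟩ : ∃ u : ℝ, u = (1 + γ) * u₀ := ⟨_, rfl⟩
    have hu0 : 0 < u := by rw [hu]; positivity
    have huγ : 64 * u ≤ 2 * γ ^ 2 := by
      rw [hu]
      nlinarith
    have huL : u ^ 2 * VV f = (1 + γ) ^ 2 * lam ^ 2 := by
      rw [hu, mul_pow, mul_assoc, hu₀L]
    have h1 := tail_low s ρ K hK8 δ hδ heq hJ f hf h0 γ hγ0 (by linarith) u hu0 huγ (by
      rw [huL]
      have h2 : (32 : ℝ) ^ 2 ≤ (lam * γ) ^ 2 := by gcongr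
      nlinarith [sq_nonneg (lam * γ)]) (by
      rw [huL]
      have h2 : (1 + γ) ^ 2 ≤ 2 := by nlinarith
      nlinarith [sq_nonneg lam])
    have e1 : u * VV f / (1 + γ) = lam * √(VV f) := by
      rw [hu, mul_assoc, hu₀V]
      field_simp
    rw [e1] at h1
    refine le_trans ?_ h1
    have hs : (0 : ℝ) ≤ s.card := Nat.cast_nonneg _
    have h2 : Real.exp (-((1 + ε) * lam ^ 2 / 2)) ≤ 1 / 4 * Real.exp (-(u ^ 2 * VV f / 2 * (1 + 2 * u + 2 * γ))) := by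
      have h3 : (1 + γ) ^ 2 * (1 + 2 * u + 2 * γ) ≤ 1 + ε / 2 := by
        have h4 : 2 * u ≤ γ := by nlinarith
        have h5 : (1 + γ) ^ 2 ≤ 1 + 3 * γ := by nlinarith
        have h6 : (1 + γ) ^ 2 * (1 + 2 * u + 2 * γ) ≤ (1 + 3 * γ) * (1 + 3 * γ) := by
          apply mul_le_mul h5 (by linarith) (by positivity) (by positivity)
        have h7 : ε = 16 * γ := by rw [hγ]; ring
        rw [h7]
        nlinarith
      have h4 : u ^ 2 * VV f / 2 * (1 + 2 * u + 2 * γ) ≤ (1 + ε / 2) * lam ^ 2 / 2 := by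
        rw [huL]
        have : (1 + γ) ^ 2 * (1 + 2 * u + 2 * γ) * lam ^ 2 ≤ (1 + ε / 2) * lam ^ 2 := by gcongr
        linarith
      have h5 : 2 ≤ ε / 4 * lam ^ 2 := by
        have h7 : ε = 16 * γ := by rw [hγ]; ring
        rw [h7]
        nlinarith
      have h6 : Real.exp (-2) ≤ 1 / 4 := by
        rw [Real.exp_neg, one_div]
        apply inv_anti₀ (by norm_num)
        have h7 := Real.add_one_le_exp (1 : ℝ)
        have h8 : Real.exp 2 = Real.exp 1 ^ 2 := by rw [← Real.exp_nat_mul]; norm_num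
        rw [h8]
        nlinarith
      calc Real.exp (-((1 + ε) * lam ^ 2 / 2)) ≤ Real.exp (-2 + -(u ^ 2 * VV f / 2 * (1 + 2 * u + 2 * γ))) := by
            apply Real.exp_le_exp.2
            have : (1 + ε) * lam ^ 2 / 2 = (1 + ε / 2) * lam ^ 2 / 2 + ε / 4 * lam ^ 2 := by ring
            linarith
        _ = Real.exp (-2) * Real.exp (-(u ^ 2 * VV f / 2 * (1 + 2 * u + 2 * γ))) := Real.exp_add _ _
        _ ≤ 1 / 4 * Real.exp (-(u ^ 2 * VV f / 2 * (1 + 2 * u + 2 * γ))) := by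
            have := Real.exp_pos (-(u ^ 2 * VV f / 2 * (1 + 2 * u + 2 * γ)))
            gcongr
    gcongr
  · -- the upper bound
    have h1 := tail_up s ρ K hK8 δ hδ heq hJ f hf h0 u₀ hu₀0 (by nlinarith) (by rw [hu₀L]; nlinarith)
    rw [hu₀V, hu₀L] at h1
    refine h1.trans ?_
    have hs : (0 : ℝ) ≤ s.card := Nat.cast_nonneg _
    have h2 : 4 * Real.exp (-(lam ^ 2 / 2 * (1 - u₀))) ≤ Real.exp (-((1 - ε) * lam ^ 2 / 2)) := by
      have h3 : u₀ ≤ ε / 2 := by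
        have h7 : ε = 16 * γ := by rw [hγ]; ring
        rw [h7]
        nlinarith
      have h4 : (4 : ℝ) ≤ Real.exp 2 := by
        have h7 := Real.add_one_le_exp (1 : ℝ)
        have h8 : Real.exp 2 = Real.exp 1 ^ 2 := by rw [← Real.exp_nat_mul]; norm_num
        rw [h8]
        nlinarith
      have h5 : 2 ≤ ε / 4 * lam ^ 2 := by
        have h7 : ε = 16 * γ := by rw [hγ]; ring
        rw [h7]
        nlinarith
      calc 4 * Real.exp (-(lam ^ 2 / 2 * (1 - u₀))) ≤ Real.exp 2 * Real.exp (-(lam ^ 2 / 2 * (1 - u₀))) := by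
            have := Real.exp_pos (-(lam ^ 2 / 2 * (1 - u₀)))
            gcongr
        _ = Real.exp (2 + -(lam ^ 2 / 2 * (1 - u₀))) := (Real.exp_add _ _).symm
        _ ≤ Real.exp (-((1 - ε) * lam ^ 2 / 2)) := by
            apply Real.exp_le_exp.2
            have h6 : lam ^ 2 / 2 * u₀ ≤ lam ^ 2 / 2 * (ε / 2) := by gcongr
            nlinarith
    gcongr

end Pool.Agent.K4H16.CG
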