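import Pool.Agent.K4H16.CG.Cf

/-!
# The moments of a sum of independent bounded functions, and of a sum over a family which is well distributed
-/

set_option autoImplicit false

namespace Pool.Agent.K4H16.CG

open Finset Complex ProbabilityTheory MeasureTheory

/-- the moments of the standard normal law -/
noncomputable def gm (k : ℕ) : ℝ := ∫ z, z ^ k ∂(gaussianReal 0 1)

lemma gauss_eq : (fun z : ℂ => cexp (z ^ 2 / 2)) = complexMGF id (gaussianReal 0 1) := by
  funext z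
  rw [complexMGF_id_gaussianReal]
  simp

lemma gauss_deriv (k : ℕ) : iteratedDeriv k (fun z : ℂ => cexp (z ^ 2 / 2)) 0 = (gm k : ℂ) := by
  rw [gauss_eq, iteratedDeriv_complexMGF (by simp)]
  simp only [id_eq, zero_mul, Complex.exp_zero, mul_one]
  unfold gm
  rw [← integral_complex_ofReal]
  congr 1
  funext x
  push_cast
  rfl

lemma finite_deriv {Ω : Type} (T : Finset Ω) (k : ℕ) (c : Ω → ℂ) (Q : ℂ) :
    iteratedDeriv k (fun z : ℂ => (∑ n ∈ T, cexp (c n * z)) / Q) 0 = (∑ n ∈ T, c n ^ k) / Q := by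
  rw [iteratedDeriv_div_const]
  congr 1
  rw [iteratedDeriv_fun_sum (fun i _ => by fun_prop)]
  refine sum_congr rfl fun n _ => ?_
  rw [iteratedDeriv_cexp_const_mul]
  simp

variable {J : Type} [Fintype J] [DecidableEq J] {R : J → Type} [∀ j, Fintype (R j)] [∀ j, Nonempty (R j)]

theorem product_moment (k : ℕ) (f : ∀ j, R j → ℝ) (hf : ∀ j b, |f j b| ≤ 1) (h0 : ∀ j, avg (f j) = 0) (hV : 1 ≤ VV f) :
    |(∑ ω : (∀ j, R j), (SS f ω / √(VV f)) ^ k) / (Fintype.card (∀ j, R j) : ℝ) - gm k| ≤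
      k.factorial * (20 / √(VV f)) := by
  obtain ⟨s, hs⟩ : ∃ s : ℝ, s = √(VV f) := ⟨_, rfl⟩
  obtain ⟨Q, hQ⟩ : ∃ Q : ℕ, Q = Fintype.card (∀ j, R j) := ⟨_, rfl⟩
  rw [← hs, ← hQ]
  obtain ⟨F, hF⟩ : ∃ F : ℂ → ℂ, F = fun z => (∑ ω : (∀ j, R j), cexp (((SS f ω / s : ℝ) : ℂ) * z)) / (Q : ℂ) -
      cexp (z ^ 2 / 2) := ⟨_, rfl⟩
  have hd : Differentiable ℂ F := by
    rw [hF]
    fun_prop
  have h1 : iteratedDeriv k F 0 = ((((∑ ω : (∀ j, R j), (SS f ω / s) ^ k) / (Q : ℝ) - gm k : ℝ)) : ℂ) := by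
    rw [hF, iteratedDeriv_fun_sub (by fun_prop) (by fun_prop), gauss_deriv, finite_deriv]
    push_cast
    rfl
  have h2 := Complex.norm_iteratedDeriv_le_of_forall_mem_sphere_norm_le (c := 0) (R := 1) (C := 20 / s) (f := F) k
    one_pos hd.diffContOnCl (by
      intro z hz
      rw [mem_sphere_iff_norm, sub_zero] at hz
      have h3 := laplace_close f hf h0 hV z hz.le
      rw [hF]
      rw [← hs, ← hQ] at h3
      have e : ∑ ω : (∀ j, R j), cexp (((SS f ω / s : ℝ) : ℂ) * z) =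
          ∑ ω : (∀ j, R j), cexp (z / (s : ℂ) * (SS f ω : ℂ)) := by
        refine sum_congr rfl fun n _ => ?_
        congr 1
        push_cast
        ring
      simp only [e]
      exact h3)
  rw [h1, Complex.norm_real, Real.norm_eq_abs, one_pow, div_one] at h2
  exact h2

/-- The family `ρ i`, `i ∈ s`, of points of `∏ R j` is well distributed on all the products of at most `k` of the `R j`,
with the error `δ`. -/
def Equi {ι : Type} (s : Finset ι) (ρ : ι → ∀ j, R j) (k : ℕ) (δ : ℝ) : Prop :=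
  ∀ (S : Finset J), S.card ≤ k → ∀ h : ∀ j, R j → ℝ, (∀ j b, |h j b| ≤ 1) →
    |∑ i ∈ s, ∏ j ∈ S, h j (ρ i j) - s.card * ∏ j ∈ S, avg (h j)| ≤ δ * s.card

omit [∀ j, Nonempty (R j)] in
lemma avg_pi_prod [∀ j, Nonempty (R j)] (S : Finset J) (h : ∀ j, R j → ℝ) :
    (∑ ω : (∀ j, R j), ∏ j ∈ S, h j (ω j)) / (Fintype.card (∀ j, R j) : ℝ) = ∏ j ∈ S, avg (h j) := by
  classical
  obtain ⟨H, hH⟩ : ∃ H : ∀ j, R j → ℝ, H = fun j b => if j ∈ S then h j b else 1 := ⟨_, rfl⟩
  have h1 : ∀ ω : (∀ j, R j), ∏ j ∈ S, h j (ω j) = ∏ j, H j (ω j) := by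
    intro ω
    rw [hH, ← Finset.prod_subset (subset_univ S)]
    · exact prod_congr rfl fun j hj => by simp only [hj, if_true]
    · intro j _ hj
      simp only [hj, if_false]
  have h2 : ∏ j ∈ S, avg (h j) = ∏ j, avg (H j) := by
    rw [hH, ← Finset.prod_subset (subset_univ S)]
    · exact prod_congr rfl fun j hj => by simp only [hj, if_true]
    · intro j _ hj
      simp only [hj, if_false]
      unfold avg
      simp
  rw [h2]
  unfold avg
  rw [prod_div_distrib, Fintype.card_pi]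
  push_cast
  congr 1
  rw [Finset.prod_univ_sum, Fintype.piFinset_univ]
  exact sum_congr rfl fun ω _ => h1 ω

/-- the moments of the sum over a well distributed family -/
theorem family_moment {ι : Type} (s : Finset ι) (ρ : ι → ∀ j, R j) (k : ℕ) (δ : ℝ) (hδ : 0 ≤ δ)
    (heq : Equi s ρ k δ) (f : ∀ j, R j → ℝ) (hf : ∀ j b, |f j b| ≤ 1) :
    |∑ i ∈ s, SS f (ρ i) ^ k - (s.card : ℝ) / (Fintype.card (∀ j, R j) : ℝ) * ∑ ω : (∀ j, R j), SS f ω ^ k| ≤
      (Fintype.card J : ℝ) ^ k * (δ * s.card) := by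
  classical
  obtain ⟨Q, hQ⟩ : ∃ Q : ℕ, Q = Fintype.card (∀ j, R j) := ⟨_, rfl⟩
  rw [← hQ]
  have hexp : ∀ ω : (∀ j, R j), SS f ω ^ k = ∑ φ : Fin k → J, ∏ j ∈ univ.image φ, f j (ω j) ^ (univ.filter (fun a => φ a = j)).card := by
    intro ω
    unfold SS
    rw [Fintype.sum_pow]
    refine sum_congr rfl fun φ _ => ?_
    rw [Finset.prod_comp (fun j => f j (ω j)) φ]
  have hone : ∀ φ : Fin k → J, |∑ i ∈ s, ∏ j ∈ univ.image φ, f j (ρ i j) ^ (univ.filter (fun a => φ a = j)).card -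
      (s.card : ℝ) / Q * ∑ ω : (∀ j, R j), ∏ j ∈ univ.image φ, f j (ω j) ^ (univ.filter (fun a => φ a = j)).card| ≤ δ * s.card := by
    intro φ
    have h1 := heq (univ.image φ) (by refine card_image_le.trans ?_; simp)
      (fun j b => f j b ^ (univ.filter (fun a => φ a = j)).card) (by
        intro j b
        rw [abs_pow]
        exact pow_le_one₀ (abs_nonneg _) (hf j b))
    have h2 := avg_pi_prod (univ.image φ) (fun j b => f j b ^ (univ.filter (fun a => φ a = j)).card)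
    rw [← h2, ← hQ] at h1
    have e : (s.card : ℝ) / Q * ∑ ω : (∀ j, R j), ∏ j ∈ univ.image φ, f j (ω j) ^ (univ.filter (fun a => φ a = j)).card =
        s.card * ((∑ ω : (∀ j, R j), ∏ j ∈ univ.image φ, f j (ω j) ^ (univ.filter (fun a => φ a = j)).card) / Q) := by ring
    rw [e]
    exact h1
  have e1 : ∑ i ∈ s, SS f (ρ i) ^ k = ∑ φ : Fin k → J, ∑ i ∈ s, ∏ j ∈ univ.image φ, f j (ρ i j) ^ (univ.filter (fun a => φ a = j)).card := by
    rw [sum_comm]
    exact sum_congr rfl fun i _ => hexp (ρ i)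
  have e2 : ∑ ω : (∀ j, R j), SS f ω ^ k =
      ∑ φ : Fin k → J, ∑ ω : (∀ j, R j), ∏ j ∈ univ.image φ, f j (ω j) ^ (univ.filter (fun a => φ a = j)).card := by
    rw [sum_comm]
    exact sum_congr rfl fun ω _ => hexp ω
  rw [e1, e2, mul_sum, ← sum_sub_distrib]
  refine (abs_sum_le_sum_abs _ _).trans ((sum_le_sum fun φ _ => hone φ).trans ?_)
  rw [sum_const, nsmul_eq_mul, card_univ, Fintype.card_fun, Fintype.card_fin]
  push_cast
  exact le_rfl

end Pool.Agent.K4H16.CG
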