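import Mathlib

/-!
# The angles of the curves `y² = x³ + a x + b` and their star discrepancy
-/

set_option autoImplicit false

namespace Pool.Agent.K4H16.CG

open Finset

/-- The trace of Frobenius `a_p` of the curve `y² = x³ + a x + b` modulo `p`: it is `p + 1 - #E(F_p)`, that is `p` minus the
number of the affine points, and `0` if `p` divides `2 (4 a³ + 27 b²)`. -/
def apAt (a b : ℤ) (p : ℕ) : ℤ :=
  if (p : ℤ) ∣ 2 * (4 * a ^ 3 + 27 * b ^ 2) then 0
  else (p : ℤ) - (((range p ×ˢ range p).filter (fun q : ℕ × ℕ =>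
    (q.2 : ZMod p) ^ 2 = (q.1 : ZMod p) ^ 3 + (a : ZMod p) * (q.1 : ZMod p) + (b : ZMod p))).card : ℤ)

/-- The prime number `k` (`pn 0 = 2`). -/
noncomputable def pn (k : ℕ) : ℕ := Nat.nth Nat.Prime k

/-- The angle `x_k ∈ [0, 1]` with `a_p = 2 √p cos (π x_k)`, `p` the prime number `k`; it is `1 / 2` if `p` divides
`2 (4 a³ + 27 b²)`. -/
noncomputable def angle (a b : ℤ) (k : ℕ) : ℝ := Real.arccos ((apAt a b (pn k) : ℝ) / (2 * √(pn k : ℝ))) / Real.pi

open Classical in
/-- The number of the `k < K` for which `(x_k, …, x_{k+s-1})` is in the box `[0, w 0) × … × [0, w (s - 1))`. -/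
noncomputable def boxCount (a b : ℤ) (s K : ℕ) (w : Fin s → ℝ) : ℕ :=
  ((range K).filter (fun k => ∀ i : Fin s, angle a b (k + i) < w i)).card

/-- The Sato–Tate measure of `[0, w)`. -/
noncomputable def stMeasure (w : ℝ) : ℝ := ∫ t in (0 : ℝ)..w, 2 * Real.sin (Real.pi * t) ^ 2

/-- The star discrepancy of `(x_k, …, x_{k+s-1})`, `k < K`, with respect to the `s`-fold Sato–Tate measure. -/
noncomputable def starDisc (a b : ℤ) (s K : ℕ) : ℝ :=
  sSup {d | ∃ w : Fin s → ℝ, (∀ i, 0 ≤ w i ∧ w i ≤ 1) ∧ d = |(boxCount a b s K w : ℝ) / K - ∏ i, stMeasure (w i)|}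

end Pool.Agent.K4H16.CG
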