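import Mathlib

/-!
# The curves `y² = x³ + a x + b` over `ZMod p`: the proportion with a positive trace
-/

set_option autoImplicit false

namespace Pool.Agent.K4H16.CG

open Finset

section field

variable (p : ℕ) [hp : Fact p.Prime]

/-- the number of the affine points -/
def np (a b : ZMod p) : ℕ := ((univ : Finset (ZMod p × ZMod p)).filter (fun q => q.2 ^ 2 = q.1 ^ 3 + a * q.1 + b)).card

/-- the trace -/
def tz (a b : ZMod p) : ℤ := p - np p a b

lemma ringChar_ne (h2 : p ≠ 2) : ringChar (ZMod p) ≠ 2 := by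
  rw [ZMod.ringChar_zmod_n]
  exact h2

lemma tz_eq (h2 : p ≠ 2) (a b : ZMod p) : tz p a b = - ∑ x : ZMod p, quadraticChar (ZMod p) (x ^ 3 + a * x + b) := by
  have h1 : (np p a b : ℤ) = ∑ x : ZMod p, (quadraticChar (ZMod p) (x ^ 3 + a * x + b) + 1) := by
    have h3 : np p a b = ∑ x : ZMod p, ((univ : Finset (ZMod p)).filter (fun y => y ^ 2 = x ^ 3 + a * x + b)).card := by
      unfold np
      rw [card_filter, Fintype.sum_prod_type]
      apply sum_congr rfl
      intro x _
      rw [card_filter]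
    rw [h3]
    push_cast
    apply sum_congr rfl
    intro x _
    rw [← quadraticChar_card_sqrts (ringChar_ne p h2)]
    congr 2
    ext y
    simp
  unfold tz
  rw [h1, sum_add_distrib]
  simp [ZMod.card]

lemma tz_twist (h2 : p ≠ 2) (g : ZMod p) (hg : quadraticChar (ZMod p) g = -1) (a b : ZMod p) :
    tz p (g ^ 2 * a) (g ^ 3 * b) = - tz p a b := by
  have hg0 : g ≠ 0 := by
    rintro rfl
    rw [MulChar.map_zero] at hg
    norm_num at hg
  rw [tz_eq p h2, tz_eq p h2, neg_neg]
  have h1 : ∑ x : ZMod p, quadraticChar (ZMod p) (x ^ 3 + g ^ 2 * a * x + g ^ 3 * b) =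
      ∑ x : ZMod p, quadraticChar (ZMod p) ((g * x) ^ 3 + g ^ 2 * a * (g * x) + g ^ 3 * b) :=
    (Fintype.sum_equiv (Equiv.mulLeft₀ g hg0) _ _ fun x => rfl).symm
  rw [h1, ← sum_neg_distrib]
  apply sum_congr rfl
  intro x _
  have h3 : (g * x) ^ 3 + g ^ 2 * a * (g * x) + g ^ 3 * b = g ^ 3 * (x ^ 3 + a * x + b) := by ring
  rw [h3, map_mul, map_pow, hg]
  ring

lemma tz_ne_zero (h2 : p ≠ 2) (a b : ZMod p) (h : ∀ x : ZMod p, x ^ 3 + a * x + b ≠ 0) : tz p a b ≠ 0 := by
  rw [tz_eq p h2, neg_ne_zero]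
  intro h0
  have h1 : ((∑ x : ZMod p, quadraticChar (ZMod p) (x ^ 3 + a * x + b) : ℤ) : ZMod 2) = ∑ x : ZMod p, (1 : ZMod 2) := by
    push_cast
    apply sum_congr rfl
    intro x _
    rcases quadraticChar_dichotomy (h x) with h3 | h3
    · rw [h3]; rfl
    · rw [h3]; rfl
  rw [h0] at h1
  simp only [Int.cast_zero, sum_const, card_univ, ZMod.card, nsmul_eq_mul, mul_one] at h1
  have h3 : ((p : ℕ) : ZMod 2) = 0 := h1.symm
  rw [ZMod.natCast_eq_zero_iff] at h3
  exact h2 ((Nat.prime_dvd_prime_iff_eq Nat.prime_two hp.out).1 h3).symm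

/-- the number of the roots -/
def nr (a b : ZMod p) : ℕ := ((univ : Finset (ZMod p)).filter (fun t => t ^ 3 + a * t + b = 0)).card

lemma nr_le (a b : ZMod p) : nr p a b ≤ 3 := by
  obtain ⟨f, hf⟩ : ∃ f : Polynomial (ZMod p), f = Polynomial.X ^ 3 + Polynomial.C a * Polynomial.X + Polynomial.C b := ⟨_, rfl⟩
  have hd : f.natDegree = 3 := by
    rw [hf]
    compute_degree!
  have h0 : f ≠ 0 := by
    intro h
    rw [h] at hd
    simp at hd
  have h1 : (univ : Finset (ZMod p)).filter (fun t => t ^ 3 + a * t + b = 0) ⊆ f.roots.toFinset := by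
    intro t ht
    rw [mem_filter] at ht
    rw [Multiset.mem_toFinset, Polynomial.mem_roots h0, Polynomial.IsRoot, hf]
    simp only [Polynomial.eval_add, Polynomial.eval_pow, Polynomial.eval_X, Polynomial.eval_mul, Polynomial.eval_C]
    exact ht.2
  unfold nr
  calc _ ≤ f.roots.toFinset.card := card_le_card h1
    _ ≤ Multiset.card f.roots := Multiset.toFinset_card_le _
    _ ≤ f.natDegree := Polynomial.card_roots' f
    _ = 3 := hd

lemma nr_sum : ∑ a : ZMod p, ∑ b : ZMod p, nr p a b = p ^ 2 := by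
  have h1 : ∀ a : ZMod p, ∑ b : ZMod p, nr p a b = p := by
    intro a
    unfold nr
    simp only [card_filter]
    rw [sum_comm]
    have h2 : ∀ t : ZMod p, ∑ b : ZMod p, (if t ^ 3 + a * t + b = 0 then 1 else 0) = 1 := by
      intro t
      have h3 : ∀ b : ZMod p, (t ^ 3 + a * t + b = 0) ↔ b = -(t ^ 3 + a * t) := by
        intro b
        constructor
        · intro h
          linear_combination h
        · intro h
          rw [h]
          ring
      simp only [h3]
      rw [sum_ite_eq' univ]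
      simp
    rw [sum_congr rfl fun t _ => h2 t]
    simp [ZMod.card]
  rw [sum_congr rfl fun a _ => h1 a]
  simp [ZMod.card]
  ring

lemma nr_sum2 : ∑ a : ZMod p, ∑ b : ZMod p, (nr p a b) ^ 2 = p ^ 2 + p * (p - 1) := by
  have h1 : ∀ a b : ZMod p, (nr p a b) ^ 2 = ∑ t : ZMod p, ∑ u : ZMod p,
      (if t ^ 3 + a * t + b = 0 ∧ u ^ 3 + a * u + b = 0 then 1 else 0) := by
    intro a b
    unfold nr
    rw [sq, card_filter, sum_mul_sum]
    apply sum_congr rfl
    intro t _
    apply sum_congr rfl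
    intro u _
    by_cases h3 : t ^ 3 + a * t + b = 0 <;> by_cases h4 : u ^ 3 + a * u + b = 0 <;> simp [h3, h4]
  have h2 : ∀ t u : ZMod p, ∑ a : ZMod p, ∑ b : ZMod p,
      (if t ^ 3 + a * t + b = 0 ∧ u ^ 3 + a * u + b = 0 then 1 else 0) = if t = u then p else 1 := by
    intro t u
    split_ifs with htu
    · subst htu
      simp only [and_self]
      have h3 : ∀ a : ZMod p, ∑ b : ZMod p, (if t ^ 3 + a * t + b = 0 then 1 else 0) = 1 := by
        intro a
        have h3 : ∀ b : ZMod p, (t ^ 3 + a * t + b = 0) ↔ b = -(t ^ 3 + a * t) := by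
          intro b
          constructor
          · intro h
            linear_combination h
          · intro h
            rw [h]
            ring
        simp only [h3]
        rw [sum_ite_eq' univ]
        simp
      rw [sum_congr rfl fun a _ => h3 a]
      simp [ZMod.card]
    · have hne : t - u ≠ 0 := sub_ne_zero.2 htu
      have h3 : ∀ a b : ZMod p, (t ^ 3 + a * t + b = 0 ∧ u ^ 3 + a * u + b = 0) ↔
          (a = -(t ^ 2 + t * u + u ^ 2) ∧ b = t * u * (t + u)) := by
        intro a b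
        constructor
        · rintro ⟨h4, h5⟩
          have h6 : a = -(t ^ 2 + t * u + u ^ 2) := by
            have : (t - u) * (a + (t ^ 2 + t * u + u ^ 2)) = 0 := by linear_combination h4 - h5
            rcases mul_eq_zero.1 this with h7 | h7
            · exact absurd h7 hne
            · linear_combination h7
          refine ⟨h6, ?_⟩
          rw [h6] at h4
          linear_combination h4
        · rintro ⟨h4, h5⟩
          rw [h4, h5]
          constructor <;> ring
      simp only [h3]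
      have h4 : ∀ a : ZMod p, ∑ b : ZMod p, (if a = -(t ^ 2 + t * u + u ^ 2) ∧ b = t * u * (t + u) then 1 else 0) =
          if a = -(t ^ 2 + t * u + u ^ 2) then 1 else 0 := by
        intro a
        by_cases h5 : a = -(t ^ 2 + t * u + u ^ 2)
        · simp only [h5, true_and, if_true]
          rw [sum_ite_eq' univ]
          simp
        · rw [if_neg h5]
          apply sum_eq_zero
          intro b _
          rw [if_neg (fun h => h5 h.1)]
      rw [sum_congr rfl fun a _ => h4 a, sum_ite_eq' univ]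
      simp
  simp only [h1]
  have h3 : ∑ a : ZMod p, ∑ b : ZMod p, ∑ t : ZMod p, ∑ u : ZMod p,
      (if t ^ 3 + a * t + b = 0 ∧ u ^ 3 + a * u + b = 0 then 1 else 0) =
      ∑ t : ZMod p, ∑ u : ZMod p, ∑ a : ZMod p, ∑ b : ZMod p,
      (if t ^ 3 + a * t + b = 0 ∧ u ^ 3 + a * u + b = 0 then 1 else 0) := by
    calc _ = ∑ a : ZMod p, ∑ t : ZMod p, ∑ b : ZMod p, ∑ u : ZMod p,
        (if t ^ 3 + a * t + b = 0 ∧ u ^ 3 + a * u + b = 0 then 1 else 0) := by
          apply sum_congr rfl
          intro a _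
          rw [sum_comm]
      _ = ∑ a : ZMod p, ∑ t : ZMod p, ∑ u : ZMod p, ∑ b : ZMod p,
        (if t ^ 3 + a * t + b = 0 ∧ u ^ 3 + a * u + b = 0 then 1 else 0) := by
          apply sum_congr rfl
          intro a _
          apply sum_congr rfl
          intro t _
          rw [sum_comm]
      _ = ∑ t : ZMod p, ∑ a : ZMod p, ∑ u : ZMod p, ∑ b : ZMod p,
        (if t ^ 3 + a * t + b = 0 ∧ u ^ 3 + a * u + b = 0 then 1 else 0) := by
          rw [sum_comm]
      _ = _ := by
          apply sum_congr rfl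
          intro t _
          rw [sum_comm]
  rw [h3]
  simp only [h2]
  have h4 : ∀ t : ZMod p, ∑ u : ZMod p, (if t = u then p else 1) = p + (p - 1) := by
    intro t
    rw [← add_sum_erase univ _ (mem_univ t)]
    rw [if_pos rfl]
    congr 1
    rw [sum_congr rfl (g := fun _ => 1) (by
      intro u hu
      rw [mem_erase] at hu
      rw [if_neg (Ne.symm hu.1)])]
    rw [sum_const, card_erase_of_mem (mem_univ _), card_univ, ZMod.card]
    simp
  rw [sum_congr rfl fun t _ => h4 t]
  simp [ZMod.card]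
  ring

/-- the pairs for which the cubic has no root -/
lemma no_root_card : p * (p - 1) ≤ 3 * ((univ : Finset (ZMod p × ZMod p)).filter (fun q => nr p q.1 q.2 = 0)).card := by
  have hp1 : 1 ≤ p := hp.out.one_le
  have h1 : ((univ : Finset (ZMod p × ZMod p)).filter (fun q => nr p q.1 q.2 = 0)).card =
      ∑ a : ZMod p, ∑ b : ZMod p, (if nr p a b = 0 then 1 else 0) := by
    rw [card_filter, Fintype.sum_prod_type]
  rw [h1]
  have h2 : ∀ a b : ZMod p, (3 : ℤ) + (nr p a b : ℤ) ^ 2 ≤ 4 * nr p a b + 3 * (if nr p a b = 0 then 1 else 0) := by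
    intro a b
    have h3 := nr_le p a b
    interval_cases (nr p a b) <;> simp
  have h3 : ∑ a : ZMod p, ∑ b : ZMod p, ((3 : ℤ) + (nr p a b : ℤ) ^ 2) ≤
      ∑ a : ZMod p, ∑ b : ZMod p, (4 * (nr p a b : ℤ) + 3 * (if nr p a b = 0 then 1 else 0)) :=
    sum_le_sum fun a _ => sum_le_sum fun b _ => h2 a b
  simp only [sum_add_distrib, ← mul_sum, sum_const, card_univ, ZMod.card, nsmul_eq_mul] at h3
  have h4 : ∑ a : ZMod p, ∑ b : ZMod p, (nr p a b : ℤ) = (p : ℤ) ^ 2 := by exact_mod_cast nr_sum p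
  have h5 : ∑ a : ZMod p, ∑ b : ZMod p, (nr p a b : ℤ) ^ 2 = (p : ℤ) ^ 2 + p * (p - 1) := by
    have := nr_sum2 p
    have e : ((p - 1 : ℕ) : ℤ) = (p : ℤ) - 1 := by push_cast [Nat.cast_sub hp1]; ring
    rw [← e]
    exact_mod_cast this
  rw [h4, h5] at h3
  obtain ⟨S, hS⟩ : ∃ S : ℕ, S = ∑ a : ZMod p, ∑ b : ZMod p, (if nr p a b = 0 then 1 else 0) := ⟨_, rfl⟩
  have hS' : (S : ℤ) = ∑ a : ZMod p, ∑ b : ZMod p, (if nr p a b = 0 then (1 : ℤ) else 0) := by
    rw [hS]
    push_cast
    rfl
  rw [← hS'] at h3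
  rw [← hS]
  have e : ((p - 1 : ℕ) : ℤ) = (p : ℤ) - 1 := by push_cast [Nat.cast_sub hp1]; ring
  have h6 : ((p * (p - 1) : ℕ) : ℤ) ≤ ((3 * S : ℕ) : ℤ) := by
    push_cast
    rw [e]
    nlinarith
  exact_mod_cast h6

lemma sing_card (h5 : 5 ≤ p) : ((univ : Finset (ZMod p × ZMod p)).filter (fun q => 4 * q.1 ^ 3 + 27 * q.2 ^ 2 = 0)).card ≤ 2 * p := by
  rw [card_filter, Fintype.sum_prod_type]
  have h27 : (27 : ZMod p) ≠ 0 := by
    intro h
    have h1 : ((27 : ℕ) : ZMod p) = 0 := by exact_mod_cast h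
    rw [ZMod.natCast_eq_zero_iff] at h1
    have h2 : p ∣ 3 ^ 3 := by norm_num; exact h1
    have h3 := (Nat.prime_dvd_prime_iff_eq hp.out Nat.prime_three).1 (hp.out.dvd_of_dvd_pow h2)
    omega
  have h1 : ∀ a : ZMod p, ∑ b : ZMod p, (if 4 * a ^ 3 + 27 * b ^ 2 = 0 then 1 else 0) ≤ 2 := by
    intro a
    rw [← card_filter]
    by_contra h
    push Not at h
    obtain ⟨x, hx, y, hy, z, hz, hxy, hxz, hyz⟩ := two_lt_card.1 h
    rw [mem_filter] at hx hy hz
    have e1 : ∀ u v : ZMod p, 4 * a ^ 3 + 27 * u ^ 2 = 0 → 4 * a ^ 3 + 27 * v ^ 2 = 0 → u ≠ v → u = -v := by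
      intro u v hu hv huv
      have h3 : 27 * ((u - v) * (u + v)) = 0 := by linear_combination hu - hv
      rcases mul_eq_zero.1 h3 with h4 | h4
      · exact absurd h4 h27
      · rcases mul_eq_zero.1 h4 with h6 | h6
        · exact absurd (sub_eq_zero.1 h6) huv
        · linear_combination h6
    have hx' := e1 x y hx.2 hy.2 hxy
    have hz' := e1 z y hz.2 hy.2 (Ne.symm hyz)
    exact hxz (hx'.trans hz'.symm)
  calc ∑ a : ZMod p, ∑ b : ZMod p, (if 4 * a ^ 3 + 27 * b ^ 2 = 0 then 1 else 0) ≤ ∑ a : ZMod p, 2 := sum_le_sum fun a _ => h1 a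
    _ = 2 * p := by simp [ZMod.card]; ring

/-- the smooth curves with a positive trace -/
def posSet : Finset (ZMod p × ZMod p) := (univ : Finset (ZMod p × ZMod p)).filter (fun q => 4 * q.1 ^ 3 + 27 * q.2 ^ 2 ≠ 0 ∧ 0 < tz p q.1 q.2)

/-- the smooth curves with a negative trace -/
def negSet : Finset (ZMod p × ZMod p) := (univ : Finset (ZMod p × ZMod p)).filter (fun q => 4 * q.1 ^ 3 + 27 * q.2 ^ 2 ≠ 0 ∧ tz p q.1 q.2 < 0)

lemma pos_neg (h2 : p ≠ 2) : (posSet p).card = (negSet p).card := by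
  obtain ⟨g, hg⟩ := quadraticChar_exists_neg_one (F := ZMod p) (ringChar_ne p h2)
  have hg0 : g ≠ 0 := by
    rintro rfl
    rw [MulChar.map_zero] at hg
    norm_num at hg
  have key : ∀ q : ZMod p × ZMod p, 4 * (g ^ 2 * q.1) ^ 3 + 27 * (g ^ 3 * q.2) ^ 2 = g ^ 6 * (4 * q.1 ^ 3 + 27 * q.2 ^ 2) := by
    intro q
    ring
  apply card_bij (fun q _ => (g ^ 2 * q.1, g ^ 3 * q.2))
  · intro q hq
    unfold posSet at hq
    unfold negSet
    rw [mem_filter] at hq ⊢
    refine ⟨mem_univ _, ?_, ?_⟩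
    · simp only
      rw [key]
      exact mul_ne_zero (pow_ne_zero _ hg0) hq.2.1
    · simp only
      rw [tz_twist p h2 g hg]
      have := hq.2.2
      omega
  · intro q _ q' _ h
    simp only [Prod.mk.injEq] at h
    exact Prod.ext (mul_left_cancel₀ (pow_ne_zero _ hg0) h.1) (mul_left_cancel₀ (pow_ne_zero _ hg0) h.2)
  · intro q hq
    unfold negSet at hq
    rw [mem_filter] at hq
    have e : (g ^ 2 * (q.1 / g ^ 2), g ^ 3 * (q.2 / g ^ 3)) = q := by
      apply Prod.ext
      · simp only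
        field_simp
      · simp only
        field_simp
    refine ⟨(q.1 / g ^ 2, q.2 / g ^ 3), ?_, e⟩
    unfold posSet
    rw [mem_filter]
    refine ⟨mem_univ _, ?_, ?_⟩
    · simp only
      intro h
      apply hq.2.1
      have h3 := key (q.1 / g ^ 2, q.2 / g ^ 3)
      simp only at h3
      rw [h, mul_zero] at h3
      rw [← h3]
      have e1 : g ^ 2 * (q.1 / g ^ 2) = q.1 := congrArg Prod.fst e
      have e2 : g ^ 3 * (q.2 / g ^ 3) = q.2 := congrArg Prod.snd e
      rw [e1, e2]
    · simp only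
      have h3 := tz_twist p h2 g hg (q.1 / g ^ 2) (q.2 / g ^ 3)
      have e1 : g ^ 2 * (q.1 / g ^ 2) = q.1 := congrArg Prod.fst e
      have e2 : g ^ 3 * (q.2 / g ^ 3) = q.2 := congrArg Prod.snd e
      rw [e1, e2] at h3
      have := hq.2.2
      omega

lemma pos_bounds (h5 : 5 ≤ p) : p * (p - 1) ≤ 6 * (posSet p).card + 6 * p ∧ 2 * (posSet p).card ≤ p * p := by
  have h2 : p ≠ 2 := by omega
  have hpn := pos_neg p h2
  have hdisj : Disjoint (posSet p) (negSet p) := by
    rw [disjoint_left]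
    intro q h1 h3
    unfold posSet at h1
    unfold negSet at h3
    rw [mem_filter] at h1 h3
    have := h1.2.2
    have := h3.2.2
    omega
  have hu : (posSet p ∪ negSet p).card = 2 * (posSet p).card := by
    rw [card_union_of_disjoint hdisj, ← hpn]
    ring
  constructor
  · have h1 := no_root_card p
    have h3 := sing_card p h5
    have hsub : (univ : Finset (ZMod p × ZMod p)).filter (fun q => nr p q.1 q.2 = 0) ⊆
        (posSet p ∪ negSet p) ∪ (univ : Finset (ZMod p × ZMod p)).filter (fun q => 4 * q.1 ^ 3 + 27 * q.2 ^ 2 = 0) := by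
      intro q hq
      rw [mem_filter] at hq
      have hq2 := hq.2
      unfold nr at hq2
      rw [card_eq_zero, filter_eq_empty_iff] at hq2
      have h4 := tz_ne_zero p h2 q.1 q.2 (fun x => hq2 (mem_univ x))
      by_cases h6 : 4 * q.1 ^ 3 + 27 * q.2 ^ 2 = 0
      · rw [mem_union]
        right
        rw [mem_filter]
        exact ⟨mem_univ _, h6⟩
      · rw [mem_union, mem_union]
        left
        unfold posSet negSet
        rw [mem_filter, mem_filter]
        rcases lt_or_gt_of_ne h4 with h7 | h7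
        · right
          exact ⟨mem_univ _, h6, h7⟩
        · left
          exact ⟨mem_univ _, h6, h7⟩
    have h4 := (card_le_card hsub).trans (card_union_le _ _)
    rw [hu] at h4
    omega
  · have h1 : (posSet p ∪ negSet p).card ≤ (univ : Finset (ZMod p × ZMod p)).card := card_le_card (subset_univ _)
    rw [hu, card_univ, Fintype.card_prod, ZMod.card] at h1
    exact h1

end field

end Pool.Agent.K4H16.CG
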