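import Pool.Agent.H341R2.NF.ECCount
import Pool.Agent.K4H16.CG.OmZ
import Pool.Agent.K4H16.CG.OmDefs

/-!
# The star discrepancy of the angles and the signs of the traces
-/

set_option autoImplicit false

namespace Pool.Agent.K4H16.CG

open Finset

section hasse

variable (p : ℕ) [hp : Fact p.Prime]

lemma hasse (h5 : 5 ≤ p) (a b : ZMod p) (h : 4 * a ^ 3 + 27 * b ^ 2 ≠ 0) : (tz p a b : ℝ) ^ 2 ≤ 4 * p := by
  have hne : ∀ m : ℕ, m ∣ 6 ^ 9 → m ≠ 1 → ((m : ℕ) : ZMod p) ≠ 0 := by
    intro m hm _ h0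
    rw [ZMod.natCast_eq_zero_iff] at h0
    have h1 := hp.out.dvd_of_dvd_pow (h0.trans hm)
    have h2 : p ≤ 6 := Nat.le_of_dvd (by norm_num) h1
    interval_cases p
    · norm_num at h1
    · exact absurd hp.out (by norm_num)
  have h6 : (6 : ZMod p) ≠ 0 := by exact_mod_cast hne 6 (by norm_num) (by norm_num)
  have h27 : (27 : ZMod p) ≠ 0 := by exact_mod_cast hne 27 (by norm_num) (by norm_num)
  have h54 : (54 : ZMod p) ≠ 0 := by exact_mod_cast hne 54 (by norm_num) (by norm_num)
  have hc : (-a / 27) ^ 3 - (-b / 54) ^ 2 ≠ 0 := by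
    intro h0
    apply h
    have e : (27 : ZMod p) ^ 3 * 54 ^ 2 * ((-a / 27) ^ 3 - (-b / 54) ^ 2) = - 729 * (4 * a ^ 3 + 27 * b ^ 2) := by
      field_simp
      ring
    rw [h0, mul_zero] at e
    have h729 : (729 : ZMod p) ≠ 0 := by exact_mod_cast hne 729 (by norm_num) (by norm_num)
    have h1 : (-729 : ZMod p) ≠ 0 := neg_ne_zero.2 h729
    exact (mul_eq_zero.1 e.symm).resolve_left h1
  have h1 := Pool.Agent.H341R2.EC.csum_bound h6 hc
  have h2 : p ≠ 2 := by omega
  have h3 : tz p a b = - Pool.Agent.H341R2.EC.csum (-a / 27) (-b / 54) := by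
    rw [tz_eq p h2]
    unfold Pool.Agent.H341R2.EC.csum
    congr 1
    apply sum_congr rfl
    intro x _
    rw [Pool.Agent.H341R2.EC.cub_eval]
    congr 1
    field_simp
    ring
  rw [h3, ZMod.card] at *
  push_cast
  rw [neg_sq, ← sq_abs]
  calc _ ≤ (2 * √(p : ℝ)) ^ 2 := by
        apply pow_le_pow_left₀ (abs_nonneg _)
        exact h1
    _ = 4 * p := by
        rw [mul_pow, Real.sq_sqrt (Nat.cast_nonneg _)]
        norm_num

lemma range_card (a b : ℤ) : ((range p ×ˢ range p).filter (fun q : ℕ × ℕ =>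
    (q.2 : ZMod p) ^ 2 = (q.1 : ZMod p) ^ 3 + (a : ZMod p) * (q.1 : ZMod p) + (b : ZMod p))).card = np p (a : ZMod p) (b : ZMod p) := by
  unfold np
  apply card_bij (fun q _ => ((q.1 : ZMod p), (q.2 : ZMod p)))
  · intro q hq
    rw [mem_filter] at hq ⊢
    exact ⟨mem_univ _, hq.2⟩
  · intro q hq q' hq' h
    rw [mem_filter, mem_product, mem_range, mem_range] at hq hq'
    simp only [Prod.mk.injEq] at h
    have h1 := (ZMod.natCast_eq_natCast_iff _ _ _).1 h.1
    have h2 := (ZMod.natCast_eq_natCast_iff _ _ _).1 h.2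
    exact Prod.ext (Nat.ModEq.eq_of_lt_of_lt h1 hq.1.1 hq'.1.1) (Nat.ModEq.eq_of_lt_of_lt h2 hq.1.2 hq'.1.2)
  · intro q hq
    rw [mem_filter] at hq
    refine ⟨(q.1.val, q.2.val), ?_, ?_⟩
    · rw [mem_filter, mem_product, mem_range, mem_range]
      refine ⟨⟨ZMod.val_lt _, ZMod.val_lt _⟩, ?_⟩
      rw [ZMod.natCast_zmod_val, ZMod.natCast_zmod_val]
      exact hq.2
    · simp only [ZMod.natCast_zmod_val]

lemma apAt_tz (a b : ℤ) : apAt a b p = if (p : ℤ) ∣ 2 * (4 * a ^ 3 + 27 * b ^ 2) then 0 else tz p (a : ZMod p) (b : ZMod p) := by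
  unfold apAt tz
  rw [range_card]

lemma dvd_iff (h2 : p ≠ 2) (a b : ℤ) : ((p : ℤ) ∣ 2 * (4 * a ^ 3 + 27 * b ^ 2)) ↔ 4 * (a : ZMod p) ^ 3 + 27 * (b : ZMod p) ^ 2 = 0 := by
  rw [← ZMod.intCast_zmod_eq_zero_iff_dvd]
  push_cast
  have h20 : (2 : ZMod p) ≠ 0 := by
    intro h
    have h1 : ((2 : ℕ) : ZMod p) = 0 := by exact_mod_cast h
    rw [ZMod.natCast_eq_zero_iff] at h1
    exact h2 ((Nat.prime_dvd_prime_iff_eq hp.out Nat.prime_two).1 h1)
  rw [mul_eq_zero]
  constructor
  · rintro (h | h)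
    · exact absurd h h20
    · exact h
  · intro h
    right
    exact h

lemma ap_sq (a b : ℤ) : (apAt a b p) ^ 2 < 4 * p := by
  have hp0 : (0 : ℤ) < p := by exact_mod_cast hp.out.pos
  rw [apAt_tz]
  split_ifs with hd
  · simp
    exact hp.out.pos
  · by_cases h2 : p = 2
    · exfalso
      apply hd
      rw [h2]
      exact Dvd.intro _ rfl
    · have h3 : 3 ≤ p := by
        have := hp.out.two_le
        omega
      rcases Nat.lt_or_ge p 5 with h5 | h5
      · have hp3 : p = 3 := by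
          interval_cases p
          · rfl
          · exact absurd hp.out (by norm_num)
        have h1 : |tz p (a : ZMod p) (b : ZMod p)| ≤ 3 := by
          rw [tz_eq p h2, abs_neg]
          refine (abs_sum_le_sum_abs _ _).trans ?_
          calc ∑ x : ZMod p, |quadraticChar (ZMod p) (x ^ 3 + (a : ZMod p) * x + (b : ZMod p))| ≤ ∑ _x : ZMod p, (1 : ℤ) := by
                apply sum_le_sum
                intro x _
                by_cases h0 : x ^ 3 + (a : ZMod p) * x + (b : ZMod p) = 0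
                · rw [h0, MulChar.map_zero]
                  simp
                · rcases quadraticChar_dichotomy h0 with h4 | h4 <;> rw [h4] <;> simp
            _ = 3 := by
                rw [sum_const, card_univ, ZMod.card, hp3]
                simp
        have h4 : (tz p (a : ZMod p) (b : ZMod p)) ^ 2 ≤ 3 ^ 2 := by
          rw [← sq_abs]
          exact pow_le_pow_left₀ (abs_nonneg _) h1 2
        have h6 : (p : ℤ) = 3 := by exact_mod_cast hp3
        rw [h6]
        linarith
      · have h1 := hasse p h5 (a : ZMod p) (b : ZMod p) (fun h0 => hd ((dvd_iff p h2 a b).2 h0))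
        have h4 : (tz p (a : ZMod p) (b : ZMod p)) ^ 2 ≤ 4 * p := by exact_mod_cast h1
        rcases h4.lt_or_eq with h6 | h6
        · exact h6
        · exfalso
          have hpp : Prime (p : ℤ) := Nat.prime_iff_prime_int.1 hp.out
          have h7 : (p : ℤ) ∣ tz p (a : ZMod p) (b : ZMod p) := by
            apply hpp.dvd_of_dvd_pow (n := 2)
            rw [h6]
            exact Dvd.intro_left _ rfl
          obtain ⟨m, hm⟩ := h7
          rw [hm] at h6
          have h8 : (p : ℤ) * m ^ 2 = 4 := by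
            have : (p : ℤ) * ((p : ℤ) * m ^ 2) = p * 4 := by linear_combination h6
            exact mul_left_cancel₀ hp0.ne' this
          have h9 : (p : ℤ) ∣ 4 := Dvd.intro _ h8
          have h10 : (p : ℤ) ≤ 4 := Int.le_of_dvd (by norm_num) h9
          have h11 : (5 : ℤ) ≤ p := by exact_mod_cast h5
          omega

end hasse

lemma pn_prime (k : ℕ) : (pn k).Prime := Nat.prime_nth_prime k

lemma angle_lt_one (a b : ℤ) (k : ℕ) : angle a b k < 1 := by
  haveI : Fact (pn k).Prime := ⟨pn_prime k⟩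
  have h1 := ap_sq (pn k) a b
  have hp0 : (0 : ℝ) < pn k := by exact_mod_cast (pn_prime k).pos
  have hs := Real.sqrt_pos.2 hp0
  have hpi := Real.pi_pos
  have h2 : (-1 : ℝ) < (apAt a b (pn k) : ℝ) / (2 * √(pn k : ℝ)) := by
    rw [lt_div_iff₀ (by positivity)]
    have h3 : ((apAt a b (pn k) : ℝ)) ^ 2 < (2 * √(pn k : ℝ)) ^ 2 := by
      rw [mul_pow, Real.sq_sqrt hp0.le]
      have : ((apAt a b (pn k) : ℝ)) ^ 2 < 4 * (pn k : ℝ) := by exact_mod_cast h1
      linarith
    have h4 := (abs_lt.1 (abs_lt_of_sq_lt_sq h3 (by positivity))).1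
    linarith
  unfold angle
  rw [div_lt_one hpi]
  refine lt_of_le_of_ne (Real.arccos_le_pi _) ?_
  intro h
  rw [Real.arccos_eq_pi] at h
  linarith

lemma angle_lt_half (a b : ℤ) (k : ℕ) : angle a b k < 1 / 2 ↔ 0 < apAt a b (pn k) := by
  have hp0 : (0 : ℝ) < pn k := by exact_mod_cast (pn_prime k).pos
  have hs := Real.sqrt_pos.2 hp0
  have hpi := Real.pi_pos
  unfold angle
  rw [div_lt_iff₀ hpi, one_div_mul_eq_div, Real.arccos_lt_pi_div_two]
  constructor
  · intro h
    by_contra h1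
    push Not at h1
    have h2 : (apAt a b (pn k) : ℝ) ≤ 0 := by exact_mod_cast h1
    have h3 : (apAt a b (pn k) : ℝ) / (2 * √(pn k : ℝ)) ≤ 0 := div_nonpos_of_nonpos_of_nonneg h2 (by positivity)
    linarith
  · intro h
    have h2 : (0 : ℝ) < (apAt a b (pn k) : ℝ) := by exact_mod_cast h
    positivity

lemma st_eq (w : ℝ) : stMeasure w = w - Real.sin (Real.pi * w) * Real.cos (Real.pi * w) / Real.pi := by
  unfold stMeasure
  rw [intervalIntegral.integral_const_mul, intervalIntegral.integral_comp_mul_left (fun x => Real.sin x ^ 2) Real.pi_ne_zero,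
    integral_sin_sq]
  simp only [mul_zero, Real.sin_zero, zero_mul, smul_eq_mul]
  have := Real.pi_ne_zero
  field_simp
  ring

lemma st_half : stMeasure (1 / 2) = 1 / 2 := by
  rw [st_eq]
  have : Real.pi * (1 / 2) = Real.pi / 2 := by ring
  rw [this, Real.cos_pi_div_two]
  simp

lemma st_one : stMeasure 1 = 1 := by
  rw [st_eq, mul_one, Real.sin_pi]
  simp

lemma st_abs (w : ℝ) (h0 : 0 ≤ w) (h1 : w ≤ 1) : |stMeasure w| ≤ 2 := by
  rw [st_eq]
  have hpi := Real.pi_gt_three
  have h2 : |Real.sin (Real.pi * w) * Real.cos (Real.pi * w) / Real.pi| ≤ 1 := by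
    rw [abs_div, abs_mul, abs_of_pos Real.pi_pos, div_le_one Real.pi_pos]
    have h3 := Real.abs_sin_le_one (Real.pi * w)
    have h4 := Real.abs_cos_le_one (Real.pi * w)
    have h5 := abs_nonneg (Real.sin (Real.pi * w))
    have h6 := abs_nonneg (Real.cos (Real.pi * w))
    nlinarith
  have h3 := abs_sub w (Real.sin (Real.pi * w) * Real.cos (Real.pi * w) / Real.pi)
  rw [abs_of_nonneg h0] at h3
  linarith

open Classical in
lemma disc_ge (a b : ℤ) (s K : ℕ) (hs : 1 ≤ s) (hK : 1 ≤ K) :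
    |(((range K).filter (fun k => 0 < apAt a b (pn k))).card : ℝ) - K / 2| ≤ K * starDisc a b s K := by
  have hK0 : (0 : ℝ) < K := by exact_mod_cast hK
  obtain ⟨w, hw⟩ : ∃ w : Fin s → ℝ, w = fun i : Fin s => if (i : ℕ) = 0 then (1 / 2 : ℝ) else 1 := ⟨_, rfl⟩
  have hw01 : ∀ i, 0 ≤ w i ∧ w i ≤ 1 := by
    intro i
    rw [hw]
    simp only
    split_ifs <;> norm_num
  have hcount : boxCount a b s K w = ((range K).filter (fun k => 0 < apAt a b (pn k))).card := by
    unfold boxCount
    congr 1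
    apply filter_congr
    intro k _
    rw [hw]
    constructor
    · intro h
      have h1 := h ⟨0, hs⟩
      simp only [if_true, add_zero] at h1
      exact (angle_lt_half a b k).1 h1
    · intro h i
      simp only
      split_ifs with h0
      · rw [h0, add_zero]
        exact (angle_lt_half a b k).2 h
      · exact angle_lt_one a b _
  have hprod : ∏ i, stMeasure (w i) = 1 / 2 := by
    rw [hw]
    rw [prod_eq_single (⟨0, hs⟩ : Fin s)]
    · simp only [if_true]
      exact st_half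
    · intro i _ hi
      have h0 : (i : ℕ) ≠ 0 := fun h => hi (Fin.ext h)
      simp only [if_neg h0]
      exact st_one
    · intro h
      exact absurd (mem_univ _) h
  have hbdd : BddAbove {d | ∃ w : Fin s → ℝ, (∀ i, 0 ≤ w i ∧ w i ≤ 1) ∧
      d = |(boxCount a b s K w : ℝ) / K - ∏ i, stMeasure (w i)|} := by
    refine ⟨1 + 2 ^ s, ?_⟩
    rintro d ⟨w, hw, rfl⟩
    refine (abs_sub _ _).trans (add_le_add ?_ ?_)
    · rw [abs_div, abs_of_pos hK0, div_le_one hK0, abs_of_nonneg (Nat.cast_nonneg _)]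
      unfold boxCount
      have h1 := card_filter_le (range K) (fun k => ∀ i : Fin s, angle a b (k + i) < w i)
      rw [card_range] at h1
      exact_mod_cast h1
    · rw [abs_prod]
      calc ∏ i, |stMeasure (w i)| ≤ ∏ _i : Fin s, (2 : ℝ) := prod_le_prod (fun i _ => abs_nonneg _) fun i _ => st_abs _ (hw i).1 (hw i).2
        _ = 2 ^ s := by simp
  have h1 : |(boxCount a b s K w : ℝ) / K - ∏ i, stMeasure (w i)| ≤ starDisc a b s K := le_csSup hbdd ⟨w, hw01, rfl⟩
  rw [hcount, hprod] at h1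
  have h2 : |(((range K).filter (fun k => 0 < apAt a b (pn k))).card : ℝ) - K / 2| =
      K * |(((range K).filter (fun k => 0 < apAt a b (pn k))).card : ℝ) / K - 1 / 2| := by
    rw [← abs_of_pos hK0, ← abs_mul, abs_of_pos hK0]
    congr 1
    field_simp
  rw [h2]
  exact mul_le_mul_of_nonneg_left h1 hK0.le

end Pool.Agent.K4H16.CG
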