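import Pool.Agent.K4H16.CG.Om
import Pool.Agent.K4H16.CG.LTosc3

/-!
# The family of all curves `y² = x³ + a x + b`
-/

set_option autoImplicit false

namespace Pool.Agent.K4H16.CG

open Finset

/-- the family of all `y² = x³ + a x + b` -/
noncomputable def W0 : Fin 1 → WeierstrassCurve (MvPolynomial (Fin 2) ℤ) := fun _ => ⟨0, 0, 0, MvPolynomial.X 0, MvPolynomial.X 1⟩

/-- the indicator of a positive trace -/
noncomputable def φ0 : ℕ → (Fin 1 → Option ℤ) → ℝ := fun _ d => match d 0 with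
  | some a => if 0 < a then 1 else 0
  | none => 0

lemma φ0_abs (p : ℕ) (d : Fin 1 → Option ℤ) : |φ0 p d| ≤ 1 := by
  unfold φ0
  cases d 0 with
  | none => simp
  | some a =>
    simp only
    split_ifs <;> simp

lemma member_W0 (v : Fin 2 → ℤ) : member (W0 0) v = ⟨0, 0, 0, v 0, v 1⟩ := by
  unfold member W0 WeierstrassCurve.map
  simp

lemma loc_W0 (p : ℕ) (hp : p.Prime) (v : Fin 2 → ℤ) : loc W0 φ0 p v = if 0 < apAt (v 0) (v 1) p then 1 else 0 := by
  have hd : ((p : ℤ) ∣ (⟨0, 0, 0, v 0, v 1⟩ : WeierstrassCurve ℤ).Δ) ↔ ((p : ℤ) ∣ 2 * (4 * (v 0) ^ 3 + 27 * (v 1) ^ 2)) := by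
    have e : (⟨0, 0, 0, v 0, v 1⟩ : WeierstrassCurve ℤ).Δ = -(8 * (2 * (4 * (v 0) ^ 3 + 27 * (v 1) ^ 2))) := by
      unfold WeierstrassCurve.Δ WeierstrassCurve.b₂ WeierstrassCurve.b₄ WeierstrassCurve.b₆ WeierstrassCurve.b₈
      simp only
      ring
    rw [e, dvd_neg]
    constructor
    · intro h
      have hpp : Prime (p : ℤ) := Nat.prime_iff_prime_int.1 hp
      rcases hpp.dvd_or_dvd h with h1 | h1
      · have h2 : (p : ℤ) ∣ 2 ^ 3 := by norm_num; exact h1
        exact Dvd.dvd.mul_right (hpp.dvd_of_dvd_pow h2) _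
      · exact h1
    · intro h
      exact Dvd.dvd.mul_left h _
  have h1 : frob (member (W0 0) v) p = if (p : ℤ) ∣ 2 * (4 * (v 0) ^ 3 + 27 * (v 1) ^ 2) then none else
      some ((p : ℤ) - (((range p ×ˢ range p).filter (fun q : ℕ × ℕ =>
    (q.2 : ZMod p) ^ 2 = (q.1 : ZMod p) ^ 3 + ((v 0 : ℤ) : ZMod p) * (q.1 : ZMod p) + ((v 1 : ℤ) : ZMod p))).card : ℤ)) := by
    rw [member_W0]
    unfold frob
    simp only [hd]
    congr 2
    unfold tr
    congr 3
    apply filter_congr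
    intro q _
    simp
  unfold loc φ0
  have h2 : (fun i => frob (member (W0 i) v) p) 0 = frob (member (W0 0) v) p := rfl
  rw [h2, h1]
  unfold apAt
  split_ifs with h3 h4 h5
  · exact absurd h4 (lt_irrefl 0)
  · rfl
  · simp only
    rw [if_pos h5]
  · simp only
    rw [if_neg h5]

lemma meanMod_W0 (p : ℕ) (hp : p.Prime) (h5 : 5 ≤ p) : haveI : Fact p.Prime := ⟨hp⟩
    meanMod p (loc W0 φ0 p) = (posSet p).card / (p : ℝ) ^ 2 := by
  haveI : Fact p.Prime := ⟨hp⟩
  haveI : NeZero p := ⟨hp.ne_zero⟩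
  show meanMod p (loc W0 φ0 p) = (posSet p).card / (p : ℝ) ^ 2
  rw [meanMod_eq]
  unfold avg
  have h2 : p ≠ 2 := by omega
  have h1 : ∀ b : Fin 2 → ZMod p, loc W0 φ0 p (rep p b) = if (b 0, b 1) ∈ posSet p then 1 else 0 := by
    intro b
    rw [loc_W0 p hp, apAt_tz]
    have e : ∀ i, ((rep p b i : ℤ) : ZMod p) = b i := by
      intro i
      unfold rep
      push_cast
      exact ZMod.natCast_zmod_val _
    have hd := dvd_iff p h2 (rep p b 0) (rep p b 1)
    rw [e, e] at hd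
    rw [e, e]
    unfold posSet
    simp only [mem_filter, mem_univ, true_and]
    by_cases h3 : 4 * (b 0) ^ 3 + 27 * (b 1) ^ 2 = 0
    · rw [if_pos (hd.2 h3), if_neg (lt_irrefl 0), if_neg (fun h => h.1 h3)]
    · rw [if_neg (fun h => h3 (hd.1 h))]
      by_cases h4 : 0 < tz p (b 0) (b 1)
      · rw [if_pos h4, if_pos ⟨h3, h4⟩]
      · rw [if_neg h4, if_neg (fun h => h4 h.2)]
  rw [sum_congr rfl fun b _ => h1 b]
  have h3 : ∑ b : Fin 2 → ZMod p, (if (b 0, b 1) ∈ posSet p then (1 : ℝ) else 0) = ∑ q : ZMod p × ZMod p, (if q ∈ posSet p then (1 : ℝ) else 0) :=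
    Fintype.sum_equiv (finTwoArrowEquiv (ZMod p)) _ _ fun b => rfl
  rw [h3]
  have h4 : ∑ q : ZMod p × ZMod p, (if q ∈ posSet p then (1 : ℝ) else 0) = (posSet p).card := by
    rw [sum_boole]
    congr 2
    ext q
    simp
  rw [h4]
  simp [ZMod.card]

lemma vterm_W0 (p : ℕ) (hp : p.Prime) (h17 : 17 ≤ p) : 1 / 24 ≤ vterm W0 φ0 φ0 p := by
  haveI : Fact p.Prime := ⟨hp⟩
  have e : (fun c => loc W0 φ0 p c * loc W0 φ0 p c) = loc W0 φ0 p := by
    funext c
    rw [loc_W0 p hp]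
    split_ifs <;> norm_num
  unfold vterm
  rw [e, meanMod_W0 p hp (by omega)]
  obtain ⟨h1, h2⟩ := pos_bounds p (by omega)
  obtain ⟨S, hS⟩ : ∃ S : ℕ, S = (posSet p).card := ⟨_, rfl⟩
  rw [← hS] at h1 h2 ⊢
  have hp0 : (0 : ℝ) < p := by exact_mod_cast hp.pos
  have h17r : (17 : ℝ) ≤ p := by exact_mod_cast h17
  have e1 : ((p - 1 : ℕ) : ℝ) = (p : ℝ) - 1 := by
    rw [Nat.cast_sub hp.one_le]
    norm_num
  have h1r : (p : ℝ) * (p - 1) ≤ 6 * S + 6 * p := by
    rw [← e1]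
    exact_mod_cast h1
  have h2r : 2 * (S : ℝ) ≤ p * p := by exact_mod_cast h2
  obtain ⟨P, hP⟩ : ∃ P : ℝ, P = S / (p : ℝ) ^ 2 := ⟨_, rfl⟩
  rw [← hP]
  have h3 : P ≤ 1 / 2 := by
    rw [hP, div_le_iff₀ (by positivity)]
    nlinarith
  have h4 : 1 / 12 ≤ P := by
    rw [hP, le_div_iff₀ (by positivity)]
    nlinarith
  nlinarith

lemma cov_W0 (y : ℕ) : (Nat.primeCounting y : ℝ) ≤ 24 * (1 + cov W0 φ0 φ0 y) := by
  have h1 : (Nat.primeCounting y : ℝ) = ∑ p ∈ (range (y + 1)).filter Nat.Prime, (1 : ℝ) := by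
    rw [sum_const, nsmul_eq_mul, mul_one, Nat.primeCounting, Nat.primeCounting', Nat.count_eq_card_filter_range]
  have h2 : ∑ p ∈ (range (y + 1)).filter Nat.Prime, (1 : ℝ) ≤
      ∑ p ∈ (range (y + 1)).filter Nat.Prime, (24 * vterm W0 φ0 φ0 p + if p < 17 then 1 else 0) := by
    apply sum_le_sum
    intro p hp
    rw [mem_filter] at hp
    haveI : NeZero p := ⟨hp.2.ne_zero⟩
    split_ifs with h
    · have := vterm_nonneg W0 φ0 p
      linarith
    · push Not at h
      have := vterm_W0 p hp.2 h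
      linarith
  rw [sum_add_distrib, ← mul_sum, ← cov_eq] at h2
  have h3 : ∑ p ∈ (range (y + 1)).filter Nat.Prime, (if p < 17 then (1 : ℝ) else 0) ≤ 24 := by
    rw [sum_boole]
    have h4 : ((range (y + 1)).filter Nat.Prime).filter (fun p => p < 17) ⊆ range 17 := by
      intro p hp
      rw [mem_filter] at hp
      exact mem_range.2 hp.2
    have h5 := card_le_card h4
    rw [card_range] at h5
    have h6 : ((((range (y + 1)).filter Nat.Prime).filter (fun p => p < 17)).card : ℝ) ≤ 17 := by exact_mod_cast h5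
    linarith
  rw [h1]
  linarith

lemma sum_primes (f : ℕ → ℝ) (n : ℕ) : ∑ p ∈ (range n).filter Nat.Prime, f p = ∑ j ∈ range (Nat.count Nat.Prime n), f (Nat.nth Nat.Prime j) := by
  induction n with
  | zero => simp
  | succ n ih =>
    rw [range_add_one, filter_insert, Nat.count_succ]
    split_ifs with h
    · rw [sum_insert (by simp), ih, sum_range_succ, Nat.nth_count h]
      ring
    · rw [ih, add_zero]

lemma total_W0 (y : ℕ) (v : Fin 2 → ℤ) :
    total W0 φ0 y v = (((range (Nat.primeCounting y)).filter (fun k => 0 < apAt (v 0) (v 1) (pn k))).card : ℝ) := by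
  unfold total
  rw [sum_primes]
  have h1 : Nat.count Nat.Prime (y + 1) = Nat.primeCounting y := rfl
  rw [h1]
  have h2 : ∀ j, loc W0 φ0 (Nat.nth Nat.Prime j) v = if 0 < apAt (v 0) (v 1) (pn j) then 1 else 0 := fun j =>
    loc_W0 _ (Nat.prime_nth_prime j) v
  rw [sum_congr rfl fun j _ => h2 j, sum_boole]

lemma pc_strict (y z : ℕ) (hyz : y ≤ z) (h : cov W0 φ0 φ0 y < cov W0 φ0 φ0 z) : Nat.primeCounting y < Nat.primeCounting z := by
  have h1 : Nat.primeCounting y ≤ Nat.primeCounting z := Nat.monotone_primeCounting hyz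
  refine lt_of_le_of_ne h1 ?_
  intro h2
  have h3 : (range (y + 1)).filter Nat.Prime = (range (z + 1)).filter Nat.Prime := by
    apply eq_of_subset_of_card_le
    · apply filter_subset_filter
      exact range_subset_range.2 (by omega)
    · have e : ∀ n, ((range (n + 1)).filter Nat.Prime).card = Nat.primeCounting n := by
        intro n
        rw [Nat.primeCounting, Nat.primeCounting', Nat.count_eq_card_filter_range]
      rw [e, e, h2]
  rw [cov_eq, cov_eq, h3] at h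
  exact lt_irrefl _ h

lemma cov_W0_le (y : ℕ) : cov W0 φ0 φ0 y ≤ Nat.primeCounting y := by
  have h1 : (Nat.primeCounting y : ℝ) = ∑ p ∈ (range (y + 1)).filter Nat.Prime, (1 : ℝ) := by
    rw [sum_const, nsmul_eq_mul, mul_one, Nat.primeCounting, Nat.primeCounting', Nat.count_eq_card_filter_range]
  rw [h1, cov_eq]
  apply sum_le_sum
  intro p hp
  rw [mem_filter] at hp
  haveI : NeZero p := ⟨hp.2.ne_zero⟩
  exact vterm_le W0 φ0 φ0_abs p

lemma pc_pn (K : ℕ) (hK : 1 ≤ K) : Nat.primeCounting (pn (K - 1)) = K := by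
  have h1 : Nat.primeCounting' (pn (K - 1)) = K - 1 := Nat.primeCounting'_nth_eq (K - 1)
  have h2 : Nat.primeCounting (pn (K - 1)) = Nat.primeCounting' (pn (K - 1) + 1) := rfl
  rw [h2]
  unfold Nat.primeCounting' at h1 ⊢
  rw [Nat.count_succ, h1, if_pos (pn_prime (K - 1))]
  omega

lemma pn_le (K : ℕ) (hK : 1 ≤ K) : (pn (K - 1) : ℝ) ≤ 40 * (K * Real.log (K + 1)) := by
  set P : ℕ := pn (K - 1) with hP
  have hP2 : (2 : ℝ) ≤ P := by exact_mod_cast (pn_prime (K - 1)).two_le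
  have hpi : Nat.primeCounting P = K := pc_pn K hK
  have hge := Chebyshev.pi_ge P
  rw [hpi] at hge
  have hlogP : 0 < Real.log P := Real.log_pos (by linarith)
  have hK1 : (1 : ℝ) ≤ K := by exact_mod_cast hK
  rw [div_le_iff₀ hlogP] at hge
  have hlog1 : Real.log (P + 1) ≤ 2 * Real.log P := by
    rw [← Real.log_rpow (by linarith)]
    apply Real.log_le_log (by linarith)
    norm_num
    nlinarith
  have hl2 : (0.6931471803 : ℝ) < Real.log 2 := Real.log_two_gt_d9
  have h1 : (P : ℝ) * Real.log 2 ≤ 3 * K * Real.log P := by nlinarith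
  have h2 : (P : ℝ) ≤ 4.4 * K * Real.log P := by nlinarith
  -- first crude bound
  have hs : Real.log P ≤ 2 * √(P : ℝ) := by
    have h3 : Real.log (√(P : ℝ)) ≤ √(P : ℝ) - 1 :=
      Real.log_le_sub_one_of_pos (Real.sqrt_pos.2 (by linarith))
    rw [Real.log_sqrt (by linarith)] at h3
    linarith
  have hsq : √(P : ℝ) * √(P : ℝ) = P := Real.mul_self_sqrt (by linarith)
  have hspos : 0 < √(P : ℝ) := Real.sqrt_pos.2 (by linarith)
  have h4 : √(P : ℝ) ≤ 9 * K := by
    have : √(P : ℝ) * √(P : ℝ) ≤ (9 * K) * √(P : ℝ) := by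
      rw [hsq]
      nlinarith
    exact le_of_mul_le_mul_right this hspos
  have h5 : (P : ℝ) ≤ 81 * (K + 1) ^ 2 := by
    rw [← hsq]
    nlinarith
  have h6 : Real.log P ≤ 9 * Real.log (K + 1) := by
    have h7 : Real.log P ≤ Real.log (81 * (K + 1) ^ 2) := Real.log_le_log (by linarith) h5
    rw [Real.log_mul (by norm_num) (by positivity), Real.log_pow] at h7
    have h8 : Real.log 81 ≤ 7 * Real.log 2 := by
      rw [show (7 : ℝ) * Real.log 2 = Real.log (2 ^ 7) by rw [Real.log_pow]; norm_num]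
      exact Real.log_le_log (by norm_num) (by norm_num)
    have h9 : Real.log 2 ≤ Real.log (K + 1) := Real.log_le_log (by norm_num) (by linarith)
    push_cast at h7
    linarith
  have h10 : 0 ≤ (K : ℝ) := by linarith
  nlinarith [mul_le_mul_of_nonneg_left h6 h10, Real.log_nonneg (show (1 : ℝ) ≤ K + 1 by linarith)]

lemma pn_le_pow (K : ℕ) (hK : 7 ≤ K) : pn (K - 1) ≤ K ^ 4 := by
  have h1 := pn_le K (by omega)
  have hK7 : (7 : ℝ) ≤ K := by exact_mod_cast hK
  have h2 : Real.log ((K : ℝ) + 1) ≤ K := by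
    have := Real.log_le_sub_one_of_pos (show (0 : ℝ) < (K : ℝ) + 1 by linarith)
    linarith
  have h3 : (pn (K - 1) : ℝ) ≤ (K : ℝ) ^ 4 := by
    calc (pn (K - 1) : ℝ) ≤ 40 * (K * Real.log (K + 1)) := h1
      _ ≤ 40 * (K * K) := by gcongr
      _ ≤ (K * K) * (K * K) := by
          apply mul_le_mul_of_nonneg_right _ (by positivity)
          nlinarith
      _ = (K : ℝ) ^ 4 := by ring
  exact_mod_cast h3

open Classical in
/-- the theorem -/
theorem omega_main (k : ℕ) (B ε : ℝ) (hε : 0 < ε) : ∃ (A X : ℕ) (κ : ℝ), 0 < κ ∧ ∀ K₀ : ℕ, X ≤ K₀ →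
    ∀ (c : ℕ → ℝ) (M : Fin 2 → ℤ) (N : Fin 2 → ℕ), (∀ i, K₀ ^ A ≤ N i) →
      (((box M N).filter (fun v => ¬ k ≤ ((Icc 1 K₀).filter (fun K : ℕ => κ * K₀ ≤ K ∧
        B * √K ≤ |(((range K).filter (fun j => 0 < apAt (v 0) (v 1) (pn j))).card : ℝ) - c K|)).card)).card : ℝ) ≤
        ε * (box M N).card := by
  obtain ⟨A, κ, V₀, hκ, H⟩ := family_omega 2 k (5 * max B 0) ε hε
  obtain ⟨X, hX⟩ := exists_nat_ge (24 * (1 + V₀))
  refine ⟨4 * A, max X 48, κ / 48, by positivity, ?_⟩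
  intro K₀ hK₀ c M N hN
  obtain ⟨x, hx⟩ : ∃ x : ℕ, x = pn (K₀ - 1) := ⟨_, rfl⟩
  have hK48 : 48 ≤ K₀ := (le_max_right _ _).trans hK₀
  have hKr : (48 : ℝ) ≤ K₀ := by exact_mod_cast hK48
  have hpc : Nat.primeCounting x = K₀ := by rw [hx]; exact pc_pn K₀ (by omega)
  have hxle : x ≤ K₀ ^ 4 := by rw [hx]; exact pn_le_pow K₀ (by omega)
  have hcov := cov_W0 x
  rw [hpc] at hcov
  have hV : V₀ ≤ cov W0 φ0 φ0 x := by
    have h1 : (X : ℝ) ≤ K₀ := by exact_mod_cast (le_max_left _ _).trans hK₀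
    linarith
  have hN' : ∀ i, x ^ A ≤ N i := by
    intro i
    refine le_trans ?_ (hN i)
    rw [pow_mul]
    exact Nat.pow_le_pow_left hxle A
  have h1 := H 1 W0 φ0 φ0_abs (fun y => c (Nat.primeCounting y)) x M N hN' hV
  refine le_trans ?_ h1
  have hsub : (box M N).filter (fun v => ¬ k ≤ ((Icc 1 K₀).filter (fun K : ℕ => κ / 48 * K₀ ≤ K ∧
        B * √K ≤ |(((range K).filter (fun j => 0 < apAt (v 0) (v 1) (pn j))).card : ℝ) - c K|)).card) ⊆
      (box M N).filter (fun v => ¬ ∃ y : Fin k → ℕ, StrictMono y ∧ StrictMono (fun i => cov W0 φ0 φ0 (y i)) ∧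
          (∀ i, y i ≤ x ∧ κ * cov W0 φ0 φ0 x ≤ cov W0 φ0 φ0 (y i)) ∧
          ∀ i, 5 * max B 0 * √(1 + cov W0 φ0 φ0 (y i)) ≤ |total W0 φ0 (y i) v - c (Nat.primeCounting (y i))|) := by
    intro v hv
    rw [mem_filter] at hv ⊢
    refine ⟨hv.1, fun hex => hv.2 ?_⟩
    obtain ⟨y, h2, h3, h4, h5⟩ := hex
    have hmono : StrictMono (fun i => Nat.primeCounting (y i)) := fun i j hij =>
      pc_strict _ _ (h2 hij).le (h3 hij)
    have h6 : ((univ : Finset (Fin k)).image (fun i => Nat.primeCounting (y i))).card = k := by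
      rw [card_image_of_injective _ hmono.injective, card_univ, Fintype.card_fin]
    have h7 : (univ : Finset (Fin k)).image (fun i => Nat.primeCounting (y i)) ⊆
        (Icc 1 K₀).filter (fun K : ℕ => κ / 48 * K₀ ≤ K ∧
          B * √K ≤ |(((range K).filter (fun j => 0 < apAt (v 0) (v 1) (pn j))).card : ℝ) - c K|) := by
      intro K hK
      rw [mem_image] at hK
      obtain ⟨i, _, rfl⟩ := hK
      have hlow : κ / 48 * K₀ ≤ (Nat.primeCounting (y i) : ℝ) := by
        refine le_trans ?_ ((h4 i).2.trans (cov_W0_le _))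
        have h8 : (K₀ : ℝ) / 48 ≤ cov W0 φ0 φ0 x := by linarith
        calc κ / 48 * K₀ = κ * (K₀ / 48) := by ring
          _ ≤ κ * cov W0 φ0 φ0 x := mul_le_mul_of_nonneg_left h8 hκ.le
      rw [mem_filter, mem_Icc]
      refine ⟨⟨?_, ?_⟩, hlow, ?_⟩
      · have h8 : (0 : ℝ) < (Nat.primeCounting (y i) : ℝ) := lt_of_lt_of_le (by positivity) hlow
        exact_mod_cast h8
      · rw [← hpc]
        exact Nat.monotone_primeCounting (h4 i).1
      · have h8 := h5 i
        rw [total_W0] at h8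
        refine le_trans ?_ h8
        have h9 := cov_W0 (y i)
        have h10 : √(Nat.primeCounting (y i) : ℝ) ≤ 5 * √(1 + cov W0 φ0 φ0 (y i)) := by
          have h11 : 0 ≤ 1 + cov W0 φ0 φ0 (y i) := by
            have : (0 : ℝ) ≤ (Nat.primeCounting (y i) : ℝ) := Nat.cast_nonneg _
            linarith
          rw [Real.sqrt_le_left (by positivity), mul_pow, Real.sq_sqrt h11]
          linarith
        have h12 : B * √(Nat.primeCounting (y i) : ℝ) ≤ max B 0 * √(Nat.primeCounting (y i) : ℝ) :=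
          mul_le_mul_of_nonneg_right (le_max_left _ _) (Real.sqrt_nonneg _)
        have h13 : max B 0 * √(Nat.primeCounting (y i) : ℝ) ≤ max B 0 * (5 * √(1 + cov W0 φ0 φ0 (y i))) :=
          mul_le_mul_of_nonneg_left h10 (le_max_right _ _)
        linarith
    have h8 := card_le_card h7
    rw [h6] at h8
    exact h8
  exact_mod_cast card_le_card hsub

end Pool.Agent.K4H16.CG
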