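import Pool.Agent.K4H16.CG.OmDefs

/-!
# The discrepancy of the sequence of the angles of an elliptic curve over `ℚ`
-/

set_option autoImplicit false

namespace Pool.Agent.K4H16.CG

open Finset

/-- `x` is the sequence of the angles of the elliptic curve over `ℚ` with the equation `y² = x³ + a x + b`, except that nothing is
required at the primes `2` and `3` and at the primes `p` at which this equation is not minimal (`p⁴ ∣ a` and `p⁶ ∣ b`). -/
def IsAngles (a b : ℤ) (x : ℕ → ℝ) : Prop :=
  ∀ k, 5 ≤ pn k → ¬ ((pn k : ℤ) ^ 4 ∣ a ∧ (pn k : ℤ) ^ 6 ∣ b) → x k = angle a b k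

open Classical in
/-- The number of the `k < K` for which `(x k, …, x (k + s - 1))` is in the box `[0, w 0) × … × [0, w (s - 1))`. -/
noncomputable def boxNumber (x : ℕ → ℝ) (s K : ℕ) (w : Fin s → ℝ) : ℕ :=
  ((range K).filter (fun k => ∀ i : Fin s, x (k + i) < w i)).card

/-- The star discrepancy of `(x k, …, x (k + s - 1))`, `k < K`, with respect to the `s`-fold Sato–Tate measure. -/
noncomputable def discrepancy (x : ℕ → ℝ) (s K : ℕ) : ℝ :=
  sSup {d | ∃ w : Fin s → ℝ, (∀ i, 0 ≤ w i ∧ w i ≤ 1) ∧ d = |(boxNumber x s K w : ℝ) / K - ∏ i, stMeasure (w i)|}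

end Pool.Agent.K4H16.CG
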