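import Pool.Agent.K4H16.CG.Om2
import Pool.Agent.K4H16.CG.OmDefs2

/-!
# The angles of the curves over `ℚ`
-/

set_option autoImplicit false

namespace Pool.Agent.K4H16.CG

open Finset

open Classical in
lemma disc_ge' (a b : ℤ) (x : ℕ → ℝ) (hx : IsAngles a b x) (s K : ℕ) (hs : 1 ≤ s) (hK : 1 ≤ K) :
    |(((range K).filter (fun k => 0 < apAt a b (pn k))).card : ℝ) - K / 2| ≤ K * discrepancy x s K +
      s * (2 + ((range (K + s)).filter (fun k => (pn k : ℤ) ^ 4 ∣ a)).card) := by
  have hK0 : (0 : ℝ) < K := by exact_mod_cast hK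
  obtain ⟨w, hw⟩ : ∃ w : Fin s → ℝ, w = fun i : Fin s => if (i : ℕ) = 0 then (1 / 2 : ℝ) else 1 := ⟨_, rfl⟩
  have hw01 : ∀ i, 0 ≤ w i ∧ w i ≤ 1 := by
    intro i
    rw [hw]
    simp only
    split_ifs <;> norm_num
  have hcount : boxCount a b s K w = ((range K).filter (fun k => 0 < apAt a b (pn k))).card := by
    unfold boxCount
    congr 1
    apply filter_congr
    intro k _
    rw [hw]
    constructor
    · intro h
      have h1 := h ⟨0, hs⟩
      simp only [if_true, add_zero] at h1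
      exact (angle_lt_half a b k).1 h1
    · intro h i
      simp only
      split_ifs with h0
      · rw [h0, add_zero]
        exact (angle_lt_half a b k).2 h
      · exact angle_lt_one a b _
  have hprod : ∏ i, stMeasure (w i) = 1 / 2 := by
    rw [hw]
    rw [prod_eq_single (⟨0, hs⟩ : Fin s)]
    · simp only [if_true]
      exact st_half
    · intro i _ hi
      have h0 : (i : ℕ) ≠ 0 := fun h => hi (Fin.ext h)
      simp only [if_neg h0]
      exact st_one
    · intro h
      exact absurd (mem_univ _) h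
  have hbdd : BddAbove {d | ∃ w : Fin s → ℝ, (∀ i, 0 ≤ w i ∧ w i ≤ 1) ∧
      d = |(boxNumber x s K w : ℝ) / K - ∏ i, stMeasure (w i)|} := by
    refine ⟨1 + 2 ^ s, ?_⟩
    rintro d ⟨w, hw, rfl⟩
    refine (abs_sub _ _).trans (add_le_add ?_ ?_)
    · rw [abs_div, abs_of_pos hK0, div_le_one hK0, abs_of_nonneg (Nat.cast_nonneg _)]
      unfold boxNumber
      have h1 := card_filter_le (range K) (fun k => ∀ i : Fin s, x (k + i) < w i)
      rw [card_range] at h1
      exact_mod_cast h1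
    · rw [abs_prod]
      calc ∏ i, |stMeasure (w i)| ≤ ∏ _i : Fin s, (2 : ℝ) := prod_le_prod (fun i _ => abs_nonneg _) fun i _ => st_abs _ (hw i).1 (hw i).2
        _ = 2 ^ s := by simp
  have h1 : |(boxNumber x s K w : ℝ) / K - ∏ i, stMeasure (w i)| ≤ discrepancy x s K := le_csSup hbdd ⟨w, hw01, rfl⟩
  rw [hprod] at h1
  -- the difference
  obtain ⟨E, hE⟩ : ∃ E : Finset ℕ, E = (range (K + s)).filter (fun k => pn k < 5 ∨ (pn k : ℤ) ^ 4 ∣ a) := ⟨_, rfl⟩
  have hEx : ∀ k, k < K + s → k ∉ E → x k = angle a b k := by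
    intro k hk hkE
    apply hx
    · by_contra h
      push Not at h
      exact hkE (by rw [hE, mem_filter, mem_range]; exact ⟨hk, Or.inl h⟩)
    · rintro ⟨h, _⟩
      exact hkE (by rw [hE, mem_filter, mem_range]; exact ⟨hk, Or.inr h⟩)
  have hEc : E.card ≤ 2 + ((range (K + s)).filter (fun k => (pn k : ℤ) ^ 4 ∣ a)).card := by
    have h2 : E ⊆ range 2 ∪ (range (K + s)).filter (fun k => (pn k : ℤ) ^ 4 ∣ a) := by
      intro k hk
      rw [hE, mem_filter] at hk
      rw [mem_union, mem_filter, mem_range]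
      rcases hk.2 with h | h
      · left
        have h3 : k + 2 ≤ pn k := Nat.add_two_le_nth_prime k
        by_contra h4
        have h5 : k = 2 := by omega
        have h6 : pn 2 = 5 := Nat.nth_prime_two_eq_five
        rw [h5, h6] at h
        exact absurd h (lt_irrefl 5)
      · exact Or.inr ⟨hk.1, h⟩
    calc E.card ≤ _ := card_le_card h2
      _ ≤ _ := card_union_le _ _
      _ = _ := by rw [card_range]
  have hdiff : |((boxNumber x s K w : ℝ)) - ((range K).filter (fun k => 0 < apAt a b (pn k))).card| ≤ s * E.card := by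
    rw [← hcount]
    obtain ⟨F, hF⟩ : ∃ F : Finset ℕ, F = (range K).filter (fun k => ∃ i : Fin s, k + (i : ℕ) ∈ E) := ⟨_, rfl⟩
    have hFc : F.card ≤ s * E.card := by
      have h2 : F ⊆ (univ : Finset (Fin s)).biUnion (fun i => E.image (fun e : ℕ => e - (i : ℕ))) := by
        intro k hk
        rw [hF, mem_filter] at hk
        obtain ⟨i, hi⟩ := hk.2
        rw [mem_biUnion]
        refine ⟨i, mem_univ _, ?_⟩
        rw [mem_image]
        exact ⟨k + i, hi, by omega⟩
      calc F.card ≤ _ := card_le_card h2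
        _ ≤ ∑ i : Fin s, (E.image (fun e : ℕ => e - (i : ℕ))).card := card_biUnion_le
        _ ≤ ∑ _i : Fin s, E.card := sum_le_sum fun i _ => card_image_le
        _ = s * E.card := by simp
    have key : ∀ k, k < K → k ∉ F → ((∀ i : Fin s, x (k + i) < w i) ↔ ∀ i : Fin s, angle a b (k + i) < w i) := by
      intro k hk hkF
      have h2 : ∀ i : Fin s, x (k + i) = angle a b (k + i) := by
        intro i
        apply hEx
        · have := i.isLt
          omega
        · intro h
          exact hkF (by rw [hF, mem_filter, mem_range]; exact ⟨hk, i, h⟩)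
      simp only [h2]
    have h2 : boxNumber x s K w ≤ boxCount a b s K w + F.card := by
      unfold boxNumber boxCount
      refine (card_le_card (t := (range K).filter (fun k => ∀ i : Fin s, angle a b (k + i) < w i) ∪ F) ?_).trans (card_union_le _ _)
      intro k hk
      rw [mem_filter] at hk
      rw [mem_union]
      by_cases hkF : k ∈ F
      · exact Or.inr hkF
      · left
        rw [mem_filter]
        exact ⟨hk.1, (key k (mem_range.1 hk.1) hkF).1 hk.2⟩
    have h3 : boxCount a b s K w ≤ boxNumber x s K w + F.card := by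
      unfold boxNumber boxCount
      refine (card_le_card (t := (range K).filter (fun k => ∀ i : Fin s, x (k + i) < w i) ∪ F) ?_).trans (card_union_le _ _)
      intro k hk
      rw [mem_filter] at hk
      rw [mem_union]
      by_cases hkF : k ∈ F
      · exact Or.inr hkF
      · left
        rw [mem_filter]
        exact ⟨hk.1, (key k (mem_range.1 hk.1) hkF).2 hk.2⟩
    have h2r : (boxNumber x s K w : ℝ) ≤ boxCount a b s K w + F.card := by exact_mod_cast h2
    have h3r : (boxCount a b s K w : ℝ) ≤ boxNumber x s K w + F.card := by exact_mod_cast h3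
    have h4r : (F.card : ℝ) ≤ s * E.card := by exact_mod_cast hFc
    rw [abs_le]
    constructor <;> linarith
  have h2 : |(boxNumber x s K w : ℝ) - K / 2| = K * |(boxNumber x s K w : ℝ) / K - 1 / 2| := by
    rw [← abs_of_pos hK0, ← abs_mul, abs_of_pos hK0]
    congr 1
    field_simp
  have h3 : |(boxNumber x s K w : ℝ) - K / 2| ≤ K * discrepancy x s K := by
    rw [h2]
    exact mul_le_mul_of_nonneg_left h1 hK0.le
  have h4 : (s : ℝ) * E.card ≤ s * (2 + ((range (K + s)).filter (fun k => (pn k : ℤ) ^ 4 ∣ a)).card) := by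
    apply mul_le_mul_of_nonneg_left _ (Nat.cast_nonneg _)
    exact_mod_cast hEc
  have h5 := abs_sub_abs_le_abs_sub (((range K).filter (fun k => 0 < apAt a b (pn k))).card - (K : ℝ) / 2) ((boxNumber x s K w : ℝ) - K / 2)
  have h6 : ((((range K).filter (fun k => 0 < apAt a b (pn k))).card : ℝ) - (K : ℝ) / 2) - ((boxNumber x s K w : ℝ) - K / 2) =
      -((boxNumber x s K w : ℝ) - ((range K).filter (fun k => 0 < apAt a b (pn k))).card) := by ring
  rw [h6, abs_neg] at h5
  linarith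

lemma dvd_count (d : ℕ) (hd : 1 ≤ d) (M : ℤ) (N : ℕ) : (((Ioc M (M + N)).filter (fun a => (d : ℤ) ∣ a)).card : ℝ) ≤ N / d + 1 := by
  have hd0 : (0 : ℤ) < d := by exact_mod_cast hd
  have h1 := Int.Ioc_filter_dvd_card M (M + N) (r := (d : ℤ)) hd0
  have hdr : (0 : ℝ) < d := by exact_mod_cast hd
  have h3 : (0 : ℝ) ≤ N / d := by positivity
  have h2 : ((((Ioc M (M + N)).filter (fun a => (d : ℤ) ∣ a)).card : ℤ) : ℚ) ≤ N / d + 1 := by
    rw [h1]
    have h4 : ((⌊((M + N : ℤ) : ℚ) / ((d : ℤ) : ℚ)⌋ - ⌊(M : ℚ) / ((d : ℤ) : ℚ)⌋ : ℤ) : ℚ) ≤ N / d + 1 := by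
      push_cast
      have h5 := Int.floor_le (((M : ℚ) + N) / d)
      have h6 := Int.lt_floor_add_one ((M : ℚ) / d)
      have h7 : ((M : ℚ) + N) / d = M / d + N / d := add_div _ _ _
      rw [h7] at h5 ⊢
      linarith
    rw [Int.cast_max, Int.cast_zero]
    exact max_le h4 (by positivity)
  have h5 : (((Ioc M (M + N)).filter (fun a => (d : ℤ) ∣ a)).card : ℚ) ≤ N / d + 1 := by exact_mod_cast h2
  have h6 : ((((Ioc M (M + N)).filter (fun a => (d : ℤ) ∣ a)).card : ℚ) : ℝ) ≤ ((N / d + 1 : ℚ) : ℝ) := Rat.cast_le.2 h5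
  push_cast at h6
  exact h6

lemma sum_inv (Y : ℕ) : ∑ k ∈ range Y, (1 : ℝ) / ((pn k : ℝ) ^ 4) ≤ 1 := by
  have h1 : ∀ k, (1 : ℝ) / ((pn k : ℝ) ^ 4) ≤ 1 / (k + 1) - 1 / (k + 2) := by
    intro k
    have h2 : k + 2 ≤ pn k := Nat.add_two_le_nth_prime k
    have h3 : ((k : ℝ) + 2) ≤ pn k := by exact_mod_cast h2
    have hk : (0 : ℝ) ≤ k := Nat.cast_nonneg _
    have h4 : (1 : ℝ) / (k + 1) - 1 / (k + 2) = 1 / ((k + 1) * (k + 2)) := by
      field_simp
      ring
    rw [h4]
    apply one_div_le_one_div_of_le (by positivity)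
    calc ((k : ℝ) + 1) * (k + 2) ≤ (k + 2) ^ 4 := by nlinarith [sq_nonneg ((k : ℝ) + 2), mul_nonneg hk hk, mul_nonneg (mul_nonneg hk hk) hk]
      _ ≤ (pn k : ℝ) ^ 4 := pow_le_pow_left₀ (by positivity) h3 4
  calc _ ≤ ∑ k ∈ range Y, ((1 : ℝ) / (k + 1) - 1 / (k + 2)) := sum_le_sum fun k _ => h1 k
    _ = 1 - 1 / (Y + 1) := by
        induction Y with
        | zero => simp
        | succ Y ih =>
          rw [sum_range_succ, ih]
          push_cast
          ring
    _ ≤ 1 := by
        have : (0 : ℝ) ≤ 1 / ((Y : ℝ) + 1) := by positivity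
        linarith

open Classical in
lemma few_nonminimal (m Y : ℕ) (M : Fin 2 → ℤ) (N : Fin 2 → ℕ) (hN : Y ≤ N 0) :
    (m + 1 : ℝ) * ((box M N).filter (fun v => m < ((range Y).filter (fun k => (pn k : ℤ) ^ 4 ∣ v 0)).card)).card ≤ 2 * (box M N).card := by
  have hcard : ((box M N).card : ℝ) = N 0 * N 1 := by
    unfold box
    rw [Fintype.card_piFinset, Fin.prod_univ_two]
    simp
  have h1 : ∑ v ∈ box M N, (((range Y).filter (fun k => (pn k : ℤ) ^ 4 ∣ v 0)).card : ℝ) ≤ 2 * (box M N).card := by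
    have e1 : ∑ v ∈ box M N, (((range Y).filter (fun k => (pn k : ℤ) ^ 4 ∣ v 0)).card : ℝ) =
        ∑ k ∈ range Y, (((box M N).filter (fun v => (pn k : ℤ) ^ 4 ∣ v 0)).card : ℝ) := by
      simp only [card_filter]
      push_cast
      rw [sum_comm]
    rw [e1]
    have e2 : ∀ k, (((box M N).filter (fun v => (pn k : ℤ) ^ 4 ∣ v 0)).card : ℝ) ≤ (N 0 * (1 / (pn k : ℝ) ^ 4) + 1) * N 1 := by
      intro k
      have e3 : (box M N).filter (fun v => (pn k : ℤ) ^ 4 ∣ v 0) = Fintype.piFinset (fun i : Fin 2 =>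
          if i = 0 then (Ioc (M 0) (M 0 + N 0)).filter (fun a => (((pn k) ^ 4 : ℕ) : ℤ) ∣ a) else Ioc (M 1) (M 1 + N 1)) := by
        ext v
        unfold box
        rw [mem_filter, Fintype.mem_piFinset, Fintype.mem_piFinset, Fin.forall_fin_two, Fin.forall_fin_two]
        simp only [if_true, one_ne_zero, if_false, mem_filter]
        push_cast
        tauto
      rw [e3, Fintype.card_piFinset, Fin.prod_univ_two]
      simp only [if_true, one_ne_zero, if_false]
      push_cast
      have h3 := dvd_count ((pn k) ^ 4) (Nat.one_le_pow _ _ (pn_prime k).pos) (M 0) (N 0)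
      have h4 : ((Ioc (M 1) (M 1 + (N 1 : ℤ))).card : ℝ) = N 1 := by simp
      rw [h4]
      apply mul_le_mul_of_nonneg_right _ (Nat.cast_nonneg _)
      push_cast at h3
      rw [div_eq_mul_one_div] at h3
      exact h3
    calc ∑ k ∈ range Y, (((box M N).filter (fun v => (pn k : ℤ) ^ 4 ∣ v 0)).card : ℝ) ≤
        ∑ k ∈ range Y, (N 0 * (1 / (pn k : ℝ) ^ 4) + 1) * N 1 := sum_le_sum fun k _ => e2 k
      _ = (N 0 * (∑ k ∈ range Y, 1 / (pn k : ℝ) ^ 4) + Y) * N 1 := by
          rw [← sum_mul, sum_add_distrib, ← mul_sum]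
          simp
      _ ≤ (N 0 * 1 + N 0) * N 1 := by
          apply mul_le_mul_of_nonneg_right _ (Nat.cast_nonneg _)
          have h5 := sum_inv Y
          have h6 : (Y : ℝ) ≤ N 0 := by exact_mod_cast hN
          have h7 : (N 0 : ℝ) * (∑ k ∈ range Y, 1 / (pn k : ℝ) ^ 4) ≤ N 0 * 1 := mul_le_mul_of_nonneg_left h5 (Nat.cast_nonneg _)
          linarith
      _ = 2 * (box M N).card := by rw [hcard]; ring
  refine le_trans ?_ h1
  calc (m + 1 : ℝ) * ((box M N).filter (fun v => m < ((range Y).filter (fun k => (pn k : ℤ) ^ 4 ∣ v 0)).card)).card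
      = ∑ v ∈ (box M N).filter (fun v => m < ((range Y).filter (fun k => (pn k : ℤ) ^ 4 ∣ v 0)).card), (m + 1 : ℝ) := by
        rw [sum_const, nsmul_eq_mul]
        ring
    _ ≤ ∑ v ∈ (box M N).filter (fun v => m < ((range Y).filter (fun k => (pn k : ℤ) ^ 4 ∣ v 0)).card),
        (((range Y).filter (fun k => (pn k : ℤ) ^ 4 ∣ v 0)).card : ℝ) := by
        apply sum_le_sum
        intro v hv
        rw [mem_filter] at hv
        have := hv.2
        exact_mod_cast this
    _ ≤ _ := sum_le_sum_of_subset_of_nonneg (filter_subset _ _) fun _ _ _ => Nat.cast_nonneg _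

open Classical in
theorem omega_true (s k : ℕ) (hs : 1 ≤ s) (B ε : ℝ) (hε : 0 < ε) : ∃ (A X : ℕ) (κ : ℝ), 0 < κ ∧ ∀ K₀ : ℕ, X ≤ K₀ →
    ∀ (M : Fin 2 → ℤ) (N : Fin 2 → ℕ), (∀ i, K₀ ^ A ≤ N i) →
      (((box M N).filter (fun v => ¬ ∀ x : ℕ → ℝ, IsAngles (v 0) (v 1) x → k ≤ ((Icc 1 K₀).filter (fun K : ℕ =>
        κ * K₀ ≤ K ∧ B ≤ √K * discrepancy x s K)).card)).card : ℝ) ≤ ε * (box M N).card := by
  obtain ⟨m, hm⟩ := exists_nat_ge (4 / ε)
  obtain ⟨A, X, κ, hκ, H⟩ := omega_main k (B + s * (2 + m)) (ε / 2) (by positivity)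
  refine ⟨A + 2, X + s + 2, κ, hκ, ?_⟩
  intro K₀ hK₀ M N hN
  have hK2 : 2 ≤ K₀ := by omega
  have hNA : ∀ i, K₀ ^ A ≤ N i := fun i => (Nat.pow_le_pow_right (by omega) (by omega)).trans (hN i)
  have hNs : K₀ + s ≤ N 0 := by
    refine le_trans ?_ (hN 0)
    calc K₀ + s ≤ K₀ ^ 2 := by
          have h1 : s ≤ K₀ := by omega
          nlinarith
      _ ≤ K₀ ^ (A + 2) := Nat.pow_le_pow_right (by omega) (by omega)
  have h1 := H K₀ (by omega) (fun K => K / 2) M N hNA
  have h2 := few_nonminimal m (K₀ + s) M N hNs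
  have hs0 : (0 : ℝ) ≤ (box M N).card := Nat.cast_nonneg _
  have h3 : (((box M N).filter (fun v => m < ((range (K₀ + s)).filter (fun k => (pn k : ℤ) ^ 4 ∣ v 0)).card)).card : ℝ) ≤ ε / 2 * (box M N).card := by
    have hm0 : (0 : ℝ) < m + 1 := by positivity
    have h4 : 4 ≤ m * ε := by rwa [div_le_iff₀ hε] at hm
    have h5 : (m + 1 : ℝ) * (((box M N).filter (fun v => m < ((range (K₀ + s)).filter (fun k => (pn k : ℤ) ^ 4 ∣ v 0)).card)).card : ℝ) ≤
        (m + 1) * (ε / 2 * (box M N).card) := by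
      refine h2.trans ?_
      have : (m + 1 : ℝ) * (ε / 2 * (box M N).card) = (m * ε / 2 + ε / 2) * (box M N).card := by ring
      rw [this]
      apply mul_le_mul_of_nonneg_right _ hs0
      linarith
    exact le_of_mul_le_mul_left h5 hm0
  have hsub : (box M N).filter (fun v => ¬ ∀ x : ℕ → ℝ, IsAngles (v 0) (v 1) x → k ≤ ((Icc 1 K₀).filter (fun K : ℕ =>
        κ * K₀ ≤ K ∧ B ≤ √K * discrepancy x s K)).card) ⊆
      ((box M N).filter (fun v => ¬ k ≤ ((Icc 1 K₀).filter (fun K : ℕ => κ * K₀ ≤ K ∧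
        (B + s * (2 + m)) * √K ≤ |(((range K).filter (fun j => 0 < apAt (v 0) (v 1) (pn j))).card : ℝ) - (fun K : ℕ => (K : ℝ) / 2) K|)).card)) ∪
      ((box M N).filter (fun v => m < ((range (K₀ + s)).filter (fun k => (pn k : ℤ) ^ 4 ∣ v 0)).card)) := by
    intro v hv
    rw [mem_filter] at hv
    rw [mem_union, mem_filter, mem_filter]
    by_contra hcon
    push Not at hcon
    obtain ⟨hc1, hc2⟩ := hcon
    have hc1' := hc1 hv.1
    have hc2' := hc2 hv.1
    apply hv.2
    intro x hx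
    refine hc1'.trans (card_le_card ?_)
    intro K hK
    rw [mem_filter, mem_Icc] at hK ⊢
    refine ⟨hK.1, hK.2.1, ?_⟩
    have h4 := disc_ge' (v 0) (v 1) x hx s K hs hK.1.1
    have h5 : ((range (K + s)).filter (fun k => (pn k : ℤ) ^ 4 ∣ v 0)).card ≤ m := by
      refine le_trans (card_le_card ?_) hc2'
      apply filter_subset_filter
      apply range_subset_range.2
      have := hK.1.2
      omega
    have h5r : (((range (K + s)).filter (fun k => (pn k : ℤ) ^ 4 ∣ v 0)).card : ℝ) ≤ m := by exact_mod_cast h5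
    have hK0 : (0 : ℝ) < K := by exact_mod_cast hK.1.1
    have h6 : 1 ≤ √(K : ℝ) := Real.one_le_sqrt.2 (by exact_mod_cast hK.1.1)
    have h7 := hK.2.2.trans h4
    have h8 : (s : ℝ) * (2 + ((range (K + s)).filter (fun k => (pn k : ℤ) ^ 4 ∣ v 0)).card) ≤ s * (2 + m) := by
      apply mul_le_mul_of_nonneg_left _ (Nat.cast_nonneg _)
      linarith
    have h9 : (s : ℝ) * (2 + m) ≤ s * (2 + m) * √K := le_mul_of_one_le_right (by positivity) h6
    have h10 : B * √K ≤ K * discrepancy x s K := by linarith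
    have h11 : 0 < √(K : ℝ) := by linarith
    have h12 : (K : ℝ) = √K * √K := (Real.mul_self_sqrt hK0.le).symm
    have h13 : √K * B ≤ √K * (√K * discrepancy x s K) := by
      calc √K * B = B * √K := mul_comm _ _
        _ ≤ K * discrepancy x s K := h10
        _ = (√K * √K) * discrepancy x s K := by rw [← h12]
        _ = _ := by ring
    exact le_of_mul_le_mul_left h13 h11
  have h4 := (card_le_card hsub).trans (card_union_le _ _)
  have h5 : (((box M N).filter (fun v => ¬ ∀ x : ℕ → ℝ, IsAngles (v 0) (v 1) x → k ≤ ((Icc 1 K₀).filter (fun K : ℕ =>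
        κ * K₀ ≤ K ∧ B ≤ √K * discrepancy x s K)).card)).card : ℝ) ≤
      (((box M N).filter (fun v => ¬ k ≤ ((Icc 1 K₀).filter (fun K : ℕ => κ * K₀ ≤ K ∧
        (B + s * (2 + m)) * √K ≤ |(((range K).filter (fun j => 0 < apAt (v 0) (v 1) (pn j))).card : ℝ) - (fun K : ℕ => (K : ℝ) / 2) K|)).card)).card : ℝ) +
      (((box M N).filter (fun v => m < ((range (K₀ + s)).filter (fun k => (pn k : ℤ) ^ 4 ∣ v 0)).card)).card : ℝ) := by
    exact_mod_cast h4
  linarith

end Pool.Agent.K4H16.CG
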