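import Pool.Agent.K4H16.CG.Mom

/-!
# The law of the rare marks of a well distributed family, in total variation
-/

set_option autoImplicit false

namespace Pool.Agent.K4H16.CG

open Finset

variable {J : Type} [Fintype J] [DecidableEq J] {k : ℕ}

/-- the restriction of a configuration of marks -/
def restr (T : Finset J) (f : J → Fin (k + 1)) : J → Fin (k + 1) := fun j => if j ∈ T then f j else 0

lemma restr_univ (f : J → Fin (k + 1)) : restr univ f = f := by
  funext j
  simp [restr]

lemma restr_eq_inter (T : Finset J) (f : J → Fin (k + 1)) : restr T f = restr (T.filter (fun j => f j ≠ 0)) f := by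
  funext j
  unfold restr
  by_cases h : j ∈ T <;> by_cases h' : f j = 0 <;> simp [h, h']

lemma restr_restr (S T : Finset J) (f : J → Fin (k + 1)) (h : T ⊆ S) : restr T (restr S f) = restr T f := by
  funext j
  unfold restr
  by_cases hj : j ∈ T
  · simp [hj, h hj]
  · simp [hj]

/-- the Möbius transform -/
def DD (G : (J → Fin (k + 1)) → ℝ) (S : Finset J) (f : J → Fin (k + 1)) : ℝ :=
  ∑ T ∈ S.powerset, (-1 : ℝ) ^ (S.card - T.card) * G (restr T f)

lemma DD_local (G : (J → Fin (k + 1)) → ℝ) (S : Finset J) (f : J → Fin (k + 1)) : DD G S (restr S f) = DD G S f := by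
  unfold DD
  refine sum_congr rfl fun T hT => ?_
  rw [restr_restr S T f (mem_powerset.1 hT)]

lemma DD_abs (G : (J → Fin (k + 1)) → ℝ) (hG : ∀ f, |G f| ≤ 1) (S : Finset J) (f : J → Fin (k + 1)) :
    |DD G S f| ≤ 2 ^ S.card := by
  unfold DD
  refine (abs_sum_le_sum_abs _ _).trans ?_
  calc ∑ T ∈ S.powerset, |(-1 : ℝ) ^ (S.card - T.card) * G (restr T f)| ≤ ∑ _T ∈ S.powerset, (1 : ℝ) := by
        refine sum_le_sum fun T _ => ?_
        rw [abs_mul, abs_pow, abs_neg, abs_one, one_pow, one_mul]
        exact hG _
    _ = 2 ^ S.card := by simp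

/-- adding an unmarked element kills the transform -/
lemma DD_zero (G : (J → Fin (k + 1)) → ℝ) (S : Finset J) (f : J → Fin (k + 1)) (j : J) (hj : j ∈ S) (hf : f j = 0) :
    DD G S f = 0 := by
  obtain ⟨S', hjS', hS⟩ : ∃ S' : Finset J, j ∉ S' ∧ S = insert j S' := ⟨S.erase j, notMem_erase _ _, (insert_erase hj).symm⟩
  unfold DD
  rw [hS, sum_powerset_insert hjS', ← sum_add_distrib]
  refine sum_eq_zero fun T hT => ?_
  rw [mem_powerset] at hT
  have hjT : j ∉ T := fun h => hjS' (hT h)
  have h1 : restr (insert j T) f = restr T f := by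
    funext i
    unfold restr
    by_cases hi : i = j
    · subst hi
      simp [hf]
    · simp [hi]
  have hc : T.card ≤ S'.card := card_le_card hT
  rw [h1, card_insert_of_notMem hjS', card_insert_of_notMem hjT]
  have e : S'.card + 1 - T.card = (S'.card + 1 - (T.card + 1)) + 1 := by omega
  rw [e, pow_succ]
  ring

/-- Möbius inversion -/
lemma DD_sum (G : (J → Fin (k + 1)) → ℝ) (A : Finset J) (f : J → Fin (k + 1)) :
    ∑ S ∈ A.powerset, DD G S f = G (restr A f) := by
  classical
  induction A using Finset.induction_on generalizing G with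
  | empty =>
    simp [DD]
  | insert j A hj ih =>
    rw [sum_powerset_insert hj, ih G]
    -- the transform of the set with `j` is the transform of the difference
    have h1 : ∀ S ∈ A.powerset, DD G (insert j S) f = DD (fun g => G (fun i => if i = j then f j else g i) - G g) S f := by
      intro S hS
      rw [mem_powerset] at hS
      have hjS : j ∉ S := fun h => hj (hS h)
      unfold DD
      rw [sum_powerset_insert hjS, ← sum_add_distrib]
      refine sum_congr rfl fun T hT => ?_
      rw [mem_powerset] at hT
      have hjT : j ∉ T := fun h => hjS (hT h)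
      have hc : T.card ≤ S.card := card_le_card hT
      rw [card_insert_of_notMem hjS, card_insert_of_notMem hjT]
      have e1 : S.card + 1 - T.card = (S.card - T.card) + 1 := by omega
      have e2 : S.card + 1 - (T.card + 1) = S.card - T.card := by omega
      have e3 : restr (insert j T) f = fun i => if i = j then f j else restr T f i := by
        funext i
        unfold restr
        by_cases hi : i = j
        · subst hi
          simp
        · simp [hi]
      rw [e1, e2, e3, pow_succ]
      ring
    rw [sum_congr rfl h1, ih]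
    have e3 : restr (insert j A) f = fun i => if i = j then f j else restr A f i := by
      funext i
      unfold restr
      by_cases hi : i = j
      · subst hi
        simp
      · simp [hi]
    rw [e3]
    ring

/-- the marked places -/
def spt (f : J → Fin (k + 1)) : Finset J := univ.filter (fun j => f j ≠ 0)

lemma DD_spt (G : (J → Fin (k + 1)) → ℝ) (S : Finset J) (f : J → Fin (k + 1)) (h : ¬ S ⊆ spt f) : DD G S f = 0 := by
  rw [not_subset] at h
  obtain ⟨j, hj, hj'⟩ := h
  unfold spt at hj'
  rw [mem_filter, not_and, not_not] at hj'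
  exact DD_zero G S f j hj (hj' (mem_univ _))

/-- the truncation error -/
lemma trunc_error (G : (J → Fin (k + 1)) → ℝ) (hG : ∀ f, |G f| ≤ 1) (K : ℕ) (f : J → Fin (k + 1)) :
    |G f - ∑ S ∈ (univ : Finset (Finset J)).filter (fun S => S.card ≤ K), DD G S f| ≤
      4 ^ (K + 1) * ((spt f).card.choose (K + 1) : ℝ) := by
  have hsum : ∑ S ∈ (univ : Finset (Finset J)).filter (fun S => S.card ≤ K), DD G S f =
      ∑ S ∈ (spt f).powerset.filter (fun S => S.card ≤ K), DD G S f := by
    symm
    apply sum_subset
    · intro S hS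
      rw [mem_filter] at hS ⊢
      exact ⟨mem_univ _, hS.2⟩
    · intro S hS hS'
      rw [mem_filter] at hS hS'
      apply DD_spt
      intro h
      exact hS' ⟨mem_powerset.2 h, hS.2⟩
  rw [hsum]
  have hG2 : G f = ∑ S ∈ (spt f).powerset, DD G S f := by
    rw [DD_sum]
    congr 1
    rw [← restr_univ f]
    conv_lhs => rw [restr_eq_inter]
    rw [restr_univ]
    rfl
  rcases Nat.lt_or_ge K (spt f).card with h | h
  · obtain ⟨X, hX⟩ : ∃ X : ℕ, X = (spt f).card := ⟨_, rfl⟩
    rw [← hX] at h ⊢
    have hch : (1 : ℝ) ≤ (X.choose (K + 1) : ℝ) := by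
      have : 0 < X.choose (K + 1) := Nat.choose_pos h
      exact_mod_cast this
    have h1 : |∑ S ∈ (spt f).powerset.filter (fun S => S.card ≤ K), DD G S f| ≤ 3 ^ (K + 1) * (X.choose (K + 1) : ℝ) := by
      have h2 : |∑ S ∈ (spt f).powerset.filter (fun S => S.card ≤ K), DD G S f| ≤
          ∑ S ∈ (spt f).powerset.filter (fun S => S.card ≤ K), (2 : ℝ) ^ S.card :=
        (abs_sum_le_sum_abs _ _).trans (sum_le_sum fun S _ => DD_abs G hG S f)
      refine h2.trans ?_
      have h3 : ∑ S ∈ (spt f).powerset.filter (fun S => S.card ≤ K), (2 : ℝ) ^ S.card =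
          ∑ s ∈ range (K + 1), (X.choose s : ℝ) * 2 ^ s := by
        have h4 : (spt f).powerset.filter (fun S => S.card ≤ K) = (range (K + 1)).biUnion (fun s => (spt f).powersetCard s) := by
          ext S
          simp only [mem_filter, mem_powerset, mem_biUnion, mem_range, mem_powersetCard]
          constructor
          · rintro ⟨h5, h6⟩
            exact ⟨S.card, by omega, h5, rfl⟩
          · rintro ⟨s, h5, h6, h7⟩
            exact ⟨h6, by omega⟩
        rw [h4, sum_biUnion]
        · refine sum_congr rfl fun s _ => ?_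
          have h5 : ∀ S ∈ (spt f).powersetCard s, (2 : ℝ) ^ S.card = 2 ^ s := by
            intro S hS
            rw [(mem_powersetCard.1 hS).2]
          rw [sum_congr rfl h5, sum_const, card_powersetCard, nsmul_eq_mul, hX]
        · intro a _ b _ hab
          rw [Function.onFun, disjoint_left]
          intro S h5 h6
          rw [mem_powersetCard] at h5 h6
          exact hab (by rw [← h5.2, ← h6.2])
      rw [h3]
      have h5 : ∀ s ∈ range (K + 1), (X.choose s : ℝ) * 2 ^ s ≤ (X.choose (K + 1) : ℝ) * (((K + 1).choose s : ℝ) * 2 ^ s) := by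
        intro s hs
        rw [mem_range] at hs
        have h6 : X.choose (K + 1) * (K + 1).choose s = X.choose s * (X - s).choose (K + 1 - s) :=
          Nat.choose_mul (by omega)
        have h7 : X.choose s ≤ X.choose (K + 1) * (K + 1).choose s := by
          rw [h6]
          exact Nat.le_mul_of_pos_right _ (Nat.choose_pos (by omega))
        have h8 : (X.choose s : ℝ) ≤ (X.choose (K + 1) : ℝ) * ((K + 1).choose s : ℝ) := by exact_mod_cast h7
        calc (X.choose s : ℝ) * 2 ^ s ≤ ((X.choose (K + 1) : ℝ) * ((K + 1).choose s : ℝ)) * 2 ^ s := by gcongr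
          _ = _ := by ring
      refine (sum_le_sum h5).trans ?_
      rw [← mul_sum, mul_comm]
      have h6 : ∑ s ∈ range (K + 1), (((K + 1).choose s : ℝ) * 2 ^ s) ≤ 3 ^ (K + 1) := by
        have h7 := add_pow (2 : ℝ) 1 (K + 1)
        have h8 : (2 : ℝ) + 1 = 3 := by norm_num
        rw [h8] at h7
        rw [h7, sum_range_succ _ (K + 1)]
        have h9 : ∑ s ∈ range (K + 1), (((K + 1).choose s : ℝ) * 2 ^ s) = ∑ s ∈ range (K + 1), (2 : ℝ) ^ s * 1 ^ (K + 1 - s) * ((K + 1).choose s : ℝ) := by
          refine sum_congr rfl fun s _ => ?_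
          rw [one_pow]
          ring
        rw [h9]
        have : (0 : ℝ) ≤ 2 ^ (K + 1) * 1 ^ (K + 1 - (K + 1)) * ((K + 1).choose (K + 1) : ℝ) := by positivity
        linarith
      gcongr
    have h2 := hG f
    have h3 : ∀ n : ℕ, (1 : ℝ) + 3 ^ (n + 1) ≤ 4 ^ (n + 1) := by
      intro n
      induction n with
      | zero => norm_num
      | succ n ih =>
        rw [pow_succ, pow_succ 4]
        have h5 : (0 : ℝ) ≤ 3 ^ (n + 1) := by positivity
        linarith
    have h3 := h3 K
    refine (abs_sub _ _).trans ?_
    have h4 : (0 : ℝ) ≤ 3 ^ (K + 1) := by positivity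
    nlinarith
  · have h1 : (spt f).powerset.filter (fun S => S.card ≤ K) = (spt f).powerset := by
      apply filter_true_of_mem
      intro S hS
      exact (card_le_card (mem_powerset.1 hS)).trans h
    rw [h1, ← hG2, sub_self, abs_zero]
    positivity

end Pool.Agent.K4H16.CG
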