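import Pool.Agent.K4H16.CG.LTdefs

/-!
# Marks on the primes
-/

set_option autoImplicit false

namespace Pool.Agent.K4H16.CG

open Finset

/-- The type of the primes `p ≤ x`. -/
abbrev PrimesUpTo (x : ℕ) : Type := {p : ℕ // p ∈ (range (x + 1)).filter Nat.Prime}

variable {n r k : ℕ}

/-- The mark of the prime `p` at the integer point `v`: the value of `θ p` at the Frobenius data modulo `p` of the members at `v`
of the families `W 0, …, W (r - 1)`. The mark `0` stands for unmarked. -/
noncomputable def mark (W : Fin r → WeierstrassCurve (MvPolynomial (Fin n) ℤ)) (θ : ℕ → (Fin r → Option ℤ) → Fin (k + 1)) (p : ℕ)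
    (v : Fin n → ℤ) : Fin (k + 1) := θ p (fun i => frob (member (W i) v) p)

/-- The proportion modulo `p` of the points at which `p` has the mark `a`. -/
noncomputable def lawMod (W : Fin r → WeierstrassCurve (MvPolynomial (Fin n) ℤ)) (θ : ℕ → (Fin r → Option ℤ) → Fin (k + 1)) (p : ℕ)
    (a : Fin (k + 1)) : ℝ := meanMod p (fun c => if mark W θ p c = a then (1 : ℝ) else 0)

/-- The expected number of marked primes `p ≤ x`. -/
noncomputable def expected (W : Fin r → WeierstrassCurve (MvPolynomial (Fin n) ℤ)) (θ : ℕ → (Fin r → Option ℤ) → Fin (k + 1)) (x : ℕ) : ℝ :=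
  ∑ p ∈ (range (x + 1)).filter Nat.Prime, meanMod p (fun c => if mark W θ p c ≠ 0 then (1 : ℝ) else 0)

end Pool.Agent.K4H16.CG
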